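import Pool.Agent.Lib.MP_86b854_co.AlgSpec2

set_option autoImplicit false

/-!
# MP_86b854_co : the functional at a vertex of `T`
-/

namespace T72

open MvPolynomial Finset

theorem loct_ex_apply_zero (a b : ℕ) : ex a b 0 = a := by simp [ex]

theorem loct_ex_apply_one (a b : ℕ) : ex a b 1 = b := by simp [ex]

theorem loct_ex_eq (s : Fin 2 →₀ ℕ) (a b : ℕ) : s = ex a b ↔ s 0 = a ∧ s 1 = b := by
  constructor
  · rintro rfl
    exact ⟨loct_ex_apply_zero a b, loct_ex_apply_one a b⟩
  · rintro ⟨rfl, rfl⟩
    ext i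
    fin_cases i
    · exact (loct_ex_apply_zero _ _).symm
    · exact (loct_ex_apply_one _ _).symm

/-- coefficients of a product with `x` -/
theorem loct_coeff_X0 (a b : ℕ) (g : R2) : coeff (ex (a + 1) b) (X 0 * g) = coeff (ex a b) g := by
  have h1 : ex (a + 1) b = ex a b + Finsupp.single 0 1 := by
    symm
    rw [loct_ex_eq]
    simp [loct_ex_apply_zero, loct_ex_apply_one]
  rw [mul_comm, h1, coeff_mul_X]

theorem loct_coeff_X1 (a b : ℕ) (g : R2) : coeff (ex a (b + 1)) (X 1 * g) = coeff (ex a b) g := by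
  have h1 : ex a (b + 1) = ex a b + Finsupp.single 1 1 := by
    symm
    rw [loct_ex_eq]
    simp [loct_ex_apply_zero, loct_ex_apply_one]
  rw [mul_comm, h1, coeff_mul_X]

theorem loct_coeff_X1_zero (a : ℕ) (g : R2) : coeff (ex a 0) (X 1 * g) = 0 := by
  rw [mul_comm, coeff_mul_X', if_neg]
  rw [Finsupp.mem_support_iff, loct_ex_apply_one]
  exact fun h => h rfl

/-- symmetric coefficients -/
theorem loct_symm {g : R2} (hg : Sym2v g) (a b : ℕ) : coeff (ex a b) g = coeff (ex b a) g := by
  have h1 : (ex b a).mapDomain (Equiv.swap (0 : Fin 2) 1) = ex a b := by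
    rw [loct_ex_eq]
    constructor
    · have h2 := Finsupp.mapDomain_apply (Equiv.swap (0 : Fin 2) 1).injective (ex b a) 1
      rw [Equiv.swap_apply_right] at h2
      rw [h2, loct_ex_apply_one]
    · have h2 := Finsupp.mapDomain_apply (Equiv.swap (0 : Fin 2) 1).injective (ex b a) 0
      rw [Equiv.swap_apply_left] at h2
      rw [h2, loct_ex_apply_zero]
  conv_lhs => rw [← hg, ← h1]
  exact coeff_rename_mapDomain _ (Equiv.swap (0 : Fin 2) 1).injective _ _

/-- coefficients of the specialisation -/
theorem loct_ngv (n : ℕ) (g : R2) :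
    coeff (ex n 0) (ngv g) = ∑ b ∈ range (n + 1), (-1) ^ b * coeff (ex (n - b) b) g := by
  induction g using MvPolynomial.induction_on' with
  | monomial s r =>
    have h1 : ngv (monomial s r) = monomial (ex (s 0 + s 1) 0) (r * (-1) ^ s 1) := by
      rw [ngv, aeval_monomial, Finsupp.prod_fintype _ _ (fun i => pow_zero _), Fin.prod_univ_two]
      simp only [Matrix.cons_val_zero, Matrix.cons_val_one, algebraMap_eq]
      have h2 : ex (s 0 + s 1) 0 = Finsupp.single 0 (s 0 + s 1) := by
        symm
        rw [loct_ex_eq]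
        simp
      rw [h2, neg_pow, monomial_eq]
      simp only [Finsupp.prod_single_index, pow_zero, map_mul, map_pow, map_neg, map_one]
      ring
    rw [h1, coeff_monomial]
    simp only [coeff_monomial]
    by_cases h : s 0 + s 1 = n
    · rw [if_pos (by rw [h]), sum_eq_single (s 1)]
      · rw [if_pos ((loct_ex_eq _ _ _).2 ⟨by omega, rfl⟩)]
        ring
      · intro b hb hne
        rw [if_neg, mul_zero]
        intro h3
        exact hne ((loct_ex_eq _ _ _).1 h3).2.symm
      · intro h3
        exact absurd (mem_range.2 (by omega)) h3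
    · rw [if_neg, sum_eq_zero]
      · intro b hb
        rw [if_neg, mul_zero]
        intro h3
        have h4 := (loct_ex_eq _ _ _).1 h3
        have h5 := mem_range.1 hb
        omega
      · intro h3
        have h4 := ((loct_ex_eq _ _ _).1 h3).1
        rw [loct_ex_apply_zero] at h4
        exact h h4
  | add p q hp hq =>
    rw [map_add, coeff_add, hp, hq, ← sum_add_distrib]
    refine sum_congr rfl fun b _ => ?_
    rw [coeff_add]
    ring

theorem loct_ev (k : ℕ) (c : ℕ → ℚ) (t : ℕ → (Fin 2 →₀ ℕ)) (g : R2) :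
    ev (∑ j ∈ range (k + 1), Finsupp.single (t j) (c j)) g =
      ∑ j ∈ range (k + 1), c j * coeff (t j) g := by
  rw [ev, ← Finsupp.sum_finsetSum_index]
  · refine sum_congr rfl fun j _ => ?_
    rw [Finsupp.sum_single_index (zero_mul _)]
  · exact fun _ => zero_mul _
  · exact fun _ _ _ => add_mul _ _ _

theorem tLocT : S_LocT := by
  intro k
  refine ⟨∑ j ∈ range (k + 1), Finsupp.single (ex (k + j + 1) (k - j)) ((-1) ^ (k - j)), ?_, ?_⟩
  · intro t ht
    have h1 := Finsupp.support_finsetSum ht
    obtain ⟨j, hj, h2⟩ := mem_biUnion.1 h1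
    have h3 := Finsupp.support_single_subset h2
    rw [mem_singleton] at h3
    have h4 := mem_range.1 hj
    rw [h3, loct_ex_apply_zero, loct_ex_apply_one]
    omega
  · intro g hg
    rw [loct_ev, loct_ngv]
    -- the left side
    have h1 : ∀ j ∈ range (k + 1), (-1 : ℚ) ^ (k - j) * coeff (ex (k + j + 1) (k - j)) (d2 * g) =
        (-1 : ℚ) ^ (k - j) * coeff (ex (k + j) (k - j)) g +
          if j < k then (-1 : ℚ) ^ (k - (j + 1)) * coeff (ex (k + (j + 1)) (k - (j + 1))) g
            else 0 := by
      intro j hj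
      have hj' := mem_range.1 hj
      rw [d2, sub_mul, coeff_sub, loct_coeff_X0]
      split_ifs with h
      · obtain ⟨i, hi⟩ : ∃ i, k - j = i + 1 := ⟨k - j - 1, by omega⟩
        have h2 : k - (j + 1) = i := by omega
        rw [hi, h2, loct_coeff_X1, pow_succ, ← add_assoc k j 1]
        ring
      · have h2 : k - j = 0 := by omega
        rw [h2, loct_coeff_X1_zero]
        ring
    rw [sum_congr rfl h1, sum_add_distrib]
    have h2 : ∑ j ∈ range (k + 1),
        (if j < k then (-1 : ℚ) ^ (k - (j + 1)) * coeff (ex (k + (j + 1)) (k - (j + 1))) g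
          else 0) =
        ∑ j ∈ range k, (-1 : ℚ) ^ (k - (j + 1)) * coeff (ex (k + (j + 1)) (k - (j + 1))) g := by
      rw [sum_range_succ, if_neg (lt_irrefl k), add_zero]
      exact sum_congr rfl fun j hj => if_pos (mem_range.1 hj)
    rw [h2]
    -- the right side
    have h3 : ∑ b ∈ range (2 * k + 1), (-1 : ℚ) ^ b * coeff (ex (2 * k - b) b) g =
        ∑ j ∈ range (k + 1), (-1 : ℚ) ^ (k - j) * coeff (ex (k + j) (k - j)) g +
        ∑ j ∈ range k, (-1 : ℚ) ^ (k + 1 + j) * coeff (ex (2 * k - (k + 1 + j)) (k + 1 + j)) g := by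
      have h4 : 2 * k + 1 = (k + 1) + k := by ring
      rw [h4, sum_range_add, ← sum_range_reflect]
      congr 1
      refine sum_congr rfl fun j hj => ?_
      have hj' := mem_range.1 hj
      have h5 : k + 1 - 1 - j = k - j := by omega
      have h6 : 2 * k - (k - j) = k + j := by omega
      rw [h5, h6]
    rw [h3]
    congr 1
    refine sum_congr rfl fun j hj => ?_
    have hj' := mem_range.1 hj
    have h5 : 2 * k - (k + 1 + j) = k - (j + 1) := by omega
    have h6 : k + 1 + j = (k - (j + 1)) + 2 * (j + 1) := by omega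
    rw [h5, loct_symm hg (k - (j + 1)) (k + 1 + j)]
    have h7 : (-1 : ℚ) ^ (k + 1 + j) = (-1) ^ (k - (j + 1)) := by
      rw [h6, pow_add, pow_mul, neg_one_sq, one_pow, mul_one]
    rw [h7]
    congr 3
    ring

end T72
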