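import Pool.Agent.Lib.MP_86b854_co.AlgSpec3
import Pool.Agent.Lib.MP_86b854_co.LocT

set_option autoImplicit false

/-!
# MP_86b854_co : the functional at a vertex without slack
-/

namespace T72

open MvPolynomial Finset

theorem loci_h2_zero : h2 0 = 1 := by
  simp [h2]

theorem loci_h2_one : h2 1 = X 0 + X 1 := by
  simp [h2, Finset.sum_range_succ, add_comm]

theorem loci_h2_two : h2 2 = X 0 ^ 2 + X 0 * X 1 + X 1 ^ 2 := by
  simp only [h2, Finset.sum_range_succ, Finset.sum_range_zero]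
  ring

theorem loci_d2_h2 (m : ℕ) : d2 * h2 m = X 0 ^ (m + 1) - X 1 ^ (m + 1) := by
  have h := (Commute.all (X 0 : R2) (X 1)).mul_geom_sum₂ (m + 1)
  simp only [Nat.add_sub_cancel] at h
  exact h

theorem loci_d2_ne : d2 ≠ 0 := by
  refine sub_ne_zero.2 fun h => ?_
  have h1 := X_injective h
  exact absurd h1 (by decide)

theorem loci_mul_one (m : ℕ) : h2 1 * h2 (m + 1) = h2 (m + 2) + e2 * h2 m := by
  apply mul_left_cancel₀ loci_d2_ne
  have h1 := loci_d2_h2 (m + 1)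
  have h2' := loci_d2_h2 (m + 2)
  have h3 := loci_d2_h2 m
  rw [loci_h2_one, e2]
  linear_combination (X 0 + X 1) * h1 - h2' - X 0 * X 1 * h3

theorem loci_mul_two (m : ℕ) :
    h2 2 * h2 (m + 2) = h2 (m + 4) + e2 * h2 (m + 2) + e2 ^ 2 * h2 m := by
  apply mul_left_cancel₀ loci_d2_ne
  have h1 := loci_d2_h2 (m + 2)
  have h2' := loci_d2_h2 (m + 4)
  have h3 := loci_d2_h2 m
  rw [loci_h2_two, e2]
  linear_combination (X 0 ^ 2 + X 1 ^ 2) * h1 - h2' - X 0 ^ 2 * X 1 ^ 2 * h3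

theorem loci_mul_two_one : h2 2 * h2 1 = h2 3 + e2 * h2 1 := by
  apply mul_left_cancel₀ loci_d2_ne
  have h1 := loci_d2_h2 3
  have h2' := loci_d2_h2 1
  rw [loci_h2_two, e2]
  linear_combination (X 0 ^ 2 + X 1 ^ 2) * h2' - h1

/-- sums of terms -/
noncomputable def lociC : AddSubmonoid R2 :=
  AddSubmonoid.closure (Set.range fun p : ℕ × ℕ => e2 ^ p.1 * h2 p.2)

theorem loci_gen (b j : ℕ) : e2 ^ b * h2 j ∈ lociC :=
  AddSubmonoid.subset_closure ⟨(b, j), rfl⟩

theorem loci_closed (g : R2) (hg : ∀ b j : ℕ, g * (e2 ^ b * h2 j) ∈ lociC) {f : R2}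
    (hf : f ∈ lociC) : g * f ∈ lociC := by
  induction hf using AddSubmonoid.closure_induction with
  | mem f hf =>
    obtain ⟨p, rfl⟩ := hf
    exact hg p.1 p.2
  | zero =>
    rw [mul_zero]
    exact zero_mem _
  | add f f' _ _ h h' =>
    rw [mul_add]
    exact add_mem h h'

theorem loci_closed_pow (g : R2) (hg : ∀ b j : ℕ, g * (e2 ^ b * h2 j) ∈ lociC) (n : ℕ) {f : R2}
    (hf : f ∈ lociC) : g ^ n * f ∈ lociC := by
  induction n with
  | zero => rwa [pow_zero, one_mul]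
  | succ n ih =>
    rw [pow_succ', mul_assoc]
    exact loci_closed g hg ih

theorem loci_e (b j : ℕ) : e2 * (e2 ^ b * h2 j) ∈ lociC := by
  rw [← mul_assoc, ← pow_succ']
  exact loci_gen _ _

theorem loci_h1 (b j : ℕ) : h2 1 * (e2 ^ b * h2 j) ∈ lociC := by
  rcases j with _ | j
  · rw [loci_h2_zero, mul_one, mul_comm]
    exact loci_gen _ _
  · have h : h2 1 * (e2 ^ b * h2 (j + 1)) = e2 ^ b * h2 (j + 2) + e2 ^ (b + 1) * h2 j := by
      linear_combination e2 ^ b * loci_mul_one j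
    rw [h]
    exact add_mem (loci_gen _ _) (loci_gen _ _)

theorem loci_h2 (b j : ℕ) : h2 2 * (e2 ^ b * h2 j) ∈ lociC := by
  rcases j with _ | _ | j
  · rw [loci_h2_zero, mul_one, mul_comm]
    exact loci_gen _ _
  · have h : h2 2 * (e2 ^ b * h2 (0 + 1)) = e2 ^ b * h2 3 + e2 ^ (b + 1) * h2 1 := by
      linear_combination e2 ^ b * loci_mul_two_one
    rw [h]
    exact add_mem (loci_gen _ _) (loci_gen _ _)
  · have h : h2 2 * (e2 ^ b * h2 (j + 1 + 1)) =
        e2 ^ b * h2 (j + 4) + e2 ^ (b + 1) * h2 (j + 2) + e2 ^ (b + 2) * h2 j := by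
      linear_combination e2 ^ b * loci_mul_two j
    rw [h]
    exact add_mem (add_mem (loci_gen _ _) (loci_gen _ _)) (loci_gen _ _)

theorem loci_mem (n o m : ℕ) : e2 ^ n * h2 1 ^ o * h2 2 ^ m ∈ lociC := by
  have h1 : (1 : R2) ∈ lociC := by
    have h := loci_gen 0 0
    rwa [loci_h2_zero, mul_one, pow_zero] at h
  have h := loci_closed_pow e2 loci_e n (loci_closed_pow (h2 1) loci_h1 o
    (loci_closed_pow (h2 2) loci_h2 m h1))
  rwa [mul_one, ← mul_assoc] at h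

theorem loci_mono (a b : ℕ) : (X 0 : R2) ^ a * X 1 ^ b = monomial (ex a b) 1 := by
  have h : ex a b = Finsupp.single 0 a + Finsupp.single 1 b := by
    symm
    rw [loct_ex_eq]
    simp
  rw [h, X_pow_eq_monomial, X_pow_eq_monomial, monomial_mul, one_mul]

theorem loci_ct (b j b' j' : ℕ) : coeff (ex (b + j + 1) b) (d2 * (e2 ^ b' * h2 j')) =
    if b' = b ∧ j' = j then 1 else 0 := by
  have h1 : d2 * (e2 ^ b' * h2 j') =
      X 0 ^ (b' + j' + 1) * X 1 ^ b' - X 0 ^ b' * X 1 ^ (b' + j' + 1) := by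
    have h := loci_d2_h2 j'
    rw [e2, mul_pow]
    linear_combination X 0 ^ b' * X 1 ^ b' * h
  rw [h1, loci_mono, loci_mono, coeff_sub, coeff_monomial, coeff_monomial]
  have h2' : ¬ (ex b' (b' + j' + 1) = ex (b + j + 1) b) := by
    intro h
    have h3 := (loct_ex_eq _ _ _).1 h
    rw [loct_ex_apply_zero, loct_ex_apply_one] at h3
    omega
  rw [if_neg h2', sub_zero]
  refine if_congr ?_ rfl rfl
  rw [loct_ex_eq, loct_ex_apply_zero, loct_ex_apply_one]
  omega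

theorem loci_ev (b j : ℕ) (g : R2) :
    ev (Finsupp.single (ex (b + j + 1) b) 1) g = coeff (ex (b + j + 1) b) g := by
  rw [ev, Finsupp.sum_single_index (zero_mul _), one_mul]

theorem loci_nonneg (b j : ℕ) {f : R2} (hf : f ∈ lociC) :
    0 ≤ coeff (ex (b + j + 1) b) (d2 * f) := by
  induction hf using AddSubmonoid.closure_induction with
  | mem f hf =>
    obtain ⟨p, rfl⟩ := hf
    show 0 ≤ coeff (ex (b + j + 1) b) (d2 * (e2 ^ p.1 * h2 p.2))
    rw [loci_ct]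
    split_ifs <;> norm_num
  | zero => rw [mul_zero, coeff_zero]
  | add f f' _ _ h h' =>
    rw [mul_add, coeff_add]
    exact add_nonneg h h'

theorem loci_pow (k : ℕ) : (∃ r ∈ lociC, h2 1 ^ (2 * k) = e2 ^ k * h2 0 + r) ∧
    ∃ r ∈ lociC, h2 1 ^ (2 * k + 1) = e2 ^ k * h2 1 + r := by
  have step : ∀ k : ℕ, (∃ r ∈ lociC, h2 1 ^ (2 * k) = e2 ^ k * h2 0 + r) →
      ∃ r ∈ lociC, h2 1 ^ (2 * k + 1) = e2 ^ k * h2 1 + r := by
    rintro k ⟨r, hr, h⟩
    refine ⟨h2 1 * r, loci_closed _ loci_h1 hr, ?_⟩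
    rw [pow_succ, h, loci_h2_zero]
    ring
  induction k with
  | zero =>
    have h0 : ∃ r ∈ lociC, h2 1 ^ (2 * 0) = e2 ^ 0 * h2 0 + r :=
      ⟨0, zero_mem _, by rw [loci_h2_zero]; simp⟩
    exact ⟨h0, step 0 h0⟩
  | succ k ih =>
    obtain ⟨_, r, hr, h⟩ := ih
    have h0 : ∃ r ∈ lociC, h2 1 ^ (2 * (k + 1)) = e2 ^ (k + 1) * h2 0 + r := by
      refine ⟨e2 ^ k * h2 2 + h2 1 * r, add_mem (loci_gen _ _) (loci_closed _ loci_h1 hr), ?_⟩
      have h3 : h2 1 ^ (2 * (k + 1)) = h2 1 * h2 1 ^ (2 * k + 1) := by ring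
      rw [h3, h]
      linear_combination e2 ^ k * loci_mul_one 0
    exact ⟨h0, step _ h0⟩

theorem loci_pos (b j : ℕ) (n k : ℕ) (f : R2) (hb : n + k = b)
    (hf : ∃ r ∈ lociC, f = e2 ^ k * h2 j + r) :
    0 < coeff (ex (b + j + 1) b) (d2 * (e2 ^ n * f)) := by
  obtain ⟨r, hr, rfl⟩ := hf
  have h1 : d2 * (e2 ^ n * (e2 ^ k * h2 j + r)) =
      d2 * (e2 ^ b * h2 j) + d2 * (e2 ^ n * r) := by
    rw [← hb]
    ring
  rw [h1, coeff_add, loci_ct, if_pos ⟨rfl, rfl⟩]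
  have h2' := loci_nonneg b j (loci_closed_pow e2 loci_e n hr)
  linarith

/-- **LocI.** -/
theorem tLocI : S_LocI := by
  intro c T hT
  rcases Nat.even_or_odd' T with ⟨b, rfl | rfl⟩
  · refine ⟨Finsupp.single (ex (b + 0 + 1) b) 1, ?_, ?_, ?_⟩
    · intro t ht
      have h3 := Finsupp.support_single_subset ht
      rw [mem_singleton] at h3
      rw [h3, loct_ex_apply_zero, loct_ex_apply_one]
      omega
    · intro n o m
      rw [loci_ev b 0]
      exact loci_nonneg b 0 (loci_mem n o m)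
    · intro n o h
      rw [loci_ev b 0]
      obtain ⟨k, rfl⟩ : ∃ k, o = 2 * k := ⟨o / 2, by omega⟩
      have h1 : n + k = b := by omega
      exact loci_pos b 0 n k (h2 1 ^ (2 * k)) h1 (loci_pow k).1
  · refine ⟨Finsupp.single (ex (b + 1 + 1) b) 1, ?_, ?_, ?_⟩
    · intro t ht
      have h3 := Finsupp.support_single_subset ht
      rw [mem_singleton] at h3
      rw [h3, loct_ex_apply_zero, loct_ex_apply_one]
      omega
    · intro n o m
      rw [loci_ev b 1]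
      exact loci_nonneg b 1 (loci_mem n o m)
    · intro n o h
      rw [loci_ev b 1]
      obtain ⟨k, rfl⟩ : ∃ k, o = 2 * k + 1 := ⟨o / 2, by omega⟩
      have h1 : n + k = b := by omega
      exact loci_pos b 1 n k (h2 1 ^ (2 * k + 1)) h1 (loci_pow k).2

end T72
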