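import Pool.Agent.Lib.MP_86b854_co.AlgSpec2

set_option autoImplicit false

/-!
# MP_86b854_co : the functional at a vertex of `S`
-/

namespace T72

open MvPolynomial Finset

theorem locs_d2_ne : (d2 : R2) ≠ 0 := by
  intro h
  have h1 : (X 0 : R2) = X 1 := sub_eq_zero.1 h
  exact absurd (X_injective h1) (by decide)

theorem locs_cancel {f g : R2} (h : d2 * f = d2 * g) : f = g :=
  mul_left_cancel₀ locs_d2_ne h

theorem locs_hd (m : ℕ) : d2 * h2 m = X 0 ^ (m + 1) - X 1 ^ (m + 1) := by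
  unfold d2 h2
  have h := (Commute.all (X 0 : R2) (X 1)).mul_geom_sum₂ (m + 1)
  rw [← h]
  refine congrArg _ (Finset.sum_congr rfl fun i hi => ?_)
  congr 2

theorem locs_h0 : h2 0 = 1 := by
  unfold h2
  simp

theorem locs_h1 : h2 1 = X 0 + X 1 := by
  unfold h2
  simp [Finset.sum_range_succ]
  ring

theorem locs_h2 : h2 2 = X 0 ^ 2 + X 0 * X 1 + X 1 ^ 2 := by
  unfold h2
  simp [Finset.sum_range_succ]
  ring

theorem locs_i1 : h2 1 * h2 1 = h2 2 + e2 := by
  rw [locs_h1, locs_h2, e2]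
  ring

theorem locs_i1' (m : ℕ) : h2 (m + 1) * h2 1 = h2 (m + 2) + e2 * h2 m := by
  apply locs_cancel
  have e1 : d2 * (h2 (m + 1) * h2 1) = (d2 * h2 (m + 1)) * h2 1 := by ring
  have e3 : d2 * (h2 (m + 2) + e2 * h2 m) = d2 * h2 (m + 2) + e2 * (d2 * h2 m) := by ring
  rw [e1, e3, locs_hd, locs_hd, locs_hd, locs_h1, e2]
  ring

theorem locs_i2 (m : ℕ) :
    h2 (m + 2) * h2 2 = h2 (m + 4) + e2 * h2 (m + 2) + e2 ^ 2 * h2 m := by
  apply locs_cancel
  have e1 : d2 * (h2 (m + 2) * h2 2) = (d2 * h2 (m + 2)) * h2 2 := by ring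
  have e3 : d2 * (h2 (m + 4) + e2 * h2 (m + 2) + e2 ^ 2 * h2 m) =
    d2 * h2 (m + 4) + e2 * (d2 * h2 (m + 2)) + e2 ^ 2 * (d2 * h2 m) := by ring
  rw [e1, e3, locs_hd, locs_hd, locs_hd, locs_h2, e2]
  ring

theorem locs_i3 : h2 1 * h2 2 = h2 3 + e2 * h2 1 := by
  apply locs_cancel
  have e1 : d2 * (h2 1 * h2 2) = (d2 * h2 1) * h2 2 := by ring
  have e3 : d2 * (h2 3 + e2 * h2 1) = d2 * h2 3 + e2 * (d2 * h2 1) := by ring
  rw [e1, e3, locs_hd, locs_hd, locs_h2, e2]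
  ring

theorem locs_i4 : h2 0 * p2 = h2 2 - e2 * h2 0 := by
  rw [locs_h0, locs_h2, e2, p2]
  ring

theorem locs_i5 : h2 1 * p2 = h2 3 := by
  apply locs_cancel
  have e1 : d2 * (h2 1 * p2) = (d2 * h2 1) * p2 := by ring
  rw [e1, locs_hd, locs_hd, p2]
  ring

theorem locs_i6 (m : ℕ) : h2 (m + 2) * p2 = h2 (m + 4) + e2 ^ 2 * h2 m := by
  apply locs_cancel
  have e1 : d2 * (h2 (m + 2) * p2) = (d2 * h2 (m + 2)) * p2 := by ring
  have e3 : d2 * (h2 (m + 4) + e2 ^ 2 * h2 m) = d2 * h2 (m + 4) + e2 ^ 2 * (d2 * h2 m) := by ring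
  rw [e1, e3, locs_hd, locs_hd, locs_hd, e2, p2]
  ring

/-- the exponents `ex a b` -/
theorem locs_ex_inj {a b a' b' : ℕ} : ex a b = ex a' b' ↔ a = a' ∧ b = b' := by
  constructor
  · intro h
    have h0 := DFunLike.congr_fun h 0
    have h1 := DFunLike.congr_fun h 1
    exact ⟨by simpa [ex] using h0, by simpa [ex] using h1⟩
  · rintro ⟨rfl, rfl⟩
    rfl

theorem locs_mon (a b : ℕ) : (X 0 ^ a * X 1 ^ b : R2) = monomial (ex a b) 1 := by
  have h : (Finsupp.single 0 a + Finsupp.single 1 b : Fin 2 →₀ ℕ) = ex a b := by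
    ext i
    fin_cases i <;> simp [ex]
  rw [X_pow_eq_monomial, X_pow_eq_monomial, monomial_mul, one_mul, h]

/-- the coefficient functional -/
noncomputable def locsCt (b j : ℕ) (g : R2) : ℚ := coeff (ex (b + j + 1) b) (d2 * g)

theorem locs_ct_add (b j : ℕ) (f g : R2) : locsCt b j (f + g) = locsCt b j f + locsCt b j g := by
  unfold locsCt
  rw [mul_add, coeff_add]

theorem locs_ct_sub (b j : ℕ) (f g : R2) : locsCt b j (f - g) = locsCt b j f - locsCt b j g := by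
  unfold locsCt
  rw [mul_sub, coeff_sub]

theorem locs_ct_term (b j b' j' : ℕ) :
    locsCt b j (e2 ^ b' * h2 j') = if b = b' ∧ j = j' then 1 else 0 := by
  unfold locsCt
  have e1 : d2 * (e2 ^ b' * h2 j') = e2 ^ b' * (d2 * h2 j') := by ring
  have e3 : e2 ^ b' * (d2 * h2 j') =
      X 0 ^ (b' + j' + 1) * X 1 ^ b' - X 0 ^ b' * X 1 ^ (b' + j' + 1) := by
    rw [locs_hd, e2]
    ring
  rw [e1, e3, locs_mon, locs_mon, coeff_sub, coeff_monomial, coeff_monomial]
  simp only [locs_ex_inj]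
  by_cases h : b = b' ∧ j = j'
  · obtain ⟨rfl, rfl⟩ := h
    rw [if_pos ⟨rfl, rfl⟩, if_neg (by omega), if_pos ⟨rfl, rfl⟩]
    ring
  · rw [if_neg (by omega), if_neg (by omega), if_neg h]
    ring

/-- sums of terms -/
noncomputable def locsC (D : ℕ) : AddSubmonoid R2 :=
  AddSubmonoid.closure {g | ∃ b j : ℕ, 2 * b + j = D ∧ g = e2 ^ b * h2 j}

theorem locs_term_mem {b j D : ℕ} (h : 2 * b + j = D) : e2 ^ b * h2 j ∈ locsC D :=
  AddSubmonoid.subset_closure ⟨b, j, h, rfl⟩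

theorem locs_mul (f : R2) (D D' : ℕ) (H : ∀ b j, 2 * b + j = D → e2 ^ b * h2 j * f ∈ locsC D')
    {g : R2} (hg : g ∈ locsC D) : g * f ∈ locsC D' := by
  unfold locsC at hg
  induction hg using AddSubmonoid.closure_induction with
  | mem x hx =>
    obtain ⟨b, j, h, rfl⟩ := hx
    exact H b j h
  | zero => rw [zero_mul]; exact zero_mem _
  | add x y _ _ hx hy => rw [add_mul]; exact add_mem hx hy

/-- the positive functional property -/
def locsP (D : ℕ) (g : R2) : Prop :=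
  ∃ b j : ℕ, 2 * b + j = D ∧ j ≤ 2 ∧ ∃ r ∈ locsC D, g = e2 ^ b * h2 j + r

theorem locs_P_mem {D : ℕ} {g : R2} (h : locsP D g) : g ∈ locsC D := by
  obtain ⟨b, j, h1, -, r, hr, rfl⟩ := h
  exact add_mem (locs_term_mem h1) hr

theorem locs_P_mul (f : R2) (D D' : ℕ)
    (H : ∀ b j, 2 * b + j = D → e2 ^ b * h2 j * f ∈ locsC D')
    (H' : ∀ b j, 2 * b + j = D → j ≤ 2 → locsP D' (e2 ^ b * h2 j * f))
    {g : R2} (hg : locsP D g) : locsP D' (g * f) := by
  obtain ⟨b, j, h1, h2, r, hr, rfl⟩ := hg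
  obtain ⟨b', j', h3, h4, r', hr', he⟩ := H' b j h1 h2
  refine ⟨b', j', h3, h4, r' + r * f, add_mem hr' (locs_mul f D D' H hr), ?_⟩
  rw [add_mul, he]
  ring

theorem locs_P_term {b j D : ℕ} (h : 2 * b + j = D) (hj : j ≤ 2) {r : R2} (hr : r ∈ locsC D)
    {g : R2} (hg : g = e2 ^ b * h2 j + r) : locsP D g := ⟨b, j, h, hj, r, hr, hg⟩

theorem locs_C_h1 (D b j : ℕ) (h : 2 * b + j = D) : e2 ^ b * h2 j * h2 1 ∈ locsC (D + 1) := by
  rcases j with _ | j
  · rw [locs_h0, mul_one]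
    exact locs_term_mem (by omega)
  · rw [mul_assoc, locs_i1']
    have e1 : e2 ^ b * (h2 (j + 2) + e2 * h2 j) = e2 ^ b * h2 (j + 2) + e2 ^ (b + 1) * h2 j := by
      ring
    rw [e1]
    exact add_mem (locs_term_mem (by omega)) (locs_term_mem (by omega))

theorem locs_P_h1 (D b j : ℕ) (h : 2 * b + j = D) (hj : j ≤ 2) :
    locsP (D + 1) (e2 ^ b * h2 j * h2 1) := by
  rcases j with _ | _ | _ | j
  · exact locs_P_term (b := b) (j := 1) (by omega) (by omega) (zero_mem _)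
      (by rw [locs_h0]; ring)
  · refine locs_P_term (b := b) (j := 2) (by omega) (by omega)
      (locs_term_mem (b := b + 1) (j := 0) (by omega)) ?_
    rw [mul_assoc, locs_i1, locs_h0]
    ring
  · refine locs_P_term (b := b + 1) (j := 1) (by omega) (by omega)
      (locs_term_mem (b := b) (j := 3) (by omega)) ?_
    rw [mul_assoc, locs_i1' 1]
    ring
  · omega

theorem locs_C_h2 (D b j : ℕ) (h : 2 * b + j = D) : e2 ^ b * h2 j * h2 2 ∈ locsC (D + 2) := by
  rcases j with _ | _ | j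
  · rw [locs_h0, mul_one]
    exact locs_term_mem (by omega)
  · have e1 : e2 ^ b * h2 (0 + 1) * h2 2 = e2 ^ b * h2 3 + e2 ^ (b + 1) * h2 1 := by
      rw [mul_assoc, locs_i3]
      ring
    rw [e1]
    exact add_mem (locs_term_mem (by omega)) (locs_term_mem (by omega))
  · have e1 : e2 ^ b * h2 (j + 1 + 1) * h2 2 =
        e2 ^ b * h2 (j + 4) + e2 ^ (b + 1) * h2 (j + 2) + e2 ^ (b + 2) * h2 j := by
      rw [mul_assoc, locs_i2]
      ring
    rw [e1]
    exact add_mem (add_mem (locs_term_mem (by omega)) (locs_term_mem (by omega)))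
      (locs_term_mem (by omega))

theorem locs_P_h2 (D b j : ℕ) (h : 2 * b + j = D) (hj : j ≤ 2) :
    locsP (D + 2) (e2 ^ b * h2 j * h2 2) := by
  rcases j with _ | _ | _ | j
  · exact locs_P_term (b := b) (j := 2) (by omega) (by omega) (zero_mem _)
      (by rw [locs_h0]; ring)
  · refine locs_P_term (b := b + 1) (j := 1) (by omega) (by omega)
      (locs_term_mem (b := b) (j := 3) (by omega)) ?_
    rw [mul_assoc, locs_i3]
    ring
  · refine locs_P_term (b := b + 1) (j := 2) (by omega) (by omega)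
      (add_mem (locs_term_mem (b := b) (j := 4) (by omega))
        (locs_term_mem (b := b + 2) (j := 0) (by omega))) ?_
    rw [mul_assoc, locs_i2 0]
    ring
  · omega

theorem locs_C_e2 (D b j : ℕ) (h : 2 * b + j = D) : e2 ^ b * h2 j * e2 ∈ locsC (D + 2) := by
  have e1 : e2 ^ b * h2 j * e2 = e2 ^ (b + 1) * h2 j := by ring
  rw [e1]
  exact locs_term_mem (by omega)

theorem locs_P_e2 (D b j : ℕ) (h : 2 * b + j = D) (hj : j ≤ 2) :
    locsP (D + 2) (e2 ^ b * h2 j * e2) :=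
  locs_P_term (b := b + 1) (j := j) (by omega) (by omega) (zero_mem _) (by ring)

theorem locs_C_p2 (D b j : ℕ) (hD : D % 2 = 1) (h : 2 * b + j = D) :
    e2 ^ b * h2 j * p2 ∈ locsC (D + 2) := by
  rcases j with _ | _ | j
  · omega
  · rw [mul_assoc, locs_i5]
    exact locs_term_mem (by omega)
  · have e1 : e2 ^ b * h2 (j + 1 + 1) * p2 = e2 ^ b * h2 (j + 4) + e2 ^ (b + 2) * h2 j := by
      rw [mul_assoc, locs_i6]
      ring
    rw [e1]
    exact add_mem (locs_term_mem (by omega)) (locs_term_mem (by omega))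

/-- the product of the factors -/
theorem locs_P_M (n o m : ℕ) : locsP (2 * n + o + 2 * m) (e2 ^ n * h2 1 ^ o * h2 2 ^ m) := by
  induction m with
  | zero =>
    rw [pow_zero, mul_one]
    induction o with
    | zero =>
      rw [pow_zero, mul_one]
      exact locs_P_term (b := n) (j := 0) (by omega) (by omega) (zero_mem _)
        (by rw [locs_h0]; ring)
    | succ o ih =>
      rw [pow_succ, ← mul_assoc]
      exact locs_P_mul (h2 1) _ _ (fun b j h => locs_C_h1 _ b j h)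
        (fun b j h hj => locs_P_h1 _ b j h hj) ih
  | succ m ih =>
    rw [pow_succ, ← mul_assoc]
    exact locs_P_mul (h2 2) _ _ (fun b j h => locs_C_h2 _ b j h)
      (fun b j h hj => locs_P_h2 _ b j h hj) ih

/-- homogeneity -/
theorem locs_hom_e2 : (e2 : R2).IsHomogeneous 2 :=
  (isHomogeneous_X ℚ 0).mul (isHomogeneous_X ℚ 1)

theorem locs_hom_d2 : (d2 : R2).IsHomogeneous 1 :=
  (isHomogeneous_X ℚ 0).sub (isHomogeneous_X ℚ 1)

theorem locs_hom_p2 : (p2 : R2).IsHomogeneous 2 := by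
  have h1 := (isHomogeneous_X ℚ (0 : Fin 2)).pow 2
  have h2 := (isHomogeneous_X ℚ (1 : Fin 2)).pow 2
  exact h1.add h2

theorem locs_hom_h2 (m : ℕ) : (h2 m : R2).IsHomogeneous m := by
  refine IsHomogeneous.sum _ _ _ fun i hi => ?_
  have h1 := ((isHomogeneous_X ℚ (0 : Fin 2)).pow i).mul
    ((isHomogeneous_X ℚ (1 : Fin 2)).pow (m - i))
  have h3 : 1 * i + 1 * (m - i) = m := by
    have := Finset.mem_range.1 hi
    omega
  rwa [h3] at h1

theorem locs_hom_M (n o m k : ℕ) :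
    (e2 ^ n * h2 1 ^ o * h2 2 ^ m * p2 ^ k : R2).IsHomogeneous (2 * n + o + 2 * m + 2 * k) := by
  have h := (((locs_hom_e2.pow n).mul ((locs_hom_h2 1).pow o)).mul
    ((locs_hom_h2 2).pow m)).mul (locs_hom_p2.pow k)
  rwa [one_mul] at h

theorem locs_ct_hom (b j D : ℕ) (g : R2) (hg : g.IsHomogeneous D) (h : 2 * b + j ≠ D) :
    locsCt b j g = 0 := by
  unfold locsCt
  refine (locs_hom_d2.mul hg).coeff_eq_zero ?_
  have h1 : (ex (b + j + 1) b).degree = b + j + 1 + b := by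
    rw [Finsupp.degree_eq_sum]
    simp [ex]
  rw [h1]
  omega

/-- the functional with one or two coefficients -/
noncomputable def locsW (b j : ℕ) (α : ℚ) (b' j' : ℕ) (β : ℚ) : (Fin 2 →₀ ℕ) →₀ ℚ :=
  Finsupp.single (ex (b + j + 1) b) α + Finsupp.single (ex (b' + j' + 1) b') β

theorem locs_ev (b j : ℕ) (α : ℚ) (b' j' : ℕ) (β : ℚ) (g : R2) :
    ev (locsW b j α b' j' β) (d2 * g) = α * locsCt b j g + β * locsCt b' j' g := by
  unfold ev locsW locsCt
  rw [Finsupp.sum_add_index' (fun a => zero_mul _) (fun a r s => add_mul _ _ _),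
    Finsupp.sum_single_index (zero_mul _), Finsupp.sum_single_index (zero_mul _)]

theorem locs_supp (b j : ℕ) (α : ℚ) (b' j' : ℕ) (β : ℚ) (c : ℕ) (h : b + j ≤ c)
    (h' : β = 0 ∨ b' + j' ≤ c) : ∀ t ∈ (locsW b j α b' j' β).support, t 0 ≤ c + 1 ∧ t 1 ≤ c := by
  intro t ht
  have h1 := Finsupp.support_add ht
  rcases Finset.mem_union.1 h1 with h2 | h2
  · have h3 := Finset.mem_singleton.1 (Finsupp.support_single_subset h2)
    subst h3
    constructor
    · simp [ex]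
      omega
    · simp [ex]
      omega
  · rcases h' with h' | h'
    · rw [h', Finsupp.single_zero] at h2
      simp at h2
    · have h3 := Finset.mem_singleton.1 (Finsupp.support_single_subset h2)
      subst h3
      constructor
      · simp [ex]
        omega
      · simp [ex]
        omega

theorem locs_ct_nonneg (b j D : ℕ) {g : R2} (hg : g ∈ locsC D) : 0 ≤ locsCt b j g := by
  unfold locsC at hg
  induction hg using AddSubmonoid.closure_induction with
  | mem x hx =>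
    obtain ⟨b', j', h, rfl⟩ := hx
    rw [locs_ct_term]
    split_ifs <;> norm_num
  | zero =>
    unfold locsCt
    rw [mul_zero, coeff_zero]
  | add x y _ _ hx hy =>
    rw [locs_ct_add]
    exact add_nonneg hx hy

/-- the property used for odd total degree -/
def locsQ (D : ℕ) (g : R2) : Prop :=
  ∃ b j : ℕ, 2 * b + j = D ∧ (j = 1 ∨ j = 3) ∧ ∃ r ∈ locsC D, g = e2 ^ b * h2 j + r

theorem locs_Q_p2 (D : ℕ) (hD : D % 2 = 1) {g : R2} (hg : locsQ D g) :
    locsQ (D + 2) (g * p2) := by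
  obtain ⟨b, j, h1, h2', r, hr, rfl⟩ := hg
  have h3 : r * p2 ∈ locsC (D + 2) := locs_mul p2 D (D + 2) (fun b j h => locs_C_p2 D b j hD h) hr
  rcases h2' with rfl | rfl
  · refine ⟨b, 3, by omega, Or.inr rfl, r * p2, h3, ?_⟩
    rw [add_mul, mul_assoc, locs_i5]
  · refine ⟨b + 2, 1, by omega, Or.inl rfl, e2 ^ b * h2 5 + r * p2,
      add_mem (locs_term_mem (by omega)) h3, ?_⟩
    rw [add_mul, mul_assoc, locs_i6 1]
    ring

theorem locs_C_pow (D : ℕ) (hD : D % 2 = 1) {g : R2} (hg : g ∈ locsC D) (k : ℕ) :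
    g * p2 ^ k ∈ locsC (D + 2 * k) := by
  induction k with
  | zero => simpa using hg
  | succ k ih =>
    rw [pow_succ, ← mul_assoc]
    exact locs_mul p2 (D + 2 * k) (D + 2 * (k + 1))
      (fun b j h => locs_C_p2 (D + 2 * k) b j (by omega) h) ih

theorem locs_Q_pow (D : ℕ) (hD : D % 2 = 1) {g : R2} (hg : locsQ D g) (k : ℕ) :
    locsQ (D + 2 * k) (g * p2 ^ k) := by
  induction k with
  | zero => simpa using hg
  | succ k ih =>
    rw [pow_succ, ← mul_assoc]
    exact locs_Q_p2 (D + 2 * k) (by omega) ih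

/-- odd load -/
theorem locs_odd (c T K : ℕ) (hT : T + 1 ≤ 2 * c) (hp : T % 2 = 1) :
    ∃ w : (Fin 2 →₀ ℕ) →₀ ℚ,
    (∀ t ∈ w.support, t 0 ≤ c + 1 ∧ t 1 ≤ c) ∧
    (∀ n o m k : ℕ, k ≤ K → 0 ≤ ev w (d2 * (e2 ^ n * h2 1 ^ o * h2 2 ^ m * p2 ^ k))) ∧
    (∀ n o m k : ℕ, k ≤ K → 2 * n + o + 2 * m + 2 * k = T → (k = 0 ∨ T + 2 ≤ 2 * c) →
      0 < ev w (d2 * (e2 ^ n * h2 1 ^ o * h2 2 ^ m * p2 ^ k))) := by
  obtain ⟨β, hβ⟩ : ∃ β : ℚ, β = if 3 ≤ T ∧ T + 3 ≤ 2 * c then 1 else 0 := ⟨_, rfl⟩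
  have hβ0 : 0 ≤ β := by
    rw [hβ]
    split_ifs <;> norm_num
  refine ⟨locsW ((T - 1) / 2) 1 1 ((T - 3) / 2) 3 β, ?_, ?_, ?_⟩
  · apply locs_supp
    · omega
    · by_cases h : 3 ≤ T ∧ T + 3 ≤ 2 * c
      · exact Or.inr (by omega)
      · exact Or.inl (by rw [hβ, if_neg h])
  · intro n o m k _
    rw [locs_ev, one_mul]
    by_cases h : 2 * n + o + 2 * m + 2 * k = T
    · have h1 := locs_C_pow _ (by omega) (locs_P_mem (locs_P_M n o m)) k
      exact add_nonneg (locs_ct_nonneg _ _ _ h1) (mul_nonneg hβ0 (locs_ct_nonneg _ _ _ h1))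
    · have h1 := locs_ct_hom ((T - 1) / 2) 1 _ _ (locs_hom_M n o m k) (by omega)
      rw [h1, zero_add]
      by_cases h3 : 3 ≤ T
      · have h4 := locs_ct_hom ((T - 3) / 2) 3 _ _ (locs_hom_M n o m k) (by omega)
        rw [h4, mul_zero]
      · have h5 : β = 0 := by rw [hβ, if_neg (by omega)]
        rw [h5, zero_mul]
  · intro n o m k _ h hk
    rw [locs_ev, one_mul]
    rcases Nat.eq_zero_or_pos k with h0 | h0
    · subst h0
      rw [pow_zero, mul_one]
      obtain ⟨b, j, h1, h2', r, hr, he⟩ := locs_P_M n o m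
      have hj : j = 1 := by omega
      subst hj
      have h3 : 0 ≤ β * locsCt ((T - 3) / 2) 3 (e2 ^ n * h2 1 ^ o * h2 2 ^ m) :=
        mul_nonneg hβ0 (locs_ct_nonneg _ _ _ (locs_P_mem (locs_P_M n o m)))
      have h4 : locsCt ((T - 1) / 2) 1 (e2 ^ n * h2 1 ^ o * h2 2 ^ m) =
          1 + locsCt ((T - 1) / 2) 1 r := by
        rw [he, locs_ct_add, locs_ct_term, if_pos ⟨by omega, rfl⟩]
      have h5 := locs_ct_nonneg ((T - 1) / 2) 1 _ hr
      rw [h4]
      linarith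
    · have hβ1 : β = 1 := by rw [hβ, if_pos (by omega)]
      rw [hβ1, one_mul]
      have hQ : locsQ (2 * n + o + 2 * m) (e2 ^ n * h2 1 ^ o * h2 2 ^ m) := by
        obtain ⟨b, j, h1, h2', r, hr, he⟩ := locs_P_M n o m
        exact ⟨b, j, h1, Or.inl (by omega), r, hr, he⟩
      obtain ⟨b, j, h1, h2', r, hr, he⟩ := locs_Q_pow _ (by omega) hQ k
      rw [he, locs_ct_add, locs_ct_add, locs_ct_term, locs_ct_term]
      have h5 := locs_ct_nonneg ((T - 1) / 2) 1 _ hr
      have h6 := locs_ct_nonneg ((T - 3) / 2) 3 _ hr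
      rcases h2' with rfl | rfl
      · rw [if_pos ⟨by omega, rfl⟩, if_neg (by omega)]
        linarith
      · rw [if_neg (by omega), if_pos ⟨by omega, rfl⟩]
        linarith

/-- the value at the terms, even load -/
theorem locs_even_val (T : ℕ) (hp : T % 2 = 0) (α β β' : ℚ) (hβ : 2 ≤ T → β' = β) :
    ∀ k i b : ℕ, 2 * b + 2 * k + 2 * i = T →
      α * locsCt (T / 2) 0 (e2 ^ b * h2 (2 * i) * p2 ^ k) +
        β' * locsCt (T / 2 - 1) 2 (e2 ^ b * h2 (2 * i) * p2 ^ k) = wk α β k i := by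
  intro k
  induction k with
  | zero =>
    intro i b h
    rw [pow_zero, mul_one, locs_ct_term, locs_ct_term]
    rcases i with _ | _ | i
    · rw [if_pos ⟨by omega, rfl⟩, if_neg (by omega)]
      simp [wk]
    · rw [if_neg (by omega), if_pos ⟨by omega, rfl⟩, hβ (by omega)]
      simp [wk]
    · rw [if_neg (by omega), if_neg (by omega)]
      simp [wk]
  | succ k ih =>
    intro i b h
    rcases i with _ | i
    · have e1 : e2 ^ b * h2 (2 * 0) * p2 ^ (k + 1) =
          e2 ^ b * h2 (2 * 1) * p2 ^ k - e2 ^ (b + 1) * h2 (2 * 0) * p2 ^ k := by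
        have e3 : e2 ^ b * h2 (2 * 0) * p2 ^ (k + 1) = e2 ^ b * (h2 0 * p2) * p2 ^ k := by
          rw [mul_zero]
          ring
        rw [e3, locs_i4, mul_zero, mul_one]
        ring
      rw [e1, locs_ct_sub, locs_ct_sub]
      have h1 := ih 1 b (by omega)
      have h3 := ih 0 (b + 1) (by omega)
      have h4 : wk α β (k + 1) 0 = wk α β k 1 - wk α β k 0 := rfl
      rw [h4, ← h1, ← h3]
      ring
    · have e1 : e2 ^ b * h2 (2 * (i + 1)) * p2 ^ (k + 1) =
          e2 ^ b * h2 (2 * (i + 2)) * p2 ^ k + e2 ^ (b + 2) * h2 (2 * i) * p2 ^ k := by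
        have e3 : e2 ^ b * h2 (2 * (i + 1)) * p2 ^ (k + 1) =
            e2 ^ b * (h2 (2 * i + 2) * p2) * p2 ^ k := by
          rw [show 2 * (i + 1) = 2 * i + 2 by ring]
          ring
        rw [e3, locs_i6, show 2 * (i + 2) = 2 * i + 4 by ring]
        ring
      rw [e1, locs_ct_add, locs_ct_add]
      have h1 := ih (i + 2) b (by omega)
      have h3 := ih i (b + 2) (by omega)
      have h4 : wk α β (k + 1) (i + 1) = wk α β k (i + 2) + wk α β k i := rfl
      rw [h4, ← h1, ← h3]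
      ring

/-- even load -/
theorem locs_even (hW : S_Walk) (c T K : ℕ) (hT : T + 1 ≤ 2 * c) (hp : T % 2 = 0) :
    ∃ w : (Fin 2 →₀ ℕ) →₀ ℚ,
    (∀ t ∈ w.support, t 0 ≤ c + 1 ∧ t 1 ≤ c) ∧
    (∀ n o m k : ℕ, k ≤ K → 0 ≤ ev w (d2 * (e2 ^ n * h2 1 ^ o * h2 2 ^ m * p2 ^ k))) ∧
    (∀ n o m k : ℕ, k ≤ K → 2 * n + o + 2 * m + 2 * k = T → (k = 0 ∨ T + 2 ≤ 2 * c) →
      0 < ev w (d2 * (e2 ^ n * h2 1 ^ o * h2 2 ^ m * p2 ^ k))) := by
  obtain ⟨α, hα⟩ : ∃ α : ℚ, α = K + 1 := ⟨_, rfl⟩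
  obtain ⟨β, hβ⟩ : ∃ β : ℚ, β = K + 2 := ⟨_, rfl⟩
  obtain ⟨β', hβ'⟩ : ∃ β' : ℚ, β' = if 2 ≤ T then β else 0 := ⟨_, rfl⟩
  have hK : (0 : ℚ) ≤ K := Nat.cast_nonneg K
  have hwk := hW K α β (by rw [hα]; linarith) (by rw [hα, hβ]; linarith)
    (by rw [hα, hβ]; nlinarith)
  have hval := locs_even_val T hp α β β' (fun h => by rw [hβ', if_pos h])
  have hnn : ∀ D k : ℕ, k ≤ K → D + 2 * k = T → ∀ g ∈ locsC D,
      0 ≤ α * locsCt (T / 2) 0 (g * p2 ^ k) + β' * locsCt (T / 2 - 1) 2 (g * p2 ^ k) := by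
    intro D k hk hD g hg
    unfold locsC at hg
    induction hg using AddSubmonoid.closure_induction with
    | mem x hx =>
      obtain ⟨b, j, h, rfl⟩ := hx
      obtain ⟨i, rfl⟩ : ∃ i, j = 2 * i := ⟨j / 2, by omega⟩
      rw [hval k i b (by omega)]
      exact (hwk k hk i).1
    | zero =>
      unfold locsCt
      rw [zero_mul, mul_zero, coeff_zero, coeff_zero, mul_zero, mul_zero, add_zero]
    | add x y _ _ hx hy =>
      rw [add_mul, locs_ct_add, locs_ct_add]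
      linarith
  refine ⟨locsW (T / 2) 0 α (T / 2 - 1) 2 β', ?_, ?_, ?_⟩
  · apply locs_supp
    · omega
    · by_cases h : 2 ≤ T
      · exact Or.inr (by omega)
      · exact Or.inl (by rw [hβ', if_neg h])
  · intro n o m k hk
    rw [locs_ev]
    by_cases h : 2 * n + o + 2 * m + 2 * k = T
    · exact hnn _ k hk h _ (locs_P_mem (locs_P_M n o m))
    · have h1 := locs_ct_hom (T / 2) 0 _ _ (locs_hom_M n o m k) (by omega)
      rw [h1, mul_zero, zero_add]
      by_cases h3 : 2 ≤ T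
      · have h4 := locs_ct_hom (T / 2 - 1) 2 _ _ (locs_hom_M n o m k) (by omega)
        rw [h4, mul_zero]
      · have h5 : β' = 0 := by rw [hβ', if_neg h3]
        rw [h5, zero_mul]
  · intro n o m k hk h _
    rw [locs_ev]
    obtain ⟨b, j, h1, h2', r, hr, he⟩ := locs_P_M n o m
    obtain ⟨i, rfl⟩ : ∃ i, j = 2 * i := ⟨j / 2, by omega⟩
    have h3 := hnn _ k hk h r hr
    have h4 := hval k i b (by omega)
    have h5 := (hwk k hk i).2 (by omega)
    rw [he, add_mul, locs_ct_add, locs_ct_add]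
    linarith

theorem tLocS (hW : S_Walk) : S_LocS := by
  intro c T K hT
  rcases Nat.even_or_odd T with he | ho
  · exact locs_even hW c T K hT (Nat.even_iff.1 he)
  · exact locs_odd c T K hT (Nat.odd_iff.1 ho)

end T72
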