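import Pool.Agent.Lib.MP_86b854_co.AlgSpec2

set_option autoImplicit false

/-!
# MP_86b854_co : the specialisation of the functional (`S_Spc`)
-/

namespace T72

open MvPolynomial Finset

variable {V : Type}

theorem spc_one (V : Type) [Fintype V] [DecidableEq V] : (1 : MvPolynomial (V × Fin 2) ℚ) ∈ Psp V := by
  refine Submodule.subset_span ⟨fun _ => 1, fun _ => ?_, ?_⟩
  · simp [Sym2v]
  · simp [prd]

theorem spc_prd_mul [Fintype V] (g g' : V → R2) :
    prd g * prd g' = prd (fun v => g v * g' v) := by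
  simp only [prd, map_mul, Finset.prod_mul_distrib]

theorem spc_mul (V : Type) [Fintype V] [DecidableEq V] (f g : MvPolynomial (V × Fin 2) ℚ)
    (hf : f ∈ Psp V) (hg : g ∈ Psp V) : f * g ∈ Psp V := by
  have h : Psp V * Psp V ≤ Psp V := by
    unfold Psp
    rw [Submodule.span_mul_span]
    refine Submodule.span_mono ?_
    rintro _ ⟨_, ⟨p, hp, rfl⟩, _, ⟨q, hq, rfl⟩, rfl⟩
    refine ⟨fun v => p v * q v, fun v => ?_, spc_prd_mul p q⟩
    have h1 := hp v
    have h2 := hq v
    unfold Sym2v at h1 h2 ⊢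
    rw [map_mul, h1, h2]
  exact h (Submodule.mul_mem_mul hf hg)

theorem spc_sgl (V : Type) [Fintype V] [DecidableEq V] (v : V) (p : R2) (hp : Sym2v p) :
    rename (fun i => (v, i)) p ∈ Psp V := by
  refine Submodule.subset_span ⟨fun w => if w = v then p else 1, fun w => ?_, ?_⟩
  · by_cases h : w = v
    · simpa [h] using hp
    · simp [h, Sym2v]
  · unfold prd
    rw [Finset.prod_eq_single v]
    · simp
    · intro b _ hb
      simp [hb]
    · intro h
      exact absurd (Finset.mem_univ v) h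

theorem spc_sym_e : Sym2v e2 := by
  simp [Sym2v, e2, rename_X, mul_comm]

theorem spc_sym_h1 : Sym2v (h2 1) := by
  simp [Sym2v, h2, rename_X, Finset.sum_range_succ, add_comm]

theorem spc_sym_h2 : Sym2v (h2 2) := by
  simp only [Sym2v, h2, rename_X, Finset.sum_range_succ, Finset.sum_range_zero, map_add, map_mul,
    map_pow, Equiv.swap_apply_left, Equiv.swap_apply_right, map_zero]
  ring

theorem spc_sym_mul (p q : R2) (hp : Sym2v p) (hq : Sym2v q) : Sym2v (p * q) := by
  unfold Sym2v at hp hq ⊢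
  rw [map_mul, hp, hq]

theorem spc_edge (V : Type) [Fintype V] [DecidableEq V] (ε : ℚ) (u v : V) (hε : ε ^ 2 = 1) :
    edgeS ε u v ∈ Psp V := by
  have hC : (C ε : MvPolynomial (V × Fin 2) ℚ) ^ 2 = 1 := by
    rw [← C_pow, hε, C_1]
  have key : edgeS ε u v =
      rename (fun i => (u, i)) (e2 * e2) +
      ε • (rename (fun i => (u, i)) (e2 * h2 1) * rename (fun i => (v, i)) (h2 1)) +
      rename (fun i => (u, i)) e2 * rename (fun i => (v, i)) (h2 2) +
      rename (fun i => (u, i)) (h2 2) * rename (fun i => (v, i)) e2 +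
      ε • (rename (fun i => (u, i)) (h2 1) * rename (fun i => (v, i)) (e2 * h2 1)) +
      rename (fun i => (v, i)) (e2 * e2) := by
    simp only [edgeS, Fin.prod_univ_two, e2, h2, rename_X, Finset.sum_range_succ,
      Finset.sum_range_zero, map_add, map_mul, map_pow, map_zero, smul_eq_C_mul]
    simp only [pow_zero, pow_one, one_mul, mul_one, Nat.sub_zero, Nat.sub_self, zero_add,
      Nat.reduceSub]
    linear_combination (X (u, 0) * X (u, 0) * X (v, 0) * X (v, 1) +
      X (u, 0) * X (u, 1) * (X (v, 0) + X (v, 1)) ^ 2 + X (u, 1) * X (u, 1) * X (v, 0) * X (v, 1) +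
      C ε * (X (u, 0) + X (u, 1)) * (X (v, 0) + X (v, 1)) * X (v, 0) * X (v, 1) +
      (C ε ^ 2 + 1) * X (v, 0) ^ 2 * X (v, 1) ^ 2) * hC
  rw [key]
  have m := spc_mul V
  have s := spc_sgl V
  refine Submodule.add_mem _ (Submodule.add_mem _ (Submodule.add_mem _ (Submodule.add_mem _
    (Submodule.add_mem _ ?_ ?_) ?_) ?_) ?_) ?_
  · exact s u _ (spc_sym_mul _ _ spc_sym_e spc_sym_e)
  · exact Submodule.smul_mem _ _ (m _ _ (s u _ (spc_sym_mul _ _ spc_sym_e spc_sym_h1))
      (s v _ spc_sym_h1))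
  · exact m _ _ (s u _ spc_sym_e) (s v _ spc_sym_h2)
  · exact m _ _ (s u _ spc_sym_h2) (s v _ spc_sym_e)
  · exact Submodule.smul_mem _ _ (m _ _ (s u _ spc_sym_h1)
      (s v _ (spc_sym_mul _ _ spc_sym_e spc_sym_h1)))
  · exact s v _ (spc_sym_mul _ _ spc_sym_e spc_sym_e)

theorem spc_Ev_zero [Fintype V] [DecidableEq V] (w : V → ((Fin 2 →₀ ℕ) →₀ ℚ)) : Ev w 0 = 0 := by
  simp [Ev]

theorem spc_Ev_add [Fintype V] [DecidableEq V] (w : V → ((Fin 2 →₀ ℕ) →₀ ℚ))
    (f g : MvPolynomial (V × Fin 2) ℚ) : Ev w (f + g) = Ev w f + Ev w g := by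
  simp only [Ev, coeff_add, mul_add, Finset.sum_add_distrib]

theorem spc_Ev_smul [Fintype V] [DecidableEq V] (w : V → ((Fin 2 →₀ ℕ) →₀ ℚ)) (r : ℚ)
    (f : MvPolynomial (V × Fin 2) ℚ) : Ev w (r • f) = r * Ev w f := by
  simp only [Ev, coeff_smul, smul_eq_mul, Finset.mul_sum]
  refine Finset.sum_congr rfl fun t _ => ?_
  ring

theorem spc_van [Fintype V] : van V = prd (fun _ : V => d2) := by
  simp [van, prd, d2, rename_X]

theorem spc_vanS [Fintype V] [DecidableEq V] (T : Finset V) :
    (∏ v ∈ univ \ T, (X (v, 0) - X (v, 1)) : MvPolynomial (V × Fin 2) ℚ) =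
      prd (fun v : V => if v ∈ T then 1 else d2) := by
  have h : ∀ v : V, rename (fun i => (v, i)) (if v ∈ T then (1 : R2) else d2) =
      if v ∈ T then 1 else (X (v, 0) - X (v, 1) : MvPolynomial (V × Fin 2) ℚ) := by
    intro v
    by_cases hv : v ∈ T
    · simp [hv]
    · simp [hv, d2, rename_X]
  unfold prd
  rw [Finset.prod_congr rfl fun v _ => h v]
  rw [← Finset.prod_subset (Finset.subset_univ (univ \ T))]
  · refine Finset.prod_congr rfl fun v hv => ?_
    rw [if_neg (Finset.mem_sdiff.1 hv).2]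
  · intro v _ hv
    have : v ∈ T := by
      by_contra h'
      exact hv (Finset.mem_sdiff.2 ⟨Finset.mem_univ v, h'⟩)
    rw [if_pos this]

theorem spc_spT_rename [DecidableEq V] (T : Finset V) (v : V) (p : R2) :
    spT T (rename (fun i => (v, i)) p) =
      rename (fun i => (v, i)) (if v ∈ T then ngv p else p) := by
  by_cases hv : v ∈ T
  · rw [if_pos hv]
    have h : (spT T).comp (rename (fun i : Fin 2 => (v, i))) =
        (rename (fun i : Fin 2 => (v, i)) : R2 →ₐ[ℚ] _).comp ngv := by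
      refine MvPolynomial.algHom_ext fun i => ?_
      fin_cases i
      · simp [spT, ngv, rename_X]
      · simp [spT, ngv, rename_X, hv]
    exact DFunLike.congr_fun h p
  · rw [if_neg hv]
    have h : (spT T).comp (rename (fun i : Fin 2 => (v, i))) =
        (rename (fun i : Fin 2 => (v, i)) : R2 →ₐ[ℚ] _) := by
      refine MvPolynomial.algHom_ext fun i => ?_
      simp [spT, rename_X, hv]
    exact DFunLike.congr_fun h p

theorem spc_spT_prd [Fintype V] [DecidableEq V] (T : Finset V) (g : V → R2) :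
    spT T (prd g) = prd (fun v => if v ∈ T then ngv (g v) else g v) := by
  unfold prd
  rw [map_prod]
  exact Finset.prod_congr rfl fun v _ => spc_spT_rename T v (g v)

/-- **Spc.** -/
theorem tSpc (hTens : S_Tens) : S_Spc := by
  refine ⟨?_, ?_⟩
  · intro V _ _
    exact ⟨spc_one V, fun f hf g hg => spc_mul V f g hf hg, fun ε u v hε _ => spc_edge V ε u v hε⟩
  · intro V _ _ T k w hw f hf
    unfold Psp at hf
    induction hf using Submodule.span_induction with
    | mem f hf =>
      obtain ⟨g, hg, rfl⟩ := hf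
      rw [spc_van, spc_prd_mul, (hTens V _).2, spc_vanS, spc_spT_prd, spc_prd_mul, (hTens V _).2]
      refine Finset.prod_congr rfl fun v _ => ?_
      by_cases hv : v ∈ T
      · simp only [if_pos hv, one_mul]
        rw [hw v hv (g v) (hg v)]
        simp [ev]
      · simp only [if_neg hv]
    | zero => simp [spc_Ev_zero]
    | add f g _ _ h1 h2 =>
      rw [mul_add, map_add, mul_add, spc_Ev_add, spc_Ev_add, h1, h2]
    | smul r f _ h1 =>
      rw [mul_smul_comm, map_smul, mul_smul_comm, spc_Ev_smul, spc_Ev_smul, h1]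

end T72
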