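import Pool.Agent.Lib.MP_86b854_co.AlgSpec3

set_option autoImplicit false
set_option linter.unusedSectionVars false

/-!
# MP_86b854_co : colouring from the certificate of Theorem T5 (`S_T5bip`)
-/

namespace T72

open MvPolynomial Finset

theorem t5b_hom (V : Type) [Fintype V] (E B : Finset (V × V)) (ε : V → ℚ) :
    (van V * ((∏ e ∈ E, edge e.1 e.2) * ∏ e ∈ B, edgeS (ε e.1) e.1 e.2) :
      MvPolynomial (V × Fin 2) ℚ).IsHomogeneous
      ((∑ _v : V, 1) + ((∑ _e ∈ E, 4) + ∑ _e ∈ B, 4)) := by
  refine IsHomogeneous.mul ?_ (IsHomogeneous.mul ?_ ?_)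
  · rw [van]
    refine IsHomogeneous.prod _ _ _ (fun v _ => ?_)
    exact (isHomogeneous_X ℚ _).sub (isHomogeneous_X ℚ _)
  · refine IsHomogeneous.prod _ _ _ (fun e _ => ?_)
    have h : (edge e.1 e.2 : MvPolynomial (V × Fin 2) ℚ).IsHomogeneous
        (∑ _i : Fin 2, ∑ _j : Fin 2, 1) := by
      rw [edge]
      refine IsHomogeneous.prod _ _ _ (fun i _ => IsHomogeneous.prod _ _ _ (fun j _ => ?_))
      exact (isHomogeneous_X ℚ _).add (isHomogeneous_X ℚ _)
    simpa using h
  · refine IsHomogeneous.prod _ _ _ (fun e _ => ?_)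
    have h : (edgeS (ε e.1) e.1 e.2 : MvPolynomial (V × Fin 2) ℚ).IsHomogeneous
        (∑ _i : Fin 2, ∑ _j : Fin 2, 1) := by
      rw [edgeS]
      refine IsHomogeneous.prod _ _ _ (fun i _ => IsHomogeneous.prod _ _ _ (fun j _ => ?_))
      refine (isHomogeneous_X ℚ _).add ?_
      have h2 := (isHomogeneous_C (V × Fin 2) (ε e.1)).mul (isHomogeneous_X ℚ (e.2, j))
      rwa [zero_add] at h2
    simpa using h

/-- the sum over the edges at `s` -/
theorem t5b_sum1 {V : Type} [Fintype V] [DecidableEq V] (q : V → V → Prop)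
    [∀ u v, Decidable (q u v)] (F : Finset (V × V)) (hF : ∀ e, e ∈ F ↔ q e.1 e.2) (s : V)
    (g : V → V → ℕ) :
    ∑ e ∈ F with e.1 = s, g e.1 e.2 = ∑ t with q s t, g s t := by
  refine Finset.sum_bij' (fun e _ => e.2) (fun u _ => (s, u)) ?_ ?_ ?_ ?_ ?_
  · intro e he
    obtain ⟨he1, he2⟩ := Finset.mem_filter.mp he
    have h5 := (hF e).mp he1
    rw [he2] at h5
    exact Finset.mem_filter.mpr ⟨Finset.mem_univ _, h5⟩
  · intro u hu
    have h5 := (Finset.mem_filter.mp hu).2
    exact Finset.mem_filter.mpr ⟨(hF _).mpr h5, rfl⟩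
  · intro e he
    obtain ⟨he1, he2⟩ := Finset.mem_filter.mp he
    exact Prod.ext he2.symm rfl
  · intro u hu
    rfl
  · intro e he
    obtain ⟨he1, he2⟩ := Finset.mem_filter.mp he
    rw [← he2]

theorem t5b_sum2 {V : Type} [Fintype V] [DecidableEq V] (q : V → V → Prop)
    [∀ u v, Decidable (q u v)] (F : Finset (V × V)) (hF : ∀ e, e ∈ F ↔ q e.1 e.2) (s : V)
    (g : V → V → ℕ) :
    ∑ e ∈ F with e.2 = s, g e.1 e.2 = ∑ t with q t s, g t s := by
  refine Finset.sum_bij' (fun e _ => e.1) (fun u _ => (u, s)) ?_ ?_ ?_ ?_ ?_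
  · intro e he
    obtain ⟨he1, he2⟩ := Finset.mem_filter.mp he
    have h5 := (hF e).mp he1
    rw [he2] at h5
    exact Finset.mem_filter.mpr ⟨Finset.mem_univ _, h5⟩
  · intro u hu
    have h5 := (Finset.mem_filter.mp hu).2
    exact Finset.mem_filter.mpr ⟨(hF _).mpr h5, rfl⟩
  · intro e he
    obtain ⟨he1, he2⟩ := Finset.mem_filter.mp he
    exact Prod.ext rfl he2.symm
  · intro u hu
    rfl
  · intro e he
    obtain ⟨he1, he2⟩ := Finset.mem_filter.mp he
    rw [← he2]

theorem tT5bip (h1 : S_T5cert) : S_T5bip := by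
  intro V _ _ H _ T I col c L x a hcol hTT hII hIT hLT hL hx ha hload hloadI
  classical
  set E : Finset (V × V) :=
    univ.filter (fun e => (e.1 ∉ T ∧ e.2 ∉ T ∧ H.Adj e.1 e.2) ∧ col e.1 = true) with hE
  set B : Finset (V × V) := univ.filter (fun e => e.1 ∉ T ∧ e.2 ∈ T ∧ H.Adj e.1 e.2) with hB
  have hmem : ∀ e : V × V, e ∈ E ↔ (e.1 ∉ T ∧ e.2 ∉ T ∧ H.Adj e.1 e.2) ∧ col e.1 = true := by
    intro e
    simp [hE]
  have hmemB : ∀ e : V × V, e ∈ B ↔ e.1 ∉ T ∧ e.2 ∈ T ∧ H.Adj e.1 e.2 := by
    intro e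
    simp [hB]
  have hE2 : ∀ e ∈ E, col e.2 = false := by
    intro e he
    obtain ⟨⟨h2, h2', h2''⟩, h3⟩ := (hmem e).mp he
    have h4 := hcol _ _ h2 h2' h2''
    rw [h3] at h4
    cases h5 : col e.2
    · rfl
    · exact absurd h5.symm h4
  set ε : V → ℚ := fun v => if col v = true then -1 else 1 with hε
  -- loads
  have hin : ∀ s, s ∉ T → (∑ e ∈ E with e.1 = s, x e.1 e.2) +
      (∑ e ∈ E with e.2 = s, (4 - x e.1 e.2)) = ∑ u with H.Adj s u ∧ u ∉ T, x s u := by
    intro s hs
    rw [t5b_sum1 (fun u v => (u ∉ T ∧ v ∉ T ∧ H.Adj u v) ∧ col u = true) E hmem s,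
      t5b_sum2 (fun u v => (u ∉ T ∧ v ∉ T ∧ H.Adj u v) ∧ col u = true) E hmem s
        (fun u v => 4 - x u v)]
    rcases Bool.eq_false_or_eq_true (col s) with hv | hv
    rotate_left
    · rw [Finset.sum_eq_zero, zero_add]
      · refine Finset.sum_congr ?_ ?_
        · ext u
          simp only [Finset.mem_filter, Finset.mem_univ, true_and]
          constructor
          · rintro ⟨⟨h2, _, h3⟩, _⟩
            exact ⟨h3.symm, h2⟩
          · rintro ⟨h2, h3⟩
            refine ⟨⟨h3, hs, h2.symm⟩, ?_⟩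
            have h6 := hcol _ _ hs h3 h2
            rw [hv] at h6
            cases h7 : col u
            · exact absurd h7.symm h6
            · rfl
        · intro u hu
          obtain ⟨h2, h3⟩ := (Finset.mem_filter.mp hu).2
          have := hx _ _ hs h3 h2
          omega
      · intro t ht
        have h2 := (Finset.mem_filter.mp ht).2.2
        rw [hv] at h2
        exact absurd h2 (by decide)
    · have h0 : (∑ t with (t ∉ T ∧ s ∉ T ∧ H.Adj t s) ∧ col t = true, (4 - x t s)) = 0 := by
        apply Finset.sum_eq_zero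
        intro t ht
        obtain ⟨⟨h2, h3, h4⟩, h5⟩ := (Finset.mem_filter.mp ht).2
        exact absurd (h5.trans hv.symm) (hcol _ _ h2 h3 h4)
      rw [h0, add_zero]
      refine Finset.sum_congr ?_ (fun _ _ => rfl)
      ext u
      simp only [Finset.mem_filter, Finset.mem_univ, true_and]
      constructor
      · rintro ⟨⟨_, h2, h3⟩, _⟩
        exact ⟨h3, h2⟩
      · rintro ⟨h2, h3⟩
        exact ⟨⟨hs, h3, h2⟩, hv⟩
  have hBs : ∀ (g : V → V → ℕ) (s : V), s ∉ T →
      ∑ e ∈ B with e.1 = s, g e.1 e.2 = ∑ t with H.Adj s t ∧ t ∈ T, g s t := by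
    intro g s hs
    rw [t5b_sum1 (fun u v => u ∉ T ∧ v ∈ T ∧ H.Adj u v) B hmemB s]
    refine Finset.sum_congr ?_ (fun _ _ => rfl)
    ext u
    simp only [Finset.mem_filter, Finset.mem_univ, true_and]
    constructor
    · rintro ⟨_, h2, h3⟩
      exact ⟨h3, h2⟩
    · rintro ⟨h2, h3⟩
      exact ⟨hs, h3, h2⟩
  have hBt : ∀ (g : V → V → ℕ) (t : V), t ∈ T →
      ∑ e ∈ B with e.2 = t, g e.1 e.2 = ∑ s with H.Adj s t, g s t := by
    intro g t ht
    rw [t5b_sum2 (fun u v => u ∉ T ∧ v ∈ T ∧ H.Adj u v) B hmemB t]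
    refine Finset.sum_congr ?_ (fun _ _ => rfl)
    ext u
    simp only [Finset.mem_filter, Finset.mem_univ, true_and]
    constructor
    · rintro ⟨_, _, h3⟩
      exact h3
    · intro h2
      refine ⟨fun h3 => hTT u h3 t ht h2, ht, h2⟩
  obtain ⟨t, htS, htT, hne0⟩ := h1 V T I E B c ε (fun e => x e.1 e.2) (fun e => a e.1 e.2)
    (fun v => by
      simp only [hε]
      split_ifs <;> norm_num)
    (fun e he => by
      obtain ⟨⟨h2, h3, h4⟩, _⟩ := (hmem e).mp he
      refine ⟨h4.ne, h2, h3, ?_, fun h5 => hII _ h5.1 _ h5.2 h4⟩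
      have := hx _ _ h2 h3 h4
      omega)
    (fun e he => by
      obtain ⟨h2, h3, h4⟩ := (hmemB e).mp he
      exact ⟨h2, h3, ha _ _ h2 h3 h4, fun h5 => hIT _ h5 _ h3 h4⟩)
    (fun s hs hsI => by
      have h2 := hload s hs hsI
      have h3 := hin s hs
      have h4 := hBs (fun u v => 4 - 2 * a u v) s hs
      have h5 := hBs a s hs
      rw [h3, h4, h5]
      exact h2)
    (fun s hs hsI => by
      have h2 := hloadI s hs hsI
      have h3 := hin s hs
      rw [h3]
      exact h2)
  -- the Nullstellensatz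
  set P : MvPolynomial (V × Fin 2) ℚ :=
    van V * ((∏ e ∈ E, edge e.1 e.2) * ∏ e ∈ B, edgeS (ε e.1) e.1 e.2) with hP
  have hne : P ≠ 0 := by
    intro h0
    rw [h0, coeff_zero] at hne0
    exact hne0 rfl
  have hdeg : P.totalDegree = (jn t).degree := by
    rw [(t5b_hom V E B ε).totalDegree hne, Finsupp.degree_eq_weight_one]
    exact ((t5b_hom V E B ε) hne0).symm
  have hinj1 : Function.Injective (fun n : ℕ => (n : ℚ)) := Nat.cast_injective
  have hinj2 : Function.Injective (fun n : ℕ => -(n : ℚ)) := by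
    intro u v huv
    exact Nat.cast_injective (neg_injective huv)
  obtain ⟨s, hs, hev⟩ := combinatorial_nullstellensatz_exists_eval_nonzero P (jn t)
    hne0 hdeg
    (fun p => if p.1 ∈ T ∨ col p.1 = true then (L p.1).image (fun n : ℕ => (n : ℚ)) else
      (L p.1).image (fun n : ℕ => -(n : ℚ))) (by
      rintro ⟨v, i⟩
      have h2 : (if v ∈ T ∨ col v = true then (L v).image (fun n : ℕ => (n : ℚ)) else
          (L v).image (fun n : ℕ => -(n : ℚ))).card = (L v).card := by
        split_ifs
        · exact Finset.card_image_of_injective _ hinj1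
        · exact Finset.card_image_of_injective _ hinj2
      have h5 : jn t (v, i) = t v i := rfl
      rw [h2, h5]
      by_cases hv : v ∈ T
      · have h3 := htT v hv
        have h4 := hLT v hv
        have h6 := hBt a v hv
        rw [h6] at h3
        fin_cases i
        · have h7 := h3.1
          show t v 0 < _
          omega
        · have h7 := h3.2
          show t v 1 < _
          omega
      · have h3 := htS v hv
        have h4 := hL v hv
        fin_cases i
        · have h7 := h3.1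
          show t v 0 < _
          omega
        · have h7 := h3.2
          show t v 1 < _
          omega)
  have hn : ∀ p : V × Fin 2, ∃ n ∈ L p.1,
      s p = if p.1 ∈ T ∨ col p.1 = true then (n : ℚ) else -(n : ℚ) := by
    intro p
    have h2 := hs p
    split_ifs at h2 ⊢ with h3
    · obtain ⟨n, hn1, hn2⟩ := Finset.mem_image.mp h2
      exact ⟨n, hn1, hn2.symm⟩
    · obtain ⟨n, hn1, hn2⟩ := Finset.mem_image.mp h2
      exact ⟨n, hn1, hn2.symm⟩
  choose N hN1 hN2 using hn
  rw [hP, map_mul, map_mul] at hev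
  have hev1 := left_ne_zero_of_mul hev
  have hev2 := left_ne_zero_of_mul (right_ne_zero_of_mul hev)
  have hev3 := right_ne_zero_of_mul (right_ne_zero_of_mul hev)
  have hdiff : ∀ v, N (v, 0) ≠ N (v, 1) := by
    intro v hv
    rw [van, map_prod] at hev1
    have h2 := Finset.prod_ne_zero_iff.mp hev1 v (Finset.mem_univ v)
    rw [map_sub, eval_X, eval_X] at h2
    apply h2
    rw [hN2 (v, 0), hN2 (v, 1), hv]
    simp
  have hedge : ∀ u v, u ∉ T → v ∉ T → H.Adj u v → col u = true →
      ∀ i j, N (u, i) ≠ N (v, j) := by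
    intro u v huT hvT huv hu i j hij
    have he : (u, v) ∈ E := (hmem _).mpr ⟨⟨huT, hvT, huv⟩, hu⟩
    have hv := hE2 _ he
    rw [map_prod] at hev2
    have h2 := Finset.prod_ne_zero_iff.mp hev2 _ he
    rw [edge, map_prod] at h2
    have h3 := Finset.prod_ne_zero_iff.mp h2 i (Finset.mem_univ i)
    rw [map_prod] at h3
    have h4 := Finset.prod_ne_zero_iff.mp h3 j (Finset.mem_univ j)
    rw [map_add, eval_X, eval_X] at h4
    apply h4
    have h5 : col v = false := hv
    rw [hN2 (u, i), hN2 (v, j)]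
    have h6 : u ∈ T ∨ col u = true := Or.inr hu
    have h7 : ¬ (v ∈ T ∨ col v = true) := by
      rintro (h | h)
      · exact hvT h
      · rw [h5] at h
        exact absurd h (by decide)
    rw [if_pos h6, if_neg h7, hij]
    simp
  have hedgeT : ∀ u v, u ∉ T → v ∈ T → H.Adj u v → ∀ i j, N (u, i) ≠ N (v, j) := by
    intro u v huT hvT huv i j hij
    have he : (u, v) ∈ B := (hmemB _).mpr ⟨huT, hvT, huv⟩
    rw [map_prod] at hev3
    have h2 := Finset.prod_ne_zero_iff.mp hev3 _ he
    rw [edgeS, map_prod] at h2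
    have h3 := Finset.prod_ne_zero_iff.mp h2 i (Finset.mem_univ i)
    rw [map_prod] at h3
    have h4 := Finset.prod_ne_zero_iff.mp h3 j (Finset.mem_univ j)
    rw [map_add, map_mul, eval_X, eval_X, eval_C] at h4
    apply h4
    rw [hN2 (u, i), hN2 (v, j)]
    have h7 : v ∈ T ∨ col v = true := Or.inl hvT
    rw [if_pos h7, hij]
    simp only [hε]
    by_cases hu : col u = true
    · have h6 : u ∈ T ∨ col u = true := Or.inr hu
      rw [if_pos h6, if_pos hu]
      ring
    · have h6 : ¬ (u ∈ T ∨ col u = true) := by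
        rintro (h | h)
        · exact huT h
        · exact hu h
      rw [if_neg h6, if_neg hu]
      ring
  refine ⟨fun v => {N (v, 0), N (v, 1)}, fun v => ⟨?_, ?_⟩, ?_⟩
  · intro n hn
    rw [Finset.mem_insert, Finset.mem_singleton] at hn
    rcases hn with rfl | rfl
    · exact hN1 (v, 0)
    · exact hN1 (v, 1)
  · exact Finset.card_pair (hdiff v)
  · intro u v huv
    have key : ∀ i j, N (u, i) ≠ N (v, j) := by
      intro i j
      by_cases huT : u ∈ T
      · by_cases hvT : v ∈ T
        · exact absurd huv (hTT u huT v hvT)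
        · exact (hedgeT v u hvT huT huv.symm j i).symm
      · by_cases hvT : v ∈ T
        · exact hedgeT u v huT hvT huv i j
        · cases hu : col u
          · have hv : col v = true := by
              have h6 := hcol _ _ huT hvT huv
              rw [hu] at h6
              cases h7 : col v
              · exact absurd h7.symm h6
              · rfl
            exact (hedge v u hvT huT huv.symm hv j i).symm
          · exact hedge u v huT hvT huv hu i j
    rw [Finset.disjoint_left]
    intro n hn hn'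
    rw [Finset.mem_insert, Finset.mem_singleton] at hn hn'
    rcases hn with h2 | h2 <;> rcases hn' with h3 | h3
    · exact key 0 0 (h2.symm.trans h3)
    · exact key 0 1 (h2.symm.trans h3)
    · exact key 1 0 (h2.symm.trans h3)
    · exact key 1 1 (h2.symm.trans h3)

end T72
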