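import Pool.Agent.Lib.MP_86b854_co.AlgSpec3
import Pool.Agent.Lib.MP_86b854_co.Spc
import Pool.Agent.Lib.MP_86b854_co.LocT

set_option autoImplicit false

/-!
# MP_86b854_co : the certificate of Theorem T5
-/

namespace T72

open MvPolynomial Finset

section t5

variable {V : Type}

/-- the one-vertex polynomials of the expansion -/
noncomputable def t5m (b : Prop) [Decidable b] (d : Fin 5 → ℕ) : R2 :=
  if b then (-X 0 ^ 2) ^ d 4 else e2 ^ d 0 * h2 1 ^ d 1 * h2 2 ^ d 2 * p2 ^ d 3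

theorem t5m_zero (b : Prop) [Decidable b] : t5m b 0 = 1 := by
  unfold t5m
  split_ifs <;> simp

theorem t5m_add (b : Prop) [Decidable b] (d d' : Fin 5 → ℕ) :
    t5m b (d + d') = t5m b d * t5m b d' := by
  unfold t5m
  split_ifs
  · rw [Pi.add_apply, pow_add]
  · simp only [Pi.add_apply, pow_add]
    ring

/-- the terms of the expansion -/
noncomputable def t5tm [Fintype V] [DecidableEq V] (T : Finset V) (q : V → Fin 5 → ℕ) :
    MvPolynomial (V × Fin 2) ℚ :=
  prd fun v => t5m (v ∈ T) (q v)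

variable [Fintype V] [DecidableEq V] (T : Finset V)

theorem t5tm_zero : t5tm T 0 = 1 := by
  simp [t5tm, prd, t5m_zero]

theorem t5tm_add (q q' : V → Fin 5 → ℕ) : t5tm T (q + q') = t5tm T q * t5tm T q' := by
  simp only [t5tm, spc_prd_mul, Pi.add_apply, t5m_add]

theorem t5tm_sum {ι : Type} (s : Finset ι) (f : ι → V → Fin 5 → ℕ) :
    t5tm T (∑ i ∈ s, f i) = ∏ i ∈ s, t5tm T (f i) := by
  classical
  induction s using Finset.induction_on with
  | empty => rw [Finset.sum_empty, Finset.prod_empty, t5tm_zero]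
  | insert a s ha ih => rw [Finset.sum_insert ha, Finset.prod_insert ha, t5tm_add, ih]

theorem t5tm_single (v : V) (d : Fin 5 → ℕ) :
    t5tm T (Pi.single v d) = rename (fun i => (v, i)) (t5m (v ∈ T) d) := by
  unfold t5tm prd
  rw [Finset.prod_eq_single v]
  · beta_reduce
    rw [Pi.single_eq_same]
  · intro b _ hb
    beta_reduce
    rw [Pi.single_eq_of_ne hb, t5m_zero, map_one]
  · intro h
    exact absurd (Finset.mem_univ v) h

/-- exponents at the first end of an edge -/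
def t5A : Fin 6 → Fin 5 → ℕ :=
  ![![2, 0, 0, 0, 0], ![1, 1, 0, 0, 0], ![1, 0, 0, 0, 0], ![0, 0, 1, 0, 0], ![0, 1, 0, 0, 0],
    ![0, 0, 0, 0, 0]]

/-- exponents at the second end of an edge -/
def t5A' : Fin 6 → Fin 5 → ℕ :=
  ![![0, 0, 0, 0, 0], ![0, 1, 0, 0, 0], ![0, 0, 1, 0, 0], ![1, 0, 0, 0, 0], ![1, 1, 0, 0, 0],
    ![2, 0, 0, 0, 0]]

/-- exponents at the first end of an edge to `T` -/
def t5B : Fin 6 → Fin 5 → ℕ :=
  ![![2, 0, 0, 0, 0], ![0, 0, 0, 1, 0], ![0, 0, 0, 0, 0], ![0, 0, 0, 0, 0], ![0, 0, 0, 0, 0],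
    ![0, 0, 0, 0, 0]]

/-- exponents at the second end of an edge to `T` -/
def t5Y : Fin 6 → Fin 5 → ℕ :=
  ![![0, 0, 0, 0, 0], ![0, 0, 0, 0, 1], ![0, 0, 0, 0, 2], ![0, 0, 0, 0, 0], ![0, 0, 0, 0, 0],
    ![0, 0, 0, 0, 0]]

theorem t5_edge (u v : V) (hu : u ∉ T) (hv : v ∉ T) : edge u v =
    ∑ j : Fin 6, t5tm T (Pi.single u (t5A j) + Pi.single v (t5A' j)) := by
  simp only [t5tm_add, t5tm_single, t5m, if_neg hu, if_neg hv, Fin.sum_univ_six, t5A, t5A']
  simp [edge, Fin.prod_univ_two, e2, h2, rename_X, Finset.sum_range_succ]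
  ring

theorem t5_edgeB (ε : ℚ) (hε : ε ^ 2 = 1) (u v : V) (hu : u ∉ T) (hv : v ∈ T) :
    spT T (edgeS ε u v) =
    ∑ j ∈ {0, 1, 2}, t5tm T (Pi.single u (t5B j) + Pi.single v (t5Y j)) := by
  have hC : (C ε : MvPolynomial (V × Fin 2) ℚ) ^ 2 = 1 := by
    rw [← C_pow, hε, C_1]
  rw [Finset.sum_insert (by decide), Finset.sum_insert (by decide), Finset.sum_singleton]
  simp only [t5tm_add, t5tm_single, t5m, if_neg hu, if_pos hv, t5B, t5Y]
  simp [edgeS, spT, Fin.prod_univ_two, e2, h2, p2, rename_X, Finset.sum_range_succ, hu, hv]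
  linear_combination (-(X (v, 0)) ^ 2 * (X (u, 0) ^ 2 + X (u, 1) ^ 2) +
    (C ε ^ 2 + 1) * X (v, 0) ^ 4) * hC

/-- the value at a vertex of `T` -/
theorem t5_tval (k y : ℕ) : (-1 : ℚ) ^ k *
    ev (Finsupp.single (ex (2 * k) 0) 1) ((-X 0 ^ 2) ^ y) = if y = k then 1 else 0 := by
  have h1 : (-X 0 ^ 2 : R2) ^ y = monomial (ex (2 * y) 0) ((-1) ^ y) := by
    have h2 : ex (2 * y) 0 = Finsupp.single 0 (2 * y) := by
      symm
      rw [loct_ex_eq]
      simp
    rw [h2, neg_pow, ← pow_mul, X_pow_eq_monomial]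
    have h3 : ((-1 : R2)) ^ y = C ((-1) ^ y) := by simp
    rw [h3, C_mul_monomial, mul_one]
  rw [ev, Finsupp.sum_single_index (zero_mul _), one_mul, h1, coeff_monomial]
  by_cases h : y = k
  · subst h
    rw [if_pos rfl, if_pos rfl, ← mul_pow]
    norm_num
  · rw [if_neg h, if_neg, mul_zero]
    intro h2
    have h3 := ((loct_ex_eq _ _ _).1 h2).1
    rw [loct_ex_apply_zero] at h3
    omega

/-- the functional at a vertex outside of `T` -/
theorem t5_loc (hS : S_LocS) (hI : S_LocI) (c L K : ℕ) (i : Prop) (h1 : ¬ i → L + 1 ≤ 2 * c)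
    (h2 : i → L ≤ 2 * c) (h3 : i → K = 0) :
    ∃ w : (Fin 2 →₀ ℕ) →₀ ℚ, (∀ t ∈ w.support, t 0 ≤ c + 1 ∧ t 1 ≤ c) ∧
      (∀ n o m k : ℕ, k ≤ K → 0 ≤ ev w (d2 * (e2 ^ n * T72.h2 1 ^ o * T72.h2 2 ^ m * p2 ^ k))) ∧
      (∀ n o m k : ℕ, k ≤ K → 2 * n + o + 2 * m + 2 * k = L → (k = 0 ∨ L + 2 ≤ 2 * c) →
        (i → m = 0) → 0 < ev w (d2 * (e2 ^ n * T72.h2 1 ^ o * T72.h2 2 ^ m * p2 ^ k))) := by
  by_cases hi : i
  · obtain ⟨w, q1, q2, q3⟩ := hI c L (h2 hi)
    refine ⟨w, q1, fun n o m k hk => ?_, fun n o m k hk hL _ hm => ?_⟩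
    · have h4 : k = 0 := by
        have := h3 hi
        omega
      subst h4
      rw [pow_zero, mul_one]
      exact q2 n o m
    · have h4 : k = 0 := by
        have := h3 hi
        omega
      have h5 : m = 0 := hm hi
      subst h4 h5
      rw [pow_zero, mul_one, pow_zero, mul_one]
      exact q3 n o (by omega)
  · obtain ⟨w, q1, q2, q3⟩ := hS c L K (h1 hi)
    exact ⟨w, q1, q2, fun n o m k hk hL h _ => q3 n o m k hk hL h⟩

omit [Fintype V] in
/-- the sum of the exponents -/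
theorem t5_sum (E B : Finset (V × V)) (A A' : {e // e ∈ E} → Fin 5 → ℕ)
    (A2 Y : {e // e ∈ B} → Fin 5 → ℕ) (v : V) (φ : (Fin 5 → ℕ) →+ ℕ) :
    φ ((∑ e : {e // e ∈ E}, (Pi.single e.1.1 (A e) + Pi.single e.1.2 (A' e)) +
      ∑ e : {e // e ∈ B}, (Pi.single e.1.1 (A2 e) + Pi.single e.1.2 (Y e)) :
        V → Fin 5 → ℕ) v) =
      ((∑ e : {e // e ∈ E}, if e.1.1 = v then φ (A e) else 0) +
        ∑ e : {e // e ∈ E}, if e.1.2 = v then φ (A' e) else 0) +
      ((∑ e : {e // e ∈ B}, if e.1.1 = v then φ (A2 e) else 0) +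
        ∑ e : {e // e ∈ B}, if e.1.2 = v then φ (Y e) else 0) := by
  have h : ∀ (u : V) (d : Fin 5 → ℕ), φ ((Pi.single u d : V → Fin 5 → ℕ) v) =
      if u = v then φ d else 0 := by
    intro u d
    by_cases huv : u = v
    · subst huv
      rw [Pi.single_eq_same, if_pos rfl]
    · rw [Pi.single_eq_of_ne (Ne.symm huv), if_neg huv, map_zero]
  simp only [Pi.add_apply, Finset.sum_apply, map_add, map_sum, h, Finset.sum_add_distrib]

/-- the choice for an edge -/
theorem t5_choice (x : ℕ) (hx : x ≤ 4) (i i' : Prop) (h : ¬ (i ∧ i')) : ∃ j : Fin 6,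
    2 * t5A j 0 + t5A j 1 + 2 * t5A j 2 + 2 * t5A j 3 = x ∧
    2 * t5A' j 0 + t5A' j 1 + 2 * t5A' j 2 + 2 * t5A' j 3 = 4 - x ∧
    (i → t5A j 2 = 0) ∧ (i' → t5A' j 2 = 0) := by
  interval_cases x
  · exact ⟨5, rfl, rfl, fun _ => rfl, fun _ => rfl⟩
  · exact ⟨4, rfl, rfl, fun _ => rfl, fun _ => rfl⟩
  · by_cases hi : i
    · exact ⟨2, rfl, rfl, fun _ => rfl, fun hi' => absurd ⟨hi, hi'⟩ h⟩
    · exact ⟨3, rfl, rfl, fun hi' => absurd hi' hi, fun _ => rfl⟩
  · exact ⟨1, rfl, rfl, fun _ => rfl, fun _ => rfl⟩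
  · exact ⟨0, rfl, rfl, fun _ => rfl, fun _ => rfl⟩

theorem t5_choiceB (a : ℕ) (ha : a ≤ 2) : ∃ j : Fin 6, j ∈ ({0, 1, 2} : Finset (Fin 6)) ∧
    2 * t5B j 0 + t5B j 1 + 2 * t5B j 2 + 2 * t5B j 3 = 4 - 2 * a ∧ t5B j 2 = 0 ∧
    t5B j 3 ≤ a ∧ t5Y j 4 = a := by
  interval_cases a
  · exact ⟨0, by decide, rfl, rfl, le_refl _, rfl⟩
  · exact ⟨1, by decide, rfl, rfl, le_refl _, rfl⟩
  · exact ⟨2, by decide, rfl, rfl, by decide, rfl⟩

/-- the load of an exponent -/
def t5L : (Fin 5 → ℕ) →+ ℕ where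
  toFun d := 2 * d 0 + d 1 + 2 * d 2 + 2 * d 3
  map_zero' := rfl
  map_add' := by
    intro a b
    simp only [Pi.add_apply]
    ring

/-- one component of an exponent -/
def t5c (i : Fin 5) : (Fin 5 → ℕ) →+ ℕ := Pi.evalAddMonoidHom (fun _ => ℕ) i

omit [Fintype V] in
theorem t5_spT_edge (u v : V) (hu : u ∉ T) (hv : v ∉ T) : spT T (edge u v) = edge u v := by
  simp [edge, spT, hu, hv]

theorem t5_Ev_sum {ι : Type} (w : V → ((Fin 2 →₀ ℕ) →₀ ℚ)) (s : Finset ι)
    (f : ι → MvPolynomial (V × Fin 2) ℚ) : Ev w (∑ i ∈ s, f i) = ∑ i ∈ s, Ev w (f i) := by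
  classical
  induction s using Finset.induction_on with
  | empty => rw [Finset.sum_empty, Finset.sum_empty, spc_Ev_zero]
  | insert a s ha ih => rw [Finset.sum_insert ha, Finset.sum_insert ha, spc_Ev_add, ih]

omit [Fintype V] in
theorem t5_filter (E : Finset (V × V)) (f : V × V → ℕ) (g : V × V → V) (v : V) :
    ∑ e ∈ E with g e = v, f e = ∑ e : {e // e ∈ E}, if g e.1 = v then f e.1 else 0 := by
  rw [Finset.sum_filter, ← Finset.sum_coe_sort E]

end t5

/-- **T5cert.** -/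
theorem tT5cert (hTens : S_Tens) (hLocT : S_LocT) (hLocS : S_LocS) (hLocI : S_LocI)
    (hSpc : S_Spc) (_hEdge : S_Edge) : S_T5cert := by
  classical
  intro V _ _ T I E B c ε x a hε hE hB hload hloadI
  obtain ⟨k, hk⟩ : ∃ k : V → ℕ, ∀ v, k v = ∑ e ∈ B with e.2 = v, a e := ⟨_, fun _ => rfl⟩
  obtain ⟨K, hK⟩ : ∃ K : V → ℕ, ∀ v, K v = ∑ e ∈ B with e.1 = v, 1 := ⟨_, fun _ => rfl⟩
  obtain ⟨L, hL⟩ : ∃ L : V → ℕ, ∀ s, L s = (∑ e ∈ E with e.1 = s, x e) +
      (∑ e ∈ E with e.2 = s, (4 - x e)) + (∑ e ∈ B with e.1 = s, (4 - 2 * a e)) :=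
    ⟨_, fun _ => rfl⟩
  have hKI : ∀ v ∈ I, ∀ f : V × V → ℕ, ∑ e ∈ B with e.1 = v, f e = 0 := by
    intro v hv f
    have h : B.filter (fun e => e.1 = v) = ∅ := by
      rw [Finset.filter_eq_empty_iff]
      intro e he h
      exact (hB e he).2.2.2 (h ▸ hv)
    rw [h, Finset.sum_empty]
  -- the functionals
  have hw : ∀ v, ∃ w : (Fin 2 →₀ ℕ) →₀ ℚ,
      (v ∉ T → (∀ t ∈ w.support, t 0 ≤ c v + 1 ∧ t 1 ≤ c v) ∧
        (∀ n o m j : ℕ, j ≤ K v → 0 ≤ ev w (d2 * (e2 ^ n * h2 1 ^ o * h2 2 ^ m * p2 ^ j))) ∧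
        (∀ n o m j : ℕ, j ≤ K v → 2 * n + o + 2 * m + 2 * j = L v →
          (j = 0 ∨ L v + 2 ≤ 2 * c v) → (v ∈ I → m = 0) →
          0 < ev w (d2 * (e2 ^ n * h2 1 ^ o * h2 2 ^ m * p2 ^ j)))) ∧
      (v ∈ T → (∀ t ∈ w.support, t 0 ≤ 2 * k v + 1 ∧ t 1 ≤ 2 * k v + 1) ∧
        ∀ g : R2, Sym2v g → ev w (d2 * g) = coeff (ex (2 * k v) 0) (ngv g)) := by
    intro v
    by_cases hv : v ∈ T
    · obtain ⟨w, q1, q2⟩ := hLocT (k v)
      exact ⟨w, fun h => absurd hv h, fun _ => ⟨q1, q2⟩⟩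
    · have h1 : v ∉ I → L v + 1 ≤ 2 * c v := by
        intro hi
        have h := hload v hv hi
        rw [hL]
        omega
      have h2 : v ∈ I → L v ≤ 2 * c v := by
        intro hi
        have h := hloadI v hv hi
        rw [hL, hKI v hi]
        omega
      have h3 : v ∈ I → K v = 0 := by
        intro hi
        rw [hK, hKI v hi]
      obtain ⟨w, q⟩ := t5_loc hLocS hLocI (c v) (L v) (K v) (v ∈ I) h1 h2 h3
      exact ⟨w, fun _ => q, fun h => absurd h hv⟩
  choose w hwS hwT using hw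
  -- the functional is not zero
  have hmain : Ev w (van V * ((∏ e ∈ E, edge e.1 e.2) *
      ∏ e ∈ B, edgeS (ε e.1) e.1 e.2)) ≠ 0 := by
    have hEd : ∀ u v : V, edge u v = edgeS 1 u v := by
      intro u v
      simp [edge, edgeS]
    have hF : ((∏ e ∈ E, edge e.1 e.2) * ∏ e ∈ B, edgeS (ε e.1) e.1 e.2) ∈ Psp V := by
      have hprod : ∀ (s : Finset (V × V)) (f : V × V → MvPolynomial (V × Fin 2) ℚ),
          (∀ e ∈ s, f e ∈ Psp V) → ∏ e ∈ s, f e ∈ Psp V := by
        intro s f hf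
        induction s using Finset.induction_on with
        | empty =>
          rw [Finset.prod_empty]
          exact (hSpc.1 V).1
        | insert b s hb ih =>
          rw [Finset.prod_insert hb]
          exact (hSpc.1 V).2.1 _ (hf b (Finset.mem_insert_self b s)) _
            (ih fun e he => hf e (Finset.mem_insert_of_mem he))
      refine (hSpc.1 V).2.1 _ (hprod _ _ fun e he => ?_) _ (hprod _ _ fun e he => ?_)
      · rw [hEd]
        exact (hSpc.1 V).2.2 1 _ _ (one_pow 2) (hE e he).1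
      · exact (hSpc.1 V).2.2 _ _ _ (hε _) (fun h => (hB e he).1 (h ▸ (hB e he).2.1))
    rw [hSpc.2 V T k w (fun t ht => (hwT t ht).2) _ hF]
    obtain ⟨d, hd⟩ : ∃ d : ({e // e ∈ E} ⊕ {e // e ∈ B}) → Fin 6 → V → Fin 5 → ℕ,
        d = Sum.elim (fun e j => Pi.single e.1.1 (t5A j) + Pi.single e.1.2 (t5A' j))
          (fun e j => Pi.single e.1.1 (t5B j) + Pi.single e.1.2 (t5Y j)) := ⟨_, rfl⟩
    obtain ⟨J, hJ⟩ : ∃ J : ({e // e ∈ E} ⊕ {e // e ∈ B}) → Finset (Fin 6),
        J = Sum.elim (fun _ => univ) (fun _ => {0, 1, 2}) := ⟨_, rfl⟩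
    have hexp : spT T ((∏ e ∈ E, edge e.1 e.2) * ∏ e ∈ B, edgeS (ε e.1) e.1 e.2) =
        ∑ p ∈ Fintype.piFinset J, t5tm T (∑ i, d i (p i)) := by
      have h1 : ∀ p : ({e // e ∈ E} ⊕ {e // e ∈ B}) → Fin 6,
          t5tm T (∑ i, d i (p i)) = ∏ i, t5tm T (d i (p i)) := fun p => t5tm_sum T univ _
      rw [Finset.sum_congr rfl fun p _ => h1 p,
        ← Finset.prod_univ_sum J (fun i j => t5tm T (d i j)), Fintype.prod_sum_type,
        map_mul, map_prod, map_prod, ← Finset.prod_coe_sort E, ← Finset.prod_coe_sort B]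
      congr 1
      · refine Finset.prod_congr rfl fun e _ => ?_
        obtain ⟨-, h2, h3, -⟩ := hE e.1 e.2
        rw [t5_spT_edge T _ _ h2 h3, t5_edge T _ _ h2 h3, hd, hJ]
        rfl
      · refine Finset.prod_congr rfl fun e _ => ?_
        obtain ⟨h2, h3, -⟩ := hB e.1 e.2
        rw [t5_edgeB T _ (hε _) _ _ h2 h3, hd, hJ]
        rfl
    have hsum : ∀ p : ({e // e ∈ E} ⊕ {e // e ∈ B}) → Fin 6, ∑ i, d i (p i) =
        ∑ e : {e // e ∈ E}, (Pi.single e.1.1 (t5A (p (Sum.inl e))) +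
          Pi.single e.1.2 (t5A' (p (Sum.inl e)))) +
        ∑ e : {e // e ∈ B}, (Pi.single e.1.1 (t5B (p (Sum.inr e))) +
          Pi.single e.1.2 (t5Y (p (Sum.inr e)))) := by
      intro p
      rw [Fintype.sum_sum_type, hd]
      rfl
    obtain ⟨σ, hσ⟩ : ∃ σ : ℚ, σ = ∏ v, (if v ∈ T then (-1 : ℚ) ^ (k v) else 1) := ⟨_, rfl⟩
    have hval : ∀ q : V → Fin 5 → ℕ, σ * Ev (fun v => if v ∈ T then
        Finsupp.single (ex (2 * k v) 0) 1 else w v)
        ((∏ v ∈ univ \ T, (X (v, 0) - X (v, 1))) * t5tm T q) =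
        ∏ v, (if v ∈ T then (if q v 4 = k v then 1 else 0) else
          ev (w v) (d2 * (e2 ^ (q v 0) * h2 1 ^ (q v 1) * h2 2 ^ (q v 2) * p2 ^ (q v 3)))) := by
      intro q
      rw [spc_vanS, t5tm, spc_prd_mul, (hTens V _).2, hσ, ← Finset.prod_mul_distrib]
      refine Finset.prod_congr rfl fun v _ => ?_
      by_cases hv : v ∈ T
      · simp only [if_pos hv, t5m, one_mul]
        exact t5_tval _ _
      · simp only [if_neg hv, t5m, one_mul]
    have hA3 : ∀ j, t5c 3 (t5A j) = 0 := by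
      intro j
      fin_cases j <;> rfl
    have hA3' : ∀ j, t5c 3 (t5A' j) = 0 := by
      intro j
      fin_cases j <;> rfl
    have hB3 : ∀ j, t5c 3 (t5B j) ≤ 1 := by
      intro j
      fin_cases j <;> decide
    have hY3 : ∀ j, t5c 3 (t5Y j) = 0 := by
      intro j
      fin_cases j <;> rfl
    have hY2 : ∀ j, t5c 2 (t5Y j) = 0 := by
      intro j
      fin_cases j <;> rfl
    have hYL : ∀ j, t5L (t5Y j) = 0 := by
      intro j
      fin_cases j <;> rfl
    have hA4 : ∀ j, t5c 4 (t5A j) = 0 := by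
      intro j
      fin_cases j <;> rfl
    have hA4' : ∀ j, t5c 4 (t5A' j) = 0 := by
      intro j
      fin_cases j <;> rfl
    have hB4 : ∀ j, t5c 4 (t5B j) = 0 := by
      intro j
      fin_cases j <;> rfl
    have hK3 : ∀ (p : ({e // e ∈ E} ⊕ {e // e ∈ B}) → Fin 6) (v : V),
        (∑ i, d i (p i)) v 3 ≤ K v := by
      intro p v
      have h3 := t5_sum E B (fun e => t5A (p (Sum.inl e))) (fun e => t5A' (p (Sum.inl e)))
        (fun e => t5B (p (Sum.inr e))) (fun e => t5Y (p (Sum.inr e))) v (t5c 3)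
      rw [← hsum] at h3
      simp only [hA3, hA3', hY3, ite_self, Finset.sum_const_zero, zero_add, add_zero] at h3
      rw [hK, t5_filter B (fun _ => 1) (fun e => e.1)]
      refine (le_of_eq h3).trans (Finset.sum_le_sum fun e _ => ?_)
      split_ifs
      · exact hB3 _
      · exact le_refl _
    intro h0
    rw [hexp, Finset.mul_sum, t5_Ev_sum] at h0
    have hpos : 0 < ∑ p ∈ Fintype.piFinset J, σ * Ev (fun v => if v ∈ T then
        Finsupp.single (ex (2 * k v) 0) 1 else w v)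
        ((∏ v ∈ univ \ T, (X (v, 0) - X (v, 1))) * t5tm T (∑ i, d i (p i))) := by
      apply Finset.sum_pos'
      · intro p _
        rw [hval]
        refine Finset.prod_nonneg fun v _ => ?_
        split_ifs with h1 h2
        · norm_num
        · norm_num
        · exact (hwS v h1).2.1 _ _ _ _ (hK3 p v)
      · have hchE := fun e : {e // e ∈ E} => t5_choice (x e.1) (hE e.1 e.2).2.2.2.1 (e.1.1 ∈ I)
          (e.1.2 ∈ I) (hE e.1 e.2).2.2.2.2
        choose jE hjE using hchE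
        have hchB := fun e : {e // e ∈ B} => t5_choiceB (a e.1) (hB e.1 e.2).2.2.1
        choose jB hjB using hchB
        refine ⟨Sum.elim jE jB, ?_, ?_⟩
        · rw [Fintype.mem_piFinset]
          rintro (e | e)
          · rw [hJ]
            exact Finset.mem_univ _
          · rw [hJ]
            exact (hjB e).1
        · rw [hval]
          refine Finset.prod_pos fun v _ => ?_
          have h3 := t5_sum E B (fun e => t5A (jE e)) (fun e => t5A' (jE e))
            (fun e => t5B (jB e)) (fun e => t5Y (jB e)) v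
          have h4 := hsum (Sum.elim jE jB)
          simp only [Sum.elim_inl, Sum.elim_inr] at h4
          rw [← h4] at h3
          split_ifs with h1 h2
          · norm_num
          · exfalso
            apply h2
            have h5 := h3 (t5c 4)
            have h6 : ∀ e : {e // e ∈ B}, t5c 4 (t5Y (jB e)) = a e.1 := fun e => (hjB e).2.2.2.2
            simp only [hA4, hA4', hB4, h6, ite_self, Finset.sum_const_zero, zero_add] at h5
            rw [hk, t5_filter B a (fun e => e.2)]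
            exact h5
          · have h5 : (∑ i, d i ((Sum.elim jE jB) i)) v 3 ≤ ∑ e ∈ B with e.1 = v, a e := by
              have h6 := h3 (t5c 3)
              simp only [hA3, hA3', hY3, ite_self, Finset.sum_const_zero, zero_add,
                add_zero] at h6
              rw [t5_filter B a (fun e => e.1)]
              refine (le_of_eq h6).trans (Finset.sum_le_sum fun e _ => ?_)
              split_ifs
              · exact (hjB e).2.2.2.1
              · exact le_refl _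
            apply (hwS v h1).2.2
            · exact hK3 _ v
            · have h6 := h3 t5L
              have h7 : ∀ e : {e // e ∈ E}, t5L (t5A (jE e)) = x e.1 := fun e => (hjE e).1
              have h8 : ∀ e : {e // e ∈ E}, t5L (t5A' (jE e)) = 4 - x e.1 :=
                fun e => (hjE e).2.1
              have h9 : ∀ e : {e // e ∈ B}, t5L (t5B (jB e)) = 4 - 2 * a e.1 :=
                fun e => (hjB e).2.1
              simp only [h7, h8, h9, hYL, ite_self, Finset.sum_const_zero, add_zero] at h6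
              rw [hL, t5_filter E x (fun e => e.1), t5_filter E (fun e => 4 - x e) (fun e => e.2),
                t5_filter B (fun e => 4 - 2 * a e) (fun e => e.1)]
              exact h6
            · by_cases hi : v ∈ I
              · left
                have h6 := hKI v hi a
                omega
              · have h6 := hload v h1 hi
                rw [← hL] at h6
                omega
            · intro hi
              have h6 := h3 (t5c 2)
              have e1 : (∑ e : {e // e ∈ E}, if e.1.1 = v then t5c 2 (t5A (jE e)) else 0) = 0 := by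
                refine Finset.sum_eq_zero fun e _ => ?_
                split_ifs with h
                · exact (hjE e).2.2.1 (h ▸ hi)
                · rfl
              have e2 : (∑ e : {e // e ∈ E}, if e.1.2 = v then t5c 2 (t5A' (jE e)) else 0) = 0 := by
                refine Finset.sum_eq_zero fun e _ => ?_
                split_ifs with h
                · exact (hjE e).2.2.2 (h ▸ hi)
                · rfl
              have e3 : ∀ e : {e // e ∈ B}, t5c 2 (t5B (jB e)) = 0 := fun e => (hjB e).2.2.1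
              rw [e1, e2] at h6
              simp only [e3, hY2, ite_self, Finset.sum_const_zero, add_zero] at h6
              exact h6
    rw [← Finset.mul_sum, h0, mul_zero] at hpos
    exact lt_irrefl _ hpos
  -- conclusion
  unfold Ev at hmain
  obtain ⟨t, ht, h⟩ := Finset.exists_ne_zero_of_sum_ne_zero hmain
  refine ⟨t, ?_, ?_, right_ne_zero_of_mul h⟩
  · intro s hs
    exact (hwS s hs).1 (t s) (Fintype.mem_piFinset.1 ht s)
  · intro v hv
    rw [← hk]
    exact (hwT v hv).1 (t v) (Fintype.mem_piFinset.1 ht v)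

end T72
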