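import Pool.Agent.Lib.MP_86b854_co.AlgSpec

set_option autoImplicit false

/-! MP_86b854_co, algebra layer: extension of a colouring of the complement of `S` -/

namespace T72

open Finset

variable {V : Type}

/-- the graph restricted to `S` -/
def extG (G : SimpleGraph V) (S : Finset V) : SimpleGraph V where
  Adj u v := G.Adj u v ∧ u ∈ S ∧ v ∈ S
  symm := ⟨fun _ _ h => ⟨h.1.symm, h.2.2, h.2.1⟩⟩
  loopless := ⟨fun _ h => h.1.ne rfl⟩

theorem tExt (hBip : S_Bip) (hLoad : S_Load) : S_Ext := by
  classical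
  intro V _ _ G _ L S D f hL hf hS hD hH
  obtain ⟨col, hcol⟩ := hS
  obtain ⟨hDS, hDc⟩ := hD
  -- the neighbours outside
  set O : V → Finset V := fun v => univ.filter fun w => w ∉ S ∧ G.Adj v w with hO
  have hout : ∀ X : Finset V, eBt G X Sᶜ = ∑ v ∈ X, (O v).card := by
    intro X
    unfold eBt
    rw [card_filter, sum_product]
    refine sum_congr rfl fun v _ => ?_
    rw [← card_filter]
    congr 1
    ext w
    simp [hO]
  have hO2 : ∀ v ∈ S, (O v).card ≤ 2 := by
    intro v hv
    have h := hH {v} (singleton_subset_iff.2 hv)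
    rw [hout, sum_singleton, card_singleton] at h
    omega
  set c : V → ℕ := fun v => if v ∈ S then 5 - 2 * (O v).card else 5 with hc
  set κ : V → ℕ := fun v => 2 * c v - (if v ∈ D then 1 else 0) with hκ
  have hκS : ∀ v ∈ S, κ v + 4 * (O v).card + (if v ∈ D then 1 else 0) = 10 := by
    intro v hv
    have h2 := hO2 v hv
    simp only [hκ, hc, if_pos hv]
    split_ifs <;> omega
  have hκc : ∀ v, κ v + (if v ∈ D then 1 else 0) ≤ 2 * c v := by
    intro v
    have h1 : 1 ≤ c v := by
      simp only [hc]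
      split_ifs with hv
      · have := hO2 v hv
        omega
      · omega
    simp only [hκ]
    split_ifs <;> omega
  have hin : ∀ X : Finset V, eIn (extG G S) X = eIn G (X ∩ S) := by
    intro X
    unfold eIn
    congr 1
    ext ⟨u, v⟩
    simp only [mem_filter, mem_product, mem_inter, extG]
    tauto
  have hHall : ∀ X : Finset V, 2 * eIn (extG G S) X ≤ ∑ v ∈ X, κ v := by
    intro X
    rw [hin]
    have h1 : ∑ v ∈ X ∩ S, κ v ≤ ∑ v ∈ X, κ v :=
      sum_le_sum_of_subset inter_subset_left
    refine le_trans ?_ h1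
    have h2 := hH (X ∩ S) inter_subset_right
    rw [hout] at h2
    have h3 : ∑ v ∈ X ∩ S, (κ v + 4 * (O v).card + (if v ∈ D then 1 else 0)) =
        10 * (X ∩ S).card := by
      rw [sum_congr rfl fun v hv => hκS v (mem_inter.1 hv).2, sum_const, smul_eq_mul, mul_comm]
    rw [sum_add_distrib, sum_add_distrib, ← mul_sum, ← card_filter, filter_mem_eq_inter] at h3
    omega
  obtain ⟨x, hx, hxκ⟩ := hLoad V (extG G S) κ hHall
  set L' : V → Finset ℕ := fun v => if v ∈ S then L v \ (O v).biUnion f else range 7 with hL'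
  have hcard : ∀ v, c v + 2 ≤ (L' v).card := by
    intro v
    simp only [hc, hL']
    by_cases hv : v ∈ S
    · rw [if_pos hv, if_pos hv]
      have h1 : (L v).card ≤ (L v \ (O v).biUnion f).card + ((O v).biUnion f).card := by
        have := le_card_sdiff ((O v).biUnion f) (L v)
        omega
      have h2 : ((O v).biUnion f).card ≤ (O v).card * 2 := by
        refine card_biUnion_le_card_mul _ _ _ fun w hw => ?_
        have hw' : w ∈ Sᶜ := by
          rw [hO, mem_filter] at hw
          exact mem_compl.2 hw.2.1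
        exact (hf.1 w hw').2.le
      have h3 := hO2 v hv
      rw [hL v hv] at h1
      omega
    · rw [if_neg hv, if_neg hv, card_range]
  obtain ⟨f₀, hf₀, hf₀'⟩ := hBip V (extG G S) col c L' D x
    (fun u v h => hcol u h.2.1 v h.2.2 h.1) (fun u v h => hDc u h.2.1 v h.2.2 h.1) hcard hx
    (fun v => (Nat.add_le_add_right (hxκ v) _).trans (hκc v))
  have hsub : ∀ v ∈ S, f₀ v ⊆ L v \ (O v).biUnion f := by
    intro v hv
    have h := (hf₀ v).1
    simp only [hL', if_pos hv] at h
    exact h
  have hmix : ∀ v ∈ S, ∀ w, w ∉ S → G.Adj v w → Disjoint (f₀ v) (f w) := by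
    intro v hv w hw hvw
    refine Finset.disjoint_left.2 fun a ha haw => ?_
    have h1 := mem_sdiff.1 (hsub v hv ha)
    refine h1.2 (mem_biUnion.2 ⟨w, ?_, haw⟩)
    rw [hO, mem_filter]
    exact ⟨mem_univ _, hw, hvw⟩
  refine ⟨fun v => if v ∈ S then f₀ v else f v, fun v hv => if_neg hv, ?_, ?_⟩
  · intro v _
    by_cases hv : v ∈ S
    · simp only [if_pos hv]
      exact ⟨(hsub v hv).trans sdiff_subset, (hf₀ v).2⟩
    · simp only [if_neg hv]
      exact hf.1 v (mem_compl.2 hv)
  · intro u _ v _ huv
    by_cases hu : u ∈ S <;> by_cases hv : v ∈ S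
    · simp only [if_pos hu, if_pos hv]
      exact hf₀' u v ⟨huv, hu, hv⟩
    · simp only [if_pos hu, if_neg hv]
      exact hmix u hu v hv huv
    · simp only [if_neg hu, if_pos hv]
      exact (hmix v hv u hu huv.symm).symm
    · simp only [if_neg hu, if_neg hv]
      exact hf.2 u (mem_compl.2 hu) v (mem_compl.2 hv) huv

end T72
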