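import Pool.Agent.Lib.MP_86b854_co.AlgSpec3
import Pool.Agent.Lib.MP_86b854_co.Ext

set_option autoImplicit false

/-! MP_86b854_co, Theorem T5: extension of a colouring of the complement of `S ∪ T` -/

namespace T72

open Finset

theorem tT5ext (hBip : S_T5bip) (hLoad : S_T5load) : S_T5ext := by
  classical
  intro V _ _ G _ L S T I f hL hf hS hST hTi hIS hIi hIT hT1 hH
  obtain ⟨col, hcol⟩ := hS
  -- the neighbours outside
  set R : Finset V := S ∪ T with hR
  have hSR : S ⊆ R := subset_union_left
  have hTR : T ⊆ R := subset_union_right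
  set O : V → Finset V := fun v => univ.filter fun w => w ∉ R ∧ G.Adj v w with hO
  have hout : ∀ X : Finset V, eBt G X Sᶜ = eBt G X T + ∑ v ∈ X, (O v).card := by
    intro X
    unfold eBt
    rw [card_filter, card_filter, sum_product, sum_product, ← sum_add_distrib]
    refine sum_congr rfl fun v _ => ?_
    rw [← card_filter, ← card_filter, ← card_union_of_disjoint]
    · congr 1
      ext w
      simp only [hO, hR, mem_filter, mem_compl, mem_union, mem_univ, true_and]
      constructor
      · rintro ⟨h1, h2⟩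
        by_cases hw : w ∈ T
        · exact Or.inl ⟨hw, h2⟩
        · exact Or.inr ⟨fun h => h.elim h1 hw, h2⟩
      · rintro (⟨h1, h2⟩ | ⟨h1, h2⟩)
        · exact ⟨fun h => disjoint_left.1 hST h h1, h2⟩
        · exact ⟨fun h => h1 (Or.inl h), h2⟩
    · rw [disjoint_left]
      intro w hw hw'
      rw [mem_filter] at hw
      simp only [hO, mem_filter] at hw'
      exact hw'.2.1 (hTR hw.1)
  have hO2 : ∀ v ∈ S, (O v).card ≤ 2 := by
    intro v hv
    have h := hH {v} (singleton_subset_iff.2 hv)
    rw [hout, sum_singleton, card_singleton] at h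
    have h1 : ∑ t ∈ T, min (2 - dgI G Sᶜ t) (dgI G {v} t) ≤ eBt G {v} T := by
      have h2 : eBt G {v} T = ∑ t ∈ T, dgI G {v} t := by
        unfold eBt dgI
        rw [card_filter, sum_product_right]
        refine sum_congr rfl fun t _ => ?_
        rw [card_filter]
        refine sum_congr rfl fun w _ => ?_
        simp only [G.adj_comm]
      rw [h2]
      exact sum_le_sum fun t _ => min_le_right _ _
    have h3 : ({v} ∩ I : Finset V).card ≤ 1 :=
      (card_le_card inter_subset_left).trans (card_singleton v).le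
    omega
  set c : V → ℕ := fun v => if v ∈ S then 5 - 2 * (O v).card else 1 with hc
  set κ : V → ℕ := fun v => 2 * c v - (if v ∈ I then 0 else 1) with hκ
  set p : V → ℕ := fun t => 2 - dgI G Sᶜ t with hp
  have hc1 : ∀ v, 1 ≤ c v := by
    intro v
    simp only [hc]
    split_ifs with hv
    · have := hO2 v hv
      omega
    · omega
  have hκS : ∀ v ∈ S, κ v + 4 * (O v).card = 9 + (if v ∈ I then 1 else 0) := by
    intro v hv
    have h2 := hO2 v hv
    simp only [hκ, hc, if_pos hv]
    split_ifs <;> omega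
  have hXS : ∀ X : Finset V, Disjoint X T → ∀ v ∈ X, (v ∈ R ↔ v ∈ S) := by
    intro X hX v hv
    rw [hR, mem_union]
    constructor
    · rintro (h | h)
      · exact h
      · exact absurd h (disjoint_left.1 hX hv)
    · exact Or.inl
  have hHall : ∀ X : Finset V, Disjoint X T →
      2 * eIn (extG G R) X + 4 * eBt (extG G R) X T ≤
        (∑ v ∈ X, κ v) + ∑ t ∈ T, min (p t) (dgI (extG G R) X t) := by
    intro X hX
    have e1 : eIn (extG G R) X = eIn G (X ∩ S) := by
      unfold eIn
      congr 1
      ext ⟨u, v⟩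
      simp only [mem_filter, mem_product, mem_inter, extG]
      constructor
      · rintro ⟨⟨h1, h2⟩, h3, h4, h5⟩
        exact ⟨⟨⟨h1, (hXS X hX u h1).1 h4⟩, h2, (hXS X hX v h2).1 h5⟩, h3⟩
      · rintro ⟨⟨⟨h1, h4⟩, h2, h5⟩, h3⟩
        exact ⟨⟨h1, h2⟩, h3, hSR h4, hSR h5⟩
    have e2 : eBt (extG G R) X T = eBt G (X ∩ S) T := by
      unfold eBt
      congr 1
      ext ⟨u, v⟩
      simp only [mem_filter, mem_product, mem_inter, extG]
      constructor
      · rintro ⟨⟨h1, h2⟩, h3, h4, h5⟩
        exact ⟨⟨⟨h1, (hXS X hX u h1).1 h4⟩, h2⟩, h3⟩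
      · rintro ⟨⟨⟨h1, h4⟩, h2⟩, h3⟩
        exact ⟨⟨h1, h2⟩, h3, hSR h4, hTR h2⟩
    have e3 : ∀ t ∈ T, dgI (extG G R) X t = dgI G (X ∩ S) t := by
      intro t ht
      unfold dgI
      congr 1
      ext v
      simp only [mem_filter, mem_inter, extG]
      constructor
      · rintro ⟨h1, h2, h3, h4⟩
        exact ⟨⟨h1, (hXS X hX v h1).1 h4⟩, h2⟩
      · rintro ⟨⟨h1, h4⟩, h2⟩
        exact ⟨h1, h2, hTR ht, hSR h4⟩
    have e4 : ∑ t ∈ T, min (p t) (dgI (extG G R) X t) =
        ∑ t ∈ T, min (p t) (dgI G (X ∩ S) t) :=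
      sum_congr rfl fun t ht => by rw [e3 t ht]
    rw [e1, e2, e4]
    have h1 : ∑ v ∈ X ∩ S, κ v ≤ ∑ v ∈ X, κ v :=
      sum_le_sum_of_subset inter_subset_left
    have h2 := hH (X ∩ S) inter_subset_right
    rw [hout] at h2
    have h3 : ∑ v ∈ X ∩ S, (κ v + 4 * (O v).card) = 9 * (X ∩ S).card + ((X ∩ S) ∩ I).card := by
      rw [sum_congr rfl fun v hv => hκS v (mem_inter.1 hv).2, sum_add_distrib, sum_const,
        smul_eq_mul, mul_comm, ← card_filter, filter_mem_eq_inter]
    rw [sum_add_distrib, ← mul_sum] at h3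
    simp only [hp]
    omega
  obtain ⟨x, a, hx, ha, hload, hpay⟩ := hLoad V (extG G R) T κ p
    (fun u hu v hv h => hTi u hu v hv h.1) hHall
  set L' : V → Finset ℕ := fun v => if v ∈ R then L v \ (O v).biUnion f else range 3 with hL'
  have hcardR : ∀ v ∈ R, 7 ≤ (L' v).card + 2 * (O v).card := by
    intro v hv
    simp only [hL', if_pos hv]
    have h1 := le_card_sdiff ((O v).biUnion f) (L v)
    have h2 : ((O v).biUnion f).card ≤ (O v).card * 2 := by
      refine card_biUnion_le_card_mul _ _ _ fun w hw => ?_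
      have hw' : w ∈ Rᶜ := by
        rw [hO, mem_filter] at hw
        exact mem_compl.2 hw.2.1
      exact (hf.1 w hw').2.le
    rw [hL v hv] at h1
    omega
  have hcardS : ∀ s, s ∉ T → c s + 2 ≤ (L' s).card := by
    intro s hs
    by_cases hsS : s ∈ S
    · have h1 := hcardR s (hSR hsS)
      have h2 := hO2 s hsS
      have h3 : c s = 5 - 2 * (O s).card := by simp only [hc, if_pos hsS]
      omega
    · have h1 : s ∉ R := by
        rw [hR, mem_union]
        rintro (h | h)
        · exact hsS h
        · exact hs h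
      have h3 : c s = 1 := by simp only [hc, if_neg hsS]
      have h4 : (L' s).card = 3 := by simp only [hL', if_neg h1, card_range]
      omega
  have hcardT : ∀ t ∈ T, 2 * (∑ s with (extG G R).Adj s t, a s t) + 2 ≤ (L' t).card := by
    intro t ht
    have h1 := hcardR t (hTR ht)
    have h2 := hpay t ht
    have h3 : (O t).card ≤ dgI G Sᶜ t := by
      unfold dgI
      apply card_le_card
      intro w hw
      simp only [hO, mem_filter, mem_univ, true_and] at hw
      rw [mem_filter, mem_compl]
      exact ⟨fun h => hw.1 (hSR h), hw.2⟩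
    have h4 := hT1 t ht
    have h5 : p t = 2 - dgI G Sᶜ t := rfl
    omega
  have hId : ∀ s ∈ I, s ∈ S := fun s hs => hIS hs
  obtain ⟨f₀, hf₀, hf₀'⟩ := hBip V (extG G R) T I col c L' x a
    (by
      intro u v hu hv h
      have h1 : u ∈ S := by
        have := h.2.1
        rw [hR, mem_union] at this
        exact this.resolve_right hu
      have h2 : v ∈ S := by
        have := h.2.2
        rw [hR, mem_union] at this
        exact this.resolve_right hv
      exact hcol u h1 v h2 h.1)
    (fun u hu v hv h => hTi u hu v hv h.1) (fun u hu v hv h => hIi u hu v hv h.1)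
    (fun u hu v hv h => hIT u hu v hv h.1) hcardT hcardS hx
    (fun s t hs ht h => (ha s t hs ht h).trans (by norm_num))
    (by
      intro s hs hsI
      have h1 := hload s hs
      have h2 : κ s = 2 * c s - 1 := by simp only [hκ, if_neg hsI]
      have h3 := hc1 s
      have h4 : (∑ t with (extG G R).Adj s t ∧ t ∈ T, (4 - 2 * a s t)) +
          (∑ t with (extG G R).Adj s t ∧ t ∈ T, a s t) =
          ∑ t with (extG G R).Adj s t ∧ t ∈ T, (4 - a s t) := by
        rw [← sum_add_distrib]
        refine sum_congr rfl fun t ht => ?_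
        rw [mem_filter] at ht
        have := ha s t hs ht.2.2 ht.2.1
        omega
      omega)
    (by
      intro s hs hsI
      have h1 := hload s hs
      have h2 : κ s = 2 * c s := by simp only [hκ, if_pos hsI, Nat.sub_zero]
      omega)
  have hsub : ∀ v ∈ R, f₀ v ⊆ L v \ (O v).biUnion f := by
    intro v hv
    have h := (hf₀ v).1
    simp only [hL', if_pos hv] at h
    exact h
  have hmix : ∀ v ∈ R, ∀ w, w ∉ R → G.Adj v w → Disjoint (f₀ v) (f w) := by
    intro v hv w hw hvw
    refine Finset.disjoint_left.2 fun b hb hbw => ?_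
    have h1 := mem_sdiff.1 (hsub v hv hb)
    refine h1.2 (mem_biUnion.2 ⟨w, ?_, hbw⟩)
    rw [hO, mem_filter]
    exact ⟨mem_univ _, hw, hvw⟩
  refine ⟨fun v => if v ∈ R then f₀ v else f v, fun v hv => if_neg hv, ?_, ?_⟩
  · intro v _
    by_cases hv : v ∈ R
    · simp only [if_pos hv]
      exact ⟨(hsub v hv).trans sdiff_subset, (hf₀ v).2⟩
    · simp only [if_neg hv]
      exact hf.1 v (mem_compl.2 hv)
  · intro u _ v _ huv
    by_cases hu : u ∈ R <;> by_cases hv : v ∈ R
    · simp only [if_pos hu, if_pos hv]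
      exact hf₀' u v ⟨huv, hu, hv⟩
    · simp only [if_pos hu, if_neg hv]
      exact hmix u hu v hv huv
    · simp only [if_neg hu, if_pos hv]
      exact (hmix v hv u hu huv.symm).symm
    · simp only [if_neg hu, if_neg hv]
      exact hf.2 u (mem_compl.2 hu) v (mem_compl.2 hv) huv

end T72
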