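import Pool.Agent.Lib.MP_86b854_co.AlgSpec3

set_option autoImplicit false

/-!
# MP_86b854_co : loads from Hall's condition, the version of Theorem T5
-/

namespace T72

open MvPolynomial Finset

lemma t5load_eBt {V : Type} [DecidableEq V] (H : SimpleGraph V) [DecidableRel H.Adj]
    (X Y : Finset V) : eBt H X Y = ∑ t ∈ Y, dgI H X t := by
  unfold eBt dgI
  rw [card_filter, sum_product_right]
  refine sum_congr rfl fun t _ => ?_
  rw [card_filter]
  refine sum_congr rfl fun v _ => ?_
  simp only [H.adj_comm v t]

theorem tT5load : S_T5load := by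
  intro V _ _ H _ T κ p hT hκ
  classical
  let ι := {y : (V × V) × Fin 4 // H.Adj y.1.1 y.1.2 ∧ y.1.1 ∉ T ∧ (y.1.2 ∉ T → y.2 < 2)}
  let cap : V → ℕ := fun v => if v ∈ T then p v else κ v
  let ends : ι → Finset V := fun y =>
    if y.1.1.2 ∈ T ∧ y.1.2 ≠ 0 then {y.1.1.1} else {y.1.1.1, y.1.1.2}
  have hends1 : ∀ y : ι, y.1.1.1 ∈ ends y := by
    intro y
    simp only [ends]
    split_ifs <;> simp
  have hends2 : ∀ y : ι, ¬ (y.1.1.2 ∈ T ∧ y.1.2 ≠ 0) → y.1.1.2 ∈ ends y := by
    intro y hy
    simp only [ends, if_neg hy]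
    simp
  have hends3 : ∀ (y : ι) (v : V), v ∈ ends y → v = y.1.1.1 ∨ v = y.1.1.2 := by
    intro y v hv
    simp only [ends] at hv
    split_ifs at hv
    · exact Or.inl (mem_singleton.1 hv)
    · simpa using hv
  have hends4 : ∀ (y : ι) (v : V), v ∈ ends y → v ∈ T → y.1.2 = 0 := by
    intro y v hv hvT
    simp only [ends] at hv
    split_ifs at hv with h
    · rw [mem_singleton] at hv
      subst hv
      exact absurd hvT y.2.2.1
    · rcases mem_insert.1 hv with hv | hv
      · subst hv
        exact absurd hvT y.2.2.1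
      · rw [mem_singleton] at hv
        subst hv
        by_contra h0
        exact h ⟨hvT, h0⟩
  let t : ι → Finset (Σ _ : V, ℕ) := fun y => (ends y).sigma fun v => range (cap v)
  have hall : ∀ F : Finset ι, F.card ≤ (F.biUnion t).card := by
    intro F
    set X' := F.biUnion ends with hX'
    have h1 : F.biUnion t = X'.sigma fun v => range (cap v) := by
      ext ⟨v, s⟩
      simp only [t, X', mem_biUnion, mem_sigma]
      constructor
      · rintro ⟨y, hy, h, h'⟩
        exact ⟨⟨y, hy, h⟩, h'⟩
      · rintro ⟨⟨y, hy, h⟩, h'⟩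
        exact ⟨y, hy, h, h'⟩
    rw [h1, Finset.card_sigma]
    simp only [card_range]
    set X := X'.filter fun v => v ∉ T with hX
    set Y := X'.filter fun v => v ∈ T with hY
    have hsum : ∑ v ∈ X', cap v = ∑ v ∈ X, κ v + ∑ v ∈ Y, p v := by
      rw [← Finset.sum_filter_add_sum_filter_not X' (fun v => v ∈ T) cap, add_comm]
      congr 1
      · refine sum_congr rfl fun v hv => ?_
        simp only [cap, if_neg (mem_filter.1 hv).2]
      · refine sum_congr rfl fun v hv => ?_
        simp only [cap, if_pos (mem_filter.1 hv).2]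
    rw [hsum]
    have hF : F.card ≤ 2 * eIn H X + 3 * eBt H X T + eBt H X Y := by
      have hc : F.card = (F.map ⟨Subtype.val, Subtype.val_injective⟩).card := (card_map _).symm
      rw [hc]
      have hsub : F.map ⟨Subtype.val, Subtype.val_injective⟩ ⊆
          ((((X ×ˢ X).filter fun q => H.Adj q.1 q.2) ×ˢ
              (univ.filter fun j : Fin 4 => j < 2)) ∪
            (((X ×ˢ T).filter fun q => H.Adj q.1 q.2) ×ˢ
              (univ.filter fun j : Fin 4 => j ≠ 0))) ∪
            (((X ×ˢ Y).filter fun q => H.Adj q.1 q.2) ×ˢ ({0} : Finset (Fin 4))) := by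
        intro z hz
        obtain ⟨y, hy, rfl⟩ := mem_map.1 hz
        have hX1 : y.1.1.1 ∈ X :=
          mem_filter.2 ⟨mem_biUnion.2 ⟨y, hy, hends1 y⟩, y.2.2.1⟩
        simp only [Function.Embedding.coeFn_mk]
        by_cases h2 : y.1.1.2 ∈ T
        · by_cases h0 : y.1.2 = 0
          · refine mem_union_right _ ?_
            refine mem_product.2 ⟨mem_filter.2 ⟨mem_product.2 ⟨hX1, ?_⟩, y.2.1⟩, ?_⟩
            · exact mem_filter.2 ⟨mem_biUnion.2 ⟨y, hy, hends2 y (fun h => h.2 h0)⟩, h2⟩
            · exact mem_singleton.2 h0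
          · refine mem_union_left _ (mem_union_right _ ?_)
            exact mem_product.2 ⟨mem_filter.2 ⟨mem_product.2 ⟨hX1, h2⟩, y.2.1⟩,
              mem_filter.2 ⟨mem_univ _, h0⟩⟩
        · refine mem_union_left _ (mem_union_left _ ?_)
          refine mem_product.2 ⟨mem_filter.2 ⟨mem_product.2 ⟨hX1, ?_⟩, y.2.1⟩,
              mem_filter.2 ⟨mem_univ _, y.2.2.2 h2⟩⟩
          exact mem_filter.2 ⟨mem_biUnion.2 ⟨y, hy, hends2 y (fun h => h2 h.1)⟩, h2⟩
      refine (card_le_card hsub).trans ?_
      refine (card_union_le _ _).trans ?_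
      refine (Nat.add_le_add_right (card_union_le _ _) _).trans ?_
      rw [card_product, card_product, card_product]
      have e1 : (univ.filter fun j : Fin 4 => j < 2).card = 2 := by decide
      have e2 : (univ.filter fun j : Fin 4 => j ≠ 0).card = 3 := by decide
      rw [e1, e2, card_singleton]
      unfold eIn eBt
      omega
    have hXT : Disjoint X T := by
      rw [disjoint_left]
      intro v hv
      exact (mem_filter.1 hv).2
    have hH := hκ X hXT
    have hYT : Y ⊆ T := fun v hv => (mem_filter.1 hv).2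
    have e3 := t5load_eBt H X T
    have e4 := t5load_eBt H X Y
    have e5 := Finset.sum_sdiff (f := fun t => dgI H X t) hYT
    have e6 := Finset.sum_sdiff (f := fun t => min (p t) (dgI H X t)) hYT
    have e7 : ∑ t ∈ T \ Y, min (p t) (dgI H X t) ≤ ∑ t ∈ T \ Y, dgI H X t :=
      sum_le_sum fun t _ => min_le_right _ _
    have e8 : ∑ t ∈ Y, min (p t) (dgI H X t) ≤ ∑ t ∈ Y, p t :=
      sum_le_sum fun t _ => min_le_left _ _
    omega
  obtain ⟨f, hf, hft⟩ := (Finset.all_card_le_biUnion_card_iff_exists_injective t).1 hall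
  have hft' : ∀ y : ι, (f y).1 ∈ ends y ∧ (f y).2 < cap (f y).1 := by
    intro y
    have h := hft y
    simp only [t, mem_sigma, mem_range] at h
    exact h
  let N : V → V → ℕ := fun u v => (univ.filter fun y : ι =>
    (y.1.1 = (u, v) ∨ y.1.1 = (v, u)) ∧ (f y).1 = u).card
  let M : V → V → ℕ := fun u v => (univ.filter fun y : ι =>
    (y.1.1 = (u, v) ∨ y.1.1 = (v, u))).card
  have hMsymm : ∀ u v, M u v = M v u := by
    intro u v
    simp only [M]
    congr 1
    ext y
    simp only [mem_filter, or_comm]
  have hNM : ∀ u v, u ≠ v → N u v + N v u = M u v := by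
    intro u v huv
    simp only [N, M]
    rw [← card_union_of_disjoint]
    · congr 1
      ext y
      simp only [mem_union, mem_filter, mem_univ, true_and]
      constructor
      · rintro (⟨h, _⟩ | ⟨h, _⟩)
        · exact h
        · exact h.symm
      · intro h
        have h3 := hends3 y _ (hft' y).1
        rcases h with h | h
        · rw [h] at h3
          rcases h3 with h3 | h3
          · exact Or.inl ⟨Or.inl h, h3⟩
          · exact Or.inr ⟨Or.inr h, h3⟩
        · rw [h] at h3
          rcases h3 with h3 | h3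
          · exact Or.inr ⟨Or.inl h, h3⟩
          · exact Or.inl ⟨Or.inr h, h3⟩
    · rw [disjoint_left]
      intro y hy hy'
      rw [mem_filter] at hy hy'
      exact huv (hy.2.2.symm.trans hy'.2.2)
  have hM1 : ∀ u v, H.Adj u v → u ∉ T → v ∉ T → M u v = 4 := by
    intro u v huv hu hv
    have hne : u ≠ v := huv.ne
    simp only [M]
    rw [← card_map ⟨Subtype.val, Subtype.val_injective⟩]
    have h1 : (univ.filter fun y : ι => (y.1.1 = (u, v) ∨ y.1.1 = (v, u))).map
        ⟨Subtype.val, Subtype.val_injective⟩ =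
        ({(u, v), (v, u)} : Finset (V × V)) ×ˢ (univ.filter fun j : Fin 4 => j < 2) := by
      ext ⟨q, j⟩
      simp only [mem_map, mem_filter, mem_univ, true_and, Function.Embedding.coeFn_mk,
        mem_product, mem_insert, mem_singleton]
      constructor
      · rintro ⟨y, hy, hyq⟩
        have hq : y.1.1 = q := congrArg Prod.fst hyq
        have hj : y.1.2 = j := congrArg Prod.snd hyq
        refine ⟨hq ▸ hy, ?_⟩
        rw [← hj]
        apply y.2.2.2
        rcases hy with hy | hy <;> rw [hy] <;> assumption
      · rintro ⟨hq | hq, hj⟩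
        · subst hq
          exact ⟨⟨((u, v), j), huv, hu, fun _ => hj⟩, Or.inl rfl, rfl⟩
        · subst hq
          exact ⟨⟨((v, u), j), huv.symm, hv, fun _ => hj⟩, Or.inr rfl, rfl⟩
    rw [h1, card_product]
    have e1 : (univ.filter fun j : Fin 4 => j < 2).card = 2 := by decide
    rw [e1, card_pair]
    intro h
    exact hne (congrArg Prod.fst h)
  have hM2 : ∀ u v, H.Adj u v → u ∉ T → v ∈ T → M u v = 4 := by
    intro u v huv hu hv
    simp only [M]
    rw [← card_map ⟨Subtype.val, Subtype.val_injective⟩]
    have h1 : (univ.filter fun y : ι => (y.1.1 = (u, v) ∨ y.1.1 = (v, u))).map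
        ⟨Subtype.val, Subtype.val_injective⟩ =
        ({(u, v)} : Finset (V × V)) ×ˢ (univ : Finset (Fin 4)) := by
      ext ⟨q, j⟩
      simp only [mem_map, mem_filter, mem_univ, true_and, Function.Embedding.coeFn_mk,
        mem_product, mem_singleton, and_true]
      constructor
      · rintro ⟨y, hy, hyq⟩
        have hq : y.1.1 = q := congrArg Prod.fst hyq
        rcases hy with hy | hy
        · exact hq ▸ hy
        · exfalso
          apply y.2.2.1
          rw [hy]
          exact hv
      · intro hq
        subst hq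
        exact ⟨⟨((u, v), j), huv, hu, fun h => absurd hv h⟩, Or.inl rfl, rfl⟩
    rw [h1, card_product, card_singleton, card_univ, Fintype.card_fin]
  have hcap : ∀ v, ∑ u with H.Adj v u, N v u ≤ cap v := by
    intro v
    simp only [N]
    rw [← card_biUnion]
    · have h1 : (((univ.filter fun u => H.Adj v u).biUnion fun u => univ.filter fun y : ι =>
          (y.1.1 = (v, u) ∨ y.1.1 = (u, v)) ∧ (f y).1 = v).card) ≤ (range (cap v)).card := by
        refine Finset.card_le_card_of_injOn (fun y => (f y).2) ?_ ?_
        · intro y hy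
          have hy' : y ∈ ((univ.filter fun u => H.Adj v u).biUnion fun u =>
            univ.filter fun y : ι => (y.1.1 = (v, u) ∨ y.1.1 = (u, v)) ∧ (f y).1 = v) := hy
          rw [mem_biUnion] at hy'
          obtain ⟨u, _, hu⟩ := hy'
          have h2 := (hft' y).2
          rw [(mem_filter.1 hu).2.2] at h2
          exact mem_coe.2 (mem_range.2 h2)
        · intro y hy y' hy' h
          have hy1 : y ∈ ((univ.filter fun u => H.Adj v u).biUnion fun u =>
            univ.filter fun y : ι => (y.1.1 = (v, u) ∨ y.1.1 = (u, v)) ∧ (f y).1 = v) := hy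
          have hy2 : y' ∈ ((univ.filter fun u => H.Adj v u).biUnion fun u =>
            univ.filter fun y : ι => (y.1.1 = (v, u) ∨ y.1.1 = (u, v)) ∧ (f y).1 = v) := hy'
          rw [mem_biUnion] at hy1 hy2
          obtain ⟨u, _, hu⟩ := hy1
          obtain ⟨u', _, hu'⟩ := hy2
          apply hf
          refine Sigma.ext ((mem_filter.1 hu).2.2.trans (mem_filter.1 hu').2.2.symm) ?_
          exact heq_of_eq h
      rw [card_range] at h1
      exact h1
    · intro u hu u' hu' hne
      rw [Function.onFun, disjoint_left]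
      intro y hy hy'
      rw [mem_filter] at hy hy'
      have hvu : H.Adj v u := (mem_filter.1 (mem_coe.1 hu)).2
      have hvu' : H.Adj v u' := (mem_filter.1 (mem_coe.1 hu')).2
      rcases hy.2.1 with h | h <;> rcases hy'.2.1 with h' | h' <;> rw [h] at h' <;>
        simp only [Prod.mk.injEq] at h'
      · exact hne h'.2
      · exact hvu'.ne h'.1
      · exact hvu.ne h'.1.symm
      · exact hne h'.1
  have hle1 : ∀ s t, s ∉ T → t ∈ T → N t s ≤ 1 := by
    intro s t hs ht
    simp only [N]
    rw [card_le_one]
    have hone : ∀ y : ι, ((y.1.1 = (t, s) ∨ y.1.1 = (s, t)) ∧ (f y).1 = t) →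
        y.1 = ((s, t), 0) := by
      rintro y ⟨hy | hy, hyt⟩
      · exfalso
        apply y.2.2.1
        rw [hy]
        exact ht
      · refine Prod.ext hy (hends4 y t ?_ ht)
        rw [← hyt]
        exact (hft' y).1
    intro y hy y' hy'
    have h1 := hone y (mem_filter.1 hy).2
    have h2 := hone y' (mem_filter.1 hy').2
    exact Subtype.ext (h1.trans h2.symm)
  refine ⟨N, fun s t => N t s, ?_, ?_, ?_, ?_⟩
  · intro u v hu hv huv
    rw [hNM u v huv.ne, hM1 u v huv hu hv]
  · intro s t hs ht _
    exact hle1 s t hs ht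
  · intro s hs
    have h1 : ∑ t with H.Adj s t ∧ t ∈ T, (4 - N t s) = ∑ t with H.Adj s t ∧ t ∈ T, N s t := by
      refine sum_congr rfl fun t ht => ?_
      obtain ⟨hst, htT⟩ := (mem_filter.1 ht).2
      have := hNM s t hst.ne
      rw [hM2 s t hst hs htT] at this
      omega
    rw [h1]
    have h2 := Finset.sum_filter_add_sum_filter_not (univ.filter fun u => H.Adj s u)
      (fun u => u ∉ T) (fun u => N s u)
    rw [filter_filter, filter_filter] at h2
    simp only [not_not] at h2
    rw [h2]
    have h3 := hcap s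
    simp only [cap, if_neg hs] at h3
    exact h3
  · intro t ht
    have h3 := hcap t
    simp only [cap, if_pos ht] at h3
    have h4 : ∑ s with H.Adj s t, N t s = ∑ s with H.Adj t s, N t s := by
      congr 1
      ext s
      simp only [mem_filter, H.adj_comm s t]
    rw [h4]
    exact h3

end T72
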