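import Pool.Agent.Lib.MP_86b854_co.AlgSpec2

set_option autoImplicit false

/-!
# MP_86b854_co : coefficients of products of one-vertex polynomials
-/

namespace T72

open MvPolynomial Finset

theorem tens_jn_inj {V : Type} [Fintype V] {t t' : V → (Fin 2 →₀ ℕ)} (h : jn t = jn t') :
    t = t' := by
  funext v
  ext i
  have h1 := DFunLike.congr_fun h (v, i)
  exact h1

theorem tens_sum {V : Type} [Fintype V] [DecidableEq V] (t : V → (Fin 2 →₀ ℕ)) :
    ∑ v, Finsupp.mapDomain (fun i => (v, i)) (t v) = jn t := by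
  ext ⟨w, i⟩
  rw [Finsupp.finsetSum_apply, Finset.sum_eq_single w]
  · have hinj : Function.Injective (fun i : Fin 2 => (w, i)) := fun a b h => (Prod.mk.inj h).2
    exact Finsupp.mapDomain_apply hinj (t w) i
  · intro v _ hv
    refine Finsupp.mapDomain_of_notMem_range _ _ ?_
    rintro ⟨j, hj⟩
    exact hv (Prod.mk.inj hj).1
  · intro h
    exact absurd (Finset.mem_univ w) h

theorem tens_prd {V : Type} [Fintype V] [DecidableEq V] (g : V → R2) :
    prd g = ∑ t ∈ Fintype.piFinset (fun v => (g v).support),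
      monomial (jn t) (∏ v, coeff (t v) (g v)) := by
  have h1 : ∀ v, rename (fun i => (v, i)) (g v) = ∑ s ∈ (g v).support,
      monomial (Finsupp.mapDomain (fun i => (v, i)) s) (coeff s (g v)) := by
    intro v
    conv_lhs => rw [MvPolynomial.as_sum (g v)]
    rw [map_sum]
    refine Finset.sum_congr rfl fun s _ => ?_
    rw [rename_monomial]
  rw [prd]
  simp_rw [h1]
  rw [Finset.prod_univ_sum]
  refine Finset.sum_congr rfl fun t _ => ?_
  rw [← tens_sum]
  exact (MvPolynomial.monomial_sum_prod _ _ _).symm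

theorem tens_coeff {V : Type} [Fintype V] [DecidableEq V] (g : V → R2)
    (t : V → (Fin 2 →₀ ℕ)) : coeff (jn t) (prd g) = ∏ v, coeff (t v) (g v) := by
  classical
  rw [tens_prd, coeff_sum]
  simp_rw [coeff_monomial]
  rw [Finset.sum_congr rfl (g := fun t' => if t' = t then ∏ v, coeff (t v) (g v) else 0)]
  · rw [Finset.sum_ite_eq']
    split_ifs with h
    · rfl
    · rw [Fintype.mem_piFinset] at h
      push Not at h
      obtain ⟨v, hv⟩ := h
      exact (Finset.prod_eq_zero (Finset.mem_univ v) (notMem_support_iff.mp hv)).symm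
  · intro t' _
    by_cases h : t' = t
    · rw [if_pos h, h, if_pos rfl]
    · rw [if_neg h, if_neg (fun h' => h (tens_jn_inj h'))]

theorem tTens : S_Tens := by
  intro V _ _ g
  refine ⟨tens_coeff g, fun w => ?_⟩
  rw [Ev]
  simp_rw [tens_coeff, ← Finset.prod_mul_distrib]
  rw [← Finset.prod_univ_sum (fun v => (w v).support) (fun v s => w v s * coeff s (g v))]
  rfl

end T72
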