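import Pool.Agent.Lib.MP_86b854_co.AlgSpec

/-!
# MP_86b854_co : the form of Theorem M with half of the number of vertices
-/

set_option autoImplicit false

namespace T72

open MvPolynomial Finset

variable {V : Type}

/-- counting the edges with a set and its complement -/
theorem thmm2_split [Fintype V] [DecidableEq V] (G : SimpleGraph V) [DecidableRel G.Adj]
    (S : Finset V) : eIn G univ = eIn G S + eIn G Sᶜ + 2 * eBt G S Sᶜ := by
  have h1 : ∀ X Y : Finset V, ((X ×ˢ Y).filter fun p => G.Adj p.1 p.2).card =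
      ∑ u ∈ X, ∑ v ∈ Y, if G.Adj u v then 1 else 0 := by
    intro X Y
    rw [card_filter, sum_product]
  have hsym : ∑ u ∈ Sᶜ, ∑ v ∈ S, (if G.Adj u v then 1 else 0) =
      ∑ u ∈ S, ∑ v ∈ Sᶜ, (if G.Adj u v then 1 else 0) := by
    rw [sum_comm]
    refine sum_congr rfl fun u _ => sum_congr rfl fun v _ => ?_
    by_cases h : G.Adj v u
    · rw [if_pos h, if_pos h.symm]
    · rw [if_neg h, if_neg fun h' => h h'.symm]
  unfold eIn eBt
  rw [h1, h1, h1, h1, ← Finset.sum_add_sum_compl S]
  have h2 : ∀ X : Finset V, ∑ u ∈ X, ∑ v, (if G.Adj u v then 1 else 0) =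
      ∑ u ∈ X, ∑ v ∈ S, (if G.Adj u v then 1 else 0) +
        ∑ u ∈ X, ∑ v ∈ Sᶜ, (if G.Adj u v then 1 else 0) := by
    intro X
    rw [← sum_add_distrib]
    exact sum_congr rfl fun u _ => (Finset.sum_add_sum_compl S _).symm
  rw [h2, h2, hsym]
  ring

theorem tThmM2 (hM : S_ThmM) (hT : S_Tau) : S_ThmM2 := by
  intro V _ _ G _ L P g hmin W hbip hne
  set S : Finset V := univ \ (P ∪ W) with hS
  have hcompl : Sᶜ = P ∪ W := by
    rw [hS, ← compl_eq_univ_sdiff, compl_compl]
  have hdisj : Disjoint S P := by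
    rw [Finset.disjoint_left]
    intro v hv hP
    rw [hS, mem_sdiff] at hv
    exact hv.2 (mem_union_left _ hP)
  have h1 := hM V G L P g hmin S hne hdisj hbip
  have h2 := (hT V G S).2.1 hbip
  have h3 := thmm2_split G S
  rw [hcompl] at h1 h3
  omega

end T72
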