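import Pool.Agent.Lib.MP_86b854_co.AlgSpec3
import Pool.Agent.Lib.MP_86b854_co.ThmM2

/-!
# MP_86b854_co : Theorem T5, the form for the complement of `P ∪ W`
-/

set_option autoImplicit false

namespace T72

open Finset

theorem tThmT5W (h : S_ThmT5) : S_ThmT5W := by
  intro V _ _ G _ L P g hmin W T I hTW hWP hne hbip hT hIS hI hIT
  have hd : ∀ A ⊆ P ∪ W, Disjoint (P ∪ W)ᶜ A := by
    intro A hA
    rw [disjoint_left]
    intro v hv hv'
    exact (mem_compl.1 hv) (hA hv')
  have h1 := h V G L P g hmin (P ∪ W)ᶜ T I hne (hd P subset_union_left) hbip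
    (hd T (hTW.trans subset_union_right)) (hWP.symm.mono_right hTW).symm hT hIS hI (by
      intro u hu t ht hut
      rw [compl_compl]
      exact hIT u hu t ht hut)
  rw [compl_compl] at h1
  have h2 := thmm2_split G (P ∪ W)ᶜ
  rw [compl_compl] at h2
  omega

end T72
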