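import Pool.Agent.Lib.MP_86b854_co.AlgSpec2

set_option autoImplicit false

/-!
# MP_86b854_co : `S_Walk`

Closed form of the numbers `wk`: with `wcz k r = C(k, r - 1)` (and `wcz k 0 = 0`),
`wk k i = α C(k, r) - β wcz k r` if `i + 2 r = k`, `wk k i = β C(k, s) - α wcz k s` if
`i + 2 s = k + 1`, and `wk k i = 0` if `k + 2 ≤ i`.
-/

namespace T72

open MvPolynomial Finset

/-- `C(k, r - 1)` -/
def wcz : ℕ → ℕ → ℚ
  | _, 0 => 0
  | k, (r + 1) => (k.choose r : ℚ)

lemma wcz_succ (k r : ℕ) : wcz k (r + 1) = (k.choose r : ℚ) := rfl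

lemma walk_succ (k r : ℕ) : ((k + 1).choose r : ℚ) = (k.choose r : ℚ) + wcz k r := by
  cases r with
  | zero => simp [wcz]
  | succ r =>
    rw [Nat.choose_succ_succ]
    push_cast
    simp only [wcz, Nat.succ_eq_add_one]
    ring

lemma walk_symm (r : ℕ) : ((2 * r + 1).choose (r + 1) : ℚ) = ((2 * r + 1).choose r : ℚ) := by
  have h : (2 * r + 1).choose (r + 1) = (2 * r + 1).choose r := by
    have := Nat.choose_symm_of_eq_add (n := 2 * r + 1) (a := r + 1) (b := r) (by ring)
    exact this
  rw [h]

lemma walk_form (α β : ℚ) (k : ℕ) :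
    (∀ r i : ℕ, i + 2 * r = k → wk α β k i = α * (k.choose r : ℚ) - β * wcz k r) ∧
    (∀ s i : ℕ, i + 2 * s = k + 1 → wk α β k i = β * (k.choose s : ℚ) - α * wcz k s) ∧
    ∀ i : ℕ, k + 2 ≤ i → wk α β k i = 0 := by
  induction k with
  | zero =>
    refine ⟨?_, ?_, ?_⟩
    · intro r i h
      obtain rfl : r = 0 := by omega
      obtain rfl : i = 0 := by omega
      simp [wk, wcz]
    · intro s i h
      obtain rfl : s = 0 := by omega
      obtain rfl : i = 1 := by omega
      simp [wk, wcz]
    · intro i h
      obtain ⟨j, rfl⟩ : ∃ j, i = j + 2 := ⟨i - 2, by omega⟩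
      simp [wk]
  | succ k ih =>
    obtain ⟨hA, hB, hZ⟩ := ih
    refine ⟨?_, ?_, ?_⟩
    · intro r i h
      rcases i with _ | j
      · obtain ⟨r, rfl⟩ : ∃ r', r = r' + 1 := ⟨r - 1, by omega⟩
        obtain rfl : k = 2 * r + 1 := by omega
        rw [wk, hA r 1 (by omega), hB (r + 1) 0 (by omega)]
        have h1 := walk_succ (2 * r + 1) (r + 1)
        have h2 := walk_succ (2 * r + 1) r
        have h3 := walk_symm r
        simp only [wcz_succ] at h1 ⊢
        rw [h1, h2, h3]
        ring
      · rw [wk, hA r j (by omega)]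
        rcases r with _ | r
        · rw [hZ (j + 2) (by omega)]
          simp [wcz]
        · rw [hA r (j + 2) (by omega)]
          have h1 := walk_succ k (r + 1)
          have h2 := walk_succ k r
          simp only [wcz_succ] at h1 ⊢
          rw [h1, h2]
          ring
    · intro s i h
      rcases i with _ | j
      · obtain ⟨s, rfl⟩ : ∃ s', s = s' + 1 := ⟨s - 1, by omega⟩
        obtain rfl : k = 2 * s := by omega
        rw [wk, hB s 1 (by omega), hA s 0 (by omega)]
        have h2 := walk_succ (2 * s) s
        have h3 := walk_symm s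
        simp only [wcz_succ]
        rw [h3, h2]
        ring
      · rw [wk, hB s j (by omega)]
        rcases s with _ | s
        · rw [hZ (j + 2) (by omega)]
          simp [wcz]
        · rw [hB s (j + 2) (by omega)]
          have h1 := walk_succ k (s + 1)
          have h2 := walk_succ k s
          simp only [wcz_succ] at h1 ⊢
          rw [h1, h2]
          ring
    · intro i h
      obtain ⟨j, rfl⟩ : ∃ j, i = j + 1 := ⟨i - 1, by omega⟩
      rw [wk, hZ (j + 2) (by omega), hZ j (by omega), add_zero]

theorem tWalk : S_Walk := by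
  intro K α β hα hαβ hK k hk i
  have hβ : 0 < β := hα.trans hαβ
  have hkK : (k : ℚ) ≤ K := by exact_mod_cast hk
  have hk' : β * k < α * (k + 2) := by nlinarith
  obtain ⟨hA, hB, hZ⟩ := walk_form α β k
  rcases le_or_gt (k + 2) i with h | h
  · rw [hZ i h]
    exact ⟨le_refl _, fun h1 => by omega⟩
  · have key : 0 < wk α β k i := by
      rcases Nat.even_or_odd (k + i) with he | ho
      · obtain ⟨r, hr⟩ : ∃ r, i + 2 * r = k := by
          obtain ⟨c, hc⟩ := he
          exact ⟨k - c, by omega⟩
        rw [hA r i hr]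
        rcases r with _ | r
        · simpa [wcz] using hα
        · have h1 : ((k.choose (r + 1) : ℕ) : ℚ) * ((r : ℚ) + 1)
              = ((k.choose r : ℕ) : ℚ) * ((k : ℚ) - r) := by
            have := Nat.choose_succ_right_eq k r
            have h2 : ((k - r : ℕ) : ℚ) = (k : ℚ) - r := by
              rw [Nat.cast_sub (by omega)]
            rw [← h2]
            exact_mod_cast this
          have hpos : (0 : ℚ) < ((k.choose r : ℕ) : ℚ) := by
            exact_mod_cast Nat.choose_pos (by omega)
          have hr2 : 2 * ((r : ℚ) + 1) ≤ k := by exact_mod_cast (by omega : 2 * (r + 1) ≤ k)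
          have hr1 : (0 : ℚ) < (r : ℚ) + 1 := by positivity
          have h3 : β * ((r : ℚ) + 1) < α * ((k : ℚ) - r) := by nlinarith
          have h4 : 0 < (α * ((k.choose (r + 1) : ℕ) : ℚ) - β * ((k.choose r : ℕ) : ℚ))
              * ((r : ℚ) + 1) := by
            have : (α * ((k.choose (r + 1) : ℕ) : ℚ) - β * ((k.choose r : ℕ) : ℚ))
              * ((r : ℚ) + 1) = ((k.choose r : ℕ) : ℚ) * (α * ((k : ℚ) - r)
                - β * ((r : ℚ) + 1)) := by
              rw [sub_mul, mul_assoc, h1]
              ring
            rw [this]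
            exact mul_pos hpos (by linarith)
          exact pos_of_mul_pos_left h4 hr1.le
      · obtain ⟨s, hs⟩ : ∃ s, i + 2 * s = k + 1 := by
          obtain ⟨c, hc⟩ := ho
          exact ⟨k - c, by omega⟩
        rw [hB s i hs]
        rcases s with _ | s
        · simpa [wcz] using hβ
        · have h1 : ((k.choose (s + 1) : ℕ) : ℚ) * ((s : ℚ) + 1)
              = ((k.choose s : ℕ) : ℚ) * ((k : ℚ) - s) := by
            have := Nat.choose_succ_right_eq k s
            have h2 : ((k - s : ℕ) : ℚ) = (k : ℚ) - s := by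
              rw [Nat.cast_sub (by omega)]
            rw [← h2]
            exact_mod_cast this
          have hpos : (0 : ℚ) < ((k.choose s : ℕ) : ℚ) := by
            exact_mod_cast Nat.choose_pos (by omega)
          have hr2 : 2 * (s : ℚ) + 1 ≤ k := by exact_mod_cast (by omega : 2 * s + 1 ≤ k)
          have hr1 : (0 : ℚ) < (s : ℚ) + 1 := by positivity
          have h4 : 0 < (β * ((k.choose (s + 1) : ℕ) : ℚ) - α * ((k.choose s : ℕ) : ℚ))
              * ((s : ℚ) + 1) := by
            have : (β * ((k.choose (s + 1) : ℕ) : ℚ) - α * ((k.choose s : ℕ) : ℚ))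
              * ((s : ℚ) + 1) = ((k.choose s : ℕ) : ℚ) * (β * ((k : ℚ) - s)
                - α * ((s : ℚ) + 1)) := by
              rw [sub_mul, mul_assoc, h1]
              ring
            rw [this]
            exact mul_pos hpos (by nlinarith)
          exact pos_of_mul_pos_left h4 hr1.le
    exact ⟨key.le, fun _ => key⟩

end T72
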