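import Pool.Agent.Lib.MP_86b854_co.Edge
import Pool.Agent.Lib.MP_86b854_co.Tens
import Pool.Agent.Lib.MP_86b854_co.LocT
import Pool.Agent.Lib.MP_86b854_co.Walk
import Pool.Agent.Lib.MP_86b854_co.LocS
import Pool.Agent.Lib.MP_86b854_co.LocI
import Pool.Agent.Lib.MP_86b854_co.Spc
import Pool.Agent.Lib.MP_86b854_co.T5cert
import Pool.Agent.Lib.MP_86b854_co.T5bip
import Pool.Agent.Lib.MP_86b854_co.T5load
import Pool.Agent.Lib.MP_86b854_co.T5ext
import Pool.Agent.Lib.MP_86b854_co.ThmT5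
import Pool.Agent.Lib.MP_86b854_co.ThmT5W

set_option autoImplicit false

/-!
# The algebra layer, complete: Theorem T5
-/

namespace T72

theorem aSpc : S_Spc := tSpc tTens

theorem aT5cert : S_T5cert := tT5cert tTens tLocT (tLocS tWalk) tLocI aSpc tEdge

theorem aThmT5 : S_ThmT5 := tThmT5 (tT5ext (tT5bip aT5cert) tT5load)

theorem aThmT5W : S_ThmT5W := tThmT5W aThmT5

end T72
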