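import Mathlib

set_option autoImplicit false

/-!
# MP_86b854_co : the algebra layer

Bipartite pieces are coloured with the combinatorial Nullstellensatz. Every vertex `v` has two
variables `X (v, 0)`, `X (v, 1)` (its two colours); the lists of one side of the bipartition are
negated, so that the polynomial of an edge is `∏ (X (u, i) + X (v, j))`, which is a sum of products
of Schur polynomials (in two variables: `ee v ^ b * hh v m`) with nonnegative coefficients.

Every `def S_Foo : Prop` is one Lean task: write `Pool/Agent/Lib/MP_86b854_co/Foo.lean` containing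
`theorem tFoo (hypotheses : S_...) : S_Foo` in the namespace `T72`; the allowed hypotheses are
listed in the docstring.
-/

namespace T72

open MvPolynomial Finset

variable {V : Type}

/-- the product of the two variables of `v` -/
noncomputable def ee (v : V) : MvPolynomial (V × Fin 2) ℚ := X (v, 0) * X (v, 1)

/-- the complete homogeneous polynomial of degree `m` in the two variables of `v` -/
noncomputable def hh (v : V) (m : ℕ) : MvPolynomial (V × Fin 2) ℚ :=
  ∑ i ∈ range (m + 1), X (v, 0) ^ i * X (v, 1) ^ (m - i)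

/-- products of Schur polynomials -/
noncomputable def bas [Fintype V] (b m : V → ℕ) : MvPolynomial (V × Fin 2) ℚ :=
  ∏ v, ee v ^ b v * hh v (m v)

/-- sums of products of Schur polynomials -/
noncomputable def Cone (V : Type) [Fintype V] : AddSubmonoid (MvPolynomial (V × Fin 2) ℚ) :=
  AddSubmonoid.closure (Set.range fun p : (V → ℕ) × (V → ℕ) => bas p.1 p.2)

/-- the polynomial of an edge -/
noncomputable def edge (u v : V) : MvPolynomial (V × Fin 2) ℚ :=
  ∏ i : Fin 2, ∏ j : Fin 2, (X (u, i) + X (v, j))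

/-- the product of the differences of the two variables of the vertices -/
noncomputable def van (V : Type) [Fintype V] : MvPolynomial (V × Fin 2) ℚ :=
  ∏ v : V, (X (v, 0) - X (v, 1))

/-- the leading exponent of `van V * bas b m` -/
noncomputable def expo [Fintype V] (b m : V → ℕ) : (V × Fin 2) →₀ ℕ :=
  Finsupp.equivFunOnFinite.symm (fun p => if p.2 = 0 then b p.1 + m p.1 + 1 else b p.1)

/-- two disjoint colours for every vertex from its list -/
def Col2 (G : SimpleGraph V) (L : V → Finset ℕ) : Prop :=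
  ∃ f : V → Finset ℕ, (∀ v, f v ⊆ L v ∧ (f v).card = 2) ∧ ∀ u v, G.Adj u v → Disjoint (f u) (f v)

/-- **CG.** (1) Clebsch-Gordan. (2) The cone is closed under multiplication.
PROOF. (1) Put `x = X (v, 0)`, `y = X (v, 1)`. Multiply by `(x - y) ^ 2` or use induction on
`min m n`: `h m * h n = h (m + n) + x y * h (m - 1) * h (n - 1)` for `m, n ≥ 1` (both sides times
`x - y`: `(x^(m+1) - y^(m+1)) h n = (x^(m+n+1) - y^(m+n+1)) + x y (x^m - y^m) h (n-1)`, clear from
`x y h (n-1) = h n x - x^(n+1)` and `= h n y - y^(n+1)`).  (2) By (1) a product of two generators is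
a sum of generators (expand the product over the vertices); `AddSubmonoid.closure_induction`. -/
def S_CG : Prop :=
  ∀ (V : Type) [Fintype V] [DecidableEq V],
    (∀ (v : V) (m n : ℕ), hh v m * hh v n =
      ∑ k ∈ range (min m n + 1), ee v ^ k * hh v (m + n - 2 * k)) ∧
    ∀ f ∈ Cone V, ∀ g ∈ Cone V, f * g ∈ Cone V

/-- **Coef.** The coefficients of `van * f` at the exponents `expo b m` are nonnegative for `f` in
the cone, and it is `1` for `f = bas b m`.
PROOF. `(x - y) * (x y)^b * h m = x^(b+m+1) y^b - x^b y^(b+m+1)` at every vertex. So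
`van * bas b' m' = ∏ v, (x^(b'+m'+1) y^(b') - x^(b') y^(b'+m'+1))`; the coefficient of the monomial
`expo b m` (the exponent of `x` is larger than the one of `y` at every vertex) is `1` if
`b' = b`, `m' = m` and `0` otherwise (expand the product, `Finset.prod_sub` or `Finset.prod_add`; only
the term without second summands has larger exponents at the `x`). -/
def S_Coef : Prop :=
  ∀ (V : Type) [Fintype V] [DecidableEq V] (b m : V → ℕ),
    coeff (expo b m) (van V * bas b m) = 1 ∧
      ∀ f ∈ Cone V, 0 ≤ coeff (expo b m) (van V * f)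

/-- **Edge.** The six terms of the polynomial of an edge.
PROOF. `ring` after expanding the definitions (`Fin.prod_univ_two`, `Finset.sum_range_succ`). -/
def S_Edge : Prop :=
  ∀ (V : Type) (u v : V), edge u v =
    ee u ^ 2 + ee u * hh u 1 * hh v 1 + ee u * hh v 2 + hh u 2 * ee v + hh u 1 * (ee v * hh v 1) +
      ee v ^ 2

/-- **Vert.** Allowed: `S_CG`. A product of the small factors contains a product of Schur
polynomials with a small second index.
PROOF. For one vertex: `h 1 * h 1 = h 2 + e`, `h 1 * h 2 = h 3 + e * h 1`,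
`h 2 * h 2 = h 4 + e * h 2 + e ^ 2`, so modulo the cone `h 1 ^ j ≥ e ^ (j / 2) * h (j % 2)`, then
`h 1 * h 2 ^ k ≥ e ^ k * h 1`, `h 2 ^ k ≥ e ^ (k - 1) * h 2` for `k ≥ 1`. (Write `f ≥ g` for
`∃ r ∈ Cone, f = g + r`; products of such inequalities between elements of the cone are such
inequalities.)  Then multiply over all vertices. -/
def S_Vert : Prop :=
  ∀ (V : Type) [Fintype V] [DecidableEq V] (p j k : V → ℕ), ∃ b m : V → ℕ,
    (∀ v, 2 * b v + m v = 2 * p v + j v + 2 * k v ∧ m v ≤ 2 ∧ (k v = 0 → m v ≤ 1)) ∧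
    ∃ r ∈ Cone V, ∏ v, (ee v ^ p v * hh v 1 ^ j v * hh v 2 ^ k v) = bas b m + r

/-- **Cert.** Allowed: `S_CG, S_Coef, S_Edge, S_Vert`. The coefficient is positive.
`E` is the set of the edges, given as pairs `(a, b)`, `x` the load of `a` (the load of `b` is
`4 - x`); `D` is a vertex cover.
PROOF. Choose a term of every edge polynomial: load `4, 3, 1, 0` of `a`: the first, second, fifth,
last term; load `2`: the term `ee a * hh b 2` if `b ∈ D` and `hh a 2 * ee b` if not (then `a ∈ D`).
The rest of the edge polynomial is in the cone. So `∏ edge = ∏ chosen terms + r₁` with `r₁` in the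
cone (closed under products), and the product of the chosen terms is
`∏ v, (ee v ^ p v * hh v 1 ^ j v * hh v 2 ^ k v)` with `2 p + j + 2 k = load of v` and `k v = 0` for
`v ∉ D`. By `S_Vert` this is `bas b m + r₂`.  The coefficient of `expo b m` is at least `1`.
`b v + m v ≤ c v`: the load is `2 b + m`; if `v ∈ D` it is at most `2 c - 1` and `m ≤ 2`; if `v ∉ D`
it is at most `2 c` and `m ≤ 1` (parity). -/
def S_Cert : Prop :=
  ∀ (V : Type) [Fintype V] [DecidableEq V] (E : Finset (V × V)) (c : V → ℕ) (D : Finset V)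
    (x : V × V → ℕ),
    (∀ e ∈ E, e.1 ≠ e.2) → (∀ e ∈ E, e.1 ∈ D ∨ e.2 ∈ D) → (∀ e ∈ E, x e ≤ 4) →
    (∀ v, (∑ e ∈ E with e.1 = v, x e) + (∑ e ∈ E with e.2 = v, (4 - x e)) +
      (if v ∈ D then 1 else 0) ≤ 2 * c v) →
    ∃ b m : V → ℕ, (∀ v, b v + m v ≤ c v) ∧
      0 < coeff (expo b m) (van V * ∏ e ∈ E, edge e.1 e.2)

/-- **Bip.** Allowed: `S_Cert`. Colouring a bipartite graph from loads.
PROOF. `E` = the pairs `(a, b)` with `H.Adj a b`, `col a = true` (so `col b = false`); `S_Cert` with
the load `x a b`. The polynomial `P = van * ∏ edge` is homogeneous of degree `card V + 4 * card E`,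
its coefficient at `t = expo b m` is not zero, so `totalDegree P = t.degree`.  Apply
`MvPolynomial.combinatorial_nullstellensatz_exists_eval_nonzero` with the sets
`S (v, i) = image (fun n => (n : ℚ)) (L v)` if `col v = true` and the negatives if `col v = false`;
`t (v, 0) = b + m + 1 ≤ c v + 1 < card (L v)`, `t (v, 1) = b < card (L v)`.  At a point where `P` does
not vanish the two values at `v` are different and `s (a, i) + s (b, j) ≠ 0` for all edges. -/
def S_Bip : Prop :=
  ∀ (V : Type) [Fintype V] [DecidableEq V] (H : SimpleGraph V) [DecidableRel H.Adj] (col : V → Bool)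
    (c : V → ℕ) (L : V → Finset ℕ) (D : Finset V) (x : V → V → ℕ),
    (∀ u v, H.Adj u v → col u ≠ col v) → (∀ u v, H.Adj u v → u ∈ D ∨ v ∈ D) →
    (∀ v, c v + 2 ≤ (L v).card) → (∀ u v, H.Adj u v → x u v + x v u = 4) →
    (∀ v, (∑ u with H.Adj v u, x v u) + (if v ∈ D then 1 else 0) ≤ 2 * c v) →
    Col2 H L

/-- number of ordered pairs of adjacent vertices of `X` (twice the number of edges in `X`) -/
def eIn [DecidableEq V] (G : SimpleGraph V) [DecidableRel G.Adj] (X : Finset V) : ℕ :=
  ((X ×ˢ X).filter fun p => G.Adj p.1 p.2).card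

/-- number of edges from `X` to `Y` (for disjoint `X`, `Y`) -/
def eBt [DecidableEq V] (G : SimpleGraph V) [DecidableRel G.Adj] (X Y : Finset V) : ℕ :=
  ((X ×ˢ Y).filter fun p => G.Adj p.1 p.2).card

/-- **Load.** Loads from Hall's condition: every edge has four units, which are distributed to its
ends; the vertex `v` can take `κ v`.
PROOF. Hall's theorem (`Finset.all_card_le_biUnion_card_iff_exists_injective`) for the index type
`edges × Fin 4` and the sets `t (e, i) = {(v, s) | v ∈ e, s < κ v}`: for a set `F` of indices let `X`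
be the set of the ends of the edges in `F`; the union of the sets has `∑ v ∈ X, κ v` elements, and
`F` has at most `4 * (number of edges in X) = 2 * eIn H X` elements.  `x u v` = number of units of the
edge `uv` which are sent to slots of `u`. -/
def S_Load : Prop :=
  ∀ (V : Type) [Fintype V] [DecidableEq V] (H : SimpleGraph V) [DecidableRel H.Adj] (κ : V → ℕ),
    (∀ X : Finset V, 2 * eIn H X ≤ ∑ v ∈ X, κ v) →
    ∃ x : V → V → ℕ, (∀ u v, H.Adj u v → x u v + x v u = 4) ∧
      ∀ v, ∑ u with H.Adj v u, x v u ≤ κ v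

/-- `f` is a colouring of the vertices of `Y` with two colours from the lists -/
def ColOn (G : SimpleGraph V) (L : V → Finset ℕ) (Y : Finset V) (f : V → Finset ℕ) : Prop :=
  (∀ v ∈ Y, f v ⊆ L v ∧ (f v).card = 2) ∧ ∀ u ∈ Y, ∀ v ∈ Y, G.Adj u v → Disjoint (f u) (f v)

/-- `D` is a vertex cover of the subgraph induced by `S` -/
def Cov (G : SimpleGraph V) (S D : Finset V) : Prop :=
  D ⊆ S ∧ ∀ u ∈ S, ∀ v ∈ S, G.Adj u v → u ∈ D ∨ v ∈ D

/-- the subgraph induced by `S` is bipartite -/
def BipOn (G : SimpleGraph V) (S : Finset V) : Prop :=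
  ∃ col : V → Bool, ∀ u ∈ S, ∀ v ∈ S, G.Adj u v → col u ≠ col v

/-- **Ext.** Allowed: `S_Bip, S_Load`. A colouring of the complement of `S` extends to `S`.
PROOF. `L' v = L v \ ⋃ (w ∉ S, adjacent to v), f w` for `v ∈ S`; it has at least
`7 - 2 out(v)` elements, and `out(v) ≤ 2` by Hall for `X = {v}`; `c v = 5 - 2 out(v)`.  Apply `S_Load`
and `S_Bip` to the graph `G.induce S` on the type `{v // v ∈ S}` (or to the graph `G` restricted to
`S` on `V`, with `L' v = L v`, `c v = 5` for `v ∉ S`), `κ v = 2 c v - [v ∈ D]`: for `X ⊆ S`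
`∑ κ = 10 |X| - 4 eBt G X Sᶜ - |X ∩ D| ≥ 2 eIn G X`. -/
def S_Ext : Prop :=
  ∀ (V : Type) [Fintype V] [DecidableEq V] (G : SimpleGraph V) [DecidableRel G.Adj]
    (L : V → Finset ℕ) (S D : Finset V) (f : V → Finset ℕ),
    (∀ v ∈ S, (L v).card = 7) → ColOn G L Sᶜ f → BipOn G S → Cov G S D →
    (∀ X ⊆ S, (X ∩ D).card + 2 * eIn G X + 4 * eBt G X Sᶜ ≤ 10 * X.card) →
    ∃ f' : V → Finset ℕ, (∀ v, v ∉ S → f' v = f v) ∧ ColOn G L univ f'

/-- vertex cover number of the subgraph induced by `S` -/
noncomputable def tau (G : SimpleGraph V) (S : Finset V) : ℕ :=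
  sInf {n | ∃ D, Cov G S D ∧ D.card = n}

/-- **Tau.** (1) a minimum vertex cover exists; (2) `tau` of a bipartite induced subgraph is at most
half of the number of vertices; (3) deletion of `X` decreases `tau` by at least `|X ∩ D|`, for every
minimum cover `D`.
PROOF. (1) `S` is a cover, `Nat.sInf_mem`. (2) the two colour classes are covers. (3) `D \ X` is a
cover of `S \ X`. -/
def S_Tau : Prop :=
  ∀ (V : Type) [Fintype V] [DecidableEq V] (G : SimpleGraph V) (S : Finset V),
    (∃ D, Cov G S D ∧ D.card = tau G S) ∧ (BipOn G S → 2 * tau G S ≤ S.card) ∧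
    ∀ D, Cov G S D → D.card = tau G S → ∀ X ⊆ S, tau G (S \ X) + (X ∩ D).card ≤ tau G S

/-- `(G, L)` is a minimal counterexample relative to the precoloured set `P`: the colouring `g` of
`P` extends to the complement of every nonempty set `S` disjoint from `P`, but not to the whole
graph. -/
structure MinCex [Fintype V] [DecidableEq V] (G : SimpleGraph V) (L : V → Finset ℕ) (P : Finset V)
    (g : V → Finset ℕ) : Prop where
  seven : ∀ v, v ∉ P → (L v).card = 7
  ext : ∀ S : Finset V, S.Nonempty → Disjoint S P →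
    ∃ f : V → Finset ℕ, (∀ v ∈ P, f v = g v) ∧ ColOn G L Sᶜ f
  not : ¬ ∃ f : V → Finset ℕ, (∀ v ∈ P, f v = g v) ∧ ColOn G L univ f

/-- **ThmM.** Allowed: `S_Ext, S_Tau`. Theorem M: in a minimal counterexample
`2 φ(S) < tau(S)`, where `φ(S) = 5 |S| - 2 (number of edges which meet S)`, for every nonempty `S`
which induces a bipartite graph.
PROOF. Let `Φ(S) = 10 |S| - 2 eIn S - 4 eBt S Sᶜ - tau S` (an integer). Suppose `Φ ≥ 0` for some
nonempty bipartite `S` disjoint from `P`, and take `S` with maximal `Φ` among them. Let `D` be a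
minimum cover of `S`. Hall's condition of `S_Ext`: for `X = S` it is `Φ(S) ≥ 0`; for `X = ∅` trivial;
for `∅ ≠ X ≠ S` the set `S \ X` is nonempty and bipartite, and
`Φ(S) - Φ(S \ X) = 10 |X| - 2 eIn X - 4 eBt X Sᶜ - (tau S - tau (S \ X)) ≥ 0`, because
`eIn S = eIn X + eIn (S \ X) + 2 eBt X (S \ X)`,
`eBt (S \ X) (S \ X)ᶜ = eBt (S \ X) Sᶜ + eBt X (S \ X)`, `eBt S Sᶜ = eBt X Sᶜ + eBt (S \ X) Sᶜ`. With
`tau S - tau (S \ X) ≥ |X ∩ D|` this is Hall's condition.  `S_Ext` with the colouring of `Sᶜ` given by
minimality contradicts `MinCex.not`. -/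
def S_ThmM : Prop :=
  ∀ (V : Type) [Fintype V] [DecidableEq V] (G : SimpleGraph V) [DecidableRel G.Adj]
    (L : V → Finset ℕ) (P : Finset V) (g : V → Finset ℕ), MinCex G L P g →
    ∀ S : Finset V, S.Nonempty → Disjoint S P → BipOn G S →
      10 * S.card < tau G S + 2 * eIn G S + 4 * eBt G S Sᶜ

/-- **ThmM2.** Allowed: `S_ThmM, S_Tau`. The form with half of the number of vertices, for the
complement `S` of `P ∪ W`; `eIn G univ` is twice the number of edges.
PROOF. `S = univ \ (P ∪ W)`; `2 tau ≤ |S|`.  The number of edges which meet `S` is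
`eIn S / 2 + eBt S Sᶜ = (eIn univ - eIn (P ∪ W)) / 2`. -/
def S_ThmM2 : Prop :=
  ∀ (V : Type) [Fintype V] [DecidableEq V] (G : SimpleGraph V) [DecidableRel G.Adj]
    (L : V → Finset ℕ) (P : Finset V) (g : V → Finset ℕ), MinCex G L P g →
    ∀ W : Finset V, BipOn G (univ \ (P ∪ W)) → (univ \ (P ∪ W)).Nonempty →
      19 * (univ \ (P ∪ W)).card + 4 * eIn G (P ∪ W) < 4 * eIn G univ

end T72
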