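import Pool.Agent.Lib.MP_86b854_co.AlgSpec

set_option autoImplicit false

/-!
# MP_86b854_co : the algebra layer, local functionals (notes 1735, 1742)

Used by Theorem T5 (`AlgSpec3.lean`): `S` induces a bipartite graph, `T` is an independent set outside
of `S`. Vertices of `S` pay for their edges, every vertex of `T` pays a few quarters of its edges;
these payments are doubled. The two variables of `t ∈ T` are specialised to `(z, -z)`.

One vertex at a time: `R2` is the polynomial ring in the two variables of one vertex, `prd g` the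
product of one-vertex polynomials, `ev w g` a linear functional on `R2` (a finite combination of
coefficients), `Ev w f` the product functional.

Every `def S_Foo : Prop` is one Lean task: write `Pool/Agent/Lib/MP_86b854_co/Foo.lean` containing
`theorem tFoo (hypotheses : S_...) : S_Foo` in the namespace `T72`; the allowed hypotheses are
listed in the docstring.
-/

namespace T72

open MvPolynomial Finset

variable {V : Type}

/-- polynomials in the two variables of one vertex -/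
abbrev R2 := MvPolynomial (Fin 2) ℚ

/-- `x y` -/
noncomputable def e2 : R2 := X 0 * X 1
/-- the complete homogeneous polynomial of degree `m` -/
noncomputable def h2 (m : ℕ) : R2 := ∑ i ∈ range (m + 1), X 0 ^ i * X 1 ^ (m - i)
/-- `x ^ 2 + y ^ 2` -/
noncomputable def p2 : R2 := X 0 ^ 2 + X 1 ^ 2
/-- `x - y` -/
noncomputable def d2 : R2 := X 0 - X 1
/-- the exponent of `x ^ a y ^ b` -/
noncomputable def ex (a b : ℕ) : Fin 2 →₀ ℕ := Finsupp.equivFunOnFinite.symm ![a, b]
/-- symmetric polynomials -/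
def Sym2v (g : R2) : Prop := rename (Equiv.swap (0 : Fin 2) 1) g = g
/-- the specialisation `(x, y) ↦ (x, -x)` -/
noncomputable def ngv : R2 →ₐ[ℚ] R2 := aeval ![X 0, -X 0]

/-- a linear functional on `R2` -/
noncomputable def ev (w : (Fin 2 →₀ ℕ) →₀ ℚ) (g : R2) : ℚ := w.sum fun t r => r * coeff t g

/-- the product of one-vertex polynomials -/
noncomputable def prd [Fintype V] (g : V → R2) : MvPolynomial (V × Fin 2) ℚ :=
  ∏ v, rename (fun i => (v, i)) (g v)

/-- the joint exponent -/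
noncomputable def jn [Fintype V] (t : V → (Fin 2 →₀ ℕ)) : (V × Fin 2) →₀ ℕ :=
  Finsupp.equivFunOnFinite.symm (fun p => t p.1 p.2)

/-- the product functional -/
noncomputable def Ev [Fintype V] [DecidableEq V] (w : V → ((Fin 2 →₀ ℕ) →₀ ℚ))
    (f : MvPolynomial (V × Fin 2) ℚ) : ℚ :=
  ∑ t ∈ Fintype.piFinset (fun v => (w v).support), (∏ v, w v (t v)) * coeff (jn t) f

/-- **Tens.** (1) coefficients of products of one-vertex polynomials; (2) the product functional on
them.
PROOF. (1) Write every `g v` as the sum of its monomials and expand the product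
(`Finset.prod_univ_sum`, `MvPolynomial.as_sum`): a product of monomials of the different vertices is
the monomial `jn t`, and `jn` is injective.  (2) by (1) and `Finset.prod_univ_sum`. -/
def S_Tens : Prop :=
  ∀ (V : Type) [Fintype V] [DecidableEq V] (g : V → R2),
    (∀ t : V → (Fin 2 →₀ ℕ), coeff (jn t) (prd g) = ∏ v, coeff (t v) (g v)) ∧
    ∀ w : V → ((Fin 2 →₀ ℕ) →₀ ℚ), Ev w (prd g) = ∏ v, ev (w v) (g v)

/-- **LocT.** The functional at a vertex of `T`: the coefficient of `z ^ (2 k)` in `g (z, -z)` is a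
combination of the coefficients of `(x - y) g`.
PROOF. `w = ∑ j ≤ k, (-1)^(k-j) [x^(k+j+1) y^(k-j)]`. Both sides are linear in `g`, and a symmetric
polynomial is half of the sum of `r (x^a y^b + x^b y^a)` over its monomials (`g = (g + swap g) / 2`).
Let `a ≥ b`. If `a + b ≠ 2 k` both sides are `0`. If `a + b = 2 k` the left side is
`(-1)^b + (-1)^a = 2 (-1)^a`; `(x - y) g = x^(a+1) y^b + x^(b+1) y^a - x^a y^(b+1) - x^b y^(a+1)`;
if `a ≥ b + 2` the right side is `(-1)^(k-(a-k)) - (-1)^(k-(a-k-1)) = 2 (-1)^a`; if `a = b = k` it is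
`2 (-1)^k`. -/
def S_LocT : Prop :=
  ∀ k : ℕ, ∃ w : (Fin 2 →₀ ℕ) →₀ ℚ, (∀ t ∈ w.support, t 0 ≤ 2 * k + 1 ∧ t 1 ≤ 2 * k + 1) ∧
    ∀ g : R2, Sym2v g → ev w (d2 * g) = coeff (ex (2 * k) 0) (ngv g)

/-- the numbers `a k i` of `S_Walk` -/
def wk (α β : ℚ) : ℕ → ℕ → ℚ
  | 0, 0 => α
  | 0, 1 => β
  | 0, (_ + 2) => 0
  | (k + 1), 0 => wk α β k 1 - wk α β k 0
  | (k + 1), (i + 1) => wk α β k (i + 2) + wk α β k i

/-- **Walk.** Positivity for the functional `α χ₀ + β χ₂`.
PROOF. Let `W k i` (`i ∈ ℤ`) be the coefficient of `y^i` in `(y + 1/y)^k`: `W 0 i = [i = 0]`,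
`W (k+1) i = W k (i-1) + W k (i+1)`, `W k (-i) = W k i`. By induction on `k`:
`wk k i = (α + β) (W k i - W k (i+1)) + β (W (k+1) i - W (k+1) (i+1))`.  `W k i` is the binomial
coefficient `C(k, (k-i)/2)` if `k - i` is even (and `i ≤ k`), and `0` otherwise.  So
`wk k i = α C(k, r) - β C(k, r-1)` if `k - i = 2 r`, and `wk k i = β C(k, r+1) - α C(k, r)` if
`k - i = 2 r + 1` (`C(k, -1) = 0`), `wk k (k+1) = β`, `wk k i = 0` for `i ≥ k + 2`.  In the first case
`C(k, r-1) (k-r+1) = C(k, r) r` and `2 r ≤ k`, so `C(k,r-1) (k+2) ≤ k C(k,r)`, and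
`β k < α (k + 2)` gives a positive number. In the second case `C(k, r) ≤ C(k, r+1)` because
`2 r + 1 ≤ k`, and `α < β`. -/
def S_Walk : Prop :=
  ∀ (K : ℕ) (α β : ℚ), 0 < α → α < β → β * K < α * (K + 2) →
    ∀ k ≤ K, ∀ i : ℕ, 0 ≤ wk α β k i ∧ (i ≤ 1 → 0 < wk α β k i)

/-- **LocS.** Allowed: `S_Walk`. The functional at a vertex of `S`: `T` is the load of the vertex,
`2 c - T ≥ 1` its slack, `K` a bound for the number of factors `p2`.
PROOF. For `b, j` put `ct b j (g) = coeff (ex (b+j+1) b) (d2 * g)`; since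
`d2 * h2 m = x^(m+1) - y^(m+1)`, `ct b j (e2^b' * h2 j') = [b = b', j = j']`.
Identities: `h2 1 * h2 1 = h2 2 + e2`, `h2 1 * h2 (m+1) = h2 (m+2) + e2 * h2 m`,
`h2 2 * h2 (m+2) = h2 (m+4) + e2 * h2 (m+2) + e2^2 * h2 m`, `h2 2 * h2 1 = h2 3 + e2 * h2 1`;
`p2 * h2 0 = h2 2 - e2`, `p2 * h2 1 = h2 3`, `p2 * h2 (m+2) = h2 (m+4) + e2^2 * h2 m`.
So `M = e2^n * h2 1^o * h2 2^m` is a sum of terms `e2^b * h2 j`, with `j` and `o` of the same parity,
and it contains a term with `j = 1` if `o` is odd, and with `j = 0` or `j = 2` if `o` is even.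
`T` odd: `w = ct ((T-1)/2) 1 + ct ((T-3)/2) 3` (the second one only if `3 ≤ T` and `T + 3 ≤ 2 c`).
Multiplication by `p2` maps sums of terms with odd `j` to such sums, so all values are `≥ 0` (terms of
another total degree, in particular all terms with even `j`, have the value `0`). Positive: for
`k = 0` the term with `j = 1`; for `k > 0` and `T + 2 ≤ 2 c`, hence `T + 3 ≤ 2 c`: `p2^k * h2 1`
contains a term with `j = 1` (`k` even) or `j = 3` (`k` odd).
`T` even, so `T + 2 ≤ 2 c`: `w = α ct (T/2) 0 + β ct (T/2-1) 2` (the second one only if `2 ≤ T`) with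
`α = K + 1`, `β = K + 2`.  By induction on `k`, the value of `w` at `e2^b * p2^k * h2 (2 i)` with
`2 b + 2 k + 2 i = T` is `wk α β k i` (for `2 ≤ T`; `w (p2 * g)` for the term `g = e2^b * h2 (2i)`:
use the identities). By `S_Walk` it is `≥ 0`, and positive for `i ≤ 1`. Terms with odd `o` or another
degree have the value `0`. -/
def S_LocS : Prop :=
  ∀ c T K : ℕ, T + 1 ≤ 2 * c → ∃ w : (Fin 2 →₀ ℕ) →₀ ℚ,
    (∀ t ∈ w.support, t 0 ≤ c + 1 ∧ t 1 ≤ c) ∧
    (∀ n o m k : ℕ, k ≤ K → 0 ≤ ev w (d2 * (e2 ^ n * h2 1 ^ o * h2 2 ^ m * p2 ^ k))) ∧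
    (∀ n o m k : ℕ, k ≤ K → 2 * n + o + 2 * m + 2 * k = T → (k = 0 ∨ T + 2 ≤ 2 * c) →
      0 < ev w (d2 * (e2 ^ n * h2 1 ^ o * h2 2 ^ m * p2 ^ k)))

/-- the polynomial of an edge with a sign -/
noncomputable def edgeS (ε : ℚ) (u v : V) : MvPolynomial (V × Fin 2) ℚ :=
  ∏ i : Fin 2, ∏ j : Fin 2, (X (u, i) + C ε * X (v, j))

/-- the span of the products of symmetric one-vertex polynomials -/
noncomputable def Psp (V : Type) [Fintype V] : Submodule ℚ (MvPolynomial (V × Fin 2) ℚ) :=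
  Submodule.span ℚ {f | ∃ g : V → R2, (∀ v, Sym2v (g v)) ∧ f = prd g}

/-- specialisation of the variables of the vertices in `T` -/
noncomputable def spT [DecidableEq V] (T : Finset V) :
    MvPolynomial (V × Fin 2) ℚ →ₐ[ℚ] MvPolynomial (V × Fin 2) ℚ :=
  aeval fun p => if p.1 ∈ T ∧ p.2 = 1 then -X (p.1, 0) else X p

/-- **Spc.** Allowed: `S_Tens, S_LocT`. The functional of `(∏ differences) * f` is computed after the
specialisation. `w` is arbitrary at the vertices outside of `T`, and given by `S_LocT` on `T`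
(hypothesis `hw`).
PROOF. (1) `prd g * prd g' = prd (g * g')`, products of symmetric polynomials are symmetric, so `Psp`
is closed under multiplication; `edgeS ε u v` is in it (`u ≠ v`): it is
`e(u)² + ε e(u) h₁(u) h₁(v) + e(u) h₂(v) + h₂(u) e(v) + ε h₁(u) e(v) h₁(v) + e(v)²` for `ε² = 1`
(each term is `prd` of a function which is `1` at the other vertices).
(2) both sides are linear in `f`; for `f = prd g`: `van V * prd g = prd (d2 * g)` and
`(∏ v ∉ T, (X (v,0) - X (v,1))) * spT T (prd g) = prd (fun v => if v ∈ T then ngv (g v) else d2 * g v)`,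
so by `S_Tens` both sides are `∏ (v ∉ T), ev (w v) (d2 * g v) * ∏ (v ∈ T), coeff (ex (2 k v) 0)
(ngv (g v))`. -/
def S_Spc : Prop :=
  (∀ (V : Type) [Fintype V] [DecidableEq V],
    (1 : MvPolynomial (V × Fin 2) ℚ) ∈ Psp V ∧ (∀ f ∈ Psp V, ∀ g ∈ Psp V, f * g ∈ Psp V) ∧
    ∀ (ε : ℚ) (u v : V), ε ^ 2 = 1 → u ≠ v → edgeS ε u v ∈ Psp V) ∧
  ∀ (V : Type) [Fintype V] [DecidableEq V] (T : Finset V) (k : V → ℕ)
    (w : V → ((Fin 2 →₀ ℕ) →₀ ℚ)),
    (∀ t ∈ T, ∀ g : R2, Sym2v g → ev (w t) (d2 * g) = coeff (ex (2 * k t) 0) (ngv g)) →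
    ∀ f ∈ Psp V, Ev w (van V * f) =
      Ev (fun v => if v ∈ T then Finsupp.single (ex (2 * k v) 0) 1 else w v)
        ((∏ v ∈ univ \ T, (X (v, 0) - X (v, 1))) * spT T f)

end T72
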