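import Pool.Agent.Lib.MP_86b854_co.AlgSpec2

set_option autoImplicit false

/-!
# MP_86b854_co : the algebra layer, Theorem T5 (note 1742)

Every `def S_Foo : Prop` is one Lean task: write `Pool/Agent/Lib/MP_86b854_co/Foo.lean` containing
`theorem tFoo (hypotheses : S_...) : S_Foo` in the namespace `T72`; the allowed hypotheses are
listed in the docstring.
-/

namespace T72

open MvPolynomial Finset

variable {V : Type}

/-- **LocI.** The functional at a vertex without slack and without factors `p2`.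
PROOF. `w = ct (T/2) 0` if `T` is even and `ct ((T-1)/2) 1` if `T` is odd (then `T + 1 ≤ 2 c`), where
`ct b j (g) = coeff (ex (b+j+1) b) (d2 * g)`, see `S_LocS`: `e2^n * h2 1^o * h2 2^m` is a sum of
terms `e2^b * h2 j`, and `e2^n * h2 1^o` contains the term with `j = 0` (`o` even) or `j = 1` (`o`
odd). -/
def S_LocI : Prop :=
  ∀ c T : ℕ, T ≤ 2 * c → ∃ w : (Fin 2 →₀ ℕ) →₀ ℚ,
    (∀ t ∈ w.support, t 0 ≤ c + 1 ∧ t 1 ≤ c) ∧
    (∀ n o m : ℕ, 0 ≤ ev w (d2 * (e2 ^ n * h2 1 ^ o * h2 2 ^ m))) ∧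
    (∀ n o : ℕ, 2 * n + o = T → 0 < ev w (d2 * (e2 ^ n * h2 1 ^ o)))

/-- **T5cert.** Allowed: `S_Tens, S_LocT, S_LocS, S_LocI, S_Spc, S_Edge`. The certificate.
`S = Tᶜ`, `E` = edges inside of `S`, with loads `x` (of the first end; the second end has the load
`4 - x`), `B` = edges `(s, t)` from `S` to `T`, with payments `a` of `t` before doubling: after
doubling `t` pays `2 a` and `s` pays `4 - 2 a`. The vertices of `I ⊆ S` have no edges in `B` and are
independent; they need no slack.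
PROOF. `w s` from `S_LocS` for `s ∉ I` with `c s`, `T := load of s` (the sum of the first three sums in
the hypothesis), `K = ` number of the edges of `B` at `s`; `w s` from `S_LocI` for `s ∈ I`, with
`T := load of s`; `w t` from `S_LocT` with `k t = ∑ a`.  Let `F = ∏ edges`.  If
`Ev w (van V * F) ≠ 0` then some `t` in the product of the supports has a nonzero coefficient, as
wanted.  By `S_Spc` (with `edge u v = edgeS 1 u v`) it is `Ev w' (vanS * spT T F)`, and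
`spT T F = ∏ (e ∈ E), edge e.1 e.2 * ∏ (e ∈ B), (ee e.1 ^ 2 - Z ^ 2 * P + Z ^ 4)` with
`Z = X (e.2, 0)`, `P = X (e.1, 0) ^ 2 + X (e.1, 1) ^ 2`, for both signs.  Expand: choose one of the six
terms of `S_Edge` for `e ∈ E` and one of the three terms for `e ∈ B`.  Every choice gives `prd` of:
at `s`: `d2` times `e2^n * h2 1^o * h2 2^m * p2^k` (`k` = number of middle terms at `s`, at most `K`;
`k = 0` if `s ∈ I`), at `t`: `(-1)^(number of middle terms at t) * X 0 ^ (2 y)` with `y = ` the sum of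
`0, 1, 2`. Its value is the product of the values at the vertices (`S_Tens`); at `t` it is `0` if
`y ≠ k t` and `(-1)^(k t)` if `y = k t` (the number of middle terms has the parity of `y`); at `s` it
is `≥ 0`. So all values are `(-1)^(∑ k t)` times a nonnegative number.  The choice given by the loads
(`x e` for `e ∈ E`, where for `x e = 2` the factor `h2 2` is put at an end outside of `I`, and for
`e ∈ B` the first, middle, last term for `a e = 0, 1, 2`) has a positive number at every `s`: its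
degree is the load of `s`, and if there is a middle term at `s` then `T + 2 ≤ 2 c s` by the
hypothesis; at `s ∈ I` there is no factor `h2 2`. -/
def S_T5cert : Prop :=
  ∀ (V : Type) [Fintype V] [DecidableEq V] (T I : Finset V) (E B : Finset (V × V)) (c : V → ℕ)
    (ε : V → ℚ) (x a : V × V → ℕ),
    (∀ v, ε v ^ 2 = 1) →
    (∀ e ∈ E, e.1 ≠ e.2 ∧ e.1 ∉ T ∧ e.2 ∉ T ∧ x e ≤ 4 ∧ ¬ (e.1 ∈ I ∧ e.2 ∈ I)) →
    (∀ e ∈ B, e.1 ∉ T ∧ e.2 ∈ T ∧ a e ≤ 2 ∧ e.1 ∉ I) →
    (∀ s ∉ T, s ∉ I → (∑ e ∈ E with e.1 = s, x e) + (∑ e ∈ E with e.2 = s, (4 - x e)) +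
      (∑ e ∈ B with e.1 = s, (4 - 2 * a e)) + (1 + ∑ e ∈ B with e.1 = s, a e) ≤ 2 * c s) →
    (∀ s ∉ T, s ∈ I → (∑ e ∈ E with e.1 = s, x e) + (∑ e ∈ E with e.2 = s, (4 - x e)) ≤ 2 * c s) →
    ∃ t : V → (Fin 2 →₀ ℕ), (∀ s ∉ T, t s 0 ≤ c s + 1 ∧ t s 1 ≤ c s) ∧
      (∀ v ∈ T, t v 0 ≤ 2 * (∑ e ∈ B with e.2 = v, a e) + 1 ∧
        t v 1 ≤ 2 * (∑ e ∈ B with e.2 = v, a e) + 1) ∧
      coeff (jn t) (van V * ((∏ e ∈ E, edge e.1 e.2) * ∏ e ∈ B, edgeS (ε e.1) e.1 e.2)) ≠ 0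

/-- **T5bip.** Allowed: `S_T5cert`. The colouring. `H` is a graph on `V = S ∪ T` (`S = Tᶜ`).
PROOF. As in `S_Bip`: `E` = the pairs `(u, v)` outside of `T`, adjacent, `col u = true`; `B` = the
adjacent pairs `(s, t)`, `s ∉ T`, `t ∈ T`; the sets for the Nullstellensatz are the lists (as rational
numbers) for `t ∈ T` and for `s` with `col s = true`, and the negatives for `col s = false`; for
`(s, t) ∈ B` the sign is `ε s = -1` if `col s = true` and `ε s = 1` if `col s = false`: a factor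
`X (s, i) + ε X (t, j)` vanishes at a point iff the two colours are equal. -/
def S_T5bip : Prop :=
  ∀ (V : Type) [Fintype V] [DecidableEq V] (H : SimpleGraph V) [DecidableRel H.Adj]
    (T I : Finset V) (col : V → Bool) (c : V → ℕ) (L : V → Finset ℕ) (x a : V → V → ℕ),
    (∀ u v, u ∉ T → v ∉ T → H.Adj u v → col u ≠ col v) →
    (∀ u ∈ T, ∀ v ∈ T, ¬ H.Adj u v) → (∀ u ∈ I, ∀ v ∈ I, ¬ H.Adj u v) →
    (∀ u ∈ I, ∀ v ∈ T, ¬ H.Adj u v) →
    (∀ t ∈ T, 2 * (∑ s with H.Adj s t, a s t) + 2 ≤ (L t).card) →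
    (∀ s, s ∉ T → c s + 2 ≤ (L s).card) →
    (∀ u v, u ∉ T → v ∉ T → H.Adj u v → x u v + x v u = 4) →
    (∀ s t, s ∉ T → t ∈ T → H.Adj s t → a s t ≤ 2) →
    (∀ s, s ∉ T → s ∉ I → (∑ u with H.Adj s u ∧ u ∉ T, x s u) +
      (∑ t with H.Adj s t ∧ t ∈ T, (4 - 2 * a s t)) +
      (1 + ∑ t with H.Adj s t ∧ t ∈ T, a s t) ≤ 2 * c s) →
    (∀ s, s ∉ T → s ∈ I → ∑ u with H.Adj s u ∧ u ∉ T, x s u ≤ 2 * c s) →
    Col2 H L

/-- number of neighbours of `t` in `X` -/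
def dgI [DecidableEq V] (G : SimpleGraph V) [DecidableRel G.Adj] (X : Finset V) (t : V) : ℕ :=
  (X.filter fun v => G.Adj t v).card

/-- **T5load.** Loads from Hall's condition. Every edge inside of `S = Tᶜ` and every edge between `S`
and `T` has four units; `s ∈ S` takes at most `κ s` units, `t ∈ T` at most `p t` units and at most one
of every edge.
PROOF. Hall's theorem (`Finset.all_card_le_biUnion_card_iff_exists_injective`) for the index set
`edges × Fin 4`; slots: `κ s` at `s`, `p t` at `t`; the unit `0` of an edge `st` may use the slots of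
`s` and of `t`, the units `1, 2, 3` those of `s`; units of inner edges the slots of both ends.  For a
set `F` of units let `X` be the set of the ends in `S` and `Y` the set of the `t` with a unit `0` of an
edge at `t` in `F`. The union of the slot sets has `∑ (s ∈ X), κ s + ∑ (t ∈ Y), p t` elements, and
`|F| ≤ 2 eIn X + 4 eBt X T - ∑ (t ∈ T \ Y), dgI X t`, and `min (p t) (dgI X t) ≤ dgI X t`, `≤ p t`. -/
def S_T5load : Prop :=
  ∀ (V : Type) [Fintype V] [DecidableEq V] (H : SimpleGraph V) [DecidableRel H.Adj] (T : Finset V)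
    (κ p : V → ℕ), (∀ u ∈ T, ∀ v ∈ T, ¬ H.Adj u v) →
    (∀ X : Finset V, Disjoint X T →
      2 * eIn H X + 4 * eBt H X T ≤ (∑ v ∈ X, κ v) + ∑ t ∈ T, min (p t) (dgI H X t)) →
    ∃ x a : V → V → ℕ, (∀ u v, u ∉ T → v ∉ T → H.Adj u v → x u v + x v u = 4) ∧
      (∀ s t, s ∉ T → t ∈ T → H.Adj s t → a s t ≤ 1) ∧
      (∀ s, s ∉ T → (∑ u with H.Adj s u ∧ u ∉ T, x s u) +
        (∑ t with H.Adj s t ∧ t ∈ T, (4 - a s t)) ≤ κ s) ∧
      ∀ t ∈ T, ∑ s with H.Adj s t, a s t ≤ p t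

/-- **T5ext.** Allowed: `S_T5bip, S_T5load`. A colouring of the complement of `S ∪ T` extends.
Every `t ∈ T` has at most one neighbour outside of `S`.
PROOF. On the type `{v // v ∈ S ∪ T}` (or on `V` with the graph restricted to `S ∪ T`, lists with
three elements and `c = 1` elsewhere). `L' v = L v` minus the colours of the neighbours outside of
`S ∪ T`.  For `s ∈ S` let `out'(s)` = number of neighbours outside of `S ∪ T`, `c s = 5 - 2 out'(s)`,
`κ s = 2 c s - 1`, and `κ s = 2 c s` for `s ∈ I`; Hall for `X = {s}` gives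
`4 out'(s) + 4 |N(s) ∩ T| ≤ 9 + 1 + |N(s) ∩ T|`, so `out'(s) ≤ 2`, so all numbers are natural and
`|L' s| ≥ c s + 2`.  For `t ∈ T`, `p t = 2 - dgI Sᶜ t`, `|L' t| ≥ 7 - 2 dgI Sᶜ t ≥ 2 p t + 2`.
`S_T5load` gives `x`, `a`; the load of `s ∉ I` with payments `a` is at most `2 c s - 1`, with the
payments `2 a` it is smaller by `∑ a`. For `s ∈ I` there are no neighbours in `T`. -/
def S_T5ext : Prop :=
  ∀ (V : Type) [Fintype V] [DecidableEq V] (G : SimpleGraph V) [DecidableRel G.Adj]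
    (L : V → Finset ℕ) (S T I : Finset V) (f : V → Finset ℕ),
    (∀ v ∈ S ∪ T, (L v).card = 7) → ColOn G L (S ∪ T)ᶜ f → BipOn G S → Disjoint S T →
    (∀ u ∈ T, ∀ v ∈ T, ¬ G.Adj u v) → I ⊆ S → (∀ u ∈ I, ∀ v ∈ I, ¬ G.Adj u v) →
    (∀ u ∈ I, ∀ v ∈ T, ¬ G.Adj u v) → (∀ t ∈ T, dgI G Sᶜ t ≤ 1) →
    (∀ X ⊆ S, 2 * eIn G X + 4 * eBt G X Sᶜ ≤
      9 * X.card + (X ∩ I).card + ∑ t ∈ T, min (2 - dgI G Sᶜ t) (dgI G X t)) →
    ∃ f' : V → Finset ℕ, (∀ v, v ∉ S ∪ T → f' v = f v) ∧ ColOn G L univ f'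

/-- **ThmT5.** Allowed: `S_T5ext`. Theorem T5. `S` and `T` are disjoint sets of vertices outside of
`P`, `S` is nonempty and induces a bipartite graph, `T` is independent, `I ⊆ S` is independent and no
vertex of `I` is adjacent to a vertex of `T` with at most one neighbour outside of `S`.
PROOF. Every vertex `v` outside of `P` has at least three neighbours: otherwise a colouring of the
complement of `{v}` extends to `v` (`7 - 2 * 2 ≥ 2`).  Put `p(S', t) = 2 - dgI S'ᶜ t` and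
`Val(S') = 9 |S'| + |I ∩ S'| + ∑ (t ∈ T), p(S', t) - 2 eIn S' - 4 eBt S' S'ᶜ` (an integer).  Suppose
`Val(S) ≥ 0` and let `S'` be a nonempty subset of `S` with maximal `Val(S') ≥ 0`. For `X ⊆ S'` we have
`Val(S' \ X) ≤ Val(S')` (also for `X = S'`, because `Val(∅) = 0`: `p(∅, t) = 2 - deg t = 0`), and
`Val(S') - Val(S' \ X) = 9 |X| + |X ∩ I| + ∑ (t ∈ T), min (p(S', t)) (dgI X t) - 2 eIn X - 4 eBt X S'ᶜ`
(see the computation in `S_ThmM`; `dgI (S' \ X)ᶜ t = dgI S'ᶜ t + dgI X t`).  Apply `S_T5ext` to `S'`,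
`T' = {t ∈ T | dgI S'ᶜ t ≤ 1}`, `I ∩ S'` and the colouring of `(S' ∪ T')ᶜ` from `MinCex.ext` (the other
`t ∈ T` have `p = 0`; if `i ∈ I` is adjacent to `t ∈ T` then `dgI S'ᶜ t ≥ dgI Sᶜ t ≥ 2`).
Contradiction to `MinCex.not`. -/
def S_ThmT5 : Prop :=
  ∀ (V : Type) [Fintype V] [DecidableEq V] (G : SimpleGraph V) [DecidableRel G.Adj]
    (L : V → Finset ℕ) (P : Finset V) (g : V → Finset ℕ), MinCex G L P g →
    ∀ S T I : Finset V, S.Nonempty → Disjoint S P → BipOn G S → Disjoint S T → Disjoint T P →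
      (∀ u ∈ T, ∀ v ∈ T, ¬ G.Adj u v) → I ⊆ S → (∀ u ∈ I, ∀ v ∈ I, ¬ G.Adj u v) →
      (∀ u ∈ I, ∀ t ∈ T, G.Adj u t → 2 ≤ dgI G Sᶜ t) →
      9 * S.card + I.card + ∑ t ∈ T, (2 - dgI G Sᶜ t) < 2 * eIn G S + 4 * eBt G S Sᶜ

/-- **ThmT5W.** Allowed: `S_ThmT5`. The form for the complement `S` of `P ∪ W`.  `eIn G univ` is twice
the number of edges.
PROOF. `2 eIn S + 4 eBt S Sᶜ = 2 eIn univ - 2 eIn Sᶜ`. -/
def S_ThmT5W : Prop :=
  ∀ (V : Type) [Fintype V] [DecidableEq V] (G : SimpleGraph V) [DecidableRel G.Adj]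
    (L : V → Finset ℕ) (P : Finset V) (g : V → Finset ℕ), MinCex G L P g →
    ∀ W T I : Finset V, T ⊆ W → Disjoint W P → (P ∪ W)ᶜ.Nonempty → BipOn G (P ∪ W)ᶜ →
      (∀ u ∈ T, ∀ v ∈ T, ¬ G.Adj u v) → I ⊆ (P ∪ W)ᶜ → (∀ u ∈ I, ∀ v ∈ I, ¬ G.Adj u v) →
      (∀ u ∈ I, ∀ t ∈ T, G.Adj u t → 2 ≤ dgI G (P ∪ W) t) →
      9 * (P ∪ W)ᶜ.card + I.card + (∑ t ∈ T, (2 - dgI G (P ∪ W) t)) + 2 * eIn G (P ∪ W) <
        2 * eIn G univ

end T72
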