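import Pool.Agent.Lib.MP_86b854_co.AlgSpec

set_option autoImplicit false
set_option linter.unusedSectionVars false

/-!
# MP_86b854_co : colouring a bipartite graph from loads
-/

namespace T72

open MvPolynomial Finset

theorem bip_hom (V : Type) [Fintype V] (E : Finset (V × V)) :
    (van V * ∏ e ∈ E, edge e.1 e.2 : MvPolynomial (V × Fin 2) ℚ).IsHomogeneous
      ((∑ _v : V, 1) + ∑ _e ∈ E, 4) := by
  refine IsHomogeneous.mul ?_ ?_
  · rw [van]
    refine IsHomogeneous.prod _ _ _ (fun v _ => ?_)
    exact (isHomogeneous_X ℚ _).sub (isHomogeneous_X ℚ _)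
  · refine IsHomogeneous.prod _ _ _ (fun e _ => ?_)
    have h : (edge e.1 e.2 : MvPolynomial (V × Fin 2) ℚ).IsHomogeneous
        (∑ _i : Fin 2, ∑ _j : Fin 2, 1) := by
      rw [edge]
      refine IsHomogeneous.prod _ _ _ (fun i _ => IsHomogeneous.prod _ _ _ (fun j _ => ?_))
      exact (isHomogeneous_X ℚ _).add (isHomogeneous_X ℚ _)
    simpa using h

theorem tBip (h1 : S_Cert) : S_Bip := by
  intro V _ _ H _ col c L D x hcol hcov hL hx hload
  classical
  set E : Finset (V × V) := univ.filter (fun e => H.Adj e.1 e.2 ∧ col e.1 = true) with hE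
  have hmem : ∀ e : V × V, e ∈ E ↔ H.Adj e.1 e.2 ∧ col e.1 = true := by
    intro e
    simp [hE]
  have hE2 : ∀ e ∈ E, col e.2 = false := by
    intro e he
    obtain ⟨h2, h3⟩ := (hmem e).mp he
    have h4 := hcol _ _ h2
    rw [h3] at h4
    cases h5 : col e.2
    · rfl
    · exact absurd h5.symm h4
  obtain ⟨b, m, hbm, hpos⟩ := h1 V E c D (fun e => x e.1 e.2)
    (fun e he => ((hmem e).mp he).1.ne) (fun e he => hcov _ _ ((hmem e).mp he).1)
    (fun e he => by have := hx _ _ ((hmem e).mp he).1; omega) (by
      intro v
      have h2 := hload v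
      have h3 : (∑ e ∈ E with e.1 = v, x e.1 e.2) + (∑ e ∈ E with e.2 = v, (4 - x e.1 e.2)) =
          ∑ u with H.Adj v u, x v u := by
        cases hv : col v
        · have h4 : (∑ e ∈ E with e.1 = v, x e.1 e.2) = 0 := by
            apply Finset.sum_eq_zero
            intro e he
            obtain ⟨he1, he2⟩ := Finset.mem_filter.mp he
            have h5 := ((hmem e).mp he1).2
            rw [he2, hv] at h5
            exact absurd h5 (by decide)
          rw [h4, zero_add]
          refine Finset.sum_bij' (fun e _ => e.1) (fun u _ => (u, v)) ?_ ?_ ?_ ?_ ?_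
          · intro e he
            obtain ⟨he1, he2⟩ := Finset.mem_filter.mp he
            have h5 := ((hmem e).mp he1).1
            rw [he2] at h5
            exact Finset.mem_filter.mpr ⟨Finset.mem_univ _, h5.symm⟩
          · intro u hu
            have h5 := (Finset.mem_filter.mp hu).2
            refine Finset.mem_filter.mpr ⟨(hmem _).mpr ⟨h5.symm, ?_⟩, rfl⟩
            have h6 := hcol _ _ h5
            rw [hv] at h6
            cases h7 : col u
            · exact absurd h7.symm h6
            · rfl
          · intro e he
            obtain ⟨he1, he2⟩ := Finset.mem_filter.mp he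
            exact Prod.ext rfl he2.symm
          · intro u hu
            rfl
          · intro e he
            obtain ⟨he1, he2⟩ := Finset.mem_filter.mp he
            have h5 := hx _ _ ((hmem e).mp he1).1
            rw [← he2]
            omega
        · have h4 : (∑ e ∈ E with e.2 = v, (4 - x e.1 e.2)) = 0 := by
            apply Finset.sum_eq_zero
            intro e he
            obtain ⟨he1, he2⟩ := Finset.mem_filter.mp he
            have h5 := hE2 e he1
            rw [he2, hv] at h5
            exact absurd h5 (by decide)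
          rw [h4, add_zero]
          refine Finset.sum_bij' (fun e _ => e.2) (fun u _ => (v, u)) ?_ ?_ ?_ ?_ ?_
          · intro e he
            obtain ⟨he1, he2⟩ := Finset.mem_filter.mp he
            have h5 := ((hmem e).mp he1).1
            rw [he2] at h5
            exact Finset.mem_filter.mpr ⟨Finset.mem_univ _, h5⟩
          · intro u hu
            have h5 := (Finset.mem_filter.mp hu).2
            exact Finset.mem_filter.mpr ⟨(hmem _).mpr ⟨h5, hv⟩, rfl⟩
          · intro e he
            obtain ⟨he1, he2⟩ := Finset.mem_filter.mp he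
            exact Prod.ext he2.symm rfl
          · intro u hu
            rfl
          · intro e he
            obtain ⟨he1, he2⟩ := Finset.mem_filter.mp he
            rw [← he2]
      rw [h3]
      exact h2)
  -- the Nullstellensatz
  set P : MvPolynomial (V × Fin 2) ℚ := van V * ∏ e ∈ E, edge e.1 e.2 with hP
  have hne : P ≠ 0 := by
    intro h0
    rw [h0, coeff_zero] at hpos
    exact lt_irrefl _ hpos
  have hdeg : P.totalDegree = (expo b m).degree := by
    rw [(bip_hom V E).totalDegree hne, Finsupp.degree_eq_weight_one]
    exact ((bip_hom V E) (ne_of_gt hpos)).symm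
  have hinj1 : Function.Injective (fun n : ℕ => (n : ℚ)) := Nat.cast_injective
  have hinj2 : Function.Injective (fun n : ℕ => -(n : ℚ)) := by
    intro u v huv
    exact Nat.cast_injective (neg_injective huv)
  obtain ⟨s, hs, hev⟩ := combinatorial_nullstellensatz_exists_eval_nonzero P (expo b m)
    (ne_of_gt hpos) hdeg
    (fun p => if col p.1 = true then (L p.1).image (fun n : ℕ => (n : ℚ)) else
      (L p.1).image (fun n : ℕ => -(n : ℚ))) (by
      rintro ⟨v, i⟩
      have h2 : (if col v = true then (L v).image (fun n : ℕ => (n : ℚ)) else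
          (L v).image (fun n : ℕ => -(n : ℚ))).card = (L v).card := by
        split_ifs
        · exact Finset.card_image_of_injective _ hinj1
        · exact Finset.card_image_of_injective _ hinj2
      have h3 := hbm v
      have h4 := hL v
      have h5 : expo b m (v, i) = if i = 0 then b v + m v + 1 else b v := rfl
      rw [h2, h5]
      split_ifs <;> omega)
  have hn : ∀ p : V × Fin 2, ∃ n ∈ L p.1, s p = if col p.1 = true then (n : ℚ) else -(n : ℚ) := by
    intro p
    have h2 := hs p
    split_ifs at h2 ⊢ with h3
    · obtain ⟨n, hn1, hn2⟩ := Finset.mem_image.mp h2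
      exact ⟨n, hn1, hn2.symm⟩
    · obtain ⟨n, hn1, hn2⟩ := Finset.mem_image.mp h2
      exact ⟨n, hn1, hn2.symm⟩
  choose N hN1 hN2 using hn
  rw [hP, map_mul] at hev
  have hev1 := left_ne_zero_of_mul hev
  have hev2 := right_ne_zero_of_mul hev
  have hdiff : ∀ v, N (v, 0) ≠ N (v, 1) := by
    intro v hv
    rw [van, map_prod] at hev1
    have h2 := Finset.prod_ne_zero_iff.mp hev1 v (Finset.mem_univ v)
    rw [map_sub, eval_X, eval_X] at h2
    apply h2
    rw [hN2 (v, 0), hN2 (v, 1), hv]
    simp
  have hedge : ∀ u v, H.Adj u v → col u = true → ∀ i j, N (u, i) ≠ N (v, j) := by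
    intro u v huv hu i j hij
    have he : (u, v) ∈ E := (hmem _).mpr ⟨huv, hu⟩
    have hv := hE2 _ he
    rw [map_prod] at hev2
    have h2 := Finset.prod_ne_zero_iff.mp hev2 _ he
    rw [edge, map_prod] at h2
    have h3 := Finset.prod_ne_zero_iff.mp h2 i (Finset.mem_univ i)
    rw [map_prod] at h3
    have h4 := Finset.prod_ne_zero_iff.mp h3 j (Finset.mem_univ j)
    rw [map_add, eval_X, eval_X] at h4
    apply h4
    have h5 : col v = false := hv
    rw [hN2 (u, i), hN2 (v, j)]
    simp only [hu, h5, if_true]
    rw [hij]
    simp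
  refine ⟨fun v => {N (v, 0), N (v, 1)}, fun v => ⟨?_, ?_⟩, ?_⟩
  · intro n hn
    rw [Finset.mem_insert, Finset.mem_singleton] at hn
    rcases hn with rfl | rfl
    · exact hN1 (v, 0)
    · exact hN1 (v, 1)
  · exact Finset.card_pair (hdiff v)
  · intro u v huv
    have key : ∀ i j, N (u, i) ≠ N (v, j) := by
      intro i j
      cases hu : col u
      · have hv : col v = true := by
          have h6 := hcol _ _ huv
          rw [hu] at h6
          cases h7 : col v
          · exact absurd h7.symm h6
          · rfl
        exact (hedge v u huv.symm hv j i).symm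
      · exact hedge u v huv hu i j
    rw [Finset.disjoint_left]
    intro n hn hn'
    rw [Finset.mem_insert, Finset.mem_singleton] at hn hn'
    rcases hn with h2 | h2 <;> rcases hn' with h3 | h3
    · exact key 0 0 (h2.symm.trans h3)
    · exact key 0 1 (h2.symm.trans h3)
    · exact key 1 0 (h2.symm.trans h3)
    · exact key 1 1 (h2.symm.trans h3)

end T72
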