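import Pool.Agent.Lib.MP_86b854_co.Spec

set_option autoImplicit false

/-!
# MP_86b854_co : rectangles are connected in the grid
-/

namespace PLM

theorem box_nat {P : ℤ → Prop} {m b : ℤ} (h0 : P m) (hs : ∀ k, m ≤ k → k + 1 ≤ b → P k → P (k + 1))
    (n : ℕ) (hn : m + n ≤ b) : P (m + n) := by
  induction n with
  | zero => simpa using h0
  | succ n ih =>
    have h1 := hs (m + n) (by omega) (by push_cast at hn; omega) (ih (by push_cast at hn; omega))
    rw [Nat.cast_succ, ← add_assoc]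
    exact h1

/-- induction upwards and downwards in an interval of integers -/
theorem box_interval {P : ℤ → Prop} {a b m : ℤ} (ham : a ≤ m) (hmb : m ≤ b) (h0 : P m)
    (hs : ∀ k, a ≤ k → k + 1 ≤ b → (P k ↔ P (k + 1))) (l : ℤ) (hal : a ≤ l) (hlb : l ≤ b) :
    P l := by
  rcases le_total m l with h | h
  · have h1 := box_nat (P := P) (b := b) h0 (fun k hk hk' hP => (hs k (by omega) hk').1 hP)
      (l - m).toNat (by omega)
    have h2 : m + ((l - m).toNat : ℤ) = l := by omega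
    rwa [h2] at h1
  · have h1 := box_nat (P := fun k => P (-k)) (m := -m) (b := -a)
      (by simpa using h0)
      (fun k hk hk' hP => by
        have h2 := (hs (-(k + 1)) (by omega) (by omega)).2
        have h3 : -(k + 1) + 1 = -k := by ring
        rw [h3] at h2
        exact h2 hP)
      (m - l).toNat (by omega)
    have h2 : -(-m + ((m - l).toNat : ℤ)) = l := by omega
    simp only [h2] at h1
    exact h1

theorem tBox : S_Box := by
  intro a b c d A hA ⟨x₀, hx₀⟩ hcl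
  have hS := hA hx₀
  obtain ⟨h1, h2, h3, h4⟩ := hS
  refine Set.Subset.antisymm hA ?_
  rintro ⟨m, n⟩ ⟨h5, h6, h7, h8⟩
  simp only at h5 h6 h7 h8
  -- the row of `x₀`
  have hrow : ∀ k, a ≤ k → k ≤ b → (k, x₀.2) ∈ A := by
    refine box_interval (P := fun k => (k, x₀.2) ∈ A) h1 h2 hx₀ fun k hk hk' => ⟨fun h => ?_,
      fun h => ?_⟩
    · exact hcl _ h (k + 1, x₀.2) ⟨by simp only; omega, hk', h3, h4⟩ (Or.inr ⟨rfl, Or.inr rfl⟩)
    · exact hcl _ h (k, x₀.2) ⟨hk, by simp only; omega, h3, h4⟩ (Or.inr ⟨rfl, Or.inl rfl⟩)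
  refine box_interval (P := fun k => (m, k) ∈ A) h3 h4 (hrow m h5 h6) (fun k hk hk' =>
    ⟨fun h => ?_, fun h => ?_⟩) n h7 h8
  · exact hcl _ h (m, k + 1) ⟨h5, h6, by simp only; omega, hk'⟩ (Or.inl ⟨rfl, Or.inr rfl⟩)
  · exact hcl _ h (m, k) ⟨h5, h6, hk, by simp only; omega⟩ (Or.inl ⟨rfl, Or.inl rfl⟩)

end PLM
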