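import Pool.Agent.Lib.MP_86b854_co.Defs

set_option autoImplicit false

/-!
# MP_86b854_co : another form of topological drawings

Drawings given by functions `γ u v : unitInterval → ℝ × ℝ` which are paths only for adjacent `u`, `v`
(the form of the frozen statement of MP_72f88e_co) are drawings in the sense of `PLM.Drawn`.
-/

namespace PLM

theorem drawn_of_fun {V : Type} (G : SimpleGraph V)
    (h : ∃ (p : V → ℝ × ℝ) (γ : V → V → unitInterval → ℝ × ℝ),
          Function.Injective p ∧
          (∀ u v, G.Adj u v →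
            Continuous (γ u v) ∧ Function.Injective (γ u v) ∧
            γ u v 0 = p u ∧ γ u v 1 = p v ∧
            (∀ t, γ u v t ∈ Set.range p → t = 0 ∨ t = 1)) ∧
          (∀ u v x y, G.Adj u v → G.Adj x y →
            Sym2.mk (u, v) ≠ Sym2.mk (x, y) →
            ∀ s t, γ u v s = γ x y t → s = 0 ∨ s = 1)) : Drawn G := by
  classical
  obtain ⟨p, γ, hp, h1, h2⟩ := h
  have key : ∀ u v, ∃ q : Path (p u) (p v), G.Adj u v → ∀ t, q t = γ u v t := by
    intro u v
    by_cases huv : G.Adj u v
    · obtain ⟨hc, _, h0, h1', _⟩ := h1 u v huv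
      exact ⟨⟨⟨γ u v, hc⟩, h0, h1'⟩, fun _ t => rfl⟩
    · exact ⟨PathConnectedSpace.somePath _ _, fun h => absurd h huv⟩
  choose q hq using key
  refine ⟨p, q, hp, ?_, ?_, ?_⟩
  · intro u v huv s t hst
    rw [hq u v huv s, hq u v huv t] at hst
    exact (h1 u v huv).2.1 hst
  · intro u v z a huv ha
    rw [hq u v huv a] at ha
    exact (h1 u v huv).2.2.2.2 a ⟨z, ha.symm⟩
  · intro u v w x a b huv hwx hne hab
    rw [hq u v huv a, hq w x hwx b] at hab
    exact h2 u v w x huv hwx hne a b hab

end PLM
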