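import Pool.Agent.Lib.MP_86b854_co.AlgSpec

set_option autoImplicit false

namespace T72

open MvPolynomial Finset

variable {V : Type}

theorem cg_sub_ne (v : V) : (X (v, 0) - X (v, 1) : MvPolynomial (V × Fin 2) ℚ) ≠ 0 := by
  intro h
  have h1 : (X (v, 0) : MvPolynomial (V × Fin 2) ℚ) = X (v, 1) := sub_eq_zero.1 h
  have h2 := X_injective h1
  simp at h2

theorem cg_geom (v : V) (m : ℕ) : hh v m * (X (v, 0) - X (v, 1)) =
    X (v, 0) ^ (m + 1) - X (v, 1) ^ (m + 1) := by
  have h := geom_sum₂_mul (X (v, 0) : MvPolynomial (V × Fin 2) ℚ) (X (v, 1)) (m + 1)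
  rw [← h]
  rfl

theorem cg_zero (v : V) : hh v 0 = 1 := by
  simp [hh]

theorem cg_step (v : V) (m n : ℕ) : hh v (m + 1) * hh v (n + 1) =
    hh v (m + n + 2) + ee v * (hh v m * hh v n) := by
  have hne := cg_sub_ne v
  apply mul_right_cancel₀ hne
  apply mul_right_cancel₀ hne
  have e1 := cg_geom v (m + 1)
  have e2 := cg_geom v (n + 1)
  have e3 := cg_geom v (m + n + 2)
  have e4 := cg_geom v m
  have e5 := cg_geom v n
  calc hh v (m + 1) * hh v (n + 1) * (X (v, 0) - X (v, 1)) * (X (v, 0) - X (v, 1))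
      = (hh v (m + 1) * (X (v, 0) - X (v, 1))) * (hh v (n + 1) * (X (v, 0) - X (v, 1))) := by ring
    _ = (hh v (m + n + 2) * (X (v, 0) - X (v, 1))) * (X (v, 0) - X (v, 1)) +
          ee v * ((hh v m * (X (v, 0) - X (v, 1))) * (hh v n * (X (v, 0) - X (v, 1)))) := by
        rw [e1, e2, e3, e4, e5, ee]
        ring
    _ = (hh v (m + n + 2) + ee v * (hh v m * hh v n)) * (X (v, 0) - X (v, 1)) *
          (X (v, 0) - X (v, 1)) := by ring

theorem cg_mul (v : V) : ∀ m n : ℕ, hh v m * hh v n =
    ∑ k ∈ range (min m n + 1), ee v ^ k * hh v (m + n - 2 * k) := by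
  intro m
  induction m with
  | zero =>
    intro n
    simp [cg_zero]
  | succ m ih =>
    intro n
    cases n with
    | zero => simp [cg_zero]
    | succ n =>
      rw [cg_step, ih n, show min (m + 1) (n + 1) + 1 = (min m n + 1) + 1 by omega,
        Finset.mul_sum, Finset.sum_range_succ' _ (min m n + 1), add_comm]
      congr 1
      · refine Finset.sum_congr rfl fun k _ => ?_
        rw [show m + 1 + (n + 1) - 2 * (k + 1) = m + n - 2 * k by omega]
        ring
      · rw [pow_zero, one_mul, show m + 1 + (n + 1) - 2 * 0 = m + n + 2 by omega]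

theorem cg_bas_mem [Fintype V] (b m : V → ℕ) : bas b m ∈ Cone V :=
  AddSubmonoid.subset_closure ⟨(b, m), rfl⟩

theorem cg_bas_mul [Fintype V] [DecidableEq V] (b m b' m' : V → ℕ) :
    bas b m * bas b' m' ∈ Cone V := by
  have h : bas b m * bas b' m' = ∑ x ∈ Fintype.piFinset fun v => range (min (m v) (m' v) + 1),
      bas (fun v => b v + b' v + x v) (fun v => m v + m' v - 2 * x v) := by
    unfold bas
    rw [← Finset.prod_mul_distrib,
      ← Finset.prod_univ_sum (fun v => range (min (m v) (m' v) + 1))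
        (fun v k => ee v ^ (b v + b' v + k) * hh v (m v + m' v - 2 * k))]
    refine Finset.prod_congr rfl fun v _ => ?_
    calc ee v ^ b v * hh v (m v) * (ee v ^ b' v * hh v (m' v))
        = ee v ^ (b v + b' v) * (hh v (m v) * hh v (m' v)) := by ring
      _ = _ := by
        rw [cg_mul, Finset.mul_sum]
        refine Finset.sum_congr rfl fun k _ => ?_
        ring
  rw [h]
  exact sum_mem fun x _ => cg_bas_mem _ _

theorem tCG : S_CG := by
  intro V _ _
  refine ⟨cg_mul, ?_⟩
  intro f hf g hg
  unfold Cone at hf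
  induction hf using AddSubmonoid.closure_induction with
  | mem f hf =>
    obtain ⟨⟨b, m⟩, rfl⟩ := hf
    unfold Cone at hg
    induction hg using AddSubmonoid.closure_induction with
    | mem g hg =>
      obtain ⟨⟨b', m'⟩, rfl⟩ := hg
      exact cg_bas_mul b m b' m'
    | zero => simp [zero_mem]
    | add g g' _ _ h1 h2 =>
      rw [mul_add]
      exact add_mem h1 h2
  | zero => simp [zero_mem]
  | add f f' _ _ h1 h2 =>
    rw [add_mul]
    exact add_mem h1 h2

end T72
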