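import Pool.Agent.Lib.MP_86b854_co.AlgSpec

set_option autoImplicit false
set_option linter.unusedSectionVars false

/-!
# MP_86b854_co : the coefficient is positive
-/

namespace T72

open MvPolynomial Finset

section cert

variable {V : Type} [Fintype V] [DecidableEq V]

theorem cert_hh_zero (v : V) : hh v 0 = 1 := by
  simp [hh]

theorem cert_prod_single (F : V → MvPolynomial (V × Fin 2) ℚ) (a : V) (n : ℕ) :
    ∏ v, F v ^ ((Pi.single a n : V → ℕ) v) = F a ^ n := by
  rw [Finset.prod_eq_single a]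
  · rw [Pi.single_eq_same]
  · intro b _ hb
    rw [Pi.single_eq_of_ne hb, pow_zero]
  · intro h
    exact absurd (Finset.mem_univ a) h

theorem cert_bas_mem (b m : V → ℕ) : bas b m ∈ Cone V :=
  AddSubmonoid.subset_closure ⟨(b, m), rfl⟩

theorem cert_one_mem : (1 : MvPolynomial (V × Fin 2) ℚ) ∈ Cone V := by
  have h : bas (0 : V → ℕ) 0 = 1 := by
    rw [bas]
    apply Finset.prod_eq_one
    intro v _
    simp only [Pi.zero_apply, pow_zero, cert_hh_zero, one_mul]
  rw [← h]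
  exact cert_bas_mem _ _

theorem cert_ee_mem (v : V) : ee v ∈ Cone V := by
  have h : bas (Pi.single v 1 : V → ℕ) 0 = ee v := by
    rw [bas, ← pow_one (ee v), ← cert_prod_single]
    apply Finset.prod_congr rfl
    intro w _
    rw [Pi.zero_apply, cert_hh_zero, mul_one]
  rw [← h]
  exact cert_bas_mem _ _

theorem cert_hh_mem (v : V) (n : ℕ) : hh v n ∈ Cone V := by
  have h : bas (0 : V → ℕ) (Pi.single v n) = hh v n := by
    rw [bas, Finset.prod_eq_single v]
    · rw [Pi.zero_apply, pow_zero, one_mul, Pi.single_eq_same]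
    · intro b _ hb
      rw [Pi.zero_apply, pow_zero, one_mul, Pi.single_eq_of_ne hb, cert_hh_zero]
    · intro h
      exact absurd (Finset.mem_univ v) h
  rw [← h]
  exact cert_bas_mem _ _

variable (hmul : ∀ f ∈ Cone V, ∀ g ∈ Cone V, f * g ∈ Cone V)

include hmul

theorem cert_pow_mem {f : MvPolynomial (V × Fin 2) ℚ} (hf : f ∈ Cone V) (n : ℕ) :
    f ^ n ∈ Cone V := by
  induction n with
  | zero =>
    rw [pow_zero]
    exact cert_one_mem
  | succ n ih =>
    rw [pow_succ]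
    exact hmul _ ih _ hf

theorem cert_prod_mem {ι : Type*} (s : Finset ι) (f : ι → MvPolynomial (V × Fin 2) ℚ)
    (hf : ∀ i ∈ s, f i ∈ Cone V) : ∏ i ∈ s, f i ∈ Cone V := by
  classical
  induction s using Finset.induction_on with
  | empty =>
    rw [Finset.prod_empty]
    exact cert_one_mem
  | insert a s ha ih =>
    rw [Finset.prod_insert ha]
    exact hmul _ (hf a (Finset.mem_insert_self a s)) _
      (ih (fun i hi => hf i (Finset.mem_insert_of_mem hi)))

/-- The terms of one edge. -/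
theorem cert_edge (h3 : S_Edge) (D : Finset V) (a b : V) (hD : a ∈ D ∨ b ∈ D) (x : ℕ) (hx : x ≤ 4) :
    ∃ pa ja ka pb jb kb : ℕ, 2 * pa + ja + 2 * ka = x ∧ 2 * pb + jb + 2 * kb = 4 - x ∧
      (a ∉ D → ka = 0) ∧ (b ∉ D → kb = 0) ∧ ∃ r ∈ Cone V,
        edge a b = (ee a ^ pa * hh a 1 ^ ja * hh a 2 ^ ka) *
          (ee b ^ pb * hh b 1 ^ jb * hh b 2 ^ kb) + r := by
  have hEd := h3 V a b
  have m1 : ee a ^ 2 ∈ Cone V := cert_pow_mem hmul (cert_ee_mem a) 2
  have m2 : ee a * hh a 1 * hh b 1 ∈ Cone V :=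
    hmul _ (hmul _ (cert_ee_mem a) _ (cert_hh_mem a 1)) _ (cert_hh_mem b 1)
  have m3 : ee a * hh b 2 ∈ Cone V := hmul _ (cert_ee_mem a) _ (cert_hh_mem b 2)
  have m4 : hh a 2 * ee b ∈ Cone V := hmul _ (cert_hh_mem a 2) _ (cert_ee_mem b)
  have m5 : hh a 1 * (ee b * hh b 1) ∈ Cone V :=
    hmul _ (cert_hh_mem a 1) _ (hmul _ (cert_ee_mem b) _ (cert_hh_mem b 1))
  have m6 : ee b ^ 2 ∈ Cone V := cert_pow_mem hmul (cert_ee_mem b) 2
  interval_cases x
  · refine ⟨0, 0, 0, 2, 0, 0, by norm_num, by norm_num, fun _ => rfl, fun _ => rfl,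
      ee a ^ 2 + ee a * hh a 1 * hh b 1 + ee a * hh b 2 + hh a 2 * ee b +
        hh a 1 * (ee b * hh b 1), ?_, by rw [hEd]; ring⟩
    exact add_mem (add_mem (add_mem (add_mem m1 m2) m3) m4) m5
  · refine ⟨0, 1, 0, 1, 1, 0, by norm_num, by norm_num, fun _ => rfl, fun _ => rfl,
      ee a ^ 2 + ee a * hh a 1 * hh b 1 + ee a * hh b 2 + hh a 2 * ee b + ee b ^ 2, ?_,
      by rw [hEd]; ring⟩
    exact add_mem (add_mem (add_mem (add_mem m1 m2) m3) m4) m6
  · by_cases hb : b ∈ D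
    · refine ⟨1, 0, 0, 0, 0, 1, by norm_num, by norm_num, fun _ => rfl, fun h => absurd hb h,
        ee a ^ 2 + ee a * hh a 1 * hh b 1 + hh a 2 * ee b + hh a 1 * (ee b * hh b 1) + ee b ^ 2,
        ?_, by rw [hEd]; ring⟩
      exact add_mem (add_mem (add_mem (add_mem m1 m2) m4) m5) m6
    · have ha : a ∈ D := hD.resolve_right hb
      refine ⟨0, 0, 1, 1, 0, 0, by norm_num, by norm_num, fun h => absurd ha h, fun _ => rfl,
        ee a ^ 2 + ee a * hh a 1 * hh b 1 + ee a * hh b 2 + hh a 1 * (ee b * hh b 1) + ee b ^ 2,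
        ?_, by rw [hEd]; ring⟩
      exact add_mem (add_mem (add_mem (add_mem m1 m2) m3) m5) m6
  · refine ⟨1, 1, 0, 0, 1, 0, by norm_num, by norm_num, fun _ => rfl, fun _ => rfl,
      ee a ^ 2 + ee a * hh b 2 + hh a 2 * ee b + hh a 1 * (ee b * hh b 1) + ee b ^ 2, ?_,
      by rw [hEd]; ring⟩
    exact add_mem (add_mem (add_mem (add_mem m1 m3) m4) m5) m6
  · refine ⟨2, 0, 0, 0, 0, 0, by norm_num, by norm_num, fun _ => rfl, fun _ => rfl,
      ee a * hh a 1 * hh b 1 + ee a * hh b 2 + hh a 2 * ee b + hh a 1 * (ee b * hh b 1) +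
        ee b ^ 2, ?_, by rw [hEd]; ring⟩
    exact add_mem (add_mem (add_mem (add_mem m2 m3) m4) m5) m6

/-- The product of the edges. -/
theorem cert_prod (h3 : S_Edge) (D : Finset V) (x : V × V → ℕ) (E : Finset (V × V))
    (hD : ∀ e ∈ E, e.1 ∈ D ∨ e.2 ∈ D) (hx : ∀ e ∈ E, x e ≤ 4) :
    ∃ p j k : V → ℕ, (∀ v, 2 * p v + j v + 2 * k v =
        (∑ e ∈ E with e.1 = v, x e) + ∑ e ∈ E with e.2 = v, (4 - x e)) ∧
      (∀ v, v ∉ D → k v = 0) ∧ ∃ r ∈ Cone V, ∏ e ∈ E, edge e.1 e.2 =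
        ∏ v, (ee v ^ p v * hh v 1 ^ j v * hh v 2 ^ k v) + r := by
  induction E using Finset.induction_on with
  | empty =>
    refine ⟨0, 0, 0, fun v => by simp, fun _ _ => rfl, 0, zero_mem _, ?_⟩
    simp
  | insert e E he ih =>
    obtain ⟨p, j, k, h1, h2, r, hr, h4⟩ := ih (fun f hf => hD f (Finset.mem_insert_of_mem hf))
      (fun f hf => hx f (Finset.mem_insert_of_mem hf))
    obtain ⟨pa, ja, ka, pb, jb, kb, q1, q2, q3, q4, r', hr', q5⟩ :=
      cert_edge hmul h3 D e.1 e.2 (hD e (Finset.mem_insert_self e E)) (x e)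
        (hx e (Finset.mem_insert_self e E))
    have hQ : (ee e.1 ^ pa * hh e.1 1 ^ ja * hh e.1 2 ^ ka) *
        (ee e.2 ^ pb * hh e.2 1 ^ jb * hh e.2 2 ^ kb) ∈ Cone V := by
      refine hmul _ (hmul _ (hmul _ ?_ _ ?_) _ ?_) _ (hmul _ (hmul _ ?_ _ ?_) _ ?_) <;>
      exact cert_pow_mem hmul (by first | exact cert_ee_mem _ | exact cert_hh_mem _ _) _
    have hM : ∏ v, (ee v ^ p v * hh v 1 ^ j v * hh v 2 ^ k v) ∈ Cone V := by
      apply cert_prod_mem hmul
      intro v _
      exact hmul _ (hmul _ (cert_pow_mem hmul (cert_ee_mem _) _) _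
        (cert_pow_mem hmul (cert_hh_mem _ _) _)) _ (cert_pow_mem hmul (cert_hh_mem _ _) _)
    refine ⟨p + (Pi.single e.1 pa + Pi.single e.2 pb), j + (Pi.single e.1 ja + Pi.single e.2 jb),
      k + (Pi.single e.1 ka + Pi.single e.2 kb), ?_, ?_,
      (ee e.1 ^ pa * hh e.1 1 ^ ja * hh e.1 2 ^ ka) *
        (ee e.2 ^ pb * hh e.2 1 ^ jb * hh e.2 2 ^ kb) * r +
        r' * ∏ v, (ee v ^ p v * hh v 1 ^ j v * hh v 2 ^ k v) + r' * r, ?_, ?_⟩
    · intro v
      have e1 : (∑ f ∈ insert e E with f.1 = v, x f) =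
          (if e.1 = v then x e else 0) + ∑ f ∈ E with f.1 = v, x f := by
        rw [Finset.sum_filter, Finset.sum_insert he, ← Finset.sum_filter]
      have e2 : (∑ f ∈ insert e E with f.2 = v, (4 - x f)) =
          (if e.2 = v then (4 - x e) else 0) + ∑ f ∈ E with f.2 = v, (4 - x f) := by
        rw [Finset.sum_filter, Finset.sum_insert he, ← Finset.sum_filter]
      rw [e1, e2]
      have h5 := h1 v
      simp only [Pi.add_apply, Pi.single_apply, eq_comm (a := v)]
      by_cases c1 : e.1 = v <;> by_cases c2 : e.2 = v <;>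
        simp only [c1, c2, if_true, if_false] <;> omega
    · intro v hv
      have h5 := h2 v hv
      simp only [Pi.add_apply, Pi.single_apply]
      have h6 : (if v = e.1 then ka else 0) = 0 := by
        split_ifs with hc
        · exact q3 (hc ▸ hv)
        · rfl
      have h7 : (if v = e.2 then kb else 0) = 0 := by
        split_ifs with hc
        · exact q4 (hc ▸ hv)
        · rfl
      rw [h5, h6, h7]
    · exact add_mem (add_mem (hmul _ hQ _ hr) (hmul _ hr' _ hM)) (hmul _ hr' _ hr)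
    · rw [Finset.prod_insert he, h4, q5]
      have h6 : ∏ v, (ee v ^ (p + (Pi.single e.1 pa + Pi.single e.2 pb) : V → ℕ) v *
          hh v 1 ^ (j + (Pi.single e.1 ja + Pi.single e.2 jb) : V → ℕ) v *
          hh v 2 ^ (k + (Pi.single e.1 ka + Pi.single e.2 kb) : V → ℕ) v) =
          (ee e.1 ^ pa * hh e.1 1 ^ ja * hh e.1 2 ^ ka) *
          (ee e.2 ^ pb * hh e.2 1 ^ jb * hh e.2 2 ^ kb) *
          ∏ v, (ee v ^ p v * hh v 1 ^ j v * hh v 2 ^ k v) := by
        simp only [Pi.add_apply, pow_add, Finset.prod_mul_distrib]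
        rw [cert_prod_single (fun v => ee v), cert_prod_single (fun v => ee v),
          cert_prod_single (fun v => hh v 1), cert_prod_single (fun v => hh v 1),
          cert_prod_single (fun v => hh v 2), cert_prod_single (fun v => hh v 2)]
        ring
      rw [h6]
      ring

end cert

theorem tCert (h1 : S_CG) (h2 : S_Coef) (h3 : S_Edge) (h4 : S_Vert) : S_Cert := by
  intro V _ _ E c D x _ hD hx hload
  have hmul := (h1 V).2
  obtain ⟨p, j, k, q1, q2, r, hr, q3⟩ := cert_prod hmul h3 D x E hD hx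
  obtain ⟨b, m, q4, r', hr', q5⟩ := h4 V p j k
  refine ⟨b, m, ?_, ?_⟩
  · intro v
    obtain ⟨s1, s2, s3⟩ := q4 v
    have s4 := q1 v
    have s5 := hload v
    have s6 : 2 * b v + m v = (∑ e ∈ E with e.1 = v, x e) + ∑ e ∈ E with e.2 = v, (4 - x e) := by
      rw [s1, s4]
    by_cases hv : v ∈ D
    · rw [if_pos hv] at s5
      omega
    · rw [if_neg hv] at s5
      have s7 := s3 (q2 v hv)
      omega
  · rw [q3, q5, add_assoc, mul_add, coeff_add, (h2 V b m).1]
    have s1 := (h2 V b m).2 (r' + r) (add_mem hr' hr)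
    linarith

end T72
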