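import Pool.Agent.Lib.MP_86b854_co.AlgSpec

set_option autoImplicit false

/-! MP_86b854_co, algebra layer: coefficients of `van * f` -/

namespace T72

open MvPolynomial Finset

variable {V : Type}

/-- exponent of the first summand at `v` -/
noncomputable def coefA (b m : V → ℕ) (v : V) : (V × Fin 2) →₀ ℕ :=
  Finsupp.single (v, 0) (b v + m v + 1) + Finsupp.single (v, 1) (b v)

/-- exponent of the second summand at `v` -/
noncomputable def coefB (b m : V → ℕ) (v : V) : (V × Fin 2) →₀ ℕ :=
  Finsupp.single (v, 0) (b v) + Finsupp.single (v, 1) (b v + m v + 1)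

theorem coef_vertex (b m : V → ℕ) (v : V) :
    ((X (v, 0) - X (v, 1)) * (ee v ^ b v * hh v (m v)) : MvPolynomial (V × Fin 2) ℚ) =
      monomial (coefA b m v) 1 + -monomial (coefB b m v) 1 := by
  have h1 : (X (v, 0) - X (v, 1) : MvPolynomial (V × Fin 2) ℚ) * hh v (m v) =
      X (v, 0) ^ (m v + 1) - X (v, 1) ^ (m v + 1) := by
    have h := (Commute.all (X (v, 0) : MvPolynomial (V × Fin 2) ℚ) (X (v, 1))).mul_geom_sum₂
      (m v + 1)
    rw [← h]
    rfl
  have h2 : (monomial (coefA b m v) (1 : ℚ)) = X (v, 0) ^ (b v + m v + 1) * X (v, 1) ^ b v := by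
    rw [coefA, X_pow_eq_monomial, X_pow_eq_monomial, monomial_mul, one_mul]
  have h3 : (monomial (coefB b m v) (1 : ℚ)) = X (v, 0) ^ b v * X (v, 1) ^ (b v + m v + 1) := by
    rw [coefB, X_pow_eq_monomial, X_pow_eq_monomial, monomial_mul, one_mul]
  rw [h2, h3]
  have h4 : ((X (v, 0) - X (v, 1)) * (ee v ^ b v * hh v (m v)) : MvPolynomial (V × Fin 2) ℚ) =
      ee v ^ b v * ((X (v, 0) - X (v, 1)) * hh v (m v)) := by ring
  rw [h4, h1, ee]
  ring

theorem coef_ptA [DecidableEq V] (b m : V → ℕ) (v u : V) :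
    coefA b m v (u, 0) = (if v = u then b v + m v + 1 else 0) ∧
      coefA b m v (u, 1) = (if v = u then b v else 0) := by
  by_cases h : v = u
  · subst h
    simp [coefA]
  · simp [coefA, Finsupp.single_apply, Prod.ext_iff, h]

theorem coef_ptB [DecidableEq V] (b m : V → ℕ) (v u : V) :
    coefB b m v (u, 0) = (if v = u then b v else 0) ∧
      coefB b m v (u, 1) = (if v = u then b v + m v + 1 else 0) := by
  by_cases h : v = u
  · subst h
    simp [coefB]
  · simp [coefB, Finsupp.single_apply, Prod.ext_iff, h]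

theorem coef_sumA [DecidableEq V] (b m : V → ℕ) (t : Finset V) (u : V) :
    (∑ v ∈ t, coefA b m v) (u, 0) = (if u ∈ t then b u + m u + 1 else 0) ∧
      (∑ v ∈ t, coefA b m v) (u, 1) = (if u ∈ t then b u else 0) := by
  constructor
  · rw [Finsupp.finsetSum_apply, sum_congr rfl fun v _ => (coef_ptA b m v u).1, sum_ite_eq']
  · rw [Finsupp.finsetSum_apply, sum_congr rfl fun v _ => (coef_ptA b m v u).2, sum_ite_eq']

theorem coef_sumB [DecidableEq V] (b m : V → ℕ) (t : Finset V) (u : V) :
    (∑ v ∈ t, coefB b m v) (u, 0) = (if u ∈ t then b u else 0) ∧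
      (∑ v ∈ t, coefB b m v) (u, 1) = (if u ∈ t then b u + m u + 1 else 0) := by
  constructor
  · rw [Finsupp.finsetSum_apply, sum_congr rfl fun v _ => (coef_ptB b m v u).1, sum_ite_eq']
  · rw [Finsupp.finsetSum_apply, sum_congr rfl fun v _ => (coef_ptB b m v u).2, sum_ite_eq']

theorem coef_expo [Fintype V] (b m : V → ℕ) (u : V) :
    expo b m (u, 0) = b u + m u + 1 ∧ expo b m (u, 1) = b u := by
  constructor
  · rfl
  · rfl

theorem coef_main [Fintype V] [DecidableEq V] (b m b' m' : V → ℕ) :
    coeff (expo b m) (van V * bas b' m') =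
      if (∑ v : V, coefA b' m' v) = expo b m then 1 else 0 := by
  have h1 : (van V * bas b' m' : MvPolynomial (V × Fin 2) ℚ) =
      ∏ v : V, (monomial (coefA b' m' v) 1 + -monomial (coefB b' m' v) 1) := by
    rw [van, bas, ← prod_mul_distrib]
    exact prod_congr rfl fun v _ => coef_vertex b' m' v
  rw [h1, prod_add, coeff_sum, sum_eq_single (univ : Finset V)]
  · have h6 : (univ : Finset V) \ univ = ∅ := by simp
    rw [h6, prod_empty, mul_one, ← monomial_sum_one, coeff_monomial]
  · intro t _ ht
    have h2 : (∏ i ∈ univ \ t, -(monomial (coefB b' m' i) (1 : ℚ))) =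
        monomial (∑ v ∈ univ \ t, coefB b' m' v) ((-1) ^ (univ \ t).card) := by
      have h3 : ∀ i ∈ univ \ t, -(monomial (coefB b' m' i) (1 : ℚ)) =
          C (-1 : ℚ) * monomial (coefB b' m' i) (1 : ℚ) := by
        intro i _
        rw [C_mul_monomial, mul_one, map_neg]
      rw [prod_congr rfl h3, prod_mul_distrib, prod_const, ← monomial_sum_one, ← map_pow,
        C_mul_monomial, mul_one]
    rw [h2, ← monomial_sum_one, monomial_mul, coeff_monomial, if_neg]
    intro h4
    obtain ⟨u, hu⟩ : ∃ u, u ∉ t := by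
      by_contra h5
      push Not at h5
      exact ht (eq_univ_iff_forall.2 h5)
    have e0 := DFunLike.congr_fun h4 (u, 0)
    have e1 := DFunLike.congr_fun h4 (u, 1)
    rw [Finsupp.add_apply, (coef_sumA b' m' t u).1, (coef_sumB b' m' _ u).1, if_neg hu,
      if_pos (by simp [hu]), (coef_expo b m u).1] at e0
    rw [Finsupp.add_apply, (coef_sumA b' m' t u).2, (coef_sumB b' m' _ u).2, if_neg hu,
      if_pos (by simp [hu]), (coef_expo b m u).2] at e1
    omega
  · intro h
    exact absurd (by simp) h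

theorem tCoef : S_Coef := by
  intro V _ _ b m
  refine ⟨?_, ?_⟩
  · rw [coef_main, if_pos]
    ext ⟨u, i⟩
    fin_cases i
    · change (∑ v : V, coefA b m v) (u, 0) = expo b m (u, 0)
      rw [(coef_sumA b m univ u).1, if_pos (mem_univ u), (coef_expo b m u).1]
    · change (∑ v : V, coefA b m v) (u, 1) = expo b m (u, 1)
      rw [(coef_sumA b m univ u).2, if_pos (mem_univ u), (coef_expo b m u).2]
  · intro f hf
    induction hf using AddSubmonoid.closure_induction with
    | mem f hf =>
      obtain ⟨⟨b', m'⟩, rfl⟩ := hf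
      change 0 ≤ coeff (expo b m) (van V * bas b' m')
      rw [coef_main]
      split_ifs <;> norm_num
    | zero => simp
    | add f g _ _ hf hg =>
      rw [mul_add, coeff_add]
      exact add_nonneg hf hg

end T72
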