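import Pool.Agent.Lib.MP_86b854_co.Spec

set_option autoImplicit false

/-!
# Contraction of an edge
-/

namespace PLM

open Equiv

namespace ConAux

variable {D X : Type} [Fintype D]

/-- a sum over all darts -/
theorem sum_split (a b : D) (hab : a ≠ b) [Fintype {x : D // x ≠ a ∧ x ≠ b}] (f : D → ZMod 2) :
    ∑ d, f d = (∑ y : {x : D // x ≠ a ∧ x ≠ b}, f (y : D)) + (f a + f b) := by
  classical
  have h1 : ∑ y : {x : D // x ≠ a ∧ x ≠ b}, f (y : D) =
      ∑ d ∈ (Finset.univ : Finset D).filter (fun d => d ≠ a ∧ d ≠ b), f d := by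
    rw [← Finset.sum_subtype_eq_sum_filter]
    refine Finset.sum_bij' (fun y _ => ⟨y.1, y.2⟩) (fun y _ => ⟨y.1, y.2⟩) ?_ ?_ ?_ ?_ ?_
    · intro y _
      simp only [Finset.mem_subtype, Finset.mem_univ]
    · intro y _
      exact Finset.mem_univ _
    · intro y _
      rfl
    · intro y _
      rfl
    · intro y _
      rfl
  rw [h1, ← Finset.sum_filter_add_sum_filter_not Finset.univ (fun d => d ≠ a ∧ d ≠ b) f]
  congr 1
  have h2 : (Finset.univ : Finset D).filter (fun d => ¬ (d ≠ a ∧ d ≠ b)) = {a, b} := by
    ext d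
    simp only [Finset.mem_filter, Finset.mem_univ, true_and, Finset.mem_insert,
      Finset.mem_singleton]
    tauto
  rw [h2, Finset.sum_pair hab]

theorem add_self (a : ZMod 2) : a + a = 0 := by
  revert a
  decide

end ConAux

open ConAux in
theorem tCon (hRet : S_Ret) : S_Con := by
  intro D X _ _ M d _ hne
  classical
  set e := M.α d with he
  have hee : M.α e = d := M.inv d
  have hde : d ≠ e := fun h => M.fpf d h.symm
  have hnc : ¬ M.σ.SameCycle d e := fun h => hne ((M.hv d e).mpr h)
  set σ₁ : Perm D := M.σ * swap d e with hσ₁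
  have hs1 : σ₁ d = M.σ e := by rw [hσ₁, Perm.mul_apply, swap_apply_left]
  have hs2 : σ₁ e = M.σ d := by rw [hσ₁, Perm.mul_apply, swap_apply_right]
  have hs3 : ∀ x, x ≠ d → x ≠ e → σ₁ x = M.σ x := by
    intro x h1 h2
    rw [hσ₁, Perm.mul_apply, swap_apply_of_ne_of_ne h1 h2]
  let P : Set D := {x | x ≠ d ∧ x ≠ e}
  obtain ⟨τ, hτ, hcyc⟩ := hRet D σ₁ (orderOf σ₁) (orderOf_pos σ₁) (pow_orderOf_eq_one σ₁) P
  have hα : ∀ x, (x ≠ d ∧ x ≠ e) → (M.α x ≠ d ∧ M.α x ≠ e) := by
    rintro x ⟨h1, h2⟩
    constructor
    · intro h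
      apply h2
      rw [he, ← h, M.inv]
    · intro h
      apply h1
      rw [← hee, ← h, M.inv]
  let α' : Perm {x : D // x ≠ d ∧ x ≠ e} :=
    { toFun := fun x => ⟨M.α x, hα x x.2⟩
      invFun := fun x => ⟨M.α x, hα x x.2⟩
      left_inv := fun x => Subtype.ext (M.inv x)
      right_inv := fun x => Subtype.ext (M.inv x) }
  let M' : CMap {x : D // x ≠ d ∧ x ≠ e} X :=
    { σ := τ
      α := α'
      inv := fun x => Subtype.ext (M.inv x)
      fpf := fun x h => M.fpf x (congrArg Subtype.val h)
      vt := fun y => if M.vt (y : D) = M.vt e then M.vt d else M.vt (y : D)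
      hv := by
        intro y z
        have h1 : (τ.SameCycle y z) ↔ σ₁.SameCycle (y : D) (z : D) := hcyc y z
        rw [h1, hσ₁, PanD.merge_sameCycle M.σ d e hnc, ← M.hv, ← M.hv, ← M.hv, ← M.hv, ← M.hv]
        split_ifs with h2 h3 h3
        · rw [h2, h3]
          tauto
        · rw [h2]
          constructor
          · intro h
            exact Or.inr (Or.inr ⟨rfl, h.symm⟩)
          · rintro (h | ⟨h, -⟩ | ⟨-, h⟩)
            · exact absurd h.symm h3
            · exact absurd h.symm hne
            · exact h.symm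
        · rw [h3]
          constructor
          · intro h
            exact Or.inr (Or.inl ⟨h, rfl⟩)
          · rintro (h | ⟨h, -⟩ | ⟨h, -⟩)
            · exact absurd h h2
            · exact h
            · exact absurd h h2
        · constructor
          · exact Or.inl
          · rintro (h | ⟨-, h⟩ | ⟨h, -⟩)
            · exact h
            · exact absurd h h3
            · exact absurd h h2 }
  refine ⟨M', fun _ => rfl, fun _ => rfl, ?_⟩
  intro hM z' hz'
  set c : ZMod 2 := ∑ y : {x : D // x ≠ d ∧ x ≠ e}, (if M.vt (y : D) = M.vt e then z' y else 0)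
    with hc
  let z : D → ZMod 2 := fun w => if h : w ≠ d ∧ w ≠ e then z' ⟨w, h⟩ else c
  have hz1 : ∀ y : {x : D // x ≠ d ∧ x ≠ e}, z y = z' y := fun y => dif_pos y.2
  have hzd : z d = c := dif_neg fun h => h.1 rfl
  have hze : z e = c := dif_neg fun h => h.2 rfl
  have hzc : M.Cyc z := by
    constructor
    · intro w
      by_cases h : w ≠ d ∧ w ≠ e
      · have h1 := hz'.1 ⟨w, h⟩
        have h2 := hz1 ⟨w, h⟩
        have h3 := hz1 ⟨M.α w, hα w h⟩
        change z (M.α w) = z w
        exact h3.trans (h1.trans h2.symm)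
      · have h1 : w = d ∨ w = e := by tauto
        rcases h1 with rfl | rfl
        · rw [← he, hze, hzd]
        · rw [hee, hze, hzd]
    · intro x
      rw [sum_split d e hde]
      have h1 : ∑ y : {x : D // x ≠ d ∧ x ≠ e}, (if M.vt (y : D) = x then z (y : D) else 0) =
          ∑ y : {x : D // x ≠ d ∧ x ≠ e}, (if M.vt (y : D) = x then z' y else 0) :=
        Finset.sum_congr rfl fun y _ => by rw [hz1]
      rw [h1, hzd, hze]
      by_cases hx1 : x = M.vt e
      · subst hx1
        rw [← hc, if_neg hne, if_pos rfl, zero_add]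
        exact add_self c
      · by_cases hx2 : x = M.vt d
        · subst hx2
          rw [if_pos rfl, if_neg (Ne.symm hne), add_zero, hc, ← Finset.sum_add_distrib]
          refine Eq.trans ?_ (hz'.2 (M.vt d))
          refine Finset.sum_congr (by ext y; simp only [Finset.mem_univ]) fun y _ => ?_
          change _ = (if (if M.vt (y : D) = M.vt e then M.vt d else M.vt (y : D)) = M.vt d then z' y
            else 0)
          by_cases h2 : M.vt (y : D) = M.vt e
          · rw [if_pos h2, if_pos h2, if_pos rfl, if_neg (by rw [h2]; exact Ne.symm hne), zero_add]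
          · rw [if_neg h2, if_neg h2, add_zero]
        · rw [if_neg (Ne.symm hx2), if_neg (Ne.symm hx1), add_zero, add_zero]
          refine Eq.trans ?_ (hz'.2 x)
          refine Finset.sum_congr (by ext y; simp only [Finset.mem_univ]) fun y _ => ?_
          change _ = (if (if M.vt (y : D) = M.vt e then M.vt d else M.vt (y : D)) = x then z' y
            else 0)
          by_cases h2 : M.vt (y : D) = M.vt e
          · rw [if_pos h2, if_neg (Ne.symm hx2), if_neg (by rw [h2]; exact Ne.symm hx1)]
          · rw [if_neg h2]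
  obtain ⟨h, h1, h2⟩ := hM z hzc
  have hdel : ∀ w, w ∉ P → h (σ₁ w) = h w := by
    intro w hw
    have h3 : w = d ∨ w = e := by
      by_contra hcon
      push Not at hcon
      exact hw hcon
    rcases h3 with rfl | rfl
    · rw [hs1]
      exact h1 w
    · rw [hs2]
      have h4 := h1 e
      rw [M.φ_apply, hee] at h4
      exact h4
  refine ⟨fun y => h y, ?_, ?_⟩
  · intro y
    obtain ⟨n, hn, hmin⟩ := hτ (α' y)
    have h3 : ∀ m, m ≤ n → h ((σ₁ ^ (m + 1)) (M.α y)) = h y := by
      intro m
      induction m with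
      | zero =>
        intro _
        rw [zero_add, pow_one, hs3 _ (hα y y.2).1 (hα y y.2).2]
        exact h1 y
      | succ m ih =>
        intro hm
        have h4 : (σ₁ ^ (m + 1)) (M.α y) ∉ P := hmin m (by omega)
        rw [pow_succ', Perm.mul_apply, hdel _ h4, ih (by omega)]
    change h ((τ (α' y) : P) : D) = h y
    rw [hn]
    exact h3 n le_rfl
  · intro y
    rw [← hz1 y]
    exact h2 y

end PLM
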