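import Pool.Agent.Lib.MP_86b854_co.AlgAll
import Pool.Agent.Lib.MP_86b854_co.D.ClosedStep
import Pool.Agent.Lib.MP_86b854_co.D.Corner
import Pool.Agent.Lib.MP_86b854_co.D.Cost
import Pool.Agent.Lib.MP_86b854_co.D.DiscCount
import Pool.Agent.Lib.MP_86b854_co.D.DiscEuler
import Pool.Agent.Lib.MP_86b854_co.D.EulerSub
import Pool.Agent.Lib.MP_86b854_co.D.EulerU
import Pool.Agent.Lib.MP_86b854_co.D.FaceLen
import Pool.Agent.Lib.MP_86b854_co.D.Final
import Pool.Agent.Lib.MP_86b854_co.D.InFace
import Pool.Agent.Lib.MP_86b854_co.D.Ind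
import Pool.Agent.Lib.MP_86b854_co.D.IndFace
import Pool.Agent.Lib.MP_86b854_co.D.Jordan
import Pool.Agent.Lib.MP_86b854_co.D.MinA
import Pool.Agent.Lib.MP_86b854_co.D.MinB
import Pool.Agent.Lib.MP_86b854_co.D.MinDeg
import Pool.Agent.Lib.MP_86b854_co.D.MinOuter
import Pool.Agent.Lib.MP_86b854_co.D.Nest
import Pool.Agent.Lib.MP_86b854_co.D.Parity
import Pool.Agent.Lib.MP_86b854_co.D.ShortBd
import Pool.Agent.Lib.MP_86b854_co.D.Two
import Pool.Agent.Lib.MP_86b854_co.D.Val

set_option autoImplicit false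

/-!
# Regions, discs, induction: everything proved

`C7.frozen_of_noMin`: the frozen statement follows from `C7.NoMin`.
-/

namespace C7

theorem aShortBd : S_ShortBd := tShortBd tCorner
theorem aJordan : S_Jordan := tJordan tCorner
theorem aEulerU : S_EulerU := tEulerU tEulerSub
theorem aTwo : S_Two := tTwo tEulerSub tCorner
theorem aDiscEuler : S_DiscEuler := tDiscEuler tEulerSub aTwo
theorem aDiscCount : S_DiscCount := tDiscCount aDiscEuler
theorem aNest : S_Nest := tNest aTwo
theorem aInFace : S_InFace := tInFace tCorner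
theorem aMinA : S_MinA := tMinA tInd tIndFace
theorem aMinB : S_MinB := tMinB tInd aInFace aShortBd aDiscEuler aTwo
theorem aClosedStep : S_ClosedStep := tClosedStep tInd
theorem aMinOuter : S_MinOuter := tMinOuter aShortBd
theorem aVal : S_Val := tVal T72.aThmT5 aDiscCount tCost
theorem frozen_of_noMin : S_Final := tFinal aMinA aMinB aClosedStep

end C7
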