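import Pool.Agent.Lib.MP_e6972d_co.Euler

set_option autoImplicit false

/-!
# MP_86b854_co : the planarity layer, definitions

* `Drawn G`  : topological drawings, as in the frozen statement `S09891`
* `grid`     : the square grid graph on `ℤ × ℤ`
* `Conn R S` : the set `S` is connected for the symmetric relation `R`
* `CMap D X` : combinatorial maps (darts `D`, rotation `σ`, involution `α`, vertex labels in `X`)
* `CMap.Planar` : the faces (cycles of `σ * α`) generate the mod 2 cycle space
-/

namespace PLM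

open Equiv

/-- topological drawings in the plane, as in the frozen statement -/
def Drawn {V : Type} (G : SimpleGraph V) : Prop :=
  ∃ (p : V → ℝ × ℝ) (γ : ∀ u v : V, Path (p u) (p v)),
    Function.Injective p ∧
    (∀ u v : V, G.Adj u v → Function.Injective ⇑(γ u v)) ∧
    (∀ (u v z : V) (a : unitInterval), G.Adj u v → γ u v a = p z → a = 0 ∨ a = 1) ∧
    (∀ (u v w x : V) (a b : unitInterval), G.Adj u v → G.Adj w x →
      Sym2.mk (u, v) ≠ Sym2.mk (w, x) → γ u v a = γ w x b → a = 0 ∨ a = 1)

/-- the square grid -/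
def grid : SimpleGraph (ℤ × ℤ) where
  Adj x y := (x.1 = y.1 ∧ (x.2 = y.2 + 1 ∨ y.2 = x.2 + 1)) ∨
    (x.2 = y.2 ∧ (x.1 = y.1 + 1 ∨ y.1 = x.1 + 1))
  symm := ⟨fun x y h => by
    rcases h with ⟨h1, h2 | h2⟩ | ⟨h1, h2 | h2⟩
    · exact Or.inl ⟨h1.symm, Or.inr h2⟩
    · exact Or.inl ⟨h1.symm, Or.inl h2⟩
    · exact Or.inr ⟨h1.symm, Or.inr h2⟩
    · exact Or.inr ⟨h1.symm, Or.inl h2⟩⟩
  loopless := ⟨fun x h => by
    rcases h with ⟨_, h2 | h2⟩ | ⟨_, h2 | h2⟩ <;> omega⟩

/-- `S` is connected for the (symmetric) relation `R`: a nonempty subset which is closed under `R`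
inside of `S` is everything. The empty set is connected. -/
def Conn {X : Type} (R : X → X → Prop) (S : Set X) : Prop :=
  ∀ A : Set X, A ⊆ S → A.Nonempty → (∀ x ∈ A, ∀ y ∈ S, R x y → y ∈ A) → A = S

/-- the grid point `x` of mesh `δ` -/
def sc (δ : ℝ) (x : ℤ × ℤ) : ℝ × ℝ := (δ * x.1, δ * x.2)

/-- combinatorial map with dart set `D`: the cycles of `σ` are the vertices (darts with the same
label `vt`; labels without darts are allowed), the cycles of `α` the edges; `vt (α d)` is the other
end of the edge of `d`. Loops and parallel edges are allowed. -/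
structure CMap (D X : Type) where
  σ : Perm D
  α : Perm D
  inv : ∀ d, α (α d) = d
  fpf : ∀ d, α d ≠ d
  vt : D → X
  hv : ∀ d e, vt d = vt e ↔ σ.SameCycle d e

namespace CMap

variable {D X : Type}

/-- the face permutation -/
def φ (M : CMap D X) : Perm D := M.σ * M.α

theorem φ_apply (M : CMap D X) (d : D) : M.φ d = M.σ (M.α d) := rfl

/-- adjacency of labels -/
def Adj (M : CMap D X) (x y : X) : Prop := ∃ d, M.vt d = x ∧ M.vt (M.α d) = y

/-- mod 2 cycles -/
def Cyc [Fintype D] [DecidableEq X] (M : CMap D X) (z : D → ZMod 2) : Prop :=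
  (∀ d, z (M.α d) = z d) ∧ ∀ x, ∑ d, (if M.vt d = x then z d else 0) = 0

/-- planarity: every mod 2 cycle is a sum of face boundaries -/
def Planar [Fintype D] [DecidableEq X] (M : CMap D X) : Prop :=
  ∀ z : D → ZMod 2, M.Cyc z →
    ∃ h : D → ZMod 2, (∀ d, h (M.φ d) = h d) ∧ ∀ d, z d = h d + h (M.α d)

/-- the orbits of the group generated by `σ` and `α` (connected components) -/
def compSetoid (M : CMap D X) : Setoid D where
  r d e := ∀ S : Set D, (∀ x, x ∈ S ↔ M.σ x ∈ S) → (∀ x, x ∈ S ↔ M.α x ∈ S) → (d ∈ S ↔ e ∈ S)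
  iseqv := ⟨fun _ _ _ _ => Iff.rfl, fun h S h1 h2 => (h S h1 h2).symm,
    fun h h' S h1 h2 => (h S h1 h2).trans (h' S h1 h2)⟩

/-- number of vertices with at least one dart -/
noncomputable def nV (M : CMap D X) : ℕ := PanD.numCycles M.σ
/-- number of edges -/
noncomputable def nE (M : CMap D X) : ℕ := PanD.numCycles M.α
/-- number of faces -/
noncomputable def nF (M : CMap D X) : ℕ := PanD.numCycles M.φ
/-- number of components with at least one dart -/
noncomputable def nC (M : CMap D X) : ℕ := Nat.card (Quotient M.compSetoid)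

end CMap

end PLM
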