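import Pool.Agent.Lib.MP_86b854_co.Spec

set_option autoImplicit false

/-!
# MP_86b854_co : the grid points in a square
-/

namespace PLM

open Equiv

theorem disc_rect (p : ℝ × ℝ) (r δ : ℝ) (hδ : 0 < δ) :
    {x : ℤ × ℤ | dist (sc δ x) p ≤ r} = {x : ℤ × ℤ | ⌈(p.1 - r) / δ⌉ ≤ x.1 ∧
      x.1 ≤ ⌊(p.1 + r) / δ⌋ ∧ ⌈(p.2 - r) / δ⌉ ≤ x.2 ∧ x.2 ≤ ⌊(p.2 + r) / δ⌋} := by
  ext x
  rw [Set.mem_setOf_eq, Set.mem_setOf_eq, Prod.dist_eq, max_le_iff, Real.dist_eq, Real.dist_eq,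
    abs_le, abs_le, Int.ceil_le, Int.le_floor, Int.ceil_le, Int.le_floor, div_le_iff₀ hδ,
    le_div_iff₀ hδ, div_le_iff₀ hδ, le_div_iff₀ hδ]
  simp only [sc]
  constructor
  · rintro ⟨⟨h1, h2⟩, h3, h4⟩
    refine ⟨?_, ?_, ?_, ?_⟩ <;> linarith
  · rintro ⟨h1, h2, h3, h4⟩
    refine ⟨⟨?_, ?_⟩, ?_, ?_⟩ <;> linarith

theorem tDisc (hBox : S_Box) : S_Disc := by
  intro p r δ hδ hr
  refine ⟨?_, ?_, ?_⟩
  · refine ⟨(⌊p.1 / δ⌋, ⌊p.2 / δ⌋), ?_⟩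
    have key : ∀ a : ℝ, |δ * (⌊a / δ⌋ : ℝ) - a| ≤ r := by
      intro a
      have h1 : (⌊a / δ⌋ : ℝ) * δ ≤ a := by
        rw [← le_div_iff₀ hδ]
        exact Int.floor_le _
      have h2 : a < ((⌊a / δ⌋ : ℝ) + 1) * δ := by
        rw [← div_lt_iff₀ hδ]
        exact Int.lt_floor_add_one _
      rw [abs_le]
      constructor <;> nlinarith
    rw [Set.mem_setOf_eq, Prod.dist_eq, max_le_iff, Real.dist_eq, Real.dist_eq]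
    exact ⟨key p.1, key p.2⟩
  · rw [disc_rect p r δ hδ]
    refine Set.Finite.subset ((Set.finite_Icc ⌈(p.1 - r) / δ⌉ ⌊(p.1 + r) / δ⌋).prod
      (Set.finite_Icc ⌈(p.2 - r) / δ⌉ ⌊(p.2 + r) / δ⌋)) ?_
    rintro x ⟨h1, h2, h3, h4⟩
    exact ⟨⟨h1, h2⟩, h3, h4⟩
  · rw [disc_rect p r δ hδ]
    exact hBox _ _ _ _

end PLM
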