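import Pool.Agent.Lib.MP_86b854_co.Spec

/-!
# MP_86b854_co, planarity layer: a drawn graph has a planar rotation system
-/

set_option autoImplicit false

namespace PLM

theorem tDrawing (hGM : S_GridMinor) (hGrid : S_Grid) (hMinor : S_Minor) : S_Drawing := by
  intro V _ _ G _ hG
  obtain ⟨B, hB, hdis, hed⟩ := hGM V G hG
  have hS : (⋃ v, B v).Finite := Set.finite_iUnion fun v => (hB v).2.1
  obtain ⟨D, _, M, hM, -, hM2⟩ := hGrid (⋃ v, B v) hS
  have hmem : ∀ v, ∀ x ∈ B v, x ∈ ⋃ v, B v := fun v x hx => Set.mem_iUnion.2 ⟨v, hx⟩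
  refine hMinor D (ℤ × ℤ) V M G B hM hdis ?_ ?_
  · intro v A hA hAne hcl
    refine (hB v).2.2 A hA hAne ?_
    intro x hx y hy hxy
    exact hcl x hx y hy (hM2 x (hmem v x (hA hx)) y (hmem v y hy) hxy)
  · intro v w hvw
    obtain ⟨x, hx, y, hy, hxy⟩ := hed v w hvw
    obtain ⟨d, hd1, hd2⟩ := hM2 x (hmem v x hx) y (hmem w y hy) hxy
    exact ⟨d, by rw [hd1]; exact hx, by rw [hd2]; exact hy⟩

end PLM
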