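import Pool.Agent.Lib.MP_86b854_co.AlgSpec

set_option autoImplicit false

/-!
# MP_86b854_co : the six terms of the polynomial of an edge
-/

namespace T72

open MvPolynomial Finset

theorem tEdge : S_Edge := by
  intro V u v
  simp only [edge, ee, hh, Fin.prod_univ_two, Finset.sum_range_succ, Finset.sum_range_zero,
    Fin.isValue, zero_add, pow_zero, one_mul, tsub_zero, Nat.sub_self, mul_one, pow_one,
    Nat.reduceAdd, Nat.reduceSub]
  ring

end T72
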