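import Pool.Agent.Lib.MP_86b854_co.EulerLe

set_option autoImplicit false

/-!
# MP_86b854_co : Euler's formula characterises planar maps
-/

namespace PLM

open Equiv Finset

namespace EulerAux2

variable {D X : Type} [Fintype D]

theorem cyc_iff [DecidableEq X] (M : CMap D X) (z : D → K) : M.Cyc z ↔ z ∈ cy M := by
  classical
  constructor
  · rintro ⟨h1, h2⟩
    refine ⟨h1, fun g hg => ?_⟩
    have h3 : ∀ d e, M.vt d = M.vt e → g d = g e := fun d e h =>
      PanD.eq_of_sameCycle (σ := M.σ) (f := g) hg ((M.hv d e).1 h)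
    rw [← Finset.sum_fiberwise_of_maps_to (s := Finset.univ) (t := Finset.univ.image M.vt)
      (g := M.vt) (fun d _ => Finset.mem_image_of_mem _ (Finset.mem_univ d))]
    refine Finset.sum_eq_zero fun x hx => ?_
    obtain ⟨d₀, _, rfl⟩ := Finset.mem_image.1 hx
    have h4 : ∑ d ∈ Finset.univ.filter (fun d => M.vt d = M.vt d₀), g d * z d =
        ∑ d ∈ Finset.univ.filter (fun d => M.vt d = M.vt d₀), g d₀ * z d := by
      refine Finset.sum_congr rfl fun d hd => ?_
      rw [h3 d d₀ (Finset.mem_filter.1 hd).2]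
    rw [h4, ← Finset.mul_sum, Finset.sum_filter, h2, mul_zero]
  · rintro ⟨h1, h2⟩
    refine ⟨h1, fun x => ?_⟩
    have h3 := h2 (fun d => if M.vt d = x then 1 else 0) (fun d => by
      have h4 : M.vt (M.σ d) = M.vt d :=
        (M.hv _ _).2 (Perm.sameCycle_apply_left.2 (Perm.SameCycle.refl _ _))
      show (if M.vt (M.σ d) = x then (1 : K) else 0) = if M.vt d = x then 1 else 0
      rw [h4])
    refine Eq.trans ?_ h3
    refine Finset.sum_congr rfl fun d _ => ?_
    rw [ite_mul, one_mul, zero_mul]

omit [Fintype D] in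
theorem mem_range_iff (M : CMap D X) (z : D → K) : z ∈ LinearMap.range (bdl M) ↔
    ∃ h : D → ZMod 2, (∀ d, h (M.φ d) = h d) ∧ ∀ d, z d = h d + h (M.α d) := by
  constructor
  · rintro ⟨⟨h, hh⟩, rfl⟩
    exact ⟨h, hh, fun d => rfl⟩
  · rintro ⟨h, hh, h1⟩
    exact ⟨⟨h, hh⟩, (funext h1).symm⟩

end EulerAux2

open EulerAux2 in
theorem tEulerIff : S_EulerIff := by
  intro D X _ _ M
  have h2 := finrank_range_bdl M
  have h3 := finrank_cy M
  constructor
  · intro h
    have h4 : LinearMap.range (bdl M) = cy M := by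
      refine le_antisymm (range_le M) fun z hz => ?_
      rw [mem_range_iff]
      exact h z ((cyc_iff M z).2 hz)
    rw [h4] at h2
    omega
  · intro h z hz
    have h4 : LinearMap.range (bdl M) = cy M := by
      apply Submodule.eq_of_le_of_finrank_le (range_le M)
      omega
    rw [← mem_range_iff, h4]
    exact (cyc_iff M z).1 hz

end PLM
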