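import Pool.Agent.Lib.MP_86b854_co.Spec

set_option autoImplicit false

/-!
# MP_86b854_co : Euler's inequality for combinatorial maps
-/

namespace PLM

open Equiv Finset

namespace EulerAux2

abbrev K := ZMod 2

/-- functions constant on the classes of a setoid -/
def cf {D : Type} (r : Setoid D) : Submodule K (D → K) where
  carrier := {z | ∀ d e, r d e → z d = z e}
  zero_mem' := fun _ _ _ => rfl
  add_mem' := by
    intro a b ha hb d e h
    rw [Pi.add_apply, Pi.add_apply, ha d e h, hb d e h]
  smul_mem' := by
    intro c a ha d e h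
    rw [Pi.smul_apply, Pi.smul_apply, ha d e h]

theorem finrank_cf {D : Type} [Finite D] (r : Setoid D) :
    Module.finrank K (cf r) = Nat.card (Quotient r) := by
  classical
  haveI : Finite (Quotient r) := Quotient.finite _
  haveI := Fintype.ofFinite (Quotient r)
  let L : (cf r) ≃ₗ[K] (Quotient r → K) :=
    { toFun := fun z q => Quotient.lift (z : D → K) (fun a b h => z.2 a b h) q
      map_add' := by
        intro a b
        funext q
        induction q using Quotient.inductionOn with
        | _ d => rfl
      map_smul' := by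
        intro a b
        funext q
        induction q using Quotient.inductionOn with
        | _ d => rfl
      invFun := fun f => ⟨fun d => f (Quotient.mk r d), fun d e h =>
        congrArg f (Quotient.sound h)⟩
      left_inv := by
        intro z
        rfl
      right_inv := by
        intro f
        funext q
        induction q using Quotient.inductionOn with
        | _ d => rfl }
  rw [L.finrank_eq, Module.finrank_fintype_fun_eq_card, Nat.card_eq_fintype_card]

variable {D X : Type}

/-- functions invariant under a permutation -/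
def iv (π : Perm D) : Submodule K (D → K) where
  carrier := {z | ∀ d, z (π d) = z d}
  zero_mem' := fun _ => rfl
  add_mem' := by
    intro a b ha hb d
    rw [Pi.add_apply, Pi.add_apply, ha d, hb d]
  smul_mem' := by
    intro c a ha d
    rw [Pi.smul_apply, Pi.smul_apply, ha d]

theorem iv_eq_cf (π : Perm D) : iv π = cf (Perm.SameCycle.setoid π) := by
  ext z
  constructor
  · intro h d e hde
    exact PanD.eq_of_sameCycle (σ := π) (f := z) h hde
  · intro h d
    exact h _ _ (Perm.sameCycle_apply_left.2 (Perm.SameCycle.refl _ _))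

theorem finrank_iv [Finite D] (π : Perm D) : Module.finrank K (iv π) = PanD.numCycles π := by
  rw [iv_eq_cf, finrank_cf]
  rfl

theorem inf_eq_cf (M : CMap D X) : iv M.σ ⊓ iv M.α = cf M.compSetoid := by
  ext z
  constructor
  · rintro ⟨h1, h2⟩ d e hde
    have h3 := hde {x | z x = z d} (fun x => by
      show z x = z d ↔ z (M.σ x) = z d
      rw [h1 x]) (fun x => by
      show z x = z d ↔ z (M.α x) = z d
      rw [h2 x])
    exact (h3.1 rfl).symm
  · intro h
    refine ⟨fun d => ?_, fun d => ?_⟩
    · exact h _ _ (fun S h1 _ => (h1 d).symm)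
    · exact h _ _ (fun S _ h2 => (h2 d).symm)

theorem finrank_inf [Finite D] (M : CMap D X) :
    Module.finrank K (iv M.σ ⊓ iv M.α : Submodule K (D → K)) = M.nC := by
  rw [inf_eq_cf, finrank_cf]
  rfl

/-- the boundary map -/
def bdl (M : CMap D X) : (iv M.φ) →ₗ[K] (D → K) where
  toFun h d := (h : D → K) d + (h : D → K) (M.α d)
  map_add' := by
    intro a b
    funext d
    simp only [Submodule.coe_add, Pi.add_apply]
    ring
  map_smul' := by
    intro c a
    funext d
    simp only [Submodule.coe_smul, Pi.smul_apply, smul_eq_mul, RingHom.id_apply]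
    ring

theorem add_eq_zero_K {a b : K} : a + b = 0 ↔ a = b := by
  rw [← CharTwo.sub_eq_add, sub_eq_zero]

theorem iv_phi (M : CMap D X) {h : D → K} (hh : h ∈ iv M.φ) (d : D) : h (M.σ d) = h (M.α d) := by
  have h1 := hh (M.α d)
  rw [CMap.φ_apply, M.inv] at h1
  exact h1

theorem ker_bdl (M : CMap D X) :
    (LinearMap.ker (bdl M)).map (iv M.φ).subtype = iv M.σ ⊓ iv M.α := by
  ext z
  constructor
  · rintro ⟨⟨h, hh⟩, hk, rfl⟩
    have h1 : ∀ d, h (M.α d) = h d := by
      intro d
      have h2 := congrFun (LinearMap.mem_ker.1 hk) d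
      have h3 : h d + h (M.α d) = 0 := h2
      exact (add_eq_zero_K.1 h3).symm
    refine ⟨fun d => ?_, h1⟩
    show h (M.σ d) = h d
    rw [iv_phi M hh, h1]
  · rintro ⟨h1, h2⟩
    have h3 : z ∈ iv M.φ := by
      intro d
      rw [CMap.φ_apply, h1, h2]
    refine ⟨⟨z, h3⟩, ?_, rfl⟩
    show (⟨z, h3⟩ : iv M.φ) ∈ LinearMap.ker (bdl M)
    rw [LinearMap.mem_ker]
    funext d
    show z d + z (M.α d) = 0
    rw [h2 d]
    exact CharTwo.add_self_eq_zero _

theorem finrank_range_bdl [Finite D] (M : CMap D X) :
    Module.finrank K (LinearMap.range (bdl M)) + M.nC = M.nF := by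
  have h1 := LinearMap.finrank_range_add_finrank_ker (bdl M)
  rw [finrank_iv, ← Submodule.finrank_map_subtype_eq, ker_bdl, finrank_inf] at h1
  exact h1

variable [Fintype D]

/-- the cycle space -/
def cy (M : CMap D X) : Submodule K (D → K) where
  carrier := {z | z ∈ iv M.α ∧ ∀ g ∈ iv M.σ, ∑ d, g d * z d = 0}
  zero_mem' := ⟨Submodule.zero_mem _, fun g _ => by simp⟩
  add_mem' := by
    rintro a b ⟨h1, h2⟩ ⟨h3, h4⟩
    refine ⟨Submodule.add_mem _ h1 h3, fun g hg => ?_⟩
    simp only [Pi.add_apply, mul_add, Finset.sum_add_distrib, h2 g hg, h4 g hg, add_zero]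
  smul_mem' := by
    rintro c a ⟨h1, h2⟩
    refine ⟨Submodule.smul_mem _ c h1, fun g hg => ?_⟩
    have h3 : ∀ d, g d * (c • a) d = c * (g d * a d) := fun d => by
      rw [Pi.smul_apply, smul_eq_mul]
      ring
    simp only [h3, ← Finset.mul_sum, h2 g hg, mul_zero]

theorem range_le (M : CMap D X) : LinearMap.range (bdl M) ≤ cy M := by
  rintro _ ⟨⟨h, hh⟩, rfl⟩
  refine ⟨fun d => ?_, fun g hg => ?_⟩
  · show h (M.α d) + h (M.α (M.α d)) = h d + h (M.α d)
    rw [M.inv, add_comm]
  · show ∑ d, g d * (h d + h (M.α d)) = 0
    have h1 : ∑ d, g d * h (M.α d) = ∑ d, g d * h d := by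
      rw [← Equiv.sum_comp M.σ (fun d => g d * h d)]
      refine Finset.sum_congr rfl fun d _ => ?_
      rw [hg d, iv_phi M hh]
    simp only [mul_add, Finset.sum_add_distrib]
    rw [h1]
    exact CharTwo.add_self_eq_zero _

/-- the pairing -/
def pr (M : CMap D X) : (iv M.σ) →ₗ[K] Module.Dual K (iv M.α) where
  toFun g :=
    { toFun := fun z => ∑ d, (g : D → K) d * (z : D → K) d
      map_add' := by
        intro a b
        simp only [Submodule.coe_add, Pi.add_apply, mul_add, Finset.sum_add_distrib]
      map_smul' := by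
        intro c a
        simp only [Submodule.coe_smul, Pi.smul_apply, smul_eq_mul, RingHom.id_apply,
          Finset.mul_sum]
        refine Finset.sum_congr rfl fun d _ => ?_
        ring }
  map_add' := by
    intro a b
    refine LinearMap.ext fun z => ?_
    show ∑ d, ((a + b : iv M.σ) : D → K) d * (z : D → K) d =
      ∑ d, (a : D → K) d * (z : D → K) d + ∑ d, (b : D → K) d * (z : D → K) d
    rw [← Finset.sum_add_distrib]
    refine Finset.sum_congr rfl fun d _ => ?_
    rw [Submodule.coe_add, Pi.add_apply, add_mul]
  map_smul' := by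
    intro c a
    refine LinearMap.ext fun z => ?_
    show ∑ d, ((c • a : iv M.σ) : D → K) d * (z : D → K) d =
      c * ∑ d, (a : D → K) d * (z : D → K) d
    rw [Finset.mul_sum]
    refine Finset.sum_congr rfl fun d _ => ?_
    rw [Submodule.coe_smul, Pi.smul_apply, smul_eq_mul, mul_assoc]

theorem pr_apply (M : CMap D X) (g : iv M.σ) (z : iv M.α) :
    pr M g z = ∑ d, (g : D → K) d * (z : D → K) d := rfl

theorem ker_pr (M : CMap D X) :
    (LinearMap.ker (pr M)).map (iv M.σ).subtype = iv M.σ ⊓ iv M.α := by
  classical
  ext z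
  constructor
  · rintro ⟨⟨g, hg⟩, hk, rfl⟩
    refine ⟨hg, fun d => ?_⟩
    show g (M.α d) = g d
    have h1 : (fun x => if x = d ∨ x = M.α d then (1 : K) else 0) ∈ iv M.α := by
      intro x
      show (if M.α x = d ∨ M.α x = M.α d then (1 : K) else 0) =
        if x = d ∨ x = M.α d then (1 : K) else 0
      have h2 : (M.α x = d ∨ M.α x = M.α d) ↔ (x = d ∨ x = M.α d) := by
        constructor
        · rintro (h | h)
          · exact Or.inr (by rw [← h, M.inv])
          · exact Or.inl (M.α.injective h)
        · rintro (h | h)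
          · exact Or.inr (by rw [h])
          · exact Or.inl (by rw [h, M.inv])
      simp only [h2]
    have h2 := LinearMap.congr_fun (LinearMap.mem_ker.1 hk) ⟨_, h1⟩
    rw [pr_apply] at h2
    have h3 : ∑ x, g x * (if x = d ∨ x = M.α d then (1 : K) else 0) = g d + g (M.α d) := by
      have h4 : ∀ x, g x * (if x = d ∨ x = M.α d then (1 : K) else 0) =
          (if x = d then g x else 0) + (if x = M.α d then g x else 0) := by
        intro x
        by_cases hx : x = d
        · have h5 : ¬ x = M.α d := fun h => M.fpf d (h.symm.trans hx)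
          rw [if_pos (Or.inl hx), if_pos hx, if_neg h5, mul_one, add_zero]
        · by_cases hx' : x = M.α d
          · rw [if_pos (Or.inr hx'), if_neg hx, if_pos hx', mul_one, zero_add]
          · rw [if_neg (by rintro (h | h) <;> contradiction), if_neg hx, if_neg hx', mul_zero,
              add_zero]
      rw [Finset.sum_congr rfl fun x _ => h4 x, Finset.sum_add_distrib, Finset.sum_ite_eq',
        Finset.sum_ite_eq', if_pos (Finset.mem_univ _), if_pos (Finset.mem_univ _)]
    have h4 : g d + g (M.α d) = 0 := by
      rw [← h3]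
      exact h2
    exact (add_eq_zero_K.1 h4).symm
  · rintro ⟨h1, h2⟩
    refine ⟨⟨z, h1⟩, ?_, rfl⟩
    show (⟨z, h1⟩ : iv M.σ) ∈ LinearMap.ker (pr M)
    rw [LinearMap.mem_ker]
    refine LinearMap.ext fun w => ?_
    rw [pr_apply]
    show ∑ d, z d * (w : D → K) d = 0
    refine Finset.sum_involution (fun d _ => M.α d) (fun d _ => ?_) (fun d _ _ => M.fpf d)
      (fun d _ => Finset.mem_univ _) (fun d _ => M.inv d)
    have h3 : (w : D → K) (M.α d) = (w : D → K) d := w.2 d
    rw [h2 d, h3]
    exact CharTwo.add_self_eq_zero _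

theorem coann_pr (M : CMap D X) :
    ((LinearMap.range (pr M)).dualCoannihilator).map (iv M.α).subtype = cy M := by
  ext z
  constructor
  · rintro ⟨w, hw, rfl⟩
    have hw' : ∀ φ ∈ LinearMap.range (pr M), φ w = 0 := (Submodule.mem_dualCoannihilator w).1 hw
    refine ⟨w.2, fun g hg => ?_⟩
    have h1 := hw' (pr M ⟨g, hg⟩) ⟨_, rfl⟩
    rw [pr_apply] at h1
    exact h1
  · rintro ⟨h1, h2⟩
    refine ⟨⟨z, h1⟩, ?_, rfl⟩
    show (⟨z, h1⟩ : iv M.α) ∈ (LinearMap.range (pr M)).dualCoannihilator
    rw [Submodule.mem_dualCoannihilator]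
    rintro _ ⟨⟨g, hg⟩, rfl⟩
    rw [pr_apply]
    exact h2 g hg

theorem finrank_cy (M : CMap D X) : Module.finrank K (cy M) + M.nV = M.nE + M.nC := by
  have h1 := LinearMap.finrank_range_add_finrank_ker (pr M)
  rw [finrank_iv, ← Submodule.finrank_map_subtype_eq _ (LinearMap.ker (pr M)), ker_pr,
    finrank_inf] at h1
  have h2 := Subspace.finrank_add_finrank_dualCoannihilator_eq (LinearMap.range (pr M))
  rw [finrank_iv, ← Submodule.finrank_map_subtype_eq _ (LinearMap.range (pr M)).dualCoannihilator,
    coann_pr] at h2
  have h3 : PanD.numCycles M.σ = M.nV := rfl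
  have h4 : PanD.numCycles M.α = M.nE := rfl
  rw [h3] at h1
  rw [h4] at h2
  omega

theorem two_nE (M : CMap D X) : 2 * M.nE = Fintype.card D := by
  classical
  haveI : Finite (Quotient (Perm.SameCycle.setoid M.α)) := Quotient.finite _
  haveI := Fintype.ofFinite (Quotient (Perm.SameCycle.setoid M.α))
  have h1 : (Finset.univ : Finset D).card = ∑ b : Quotient (Perm.SameCycle.setoid M.α),
      (Finset.univ.filter fun a : D => Quotient.mk (Perm.SameCycle.setoid M.α) a = b).card :=
    Finset.card_eq_sum_card_fiberwise (fun _ _ => Finset.mem_coe.2 (Finset.mem_univ _))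
  have h2 : ∀ b : Quotient (Perm.SameCycle.setoid M.α),
      (Finset.univ.filter fun a : D => Quotient.mk (Perm.SameCycle.setoid M.α) a = b).card
        = 2 := by
    intro b
    induction b using Quotient.inductionOn with
    | _ d =>
      have h3 : (Finset.univ.filter fun a : D => Quotient.mk (Perm.SameCycle.setoid M.α) a =
          Quotient.mk (Perm.SameCycle.setoid M.α) d) = {d, M.α d} := by
        ext x
        rw [Finset.mem_filter, Finset.mem_insert, Finset.mem_singleton]
        constructor
        · rintro ⟨_, h⟩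
          have h4 : M.α.SameCycle x d := Quotient.exact h
          have h5 := PanD.eq_of_sameCycle (σ := M.α) (f := fun y => (y = d ∨ y = M.α d))
            (fun y => by
              apply propext
              constructor
              · rintro (h | h)
                · exact Or.inr (by rw [← h, M.inv])
                · exact Or.inl (M.α.injective h)
              · rintro (h | h)
                · exact Or.inr (by rw [h])
                · exact Or.inl (by rw [h, M.inv])) h4
          exact (iff_of_eq h5).2 (Or.inl rfl)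
        · rintro (h | h)
          · exact ⟨Finset.mem_univ _, by rw [h]⟩
          · refine ⟨Finset.mem_univ _, ?_⟩
            rw [h]
            apply Quotient.sound
            show M.α.SameCycle (M.α d) d
            exact Perm.sameCycle_apply_left.2 (Perm.SameCycle.refl _ _)
      rw [h3, Finset.card_pair (M.fpf d).symm]
  rw [Finset.sum_congr rfl fun b _ => h2 b, Finset.sum_const, smul_eq_mul, Finset.card_univ,
    Finset.card_univ] at h1
  have h3 : M.nE = Fintype.card (Quotient (Perm.SameCycle.setoid M.α)) := by
    rw [← Nat.card_eq_fintype_card]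
    rfl
  rw [h3, h1, mul_comm]

end EulerAux2

open EulerAux2 in
theorem tEulerLe : S_EulerLe := by
  intro D X _ M
  refine ⟨two_nE M, ?_⟩
  have h1 := Submodule.finrank_mono (range_le M)
  have h2 := finrank_range_bdl M
  have h3 := finrank_cy M
  omega

end PLM
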