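import Pool.Agent.Lib.MP_86b854_co.Spec

set_option autoImplicit false

/-!
# MP_86b854_co: Grid, finite parts of the square grid are planar
-/

namespace PLM

namespace GridAux

open Equiv

theorem cases4 {P : ZMod 4 → Prop} (h0 : P 0) (h1 : P 1) (h2 : P 2) (h3 : P 3) : ∀ k, P k := by
  intro k
  have h : k = 0 ∨ k = 1 ∨ k = 2 ∨ k = 3 := by
    revert k
    decide
  rcases h with rfl | rfl | rfl | rfl
  · exact h0
  · exact h1
  · exact h2
  · exact h3

/-- the four directions -/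
def dir (k : ZMod 4) : ℤ × ℤ :=
  if k = 0 then (1, 0) else if k = 1 then (0, 1) else if k = 2 then (-1, 0) else (0, -1)

theorem dir0 : dir 0 = (1, 0) := rfl
theorem dir1 : dir 1 = (0, 1) := rfl
theorem dir2 : dir 2 = (-1, 0) := rfl
theorem dir3 : dir 3 = (0, -1) := rfl

theorem dir_add_two : ∀ k, dir (k + 2) = - dir k := by
  refine cases4 ?_ ?_ ?_ ?_ <;> rfl

/-- all darts of the grid -/
abbrev E : Type := (ℤ × ℤ) × ZMod 4

theorem add_two_two : ∀ k : ZMod 4, k + 2 + 2 = k := by decide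

/-- rotation -/
def s0 : Perm E where
  toFun q := (q.1, q.2 + 1)
  invFun q := (q.1, q.2 - 1)
  left_inv q := by simp
  right_inv q := by simp

/-- the other end of the edge -/
def a0 : Perm E where
  toFun q := (q.1 + dir q.2, q.2 + 2)
  invFun q := (q.1 + dir q.2, q.2 + 2)
  left_inv q := by
    refine Prod.ext ?_ (add_two_two q.2)
    change q.1 + dir q.2 + dir (q.2 + 2) = q.1
    rw [dir_add_two, add_neg_cancel_right]
  right_inv q := by
    refine Prod.ext ?_ (add_two_two q.2)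
    change q.1 + dir q.2 + dir (q.2 + 2) = q.1
    rw [dir_add_two, add_neg_cancel_right]

theorem s0_apply (q : E) : s0 q = (q.1, q.2 + 1) := rfl
theorem a0_apply (q : E) : a0 q = (q.1 + dir q.2, q.2 + 2) := rfl

theorem a0_a0 (q : E) : a0 (a0 q) = q := a0.left_inv q

theorem s0_pow (n : ℕ) (q : E) : (s0 ^ n) q = (q.1, q.2 + n) := by
  induction n with
  | zero => simp
  | succ n ih =>
    rw [pow_succ', Perm.mul_apply, ih, s0_apply]
    simp [add_assoc]

theorem s0_four : s0 ^ 4 = 1 := by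
  ext1 q
  rw [s0_pow]
  have h : ((4 : ℕ) : ZMod 4) = 0 := by decide
  rw [h, add_zero]
  rfl

theorem s0_sameCycle (q r : E) : s0.SameCycle q r ↔ q.1 = r.1 := by
  constructor
  · rintro ⟨i, hi⟩
    have h : ∀ i : ℤ, ((s0 ^ i) q).1 = q.1 := by
      intro i
      obtain ⟨n, rfl | rfl⟩ := i.eq_nat_or_neg
      · rw [zpow_natCast, s0_pow]
      · rw [zpow_neg, zpow_natCast]
        have h1 : (s0 ^ n) ((s0 ^ n)⁻¹ q) = q := (s0 ^ n).apply_symm_apply q
        have h2 := congrArg Prod.fst h1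
        rw [s0_pow] at h2
        exact h2
    rw [← hi, h]
  · intro h
    refine ⟨((r.2 - q.2).val : ℤ), ?_⟩
    rw [zpow_natCast, s0_pow, ZMod.natCast_zmod_val, add_sub_cancel]
    exact Prod.ext h rfl

theorem grid_adj_dir : ∀ (k : ZMod 4) (x : ℤ × ℤ), grid.Adj x (x + dir k) := by
  refine cases4 ?_ ?_ ?_ ?_ <;> intro x
  · rw [dir0]
    exact Or.inr ⟨by simp, Or.inr (by simp)⟩
  · rw [dir1]
    exact Or.inl ⟨by simp, Or.inr (by simp)⟩
  · rw [dir2]
    exact Or.inr ⟨by simp, Or.inl (by simp)⟩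
  · rw [dir3]
    exact Or.inl ⟨by simp, Or.inl (by simp)⟩

theorem exists_dir {x y : ℤ × ℤ} (h : grid.Adj x y) : ∃ k, x + dir k = y := by
  rcases h with ⟨h1, h2 | h2⟩ | ⟨h1, h2 | h2⟩
  · refine ⟨3, Prod.ext ?_ ?_⟩
    · rw [dir3]; simp [h1]
    · rw [dir3]; simp [h2]
  · refine ⟨1, Prod.ext ?_ ?_⟩
    · rw [dir1]; simp [h1]
    · rw [dir1]; simp [h2]
  · refine ⟨2, Prod.ext ?_ ?_⟩
    · rw [dir2]; simp [h2]
    · rw [dir2]; simp [h1]
  · refine ⟨0, Prod.ext ?_ ?_⟩
    · rw [dir0]; simp [h2]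
    · rw [dir0]; simp [h1]

/-- the darts inside of `S` -/
def P (S : Set (ℤ × ℤ)) : Set E := {q | q.1 ∈ S ∧ q.1 + dir q.2 ∈ S}

theorem a0_mem {S : Set (ℤ × ℤ)} {q : E} : a0 q ∈ P S ↔ q ∈ P S := by
  change (q.1 + dir q.2 ∈ S ∧ q.1 + dir q.2 + dir (q.2 + 2) ∈ S) ↔ (q.1 ∈ S ∧ q.1 + dir q.2 ∈ S)
  rw [dir_add_two, add_neg_cancel_right]
  exact and_comm

theorem P_finite {S : Set (ℤ × ℤ)} (hS : S.Finite) : (P S).Finite :=
  (hS.prod Set.finite_univ).subset fun _ hq => ⟨hq.1, Set.mem_univ _⟩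

section cells

variable (Z : E → ZMod 2) (N : ℤ)

/-- the number of edges above a cell -/
noncomputable def F (i j : ℤ) : ZMod 2 := ∑ j' ∈ Finset.Ioo j N, Z ((i, j'), 0)

/-- the cell between two directions -/
noncomputable def C (q : E) : ZMod 2 :=
  if q.2 = 0 then F Z N q.1.1 q.1.2 else if q.2 = 1 then F Z N (q.1.1 - 1) q.1.2
  else if q.2 = 2 then F Z N (q.1.1 - 1) (q.1.2 - 1) else F Z N q.1.1 (q.1.2 - 1)

theorem C0 (x : ℤ × ℤ) : C Z N (x, 0) = F Z N x.1 x.2 := rfl
theorem C1 (x : ℤ × ℤ) : C Z N (x, 1) = F Z N (x.1 - 1) x.2 := rfl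
theorem C2 (x : ℤ × ℤ) : C Z N (x, 2) = F Z N (x.1 - 1) (x.2 - 1) := rfl
theorem C3 (x : ℤ × ℤ) : C Z N (x, 3) = F Z N x.1 (x.2 - 1) := rfl

theorem C_a0 : ∀ (k : ZMod 4) (x : ℤ × ℤ), C Z N (a0 (x, k)) = C Z N (x, k - 1) := by
  refine cases4 ?_ ?_ ?_ ?_ <;> intro x
  · change C Z N (x + dir 0, 2) = C Z N (x, 3)
    rw [dir0, C2, C3]
    simp
  · change C Z N (x + dir 1, 3) = C Z N (x, 0)
    rw [dir1, C3, C0]
    simp
  · change C Z N (x + dir 2, 0) = C Z N (x, 1)
    rw [dir2, C0, C1]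
    simp [sub_eq_add_neg]
  · change C Z N (x + dir 3, 1) = C Z N (x, 2)
    rw [dir3, C1, C2]
    simp [sub_eq_add_neg]

variable {Z} {N}

theorem F_step (hN : ∀ q : E, N ≤ q.1.2 → Z q = 0) (i j : ℤ) :
    F Z N i (j - 1) = F Z N i j + Z ((i, j), 0) := by
  unfold F
  by_cases hj : j < N
  · have h1 : Finset.Ioo (j - 1) N = insert j (Finset.Ioo j N) := by
      ext t
      rw [Finset.mem_insert, Finset.mem_Ioo, Finset.mem_Ioo]
      omega
    rw [h1, Finset.sum_insert (by rw [Finset.mem_Ioo]; omega), add_comm]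
  · have h1 : Finset.Ioo (j - 1) N = ∅ := by
      ext t
      simp only [Finset.mem_Ioo, Finset.notMem_empty, iff_false]
      omega
    have h2 : Finset.Ioo j N = ∅ := by
      ext t
      simp only [Finset.mem_Ioo, Finset.notMem_empty, iff_false]
      omega
    rw [h1, h2, hN ((i, j), 0) (not_lt.1 hj), add_zero]

theorem add_self_two (a : ZMod 2) : a + a = 0 := CharTwo.add_self_eq_zero a

theorem F_vert (hN : ∀ q : E, N ≤ q.1.2 → Z q = 0) (hZ : ∀ q, Z (a0 q) = Z q)
    (hv : ∀ x : ℤ × ℤ, Z (x, 0) + Z (x, 1) + Z (x, 2) + Z (x, 3) = 0) :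
    ∀ (n : ℕ) (i j : ℤ), N ≤ j + n → F Z N i j + F Z N (i - 1) j = Z ((i, j), 1) := by
  intro n
  induction n with
  | zero =>
    intro i j hj
    have hj' : N ≤ j := by simpa using hj
    have h2 : Finset.Ioo j N = ∅ := by
      ext t
      simp only [Finset.mem_Ioo, Finset.notMem_empty, iff_false]
      omega
    rw [hN ((i, j), 1) hj']
    unfold F
    rw [h2, Finset.sum_empty, Finset.sum_empty, add_zero]
  | succ n ih =>
    intro i j hj
    have h1 := ih i (j + 1) (by push_cast at hj; linarith)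
    have h2 := F_step hN i (j + 1)
    have h3 := F_step hN (i - 1) (j + 1)
    rw [add_sub_cancel_right] at h2 h3
    have h4 : Z ((i, j + 1), 2) = Z ((i - 1, j + 1), 0) := by
      have h5 : a0 ((i - 1, j + 1), 0) = ((i, j + 1), 2) := by
        rw [a0_apply, dir0]
        exact Prod.ext (Prod.ext (by simp) (by simp)) rfl
      rw [← h5, hZ]
    have h5 : Z ((i, j + 1), 3) = Z ((i, j), 1) := by
      have h6 : a0 ((i, j), 1) = ((i, j + 1), 3) := by
        rw [a0_apply, dir1]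
        exact Prod.ext (Prod.ext (by simp) (by simp)) rfl
      rw [← h6, hZ]
    have h6 := hv (i, j + 1)
    rw [h4, h5, ← h1] at h6
    rw [h2, h3]
    have h7 := add_self_two (Z ((i, j), 1))
    linear_combination h6 - h7

theorem Z_eq (hN : ∀ q : E, N ≤ q.1.2 → Z q = 0) (hZ : ∀ q, Z (a0 q) = Z q)
    (hv : ∀ x : ℤ × ℤ, Z (x, 0) + Z (x, 1) + Z (x, 2) + Z (x, 3) = 0) :
    ∀ (k : ZMod 4) (x : ℤ × ℤ), Z (x, k) = C Z N (x, k) + C Z N (x, k - 1) := by
  have hV : ∀ i j : ℤ, F Z N i j + F Z N (i - 1) j = Z ((i, j), 1) := fun i j =>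
    F_vert hN hZ hv (N - j).toNat i j (by have := Int.self_le_toNat (N - j); linarith)
  refine cases4 ?_ ?_ ?_ ?_ <;> rintro ⟨i, j⟩
  · change Z ((i, j), 0) = C Z N ((i, j), 0) + C Z N ((i, j), 3)
    rw [C0, C3]
    have h1 := F_step hN i j
    have h2 := add_self_two (F Z N i j)
    change Z ((i, j), 0) = F Z N i j + F Z N i (j - 1)
    linear_combination -h1 - h2
  · change Z ((i, j), 1) = C Z N ((i, j), 1) + C Z N ((i, j), 0)
    rw [C0, C1]
    change Z ((i, j), 1) = F Z N (i - 1) j + F Z N i j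
    rw [← hV, add_comm]
  · change Z ((i, j), 2) = C Z N ((i, j), 2) + C Z N ((i, j), 1)
    rw [C1, C2]
    change Z ((i, j), 2) = F Z N (i - 1) (j - 1) + F Z N (i - 1) j
    have h4 : Z ((i, j), 2) = Z ((i - 1, j), 0) := by
      have h5 : a0 ((i - 1, j), 0) = ((i, j), 2) := by
        rw [a0_apply, dir0]
        exact Prod.ext (Prod.ext (by simp) (by simp)) rfl
      rw [← h5, hZ]
    have h1 := F_step hN (i - 1) j
    have h2 := add_self_two (F Z N (i - 1) j)
    rw [h4]
    linear_combination -h1 - h2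
  · change Z ((i, j), 3) = C Z N ((i, j), 3) + C Z N ((i, j), 2)
    rw [C2, C3]
    change Z ((i, j), 3) = F Z N i (j - 1) + F Z N (i - 1) (j - 1)
    have h5 : Z ((i, j), 3) = Z ((i, j - 1), 1) := by
      have h6 : a0 ((i, j - 1), 1) = ((i, j), 3) := by
        rw [a0_apply, dir1]
        exact Prod.ext (Prod.ext (by simp) (by simp)) rfl
      rw [← h6, hZ]
    rw [h5, hV]

end cells

end GridAux

open GridAux Equiv in
theorem tGrid (hRet : S_Ret) : S_Grid := by
  classical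
  intro S hS
  obtain ⟨τ, hτ, hτc⟩ := hRet E s0 4 (by norm_num) s0_four (P S)
  let _ : Fintype (P S) := (P_finite hS).fintype
  let M : CMap (P S) (ℤ × ℤ) :=
    { σ := τ
      α := { toFun := fun q => ⟨a0 q.1, a0_mem.2 q.2⟩
             invFun := fun q => ⟨a0 q.1, a0_mem.2 q.2⟩
             left_inv := fun q => Subtype.ext (a0_a0 q.1)
             right_inv := fun q => Subtype.ext (a0_a0 q.1) }
      inv := fun q => Subtype.ext (a0_a0 q.1)
      fpf := fun q h => by
        have h1 : (q.1.1 + dir q.1.2, q.1.2 + 2) = q.1 := congrArg Subtype.val h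
        have h2 : q.1.2 + 2 = q.1.2 := congrArg Prod.snd h1
        have h3 : (2 : ZMod 4) = 0 := add_eq_left.1 h2
        exact absurd h3 (by decide)
      vt := fun q => q.1.1
      hv := fun q r => by rw [hτc, s0_sameCycle] }
  have hMα : ∀ q : P S, ((M.α q : P S) : E) = a0 q.1 := fun q => rfl
  have hMσ : M.σ = τ := rfl
  have hMv : ∀ q : P S, M.vt q = q.1.1 := fun q => rfl
  refine ⟨P S, inferInstance, M, ?_, ?_, ?_⟩
  · intro z hz
    obtain ⟨hz1, hz2⟩ := hz
    let Z : E → ZMod 2 := fun q => if h : q ∈ P S then z ⟨q, h⟩ else 0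
    have hZin : ∀ q : P S, Z q.1 = z q := fun q => by
      change (if h : q.1 ∈ P S then z ⟨q.1, h⟩ else 0) = z q
      rw [dif_pos q.2]
    have hZout : ∀ q : E, q ∉ P S → Z q = 0 := fun q hq => dif_neg hq
    have hZa : ∀ q, Z (a0 q) = Z q := by
      intro q
      by_cases hq : q ∈ P S
      · have h1 := hz1 ⟨q, hq⟩
        rw [← hZin, ← hZin] at h1
        exact h1
      · rw [hZout q hq, hZout (a0 q) (fun h => hq (a0_mem.1 h))]
    have hZv : ∀ x : ℤ × ℤ, Z (x, 0) + Z (x, 1) + Z (x, 2) + Z (x, 3) = 0 := by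
      intro x
      have h1 := hz2 x
      let g : E → ZMod 2 := fun q => if q.1 = x then Z q else 0
      have h2 : ∑ d : P S, (if M.vt d = x then z d else 0) = ∑ q ∈ (P S).toFinset, g q := by
        rw [← Finset.sum_set_coe (P S) (f := g)]
        refine Finset.sum_congr rfl fun d _ => ?_
        change (if d.1.1 = x then z d else 0) = if d.1.1 = x then Z d.1 else 0
        rw [hZin]
      have h3 : ∑ q ∈ (P S).toFinset, g q =
          ∑ q ∈ (P S).toFinset ∪ Finset.univ.image (fun k : ZMod 4 => ((x, k) : E)), g q := by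
        refine Finset.sum_subset Finset.subset_union_left fun q _ hq => ?_
        have h4 : q ∉ P S := fun h => hq (Set.mem_toFinset.2 h)
        change (if q.1 = x then Z q else 0) = 0
        rw [hZout q h4, ite_self]
      have h4 : ∑ q ∈ Finset.univ.image (fun k : ZMod 4 => ((x, k) : E)), g q =
          ∑ q ∈ (P S).toFinset ∪ Finset.univ.image (fun k : ZMod 4 => ((x, k) : E)), g q := by
        refine Finset.sum_subset Finset.subset_union_right fun q _ hq => ?_
        refine if_neg fun h => hq ?_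
        rw [Finset.mem_image]
        exact ⟨q.2, Finset.mem_univ _, Prod.ext h.symm rfl⟩
      have h5 : ∑ q ∈ Finset.univ.image (fun k : ZMod 4 => ((x, k) : E)), g q =
          ∑ k : ZMod 4, Z (x, k) := by
        rw [Finset.sum_image (fun k _ l _ h => congrArg Prod.snd h)]
        exact Finset.sum_congr rfl fun k _ => if_pos rfl
      have h6 : ∑ k : ZMod 4, Z (x, k) = Z (x, 0) + Z (x, 1) + Z (x, 2) + Z (x, 3) :=
        Fin.sum_univ_four (fun k : Fin 4 => Z (x, (k : ZMod 4)))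
      rw [← h6, ← h5, h4, ← h3, ← h2, h1]
    obtain ⟨b, hb⟩ := (hS.image Prod.snd).bddAbove
    have hN : ∀ q : E, b + 1 ≤ q.1.2 → Z q = 0 := by
      intro q hq
      refine hZout q fun h => ?_
      have h1 : q.1.2 ≤ b := hb ⟨q.1, h.1, rfl⟩
      omega
    have hZeq := Z_eq hN hZa hZv
    have hCa := C_a0 Z (b + 1)
    refine ⟨fun d => C Z (b + 1) (a0 d.1), ?_, ?_⟩
    · intro d
      obtain ⟨n, hn, hm⟩ := hτ (M.α d)
      have h1 : ((M.φ d : P S) : E) = (s0 ^ (n + 1)) (a0 d.1) := hn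
      change C Z (b + 1) (a0 ((M.φ d : P S) : E)) = C Z (b + 1) (a0 d.1)
      have hm' : ∀ m < n, (s0 ^ (m + 1)) (a0 d.1) ∉ P S := hm
      rw [h1]
      clear h1 hm hn
      generalize a0 d.1 = e at hm' ⊢
      obtain ⟨y, l⟩ := e
      rw [s0_pow, hCa]
      have h2 : ∀ m : ℕ, m ≤ n → C Z (b + 1) (y, l + (m : ZMod 4)) = C Z (b + 1) (y, l) := by
        intro m
        induction m with
        | zero => intro _; rw [Nat.cast_zero, add_zero]
        | succ m ih =>
          intro hmn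
          have h3 := hZout _ (hm' m (by omega))
          rw [s0_pow] at h3
          have h4 := hZeq (l + ((m + 1 : ℕ) : ZMod 4)) y
          rw [h3] at h4
          have h5 : l + ((m + 1 : ℕ) : ZMod 4) - 1 = l + (m : ZMod 4) := by
            push_cast
            ring
          rw [h5, ih (by omega)] at h4
          have h6 := add_self_two (C Z (b + 1) (y, l))
          linear_combination -h4 - h6
      have h3 : l + ((n + 1 : ℕ) : ZMod 4) - 1 = l + (n : ZMod 4) := by
        push_cast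
        ring
      change C Z (b + 1) (y, l + ((n + 1 : ℕ) : ZMod 4) - 1) = C Z (b + 1) (y, l)
      rw [h3]
      exact h2 n le_rfl
    · intro d
      change z d = C Z (b + 1) (a0 d.1) + C Z (b + 1) (a0 (a0 d.1))
      rw [a0_a0, ← hZin]
      have h1 := hZeq d.1.2 d.1.1
      have h2 := hCa d.1.2 d.1.1
      have h3 : ((d.1.1, d.1.2) : E) = d.1 := rfl
      rw [h3] at h1 h2
      rw [h1, h2, add_comm]
  · intro d
    exact ⟨d.2.1, grid_adj_dir d.1.2 d.1.1⟩
  · intro x hx y hy hxy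
    obtain ⟨k, rfl⟩ := exists_dir hxy
    exact ⟨⟨(x, k), hx, hy⟩, rfl, rfl⟩

end PLM
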