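import Pool.Agent.Lib.MP_86b854_co.Spec

/-!
# MP_86b854_co, planarity layer: a drawn graph is a minor of the square grid
-/

set_option autoImplicit false

namespace PLM

theorem tGridMinor (hDisc : S_Disc) (hNbhd : S_Nbhd) (hMetric : S_Metric) (hTrim : S_Trim) :
    S_GridMinor := by
  intro V _ G hG
  obtain ⟨p, K, ε, δ, hδ, hδε, hp, hK, hKK⟩ := hMetric V G hG
  have hgr : ∀ x y, grid.Adj x y → grid.Adj y x := fun x y h => h.symm
  refine hTrim V (ℤ × ℤ) grid.Adj hgr G (fun v => {x | dist (sc δ x) (p v) ≤ ε + δ})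
    (fun u v => {x | ∃ q ∈ K u v, dist (sc δ x) q ≤ δ}) ?_ ?_ ?_ ?_
  · intro v
    exact hDisc (p v) (ε + δ) δ hδ (by linarith)
  · intro v w hvw
    rw [Set.disjoint_left]
    intro x hx hx'
    change dist (sc δ x) (p v) ≤ ε + δ at hx
    change dist (sc δ x) (p w) ≤ ε + δ at hx'
    have h1 := dist_triangle_left (p v) (p w) (sc δ x)
    have h2 := hp v w hvw
    linarith
  · intro u v huv
    obtain ⟨hc, hb, ⟨q, hq, hqu⟩, ⟨r, hr, hrv⟩, hfar⟩ := hK u v huv
    obtain ⟨hf, hcn⟩ := hNbhd (K u v) δ hδ hc hb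
    refine ⟨hf, hcn, ?_, ?_, ?_⟩
    · obtain ⟨x, hx⟩ := (hDisc q δ δ hδ le_rfl).1
      change dist (sc δ x) q ≤ δ at hx
      refine ⟨x, ⟨q, hq, hx⟩, ?_⟩
      change dist (sc δ x) (p u) ≤ ε + δ
      have h1 := dist_triangle (sc δ x) q (p u)
      linarith
    · obtain ⟨x, hx⟩ := (hDisc r δ δ hδ le_rfl).1
      change dist (sc δ x) r ≤ δ at hx
      refine ⟨x, ⟨r, hr, hx⟩, ?_⟩
      change dist (sc δ x) (p v) ≤ ε + δ
      have h1 := dist_triangle (sc δ x) r (p v)
      linarith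
    · intro w hwu hwv
      rw [Set.disjoint_left]
      rintro x ⟨s, hs, hxs⟩ hx
      change dist (sc δ x) (p w) ≤ ε + δ at hx
      have h1 := dist_triangle_left s (p w) (sc δ x)
      have h2 := hfar w hwu hwv s hs
      linarith
  · intro u v w x huv hwx hne
    rw [Set.disjoint_left]
    rintro y ⟨q, hq, hyq⟩ ⟨r, hr, hyr⟩
    have h1 := dist_triangle_left q r (sc δ y)
    have h2 := hKK u v w x huv hwx hne q hq r hr
    linarith

end PLM
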