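import Pool.Agent.Lib.MP_86b854_co.PLAll
import Pool.Agent.Lib.MP_86b854_co.AlgSpec3

set_option autoImplicit false

/-!
# MP_86b854_co : interface of the combinatorial part (regions and discs in plane maps)

`M : CMap G.Dart V` with `PlaneMap M` is a planar rotation system of the simple graph `G`:
`M.α d = d.symm`, `M.vt d = d.fst`, the cycles of `M.σ` are the sets of darts with the same first
vertex, `M.φ d = M.σ d.symm` is the next dart of the face of `d`.
A face is a cycle of `M.φ`. A dart `d` stands also for the corner at `d.fst` before `d`, which is a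
corner of the face `fc M d`. The next corner at `d.fst` is `M.σ d`, and
`fc M (M.σ d) = fc M d.symm` because `M.σ d = M.φ d.symm`.

A region is a set of faces. No Jordan curve theorem is needed: `M.Planar` says that every mod 2 cycle
is the boundary of a region.
-/

namespace C7

open PLM T72 Finset Equiv

section Maps

variable {D X : Type}

/-- the faces of a map -/
def Fc (M : CMap D X) : Type := Quotient (Perm.SameCycle.setoid M.φ)

/-- the face of a dart -/
def fc (M : CMap D X) (d : D) : Fc M := Quotient.mk _ d

noncomputable instance (M : CMap D X) : DecidableEq (Fc M) := Classical.decEq _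

instance (M : CMap D X) [Finite D] : Finite (Fc M) := by
  unfold Fc
  exact Quotient.finite _

noncomputable instance (M : CMap D X) [Finite D] : Fintype (Fc M) := Fintype.ofFinite _

end Maps

variable {V : Type} [Fintype V] [DecidableEq V] {G : SimpleGraph V} [DecidableRel G.Adj]

/-- length of a face (number of its darts) -/
noncomputable def len (M : CMap G.Dart V) (f : Fc M) : ℕ :=
  (univ.filter fun d => fc M d = f).card

/-- incidence of a vertex and a face -/
def Inc (M : CMap G.Dart V) (v : V) (f : Fc M) : Prop := ∃ d : G.Dart, d.fst = v ∧ fc M d = f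

/-- the boundary darts of the region `R` (with `R` on the side of the dart) -/
noncomputable def bd (M : CMap G.Dart V) (R : Finset (Fc M)) : Finset G.Dart :=
  univ.filter fun d => fc M d ∈ R ∧ fc M d.symm ∉ R

/-- the interior vertices of the region `R`: all corners are in `R` -/
noncomputable def inV (M : CMap G.Dart V) (R : Finset (Fc M)) : Finset V :=
  univ.filter fun v => ∀ d : G.Dart, d.fst = v → fc M d ∈ R

/-- the boundary of the region `R` is the cycle `w 0, w 1, ..., w (k - 1)` -/
def Bd (M : CMap G.Dart V) (R : Finset (Fc M)) (k : ℕ) (w : ZMod k → V) : Prop :=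
  Function.Injective w ∧ (∀ i, G.Adj (w i) (w (i + 1))) ∧
    ∀ d : G.Dart, d ∈ bd M R ↔ ∃ i, d.fst = w i ∧ d.snd = w (i + 1)

/-- two darts in the same class: faces are joined through the edges which are not in `H` -/
def clsS (M : CMap G.Dart V) (H : Finset G.Dart) : Setoid G.Dart where
  r d e := ∀ S : Set G.Dart, (∀ x, x ∈ S ↔ M.φ x ∈ S) → (∀ x ∉ H, x ∈ S ↔ x.symm ∈ S) →
    (d ∈ S ↔ e ∈ S)
  iseqv := ⟨fun _ _ _ _ => Iff.rfl, fun h S h1 h2 => (h S h1 h2).symm,
    fun h h' S h1 h2 => (h S h1 h2).trans (h' S h1 h2)⟩

/-- number of the classes -/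
noncomputable def ncls (M : CMap G.Dart V) (H : Finset G.Dart) : ℕ := Nat.card (Quotient (clsS M H))

/-- connected components of the graph with vertex set `V` and edge set `H` -/
def cmpS (H : Finset G.Dart) : Setoid V where
  r v w := ∀ S : Set V, (∀ d ∈ H, d.fst ∈ S ↔ d.snd ∈ S) → (v ∈ S ↔ w ∈ S)
  iseqv := ⟨fun _ _ _ => Iff.rfl, fun h S h1 => (h S h1).symm,
    fun h h' S h1 => (h S h1).trans (h' S h1)⟩

/-- number of the components -/
noncomputable def ncmp (H : Finset G.Dart) : ℕ := Nat.card (Quotient (cmpS H))

/-- the darts inside of a set of vertices -/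
def dIn (G : SimpleGraph V) [DecidableRel G.Adj] (U : Finset V) : Finset G.Dart :=
  univ.filter fun d => d.fst ∈ U ∧ d.snd ∈ U

/-- **EulerSub.** Euler's formula for any set `H` of edges of a connected plane map, with topological
faces.
PROOF. Linear algebra over `ZMod 2`; use `PLM.EulerAux2` in `EulerLe.lean` (`cf`, `finrank_cf`). Let
`A` be the space of the functions `h` on darts which are constant on the classes of `clsS M H`
(equivalently `h (φ d) = h d` for all `d` and `h d.symm = h d` for `d ∉ H`), `dim A = ncls M H`.  Let
`B` be the space of the functions `z` with `z d.symm = z d`, `z d = 0` for `d ∉ H` and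
`∑ (d.fst = v), z d = 0` for all `v`.  The map `A → B`, `h ↦ (d ↦ h d + h d.symm)` is well defined
(vertex sums: `h d + h d.symm = h d + h (M.σ d)`, summed over a cycle of `σ`) and surjective (`M.Planar`).
Its kernel: `h` is invariant under `φ` and `symm`, hence under `σ`, so it comes from a function on `V`
which is constant on adjacent vertices, so constant (`G.Connected`): dimension `1` (there is a
dart).  `dim B`: `B` is the kernel of the map from the symmetric functions supported in `H`
(dimension `H.card / 2`) to functions on `V`, `z ↦ (v ↦ ∑ (d.fst = v), z d)`; its rank is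
`|V| - ncmp H`: the orthogonal complement of its range in `V → ZMod 2` is the set of the functions on
`V` which are constant along `H` (dimension `ncmp H`); compare `EulerLe.lean`, where the same is done
for all darts. So `ncls - 1 = H.card / 2 - |V| + ncmp`. -/
def S_EulerSub : Prop :=
  ∀ (V : Type) [Fintype V] [DecidableEq V] (G : SimpleGraph V) [DecidableRel G.Adj]
    (M : CMap G.Dart V), PlaneMap M → G.Connected → Nonempty G.Dart →
    ∀ H : Finset G.Dart, (∀ d ∈ H, d.symm ∈ H) →
      2 * ncls M H + 2 * Fintype.card V = H.card + 2 * ncmp H + 2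

/-- **EulerU.** Allowed: `S_EulerSub`. Euler's inequality for an induced subgraph. (`(dIn G U).card` is
the sum of the lengths of the classes.)
PROOF. `H = dIn G U`. In `cmpS H` every vertex outside of `U` is a class of its own, and there is at
least one more class, so `ncmp H ≥ |V| - |U| + 1`. -/
def S_EulerU : Prop :=
  ∀ (V : Type) [Fintype V] [DecidableEq V] (G : SimpleGraph V) [DecidableRel G.Adj]
    (M : CMap G.Dart V), PlaneMap M → G.Connected → Nonempty G.Dart →
    ∀ U : Finset V, U.Nonempty → (dIn G U).card + 4 ≤ 2 * U.card + 2 * ncls M (dIn G U)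

/-- **Corner.** Going around a vertex. (1) the number of boundary darts of a region which start at
`v` is the number of those which end at `v`; (2) if no boundary dart of the region starts at `v`
then all corners at `v` have the same status.
PROOF. Let `r e = 1` if `fc M e ∈ R` and `0` otherwise (integers). `fc M e.symm = fc M (M.σ e)`
(`M.φ e.symm = M.σ e`). The darts which start at `v` are a cycle of `M.σ` (or none). A boundary dart `d`
which starts at `v` is a dart with `r d = 1`, `r (σ d) = 0`; a boundary dart `d` which ends at `v` gives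
`e = d.symm` with `r e = 0`, `r (σ e) = 1`. The sum of `r (σ e) - r e` over the darts at `v` is `0`
(reindexing by `σ`).  (2) if `r e = 1` implies `r (σ e) = 1` then the set `r = 1` is closed under `σ`
(`PanD.SameCycle.mem_closed` or `PanD.sameCycle_iff_closed`). -/
def S_Corner : Prop :=
  ∀ (V : Type) [Fintype V] [DecidableEq V] (G : SimpleGraph V) [DecidableRel G.Adj]
    (M : CMap G.Dart V), PlaneMap M → ∀ (R : Finset (Fc M)) (v : V),
      ((bd M R).filter fun d => d.fst = v).card = ((bd M R).filter fun d => d.snd = v).card ∧
      ((∀ d ∈ bd M R, d.fst ≠ v) → ∀ d e : G.Dart, d.fst = v → e.fst = v →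
        (fc M d ∈ R ↔ fc M e ∈ R))

/-- **ShortBd.** Allowed: `S_Corner`. In a triangle-free graph a short boundary is a single cycle.
PROOF. Call a set `A` of darts balanced if at every vertex the numbers of darts of `A` which start and
end there are equal. `bd M R` is balanced, and it does not contain `d` and `d.symm` together; so are
its balanced subsets.
(a) A nonempty balanced `A ⊆ bd M R` has at least four elements: let `d ∈ A` be `(a, b)`; there are
`(b, c) ∈ A`, `c ≠ a`, then `(c, x) ∈ A`, `x ≠ b`, and `x ≠ a` (no triangle), then a dart of `A` which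
starts at `x`; these four darts have different first vertices `a, b, c, x`.
(b) So no proper nonempty subset of `bd M R` is balanced (it and its complement would have at least four
elements).  Choose for every vertex `v` with an outgoing boundary dart one such dart `c v`; the map
`v ↦ (c v).snd` maps this set of vertices to itself; let `v₀, v₁, ..., v_{m-1}` be a periodic orbit
(minimal period `m`, `Function.minimalPeriod`). The darts `c v_i` form a nonempty balanced set, so they
are all of `bd M R`: `m = k` and `w i = v_i`. -/
def S_ShortBd : Prop :=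
  ∀ (V : Type) [Fintype V] [DecidableEq V] (G : SimpleGraph V) [DecidableRel G.Adj]
    (M : CMap G.Dart V), PlaneMap M → G.CliqueFree 3 → ∀ (R : Finset (Fc M)) (k : ℕ),
      (bd M R).card = k → k ≠ 0 → k ≤ 7 → 4 ≤ k ∧ ∃ w : ZMod k → V, Bd M R k w

/-- **Jordan.** Allowed: `S_Corner`. Every cycle is the boundary of a region which does not contain a
given face.
PROOF. `z d = 1` if `d` or `d.symm` is one of the darts `(w i, w (i + 1))`, else `0`: a mod 2 cycle (`k ≥ 3`
and `w` is injective: at `w i` there are exactly two such darts). `M.Planar` gives `h`; let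
`R = {f | h f ≠ h o}` (`h` is constant on faces).  A dart `d` satisfies
`¬ (fc d ∈ R ↔ fc d.symm ∈ R)` iff `z d = 1`. At every `w i` there are exactly two edges with `z = 1`,
so by `S_Corner` (1) exactly one of them is a boundary dart which starts at `w i` and one ends there.
So if the boundary dart of the edge `w 0 w 1` starts at `w 0` then all start at `w i` and end at
`w (i + 1)`; otherwise all are `(w (i + 1), w i)`, and `w' i = w (-i)`. -/
def S_Jordan : Prop :=
  ∀ (V : Type) [Fintype V] [DecidableEq V] (G : SimpleGraph V) [DecidableRel G.Adj]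
    (M : CMap G.Dart V), PlaneMap M → ∀ (o : Fc M) (k : ℕ) (w : ZMod k → V), 3 ≤ k →
      Function.Injective w → (∀ i, G.Adj (w i) (w (i + 1))) →
      ∃ R : Finset (Fc M), o ∉ R ∧ (Bd M R k w ∨ Bd M R k fun i => w (-i))

/-- **Two.** Allowed: `S_EulerSub, S_Corner`. The two sides of a cycle are connected, and so is the set
of the vertices which are not interior. (1) two darts of `R` are in the same class modulo the edges
which are not on the boundary; (2) the same for two darts outside of `R`; (3) a set `A` of vertices
such that every edge which has not both sides in `R` has both or no ends in `A` contains all or none of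
the vertices which are not in `inV M R`; (4) a vertex which is not interior and not on the boundary has
no corner in `R`.
PROOF. Let `H` be the set of boundary darts and their reverses, `2 k` darts. `ncmp H = |V| - k + 1`
(the cycle is one class, the other vertices are classes of their own), so `ncls M H = 2` by
`S_EulerSub`. The set of the darts `d` with `fc M d ∈ R` and its complement are unions of classes and
nonempty, so each of them is one class: (1), (2).  (4): `S_Corner` (2) (no boundary dart starts at a
vertex which is not on the cycle).  (3): all `w i` have the same status (boundary edges). Let `B` be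
the set of the vertices which are not in `inV M R` and whose status is different from the one of
`w 0`. Let `v ∈ B`, `u` adjacent to `v`, `d = (v, u)`. By (4) `fc d ∉ R` and `fc d.symm ∉ R` (a corner at
`v`), so `u` has the same status as `v` and is not in `inV M R`. So `B` is closed under adjacency, and
`w 0 ∉ B`, so `B` is empty. -/
def S_Two : Prop :=
  ∀ (V : Type) [Fintype V] [DecidableEq V] (G : SimpleGraph V) [DecidableRel G.Adj]
    (M : CMap G.Dart V), PlaneMap M → G.Connected →
    ∀ (R : Finset (Fc M)) (k : ℕ) (w : ZMod k → V), 3 ≤ k → Bd M R k w →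
      (∀ S : Set G.Dart, (∀ x, x ∈ S ↔ M.φ x ∈ S) →
        (∀ x, fc M x ∈ R → fc M x.symm ∈ R → (x ∈ S ↔ x.symm ∈ S)) →
        ∀ d e, fc M d ∈ R → fc M e ∈ R → (d ∈ S ↔ e ∈ S)) ∧
      (∀ S : Set G.Dart, (∀ x, x ∈ S ↔ M.φ x ∈ S) →
        (∀ x, fc M x ∉ R → fc M x.symm ∉ R → (x ∈ S ↔ x.symm ∈ S)) →
        ∀ d e, fc M d ∉ R → fc M e ∉ R → (d ∈ S ↔ e ∈ S)) ∧
      (∀ A : Set V, (∀ d : G.Dart, ¬ (fc M d ∈ R ∧ fc M d.symm ∈ R) → (d.fst ∈ A ↔ d.snd ∈ A)) →
        ∀ u v, u ∉ inV M R → v ∉ inV M R → (u ∈ A ↔ v ∈ A)) ∧
      (∀ v, v ∉ inV M R → (∀ i, w i ≠ v) → ∀ d : G.Dart, d.fst = v → fc M d ∉ R)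

/-- **DiscEuler.** Allowed: `S_EulerSub, S_Two`. Euler's formula for the inside of a cycle.
PROOF. `H` = the darts which do not have both sides in `R`, `m = 2 e` = number of the other darts.
`ncls M H = 1 + (number of faces outside of R)`: the faces in `R` are one class by `S_Two` (1), all other
faces are classes of their own.  `ncmp H = |inV M R| + 1`: interior vertices are isolated in `H`
(`fc d.symm = fc (M.σ d)`), the other vertices are one class by `S_Two` (3).  `S_EulerSub` for `H` and
for the set of all darts (`ncls = ` number of faces, `ncmp = 1`): subtraction gives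
`|R| - 1 = e - |inV M R|`. The sum of the lengths of the faces in `R` is `2 e + k`. -/
def S_DiscEuler : Prop :=
  ∀ (V : Type) [Fintype V] [DecidableEq V] (G : SimpleGraph V) [DecidableRel G.Adj]
    (M : CMap G.Dart V), PlaneMap M → G.Connected →
    ∀ (R : Finset (Fc M)) (k : ℕ) (w : ZMod k → V), 3 ≤ k → Bd M R k w →
      2 * (inV M R).card + 2 * R.card + k = (∑ f ∈ R, len M f) + 2

/-- the chords of the region `R`, as darts: edges with both sides in `R` and no interior end -/
noncomputable def chd (M : CMap G.Dart V) (R : Finset (Fc M)) : Finset G.Dart :=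
  univ.filter fun d => fc M d ∈ R ∧ fc M d.symm ∈ R ∧ d.fst ∉ inV M R ∧ d.snd ∉ inV M R

/-- **DiscCount.** Allowed: `S_DiscEuler`. The number of the edges which touch the interior `U` of a
disc, times four: `2 eIn U + 4 eBt U Uᶜ = 8 |U| + 2 k - 8 - 2 λ - 4 (number of chords)`, with
`λ = ∑ (len f - 4)` over the faces in `R`.
PROOF. The darts with both sides in `R` are: the chords (`(chd M R).card`), the darts inside of `U`
(`eIn G U`), the darts between `U` and `Uᶜ` (`2 * eBt G U Uᶜ`) (all darts with an end in `U` have both
sides in `R`); with the `k` boundary darts they are all darts with `fc ∈ R`. So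
`chd + eIn U + 2 eBt U Uᶜ + k = ∑ len f`. -/
def S_DiscCount : Prop :=
  ∀ (V : Type) [Fintype V] [DecidableEq V] (G : SimpleGraph V) [DecidableRel G.Adj]
    (M : CMap G.Dart V), PlaneMap M → G.Connected →
    ∀ (R : Finset (Fc M)) (k : ℕ) (w : ZMod k → V), 3 ≤ k → Bd M R k w →
      (2 * (eIn G (inV M R) : ℤ) + 4 * eBt G (inV M R) (inV M R)ᶜ) + 2 * (chd M R).card +
        2 * ∑ f ∈ R, ((len M f : ℤ) - 4) + 8 = 8 * (inV M R).card + 2 * k

/-- **Nest.** Allowed: `S_Two`. A region whose boundary runs inside of a disc is a part of the disc.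
PROOF. By `S_Two` (2) for `R`, with `S` = darts `d` with `fc M d ∈ R'`: a dart with both sides outside
of `R` is not on the boundary of `R'` (in either direction) by hypothesis. So `S` contains all or none
of the darts outside of `R`; the darts of `o` are outside of `R` and not in `S`. -/
def S_Nest : Prop :=
  ∀ (V : Type) [Fintype V] [DecidableEq V] (G : SimpleGraph V) [DecidableRel G.Adj]
    (M : CMap G.Dart V), PlaneMap M → G.Connected →
    ∀ (o : Fc M) (R R' : Finset (Fc M)) (k : ℕ) (w : ZMod k → V), 3 ≤ k → Bd M R k w →
      o ∉ R → o ∉ R' → (∀ d ∈ bd M R', fc M d ∈ R ∨ fc M d.symm ∈ R) → R' ⊆ R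

/-- **Parity.** The length of the boundary of a region.
PROOF. The darts with `fc ∈ R` are the boundary darts and the darts with both sides in `R`; `d ↦ d.symm`
is an involution without fixed points of the second set. -/
def S_Parity : Prop :=
  ∀ (V : Type) [Fintype V] [DecidableEq V] (G : SimpleGraph V) [DecidableRel G.Adj]
    (M : CMap G.Dart V) (R : Finset (Fc M)), ∃ e : ℕ, ∑ f ∈ R, len M f = (bd M R).card + 2 * e

/-- **FaceLen.** In a connected triangle-free plane graph with a cycle (a region with nonempty
boundary) all faces have length at least four.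
PROOF. A face is a closed walk `d, φ d, φ² d, ...` of darts of a simple graph. Length `1`: impossible
(`d.snd = (φ d).fst = d.fst`). Length `2`: `φ d = d.symm` and `φ (d.symm) = d`, i.e. `σ d.symm = d.symm`
and `σ d = d`, so `d.fst` and `d.snd` have degree one, `G` connected implies that `d, d.symm` are the only
darts, and they are in the same face, so no region has a boundary. Length `3`: `d₁, d₂, d₃` with
`d₁.snd = d₂.fst` etc. gives a triangle or `d₁.fst = d₂.snd = d₃.fst`, `d₃.snd = d₁.fst`: a loop. -/
def S_FaceLen : Prop :=
  ∀ (V : Type) [Fintype V] [DecidableEq V] (G : SimpleGraph V) [DecidableRel G.Adj]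
    (M : CMap G.Dart V), PlaneMap M → G.Connected → G.CliqueFree 3 →
    (∃ R : Finset (Fc M), (bd M R).Nonempty) → ∀ f : Fc M, 4 ≤ len M f

/-! ### Induced subgraphs, induction -/

/-- the subgraph induced by `Y` -/
abbrev Gi (G : SimpleGraph V) (Y : Finset V) : SimpleGraph {v // v ∈ Y} :=
  G.comap fun v => (v : V)

/-- the darts of the induced subgraph as darts of `G` -/
def up {Y : Finset V} (d : (Gi G Y).Dart) : G.Dart := ⟨((d.fst : V), (d.snd : V)), d.adj⟩

/-- **Ind.** Plane maps for induced subgraphs; faces do not change as long as they stay inside `Y`.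
PROOF. `PLM.aSub` with `P = {d | d.fst ∈ Y ∧ d.snd ∈ Y}`, transported along the bijection
`(Gi G Y).Dart ≃ P`, `d ↦ up d`; labels `vt d = d.fst` as elements of `{v // v ∈ Y}` (the labels are
injective images, so `hv` and `Cyc` are the same).  If `(M.φ (up d)).snd ∈ Y` then
`M.σ (M.α (up d)) ∈ P`, so in `σ' y = σ^(n+1) y` (`y = α (up d)`) we have `n = 0`. -/
def S_Ind : Prop :=
  ∀ (V : Type) [Fintype V] [DecidableEq V] (G : SimpleGraph V) [DecidableRel G.Adj]
    (M : CMap G.Dart V), PlaneMap M → ∀ Y : Finset V,
      ∃ M' : CMap (Gi G Y).Dart {v // v ∈ Y}, PlaneMap M' ∧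
        ∀ d, (M.φ (up d)).snd ∈ Y → up (M'.φ d) = M.φ (up d)

/-- every triangle-free plane graph with at most `n` vertices is (7,2)-choosable -/
def ClosedN (n : ℕ) : Prop :=
  ∀ (V : Type) [Fintype V] [DecidableEq V] (G : SimpleGraph V) [DecidableRel G.Adj]
    (M : CMap G.Dart V), Fintype.card V ≤ n → PlaneMap M → G.CliqueFree 3 →
    ∀ L : V → Finset ℕ, (∀ v, (L v).card = 7) → ∃ f : V → Finset ℕ, ColOn G L univ f

/-- colourings of the vertices of a face of length at most five extend, in every triangle-free plane
graph with at most `n` vertices -/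
def ExtN (n : ℕ) : Prop :=
  ∀ (V : Type) [Fintype V] [DecidableEq V] (G : SimpleGraph V) [DecidableRel G.Adj]
    (M : CMap G.Dart V), Fintype.card V ≤ n → PlaneMap M → G.CliqueFree 3 →
    ∀ (o : Fc M) (P : Finset V), len M o ≤ 5 → (∀ v, v ∈ P ↔ Inc M v o) →
    ∀ (L g : V → Finset ℕ), (∀ v, v ∉ P → (L v).card = 7) → ColOn G L P g →
      ∃ f : V → Finset ℕ, (∀ v ∈ P, f v = g v) ∧ ColOn G L univ f

/-- a minimal counterexample: a connected triangle-free plane graph with a face `o` of length at most
five whose vertices (the set `P`) are precoloured by `g`; regions with a boundary of length at most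
five are single faces, except for the complement of `o` -/
structure MinDisc (G : SimpleGraph V) [DecidableRel G.Adj] (M : CMap G.Dart V) (o : Fc M)
    (L : V → Finset ℕ) (P : Finset V) (g : V → Finset ℕ) : Prop where
  plane : PlaneMap M
  conn : G.Connected
  tri : G.CliqueFree 3
  outer : ∀ v, v ∈ P ↔ Inc M v o
  len_le : len M o ≤ 5
  proper : ColOn G L P g
  cex : MinCex G L P g
  nosep : ∀ R : Finset (Fc M), o ∉ R → R.Nonempty → (bd M R).card ≤ 5 → R.card = 1 ∨ R = univ \ {o}

/-- **IndFace.** Faces inside `Y` are faces of the induced map.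
PROOF. `A` = darts `d` of `Gi G Y` with `fc M (up d) = f`. All darts of `f` have both ends in `Y`
(`e.snd = (M.φ e).fst`), so `A` is in bijection with the darts of `f`, is closed under `M'.φ` and `M'.φ`
acts on it as `M.φ`: it is one cycle. -/
def S_IndFace : Prop :=
  ∀ (V : Type) [Fintype V] [DecidableEq V] (G : SimpleGraph V) [DecidableRel G.Adj]
    (M : CMap G.Dart V), PlaneMap M → ∀ (Y : Finset V) (M' : CMap (Gi G Y).Dart {v // v ∈ Y}),
      PlaneMap M' → (∀ d, (M.φ (up d)).snd ∈ Y → up (M'.φ d) = M.φ (up d)) →
      ∀ f : Fc M, (∀ v, Inc M v f → v ∈ Y) →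
        ∃ f' : Fc M', (∀ d, fc M' d = f' ↔ fc M (up d) = f) ∧ len M' f' = len M f ∧
          ∀ v, Inc M' v f' ↔ Inc M (v : V) f

/-- **InFace.** Allowed: `S_Corner`. The boundary of a disc is a face of the inner map. `Y` = interior
vertices and vertices of the boundary, which has length at most five (no chords).
PROOF. Let `B` be the set of the darts `d` of `Gi G Y` with `(up d).symm ∈ bd M R`. A dart `d` of `Gi G Y`
is in `B` or has `fc M (up d) ∈ R`: if `fc M (up d) ∉ R` then both ends are not interior (`fc (up d)` is a
corner of `fst`, and of `snd` by `M.φ`), so they are `w i`, `w j`; adjacent vertices of a cycle of length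
four or five of a triangle-free graph are consecutive, and `(w i, w (i+1))` is in `bd M R`, so it is
`(w (i+1), w i)`.  The complement `A` of `B` is closed under `M'.φ`: for `d ∈ A` let `e = M.φ (up d)`,
`fc M e ∈ R`; `e.snd = (M.φ e).fst` has a corner in `R`, so it is interior, or some boundary dart starts
there (`S_Corner` (2)), so it is in `Y`; so `up (M'.φ d) = e`.  So `B` is closed under `M'.φ` (finite, a
permutation), and if `up d = (w (i+1), w i)` then `M'.φ d ∈ B` starts at `w i`, so it is
`(w i, w (i-1))`: `B` is one cycle with `k` elements. -/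
def S_InFace : Prop :=
  ∀ (V : Type) [Fintype V] [DecidableEq V] (G : SimpleGraph V) [DecidableRel G.Adj]
    (M : CMap G.Dart V), PlaneMap M → G.CliqueFree 3 → ∀ (Y : Finset V)
      (M' : CMap (Gi G Y).Dart {v // v ∈ Y}),
      PlaneMap M' → (∀ d, (M.φ (up d)).snd ∈ Y → up (M'.φ d) = M.φ (up d)) →
      ∀ (R : Finset (Fc M)) (k : ℕ) (w : ZMod k → V), 4 ≤ k → k ≤ 5 → Bd M R k w →
        (∀ v, v ∈ Y ↔ v ∈ inV M R ∨ ∃ i, w i = v) →
        ∃ f' : Fc M', len M' f' = k ∧ ∀ v, Inc M' v f' ↔ ∃ i, w i = (v : V)

/-- **MinA.** Allowed: `S_Ind, S_IndFace`. A counterexample to `ExtN (n + 1)` is a minimal counterexample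
and connected, if `ExtN n` and `ClosedN n` hold.
PROOF. `MinCex.ext`: for `S` nonempty and disjoint from `P` let `Y = Sᶜ`, with at most `n` vertices; `S_Ind`,
`S_IndFace` for `f = o` (the vertices of `o` are in `P ⊆ Y`) and `ExtN n` for `Gi G Y` (lists and `g`
restricted) give a colouring, which is extended by anything to `S`.
Connected: `P` is not empty (`o` has a dart). Suppose that `A` is a nonempty set closed under adjacency,
with a nonempty complement `B`; the vertices of `o` are in one component (`d.fst`, `d.snd` adjacent), so
we may assume `P ⊆ A`. `Gi G B` has at most `n` vertices: `ClosedN n` (map from `S_Ind`) gives a colouring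
of `B`; `MinCex.ext` with `S = B` gives one of `A = Bᶜ` which agrees with `g` on `P`; together they colour
`G`. -/
def S_MinA : Prop :=
  ∀ n : ℕ, ClosedN n → ExtN n →
    ∀ (V : Type) [Fintype V] [DecidableEq V] (G : SimpleGraph V) [DecidableRel G.Adj]
    (M : CMap G.Dart V), Fintype.card V ≤ n + 1 → PlaneMap M → G.CliqueFree 3 →
    ∀ (o : Fc M) (P : Finset V), len M o ≤ 5 → (∀ v, v ∈ P ↔ Inc M v o) →
    ∀ (L g : V → Finset ℕ), (∀ v, v ∉ P → (L v).card = 7) → ColOn G L P g →
      (¬ ∃ f : V → Finset ℕ, (∀ v ∈ P, f v = g v) ∧ ColOn G L univ f) →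
      MinCex G L P g ∧ G.Connected

/-- **MinB.** Allowed: `S_Ind, S_InFace, S_ShortBd, S_DiscEuler, S_Two`. In such a counterexample there
are no separating short cycles.
PROOF. `(bd M R).card ≠ 0`: otherwise the set of the darts with `fc ∈ R` is invariant under `φ` and `symm`,
hence under `σ`, so everything by connectedness, but `o ∉ R`, `R` nonempty.  `S_ShortBd`: `k = 4, 5` and
`Bd M R k w`.
(a) Suppose `inV M R = ∅`. No edge has both sides in `R`: its ends would be on the cycle (`S_Two` (4)), and
adjacent vertices of a `4`- or `5`-cycle in a triangle-free graph are consecutive, so it would be a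
boundary edge. So `∑ len f = k` and `S_DiscEuler` gives `|R| = 1`.
(b) The same for the complement: if all vertices are in `Y = inV M R ∪ {w i}` then the complement
`Rᶜ = univ \ R` has the boundary `w (-i)` and no interior vertices (`w i` has a corner in `R`, interior
vertices of `R` too), so `|Rᶜ| = 1` and `R = univ \ {o}`.
(c) Otherwise `Y` has at most `n` vertices and `inV M R` is nonempty. `MinCex.ext` with `S = inV M R`
(disjoint from `P`: the vertices of `o` have a corner outside of `R`) gives `f₀` on the complement.
`ExtN n` for `Gi G Y` with the face `f'` from `S_InFace`, precoloured by `f₀` on the `w i`, gives `f₁`.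
`f₁` on `Y` and `f₀` outside is a colouring of `G`: the neighbours of an interior vertex are in `Y`
(`S_Two` (4)). Contradiction. (The lists of the `w i` do not have to have seven elements.) -/
def S_MinB : Prop :=
  ∀ n : ℕ, ExtN n →
    ∀ (V : Type) [Fintype V] [DecidableEq V] (G : SimpleGraph V) [DecidableRel G.Adj]
    (M : CMap G.Dart V), Fintype.card V ≤ n + 1 → PlaneMap M → G.CliqueFree 3 → G.Connected →
    ∀ (o : Fc M) (P : Finset V), (∀ v, v ∈ P ↔ Inc M v o) →
    ∀ (L g : V → Finset ℕ), MinCex G L P g →
      ∀ R : Finset (Fc M), o ∉ R → R.Nonempty → (bd M R).card ≤ 5 → R.card = 1 ∨ R = univ \ {o}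

/-- **ClosedStep.** Allowed: `S_Ind`. The case without precoloured vertices.
PROOF. `V` has at most `n + 1` vertices. If some vertex `v` has at most two neighbours, colour `Gi G {v}ᶜ`
(`ClosedN n`, `S_Ind`) and then `v` from `7 - 4 ≥ 2` colours. So all degrees are at least three; `V`
nonempty. `PLM.euler_iff`: `nV + nF = nE + 2 nC`, `nV = |V|`, `2 nE = ` number of darts `≥ 3 |V|`. If all
faces had length at least six then `6 nF ≤ 2 nE`, so `nV + nF ≤ nE`, contradiction (`nC ≥ 1`). Let `o` be
a face of length at most five, `P` its set of vertices, `|P| ≤ 5`. `|V| ≥ 6`: two adjacent vertices have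
at least three neighbours each, and no common ones. So `|P| ≤ n`, `P ≠ univ`, and `ClosedN n` for `Gi G P`
gives a colouring `g` of `P`; `ExtN (n + 1)` extends it. -/
def S_ClosedStep : Prop := ∀ n : ℕ, ClosedN n → ExtN (n + 1) → ClosedN (n + 1)

/-- there are no minimal counterexamples (the goal of the combinatorial part) -/
def NoMin : Prop :=
  ∀ (V : Type) [Fintype V] [DecidableEq V] (G : SimpleGraph V) [DecidableRel G.Adj]
    (M : CMap G.Dart V) (o : Fc M) (L : V → Finset ℕ) (P : Finset V) (g : V → Finset ℕ),
    ¬ MinDisc G M o L P g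

/-- **Final.** Allowed: `S_MinA, S_MinB, S_ClosedStep`. The frozen statement from `NoMin`.
PROOF. `ClosedN n ∧ ExtN n` by induction: `n = 0` trivial (`ExtN 0`: there is no dart); `ExtN (n + 1)`:
a counterexample is a `MinDisc` by `S_MinA`, `S_MinB`; `ClosedN (n + 1)` by `S_ClosedStep`.  Then
`PLM.plane_of_drawn`. The hypothesis `Drawn G` is the one of the frozen statement. -/
def S_Final : Prop :=
  NoMin → ∀ (V : Type) [Fintype V] (G : SimpleGraph V), G.CliqueFree 3 → Drawn G →
    ∀ L : V → Finset ℕ, (∀ v, (L v).card = 7) →
      ∃ f : V → Finset ℕ, (∀ v, f v ⊆ L v ∧ (f v).card = 2) ∧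
        ∀ u v, G.Adj u v → Disjoint (f u) (f v)

/-! ### First facts on minimal counterexamples -/

/-- **MinOuter.** Allowed: `S_ShortBd, S_DiscEuler, S_EulerSub`. The outer face is a cycle of length
four or five, all faces have length at least four, and there are interior vertices.
PROOF. `Pᶜ` is nonempty: otherwise `g` contradicts `MinCex.not` (`proper`).  `R = univ \ {o}`.  If `bd M R` is
empty then (connectedness) `R` is empty, so `o` is the only face, `len o ≤ 5` is the number of all darts,
every vertex has a dart (`G` is connected with at least two vertices), which is in `o`, so `P = univ`,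
contradiction.  `(bd M R).card ≤ len o ≤ 5` (`d ↦ d.symm`). `S_ShortBd`: `k ∈ {4, 5}` and `Bd M R k w`.  The
darts of `o` are the reverses of the boundary darts and the darts `d` with `fc d = fc d.symm = o`, their
number is even and at most `1`, so `0`: `len o = k`. `P = {w i}`: every vertex of `o` starts a dart of `o`.
`inV M R = Pᶜ`. -/
def S_MinOuter : Prop :=
  ∀ (V : Type) [Fintype V] [DecidableEq V] (G : SimpleGraph V) [DecidableRel G.Adj]
    (M : CMap G.Dart V) (o : Fc M) (L : V → Finset ℕ) (P : Finset V) (g : V → Finset ℕ),
    MinDisc G M o L P g → Pᶜ.Nonempty ∧ inV M (univ \ {o}) = Pᶜ ∧ 4 ≤ len M o ∧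
      ∃ w : ZMod (len M o) → V, Bd M (univ \ {o}) (len M o) w ∧ ∀ v, v ∈ P ↔ ∃ i, w i = v

/-- **MinDeg.** Every vertex outside of `P` has at least three neighbours.
PROOF. `MinCex.ext` with `S = {v}`; if `v` has at most two neighbours, `7 - 2 * 2 ≥ 2` colours of `L v` are
not used by them, contradiction to `MinCex.not`. -/
def S_MinDeg : Prop :=
  ∀ (V : Type) [Fintype V] [DecidableEq V] (G : SimpleGraph V) [DecidableRel G.Adj]
    (L : V → Finset ℕ) (P : Finset V) (g : V → Finset ℕ), MinCex G L P g →
    ∀ v, v ∉ P → 3 ≤ G.degree v

end C7
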