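import Pool.Agent.Lib.MP_86b854_co.Interface

set_option autoImplicit false

/-!
# MP_86b854_co : Theorem T5 in the language of regions

`S_Val` is the only place where colourings enter the combinatorial part: in a minimal counterexample
every odd cycle transversal `W` of the interior of a disc satisfies a strict inequality; the level
accounting gives the opposite inequality.
-/

namespace C7

open PLM T72 Finset Equiv

/-- **Cost.** Pure graph theory: the vertices of `W` cost at most `7` each. `T` = the isolated vertices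
of `G[W]` and the vertices of `U` with exactly one neighbour in `W`; `Y` is the set of the other
vertices (not in `W`, not in the coloured set `S`). `U` is an independent subset of `W`, every vertex
of it has a neighbour in `W` and none in `Y`.
PROOF. `T` is independent: an element of `T` which is adjacent to a vertex of `W` is in `U`.  For every
`v ∈ W`: `2 + [v ∈ U] ≤ 2 dgI W v + dgI Y v + [v ∈ T] (2 - dgI (Y ∪ W) v)` (natural subtraction):
if `v` is isolated in `G[W]`: `v ∉ U`, `dgI (Y ∪ W) v = dgI Y v`; if `v ∈ U`: `dgI Y v = 0`, and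
`dgI W v = 1`, `v ∈ T`, `2 + 1 ≤ 2 + (2 - 1)`, or `dgI W v ≥ 2`; otherwise `dgI W v ≥ 1`.  Sum over `W`:
`∑ dgI W v = eIn G W`, `∑ dgI Y v = eBt G W Y`. -/
def S_Cost : Prop :=
  ∀ (V : Type) [Fintype V] [DecidableEq V] (G : SimpleGraph V) [DecidableRel G.Adj]
    (W Y U : Finset V), Disjoint W Y → U ⊆ W → (∀ u ∈ U, ∀ v ∈ U, ¬ G.Adj u v) →
    (∀ u ∈ U, ∃ v ∈ W, G.Adj u v) → (∀ u ∈ U, ∀ v ∈ Y, ¬ G.Adj u v) →
    ∃ T ⊆ W, (∀ u ∈ T, ∀ v ∈ T, ¬ G.Adj u v) ∧
      2 * W.card + U.card ≤ 2 * eIn G W + eBt G W Y + ∑ t ∈ T, (2 - dgI G (Y ∪ W) t)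

/-- **Val.** Allowed: `S_ThmT5, S_DiscCount, S_Cost`. `R` is a disc (a region without the outer face
bounded by a cycle of length `k`; `R = univ \ {o}` is allowed, see `S_MinOuter`), `W` a set of interior
vertices such that the other interior vertices induce a nonempty bipartite graph, `U ⊆ W` independent,
every vertex of `U` has a neighbour in `W` and none outside of the interior.
PROOF. `A = inV M R`, `S = A \ W`, `Y = Aᶜ`, so `Sᶜ = Y ∪ W`. `A` is disjoint from `P` (a vertex of `P` has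
a corner of `o ∉ R`). `T` from `S_Cost`, `I = ∅`; `S_ThmT5`:
`9 |S| + ∑ (t ∈ T), (2 - dgI Sᶜ t) < 2 eIn S + 4 eBt S Sᶜ`.  Counting edges:
`2 eIn S + 4 eBt S Sᶜ + 2 eIn W + 4 eBt W Y = 2 eIn A + 4 eBt A Y` (`eIn A = eIn S + eIn W + 2 eBt S W`,
`eBt A Y = eBt S Y + eBt W Y`, `eBt S Sᶜ = eBt S Y + eBt S W`), and `S_DiscCount` for the right side. -/
def S_Val : Prop :=
  ∀ (V : Type) [Fintype V] [DecidableEq V] (G : SimpleGraph V) [DecidableRel G.Adj]
    (M : CMap G.Dart V) (o : Fc M) (L : V → Finset ℕ) (P : Finset V) (g : V → Finset ℕ),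
    MinDisc G M o L P g →
    ∀ (R : Finset (Fc M)) (k : ℕ) (w : ZMod k → V), 3 ≤ k → Bd M R k w → o ∉ R →
    ∀ W U : Finset V, W ⊆ inV M R → (inV M R \ W).Nonempty → BipOn G (inV M R \ W) → U ⊆ W →
      (∀ u ∈ U, ∀ v ∈ U, ¬ G.Adj u v) → (∀ u ∈ U, ∃ v ∈ W, G.Adj u v) →
      (∀ u ∈ U, ∀ v, G.Adj u v → v ∈ inV M R) →
      ((inV M R).card : ℤ) + 2 * (∑ f ∈ R, ((len M f : ℤ) - 4)) + 8 + 2 * (chd M R).card +
        3 * eBt G W (inV M R)ᶜ + U.card < 7 * W.card + 2 * k

end C7
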