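import Pool.Agent.Lib.MP_86b854_co.Interface2

set_option autoImplicit false

/-!
# MP_86b854_co : Theorem T5 in the language of regions, final form
-/

namespace C7

open PLM T72 Finset Equiv

/-- **ValN.** Allowed: `S_Val, S_DiscCount, S_MinDeg`. As `S_Val`, but only the interior of the disc must
be nonempty; `W` may be all of it.
PROOF. If `inV M R \ W` is nonempty: `S_Val`. Otherwise `W = A := inV M R`. Let `n = |A| ≥ 1`, `Y = Aᶜ`.
`S_DiscCount`: `2 λ + 8 + 2 chd = 8 n + 2 k - 2 eIn A - 4 eBt A Y`, so the claim is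
`2 n + |U| < 2 eIn A + eBt A Y`. Degrees (`S_MinDeg`; `A` is disjoint from `P`: a vertex of `P` has a
corner of `o ∉ R`): `3 n ≤ eIn A + eBt A Y`, and `3 |U| ≤ eIn A`, because all neighbours of the vertices
of `U` are in `A`. -/
def S_ValN : Prop :=
  ∀ (V : Type) [Fintype V] [DecidableEq V] (G : SimpleGraph V) [DecidableRel G.Adj]
    (M : CMap G.Dart V) (o : Fc M) (L : V → Finset ℕ) (P : Finset V) (g : V → Finset ℕ),
    MinDisc G M o L P g →
    ∀ (R : Finset (Fc M)) (k : ℕ) (w : ZMod k → V), 3 ≤ k → Bd M R k w → o ∉ R →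
    ∀ W U : Finset V, W ⊆ inV M R → (inV M R).Nonempty → BipOn G (inV M R \ W) → U ⊆ W →
      (∀ u ∈ U, ∀ v ∈ U, ¬ G.Adj u v) → (∀ u ∈ U, ∃ v ∈ W, G.Adj u v) →
      (∀ u ∈ U, ∀ v, G.Adj u v → v ∈ inV M R) →
      ((inV M R).card : ℤ) + 2 * (∑ f ∈ R, ((len M f : ℤ) - 4)) + 8 + 2 * (chd M R).card +
        3 * eBt G W (inV M R)ᶜ + U.card < 7 * W.card + 2 * k

/-- **ValO.** Allowed: `S_ValN, S_MinOuter`. The whole disc: every set `W` of free vertices such that the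
other free vertices induce a bipartite graph.
PROOF. `S_MinOuter`: `R = univ \ {o}`, `k = len M o`, `inV M R = Pᶜ`, `Pᶜ` nonempty; `U` = empty. -/
def S_ValO : Prop :=
  ∀ (V : Type) [Fintype V] [DecidableEq V] (G : SimpleGraph V) [DecidableRel G.Adj]
    (M : CMap G.Dart V) (o : Fc M) (L : V → Finset ℕ) (P : Finset V) (g : V → Finset ℕ),
    MinDisc G M o L P g → ∀ W : Finset V, W ⊆ Pᶜ → BipOn G (Pᶜ \ W) →
      (Pᶜ.card : ℤ) + 2 * (∑ f ∈ univ \ {o}, ((len M f : ℤ) - 4)) + 8 + 3 * eBt G W P <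
        7 * W.card + 2 * len M o

/-- **Seven.** Allowed: `S_ValN`. The inside of a 7-cycle: here `n + 2 λ + 3 e(W, Y) < 7 |W| + 6`.
PROOF. `S_ValN` with `k = 7`, `U` empty. -/
def S_Seven : Prop :=
  ∀ (V : Type) [Fintype V] [DecidableEq V] (G : SimpleGraph V) [DecidableRel G.Adj]
    (M : CMap G.Dart V) (o : Fc M) (L : V → Finset ℕ) (P : Finset V) (g : V → Finset ℕ),
    MinDisc G M o L P g →
    ∀ (R : Finset (Fc M)) (w : ZMod 7 → V), Bd M R 7 w → o ∉ R →
    ∀ W : Finset V, W ⊆ inV M R → (inV M R).Nonempty → BipOn G (inV M R \ W) →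
      ((inV M R).card : ℤ) + 2 * (∑ f ∈ R, ((len M f : ℤ) - 4)) + 3 * eBt G W (inV M R)ᶜ <
        7 * W.card + 6

end C7
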