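import Pool.Agent.Lib.MP_86b854_co.AlgSpec

set_option autoImplicit false

/-!
# MP_86b854_co : loads from Hall's condition
-/

namespace T72

open MvPolynomial Finset

theorem tLoad : S_Load := by
  intro V _ _ H _ κ hκ
  classical
  let ι := {p : V × V // H.Adj p.1 p.2} × Fin 2
  let ends : ι → Finset V := fun y => {y.1.1.1, y.1.1.2}
  let t : ι → Finset (Σ _ : V, ℕ) := fun y => (ends y).sigma fun v => range (κ v)
  have hall : ∀ F : Finset ι, F.card ≤ (F.biUnion t).card := by
    intro F
    set X := F.biUnion ends with hX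
    have h1 : F.biUnion t = X.sigma fun v => range (κ v) := by
      ext ⟨v, s⟩
      simp only [t, X, mem_biUnion, mem_sigma]
      constructor
      · rintro ⟨y, hy, h, h'⟩
        exact ⟨⟨y, hy, h⟩, h'⟩
      · rintro ⟨⟨y, hy, h⟩, h'⟩
        exact ⟨y, hy, h, h'⟩
    rw [h1, Finset.card_sigma]
    simp only [card_range]
    refine le_trans ?_ (hκ X)
    have h2 : F.card ≤
        (((X ×ˢ X).filter fun p => H.Adj p.1 p.2) ×ˢ (univ : Finset (Fin 2))).card := by
      refine Finset.card_le_card_of_injOn (fun y => (y.1.1, y.2)) ?_ ?_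
      · intro y hy
        have hy' : y ∈ F := hy
        have e1 : y.1.1.1 ∈ X := mem_biUnion.2 ⟨y, hy', by simp [ends]⟩
        have e2 : y.1.1.2 ∈ X := mem_biUnion.2 ⟨y, hy', by simp [ends]⟩
        simp only [coe_product, coe_filter, mem_product, Set.mem_prod, Set.mem_ofPred_eq]
        exact ⟨⟨⟨e1, e2⟩, y.1.2⟩, by simp⟩
      · intro y _ y' _ h
        simp only [Prod.mk.injEq] at h
        exact Prod.ext (Subtype.ext h.1) h.2
    rw [card_product, card_univ, Fintype.card_fin] at h2
    unfold eIn
    omega
  obtain ⟨f, hf, hft⟩ := (Finset.all_card_le_biUnion_card_iff_exists_injective t).1 hall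
  have hft' : ∀ y : ι, ((f y).1 = y.1.1.1 ∨ (f y).1 = y.1.1.2) ∧ (f y).2 < κ (f y).1 := by
    intro y
    have h := hft y
    simp only [t, ends, mem_sigma, mem_insert, mem_singleton, mem_range] at h
    exact h
  refine ⟨fun u v => (univ.filter fun y : ι =>
    (y.1.1 = (u, v) ∨ y.1.1 = (v, u)) ∧ (f y).1 = u).card, ?_, ?_⟩
  · intro u v huv
    have hne : u ≠ v := huv.ne
    rw [← card_union_of_disjoint]
    · have h1 : (univ.filter fun y : ι => (y.1.1 = (u, v) ∨ y.1.1 = (v, u)) ∧ (f y).1 = u) ∪
          (univ.filter fun y : ι => (y.1.1 = (v, u) ∨ y.1.1 = (u, v)) ∧ (f y).1 = v) =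
          ({⟨(u, v), huv⟩, ⟨(v, u), huv.symm⟩} : Finset {p : V × V // H.Adj p.1 p.2}) ×ˢ
            (univ : Finset (Fin 2)) := by
        ext y
        have h4 : y ∈ ({⟨(u, v), huv⟩, ⟨(v, u), huv.symm⟩} :
            Finset {p : V × V // H.Adj p.1 p.2}) ×ˢ (univ : Finset (Fin 2)) ↔
            (y.1.1 = (u, v) ∨ y.1.1 = (v, u)) := by
          refine mem_product.trans ?_
          rw [mem_insert, mem_singleton, Subtype.ext_iff, Subtype.ext_iff]
          exact and_iff_left (mem_univ _)
        rw [h4, mem_union, mem_filter, mem_filter]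
        simp only [mem_univ, true_and]
        constructor
        · rintro (⟨h, _⟩ | ⟨h, _⟩)
          · exact h
          · exact h.symm
        · intro h
          have h3 := (hft' y).1
          rcases h with h | h
          · rw [h] at h3
            rcases h3 with h3 | h3
            · exact Or.inl ⟨Or.inl h, h3⟩
            · exact Or.inr ⟨Or.inr h, h3⟩
          · rw [h] at h3
            rcases h3 with h3 | h3
            · exact Or.inr ⟨Or.inl h, h3⟩
            · exact Or.inl ⟨Or.inr h, h3⟩
      rw [h1, card_product, card_univ, Fintype.card_fin, card_pair]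
      intro h
      have h' := congrArg (fun p : {p : V × V // H.Adj p.1 p.2} => p.1.1) h
      exact hne h'
    · rw [disjoint_left]
      intro y hy hy'
      rw [mem_filter] at hy hy'
      exact hne (hy.2.2.symm.trans hy'.2.2)
  · intro v
    rw [← card_biUnion]
    · have h1 : (((univ.filter fun u => H.Adj v u).biUnion fun u => univ.filter fun y : ι =>
          (y.1.1 = (v, u) ∨ y.1.1 = (u, v)) ∧ (f y).1 = v).card) ≤ (range (κ v)).card := by
        refine Finset.card_le_card_of_injOn (fun y => (f y).2) ?_ ?_
        · intro y hy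
          have hy' : y ∈ ((univ.filter fun u => H.Adj v u).biUnion fun u =>
            univ.filter fun y : ι => (y.1.1 = (v, u) ∨ y.1.1 = (u, v)) ∧ (f y).1 = v) := hy
          rw [mem_biUnion] at hy'
          obtain ⟨u, _, hu⟩ := hy'
          have h2 := (hft' y).2
          rw [(mem_filter.1 hu).2.2] at h2
          exact mem_coe.2 (mem_range.2 h2)
        · intro y hy y' hy' h
          have hy1 : y ∈ ((univ.filter fun u => H.Adj v u).biUnion fun u =>
            univ.filter fun y : ι => (y.1.1 = (v, u) ∨ y.1.1 = (u, v)) ∧ (f y).1 = v) := hy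
          have hy2 : y' ∈ ((univ.filter fun u => H.Adj v u).biUnion fun u =>
            univ.filter fun y : ι => (y.1.1 = (v, u) ∨ y.1.1 = (u, v)) ∧ (f y).1 = v) := hy'
          rw [mem_biUnion] at hy1 hy2
          obtain ⟨u, _, hu⟩ := hy1
          obtain ⟨u', _, hu'⟩ := hy2
          apply hf
          refine Sigma.ext ((mem_filter.1 hu).2.2.trans (mem_filter.1 hu').2.2.symm) ?_
          exact heq_of_eq h
      rw [card_range] at h1
      exact h1
    · intro u hu u' hu' hne
      rw [Function.onFun, disjoint_left]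
      intro y hy hy'
      rw [mem_filter] at hy hy'
      have hvu : H.Adj v u := (mem_filter.1 (mem_coe.1 hu)).2
      have hvu' : H.Adj v u' := (mem_filter.1 (mem_coe.1 hu')).2
      rcases hy.2.1 with h | h <;> rcases hy'.2.1 with h' | h' <;> rw [h] at h' <;>
        simp only [Prod.mk.injEq] at h'
      · exact hne h'.2
      · exact hvu'.ne h'.1
      · exact hvu.ne h'.1.symm
      · exact hne h'.1

end T72
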