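import Pool.Agent.Lib.MP_86b854_co.PLAll

set_option autoImplicit false

/-!
# MP_86b854_co : drawings in the usual sense

`PLM.Drawn` copies the hypothesis of the frozen statement, in which `Sym2.mk` is curried, so that
also the arcs of `(u, v)` and `(v, u)` are required to meet only at their ends. `PLM.DrawnStd` is the
usual notion (one condition for every two different edges), which is weaker; the same proof works.
-/

namespace PLM

/-- topological drawings of a graph in the plane, in the usual sense: different vertices are different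
points, the edges are injective arcs between their ends which contain no other vertex, and two
different edges meet at most at their ends -/
def DrawnStd {V : Type} (G : SimpleGraph V) : Prop :=
  ∃ (p : V → ℝ × ℝ) (γ : ∀ u v : V, Path (p u) (p v)),
    Function.Injective p ∧
    (∀ u v : V, G.Adj u v → Function.Injective ⇑(γ u v)) ∧
    (∀ (u v z : V) (a : unitInterval), G.Adj u v → γ u v a = p z → a = 0 ∨ a = 1) ∧
    (∀ (u v w x : V) (a b : unitInterval), G.Adj u v → G.Adj w x →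
      s(u, v) ≠ s(w, x) → γ u v a = γ w x b → a = 0 ∨ a = 1)

open MetricAux in
theorem std_metric (V : Type) [Finite V] (G : SimpleGraph V) (hG : DrawnStd G) :
    ∃ (p : V → ℝ × ℝ) (K : V → V → Set (ℝ × ℝ)) (ε δ : ℝ), 0 < δ ∧ δ ≤ ε ∧
      (∀ v w, v ≠ w → 4 * ε < dist (p v) (p w)) ∧
      (∀ u v, G.Adj u v → IsPreconnected (K u v) ∧ Bornology.IsBounded (K u v) ∧
        (∃ q ∈ K u v, dist q (p u) ≤ ε) ∧ (∃ q ∈ K u v, dist q (p v) ≤ ε) ∧
        ∀ w, w ≠ u → w ≠ v → ∀ q ∈ K u v, 4 * ε < dist q (p w)) ∧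
      (∀ u v w x, G.Adj u v → G.Adj w x → s(u, v) ≠ s(w, x) →
        ∀ q ∈ K u v, ∀ r ∈ K w x, 2 * δ < dist q r) := by
  classical
  obtain ⟨p, γ, hp, hγ1, hγ2, hγ3⟩ := hG
  -- the constant `ε`
  obtain ⟨ε, hε, hε'⟩ := fin_comb
    (ι := V × V × V) (fun i ε => (i.1 ≠ i.2.1 → 4 * ε < dist (p i.1) (p i.2.1)) ∧
      (G.Adj i.1 i.2.1 → i.2.2 ≠ i.1 → i.2.2 ≠ i.2.1 → ∀ t : unitInterval,
        4 * ε < dist (γ i.1 i.2.1 t) (p i.2.2))) (by
    rintro ⟨u, v, w⟩
    have h1 : ∃ e : ℝ, 0 < e ∧ ∀ ε, 0 < ε → ε ≤ e → (u ≠ v → 4 * ε < dist (p u) (p v)) := by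
      by_cases huv : u = v
      · exact ⟨1, one_pos, fun ε _ _ h => absurd huv h⟩
      · have h2 : 0 < dist (p u) (p v) := dist_pos.2 (fun h => huv (hp h))
        exact ⟨dist (p u) (p v) / 8, by positivity, fun ε _ h _ => by linarith⟩
    have h2 : ∃ e : ℝ, 0 < e ∧ ∀ ε, 0 < ε → ε ≤ e → (G.Adj u v → w ≠ u → w ≠ v →
        ∀ t : unitInterval, 4 * ε < dist (γ u v t) (p w)) := by
      by_cases h : G.Adj u v ∧ w ≠ u ∧ w ≠ v
      · obtain ⟨h1, h2, h3⟩ := h
        have hcont : Continuous fun t : unitInterval => dist (γ u v t) (p w) :=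
          (γ u v).continuous.dist continuous_const
        obtain ⟨t₀, -, ht₀⟩ := isCompact_univ.exists_isMinOn Set.univ_nonempty hcont.continuousOn
        have h4 : 0 < dist (γ u v t₀) (p w) := by
          rw [dist_pos]
          intro heq
          rcases hγ2 u v w t₀ h1 heq with h5 | h5
          · rw [h5, Path.source] at heq
            exact h2 (hp heq).symm
          · rw [h5, Path.target] at heq
            exact h3 (hp heq).symm
        refine ⟨dist (γ u v t₀) (p w) / 8, by positivity, fun ε _ h5 _ _ _ t => ?_⟩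
        have h6 : dist (γ u v t₀) (p w) ≤ dist (γ u v t) (p w) := ht₀ (Set.mem_univ t)
        linarith
      · exact ⟨1, one_pos, fun ε _ _ h1 h2 h3 => absurd ⟨h1, h2, h3⟩ h⟩
    obtain ⟨e1, he1, he1'⟩ := h1
    obtain ⟨e2, he2, he2'⟩ := h2
    exact ⟨min e1 e2, lt_min he1 he2, fun ε h3 h4 =>
      ⟨he1' ε h3 (h4.trans (min_le_left _ _)), he2' ε h3 (h4.trans (min_le_right _ _))⟩⟩)
  -- the sets `K u v`
  have hK : ∀ u v : V, ∃ K : Set (ℝ × ℝ), G.Adj u v → IsCompact K ∧ IsPreconnected K ∧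
      (∃ q ∈ K, dist q (p u) ≤ ε) ∧ (∃ q ∈ K, dist q (p v) ≤ ε) ∧
      ∀ q ∈ K, ∃ t : unitInterval, t ≠ 0 ∧ t ≠ 1 ∧ γ u v t = q := by
    intro u v
    have hc := (γ u v).continuous_extend
    obtain ⟨d1, hd1, hd1'⟩ := Metric.continuous_iff.1 hc 0 ε hε
    obtain ⟨d2, hd2, hd2'⟩ := Metric.continuous_iff.1 hc 1 ε hε
    rw [Path.extend_zero] at hd1'
    rw [Path.extend_one] at hd2'
    set a : ℝ := min (1 / 2) (min (d1 / 2) (d2 / 2)) with ha
    have ha0 : 0 < a := lt_min (by norm_num) (lt_min (by positivity) (by positivity))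
    have ha1 : a ≤ 1 / 2 := min_le_left _ _
    have ha2 : a ≤ d1 / 2 := (min_le_right _ _).trans (min_le_left _ _)
    have ha3 : a ≤ d2 / 2 := (min_le_right _ _).trans (min_le_right _ _)
    refine ⟨(γ u v).extend '' Set.Icc a (1 - a), fun _ => ⟨isCompact_Icc.image hc,
      isPreconnected_Icc.image _ hc.continuousOn, ⟨_, ⟨a, ⟨le_refl _, by linarith⟩, rfl⟩, ?_⟩,
      ⟨_, ⟨1 - a, ⟨by linarith, le_refl _⟩, rfl⟩, ?_⟩, ?_⟩⟩
    · refine (hd1' a ?_).le
      rw [Real.dist_eq, sub_zero, abs_of_pos ha0]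
      linarith
    · refine (hd2' (1 - a) ?_).le
      rw [Real.dist_eq]
      have h1 : (1 - a) - 1 = -a := by ring
      rw [h1, abs_neg, abs_of_pos ha0]
      linarith
    · rintro _ ⟨t, ht, rfl⟩
      have ht' : t ∈ Set.Icc (0 : ℝ) 1 := ⟨by linarith [ht.1], by linarith [ht.2]⟩
      refine ⟨⟨t, ht'⟩, ?_, ?_, ((γ u v).extend_apply ht').symm⟩
      · intro h
        have h1 : t = 0 := congrArg Subtype.val h
        linarith [ht.1]
      · intro h
        have h1 : t = 1 := congrArg Subtype.val h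
        linarith [ht.2]
  choose K hK using hK
  -- the constant `δ`
  obtain ⟨δ, hδ, hδ'⟩ := fin_comb
    (ι := Option (V × V × V × V)) (fun i δ => match i with
      | none => δ ≤ ε
      | some (u, v, w, x) => G.Adj u v → G.Adj w x → s(u, v) ≠ s(w, x) →
          ∀ q ∈ K u v, ∀ r ∈ K w x, 2 * δ < dist q r) (by
    rintro (_ | ⟨u, v, w, x⟩)
    · exact ⟨ε, hε, fun δ _ h => h⟩
    · by_cases h : G.Adj u v ∧ G.Adj w x ∧ s(u, v) ≠ s(w, x)
      · obtain ⟨h1, h2, h3⟩ := h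
        obtain ⟨hc1, -, -, -, hk1⟩ := hK u v h1
        obtain ⟨hc2, -, -, -, hk2⟩ := hK w x h2
        obtain ⟨r, hr, hr'⟩ := exists_sep hc1 hc2.isClosed (by
          rw [Set.disjoint_left]
          intro q hq1 hq2
          obtain ⟨t, ht0, ht1, rfl⟩ := hk1 q hq1
          obtain ⟨t', -, -, ht'⟩ := hk2 _ hq2
          rcases hγ3 u v w x t t' h1 h2 h3 ht'.symm with h4 | h4
          · exact ht0 h4
          · exact ht1 h4)
        refine ⟨r / 2, by positivity, fun δ _ h4 _ _ _ q hq s hs => ?_⟩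
        have h5 := hr' q hq s hs
        linarith
      · exact ⟨1, one_pos, fun δ _ _ h1 h2 h3 => absurd ⟨h1, h2, h3⟩ h⟩)
  refine ⟨p, K, ε, δ, hδ, hδ' none, fun v w hvw => (hε' (v, w, v)).1 hvw, ?_, ?_⟩
  · intro u v h
    obtain ⟨hc, hpc, hq1, hq2, hk⟩ := hK u v h
    refine ⟨hpc, hc.isBounded, hq1, hq2, ?_⟩
    intro w hwu hwv q hq
    obtain ⟨t, -, -, rfl⟩ := hk q hq
    exact (hε' (u, v, w)).2 h hwu hwv t
  · intro u v w x h1 h2 h3 q hq r hr
    exact hδ' (some (u, v, w, x)) h1 h2 h3 q hq r hr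

theorem std_gridMinor (hDisc : S_Disc) (hNbhd : S_Nbhd) (hTrim : S_Trim) (V : Type) [Finite V]
    (G : SimpleGraph V) (hG : DrawnStd G) :
    ∃ B : V → Set (ℤ × ℤ), (∀ v, (B v).Nonempty ∧ (B v).Finite ∧ Conn grid.Adj (B v)) ∧
      (∀ v w, v ≠ w → Disjoint (B v) (B w)) ∧
      ∀ u v, G.Adj u v → ∃ x ∈ B u, ∃ y ∈ B v, grid.Adj x y := by
  obtain ⟨p, K, ε, δ, hδ, hδε, hp, hK, hKK⟩ := std_metric V G hG
  have hgr : ∀ x y, grid.Adj x y → grid.Adj y x := fun x y h => h.symm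
  refine hTrim V (ℤ × ℤ) grid.Adj hgr G (fun v => {x | dist (sc δ x) (p v) ≤ ε + δ})
    (fun u v => {x | ∃ q ∈ K u v, dist (sc δ x) q ≤ δ}) ?_ ?_ ?_ ?_
  · intro v
    exact hDisc (p v) (ε + δ) δ hδ (by linarith)
  · intro v w hvw
    rw [Set.disjoint_left]
    intro x hx hx'
    change dist (sc δ x) (p v) ≤ ε + δ at hx
    change dist (sc δ x) (p w) ≤ ε + δ at hx'
    have h1 := dist_triangle_left (p v) (p w) (sc δ x)
    have h2 := hp v w hvw
    linarith
  · intro u v huv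
    obtain ⟨hc, hb, ⟨q, hq, hqu⟩, ⟨r, hr, hrv⟩, hfar⟩ := hK u v huv
    obtain ⟨hf, hcn⟩ := hNbhd (K u v) δ hδ hc hb
    refine ⟨hf, hcn, ?_, ?_, ?_⟩
    · obtain ⟨x, hx⟩ := (hDisc q δ δ hδ le_rfl).1
      change dist (sc δ x) q ≤ δ at hx
      refine ⟨x, ⟨q, hq, hx⟩, ?_⟩
      change dist (sc δ x) (p u) ≤ ε + δ
      have h1 := dist_triangle (sc δ x) q (p u)
      linarith
    · obtain ⟨x, hx⟩ := (hDisc r δ δ hδ le_rfl).1
      change dist (sc δ x) r ≤ δ at hx
      refine ⟨x, ⟨r, hr, hx⟩, ?_⟩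
      change dist (sc δ x) (p v) ≤ ε + δ
      have h1 := dist_triangle (sc δ x) r (p v)
      linarith
    · intro w hwu hwv
      rw [Set.disjoint_left]
      rintro x ⟨s, hs, hxs⟩ hx
      change dist (sc δ x) (p w) ≤ ε + δ at hx
      have h1 := dist_triangle_left s (p w) (sc δ x)
      have h2 := hfar w hwu hwv s hs
      linarith
  · intro u v w x huv hwx hne
    rw [Set.disjoint_left]
    rintro y ⟨q, hq, hyq⟩ ⟨r, hr, hyr⟩
    have h1 := dist_triangle_left q r (sc δ y)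
    have h2 := hKK u v w x huv hwx hne q hq r hr
    linarith

/-- a finite graph with a drawing in the plane in the usual sense has a planar rotation system -/
theorem plane_of_drawnStd (V : Type) [Fintype V] [DecidableEq V] (G : SimpleGraph V)
    [Fintype G.Dart] (hG : DrawnStd G) : ∃ M : CMap G.Dart V, PlaneMap M := by
  obtain ⟨B, hB, hdis, hed⟩ := std_gridMinor (tDisc tBox) (tNbhd (tDisc tBox)) tTrim V G hG
  have hS : (⋃ v, B v).Finite := Set.finite_iUnion fun v => (hB v).2.1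
  obtain ⟨D, _, M, hM, -, hM2⟩ := tGrid tRet (⋃ v, B v) hS
  have hmem : ∀ v, ∀ x ∈ B v, x ∈ ⋃ v, B v := fun v x hx => Set.mem_iUnion.2 ⟨v, hx⟩
  refine aMinor D (ℤ × ℤ) V M G B hM hdis ?_ ?_
  · intro v A hA hAne hcl
    refine (hB v).2.2 A hA hAne ?_
    intro x hx y hy hxy
    exact hcl x hx y hy (hM2 x (hmem v x (hA hx)) y (hmem v y hy) hxy)
  · intro v w hvw
    obtain ⟨x, hx, y, hy, hxy⟩ := hed v w hvw
    obtain ⟨d, hd1, hd2⟩ := hM2 x (hmem v x hx) y (hmem w y hy) hxy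
    exact ⟨d, by rw [hd1]; exact hx, by rw [hd2]; exact hy⟩

end PLM
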