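import Pool.Agent.Lib.MP_86b854_co.DAll
import Pool.Agent.Lib.MP_86b854_co.Std
import Pool.Agent.Lib.MP_86b854_co.Bad.All
import Pool.Agent.Lib.MP_86b854_co.TJ.Use
import Pool.Agent.Lib.MP_86b854_co.Lv.Acc
import Pool.Agent.Lib.MP_86b854_co.Lv.BadRed
import Pool.Agent.Lib.MP_86b854_co.Lv.Child
import Pool.Agent.Lib.MP_86b854_co.Lv.Fam
import Pool.Agent.Lib.MP_86b854_co.Lv.Fin1
import Pool.Agent.Lib.MP_86b854_co.Lv.IncConn
import Pool.Agent.Lib.MP_86b854_co.Lv.JW
import Pool.Agent.Lib.MP_86b854_co.Lv.Kap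
import Pool.Agent.Lib.MP_86b854_co.Lv.LC
import Pool.Agent.Lib.MP_86b854_co.Lv.LenR
import Pool.Agent.Lib.MP_86b854_co.Lv.Loc
import Pool.Agent.Lib.MP_86b854_co.Lv.MkCtx
import Pool.Agent.Lib.MP_86b854_co.Lv.NoMin
import Pool.Agent.Lib.MP_86b854_co.Lv.Oct
import Pool.Agent.Lib.MP_86b854_co.Lv.Odd
import Pool.Agent.Lib.MP_86b854_co.Lv.One
import Pool.Agent.Lib.MP_86b854_co.Lv.Quad5
import Pool.Agent.Lib.MP_86b854_co.Lv.RegU
import Pool.Agent.Lib.MP_86b854_co.Lv.Regs
import Pool.Agent.Lib.MP_86b854_co.Lv.Root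
import Pool.Agent.Lib.MP_86b854_co.Lv.Triv
import Pool.Agent.Lib.MP_86b854_co.Lv.ValD

set_option autoImplicit false

/-!
# (7,2)-choosability of triangle-free planar graphs

* `C7.aNoMin` : there are no minimal counterexamples;
* `C7.choosable` : the theorem for planar rotation systems;
* `C7.choosable_std` : the theorem for graphs with a drawing in the plane;
* `C7.choosable_drawn` : the same with the hypothesis of the frozen statement.
-/

namespace C7

open PLM T72 Finset

theorem aFam : S_Fam := tFam tLC tIncConn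
theorem aChild : S_Child := tChild aFam
theorem aLenR : S_LenR := tLenR aShortBd
theorem aOne : S_One := tOne aShortBd aDiscEuler
theorem aOdd : S_Odd := tOdd aFam aChild aLenR
theorem aRegU : S_RegU := tRegU tEulerSub tRegs
theorem aLoc : S_Loc := tLoc aFam aChild aOdd tTriv aRegU tRegs tKap aLenR aOne aShortBd
theorem aValD : S_ValD := tValD aChild aOdd tTriv aLenR aOne tFaceLen
theorem aAcc : S_Acc := tAcc aFam aLoc aValD
theorem aMkCtx : S_MkCtx := tMkCtx aMinOuter tMinDeg tRoot
theorem aFin1 : S_Fin1 := tFin1 aAcc (tBadRed aFam aChild) aMkCtx aTJuse tIncConn tOct tJW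
theorem aQuad5 : S_Quad5 := tQuad5 aMinOuter tFaceLen
theorem aNoMin : NoMin := tNoMin aFin1 aNoBad aQuad5 aVal aMinOuter tFaceLen

/-- both induction statements: choosability, and the extension of colourings of the vertices of a
face of length at most five -/
theorem closed_ext (n : ℕ) : ClosedN n ∧ ExtN n := by
  induction n with
  | zero =>
    constructor
    · intro V _ _ G _ M hn _ _ L _
      have hE : IsEmpty V := Fintype.card_eq_zero_iff.1 (Nat.le_zero.1 hn)
      exact ⟨fun _ => ∅, fun v _ => hE.elim v, fun v _ => hE.elim v⟩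
    · intro V _ _ G _ M hn _ _ o P _ _ L g _ _
      have hE : IsEmpty V := Fintype.card_eq_zero_iff.1 (Nat.le_zero.1 hn)
      exact ⟨g, fun v _ => rfl, fun v _ => hE.elim v, fun v _ => hE.elim v⟩
  | succ n ih =>
    have hE : ExtN (n + 1) := by
      intro V _ _ G _ M hn hM htri o P ho hP L g hL hg
      by_contra hne
      obtain ⟨h1, h2⟩ := aMinA n ih.1 ih.2 V G M hn hM htri o P ho hP L g hL hg hne
      have h3 := aMinB n ih.2 V G M hn hM htri h2 o P hP L g h1
      exact aNoMin V G M o L P g ⟨hM, h2, htri, hP, ho, hg, h1, h3⟩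
    exact ⟨aClosedStep n ih.1 hE, hE⟩

/-- every triangle-free graph with a planar rotation system is (7,2)-choosable -/
theorem choosable (V : Type) [Fintype V] [DecidableEq V] (G : SimpleGraph V) [DecidableRel G.Adj]
    (M : CMap G.Dart V) (hM : PlaneMap M) (htri : G.CliqueFree 3) (L : V → Finset ℕ)
    (hL : ∀ v, (L v).card = 7) :
    ∃ f : V → Finset ℕ, (∀ v, f v ⊆ L v ∧ (f v).card = 2) ∧
      ∀ u v, G.Adj u v → Disjoint (f u) (f v) := by
  obtain ⟨f, hf⟩ := (closed_ext (Fintype.card V)).1 V G M le_rfl hM htri L hL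
  exact ⟨f, fun v => hf.1 v (mem_univ v), fun u v h => hf.2 u (mem_univ u) v (mem_univ v) h⟩

/-- every triangle-free graph with a drawing in the plane is (7,2)-choosable -/
theorem choosable_std (V : Type) [Fintype V] (G : SimpleGraph V) (htri : G.CliqueFree 3)
    (hG : DrawnStd G) (L : V → Finset ℕ) (hL : ∀ v, (L v).card = 7) :
    ∃ f : V → Finset ℕ, (∀ v, f v ⊆ L v ∧ (f v).card = 2) ∧
      ∀ u v, G.Adj u v → Disjoint (f u) (f v) := by
  classical
  obtain ⟨M, hM⟩ := plane_of_drawnStd V G hG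
  exact choosable V G M hM htri L hL

/-- the form of the frozen statement -/
theorem choosable_drawn (V : Type) [Fintype V] (G : SimpleGraph V) (htri : G.CliqueFree 3)
    (hG : Drawn G) (L : V → Finset ℕ) (hL : ∀ v, (L v).card = 7) :
    ∃ f : V → Finset ℕ, (∀ v, f v ⊆ L v ∧ (f v).card = 2) ∧
      ∀ u v, G.Adj u v → Disjoint (f u) (f v) := by
  classical
  obtain ⟨M, hM⟩ := plane_of_drawn V G hG
  exact choosable V G M hM htri L hL

end C7
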