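import Pool.Agent.Lib.MP_86b854_co.Spec

set_option autoImplicit false

/-!
# MP_86b854_co : a minor of a planar map is planar
-/

namespace PLM

open Equiv

/-- transport of a map along a bijection of the darts, with new labels -/
theorem minor_transport {D₁ D₂ X V : Type} [Fintype D₁] [Fintype D₂] [DecidableEq X] [DecidableEq V]
    (M₁ : CMap D₁ X) (c : D₂ ≃ D₁) (vt₂ : D₂ → V)
    (hvt : ∀ e e', vt₂ e = vt₂ e' ↔ M₁.vt (c e) = M₁.vt (c e')) :
    ∃ M₂ : CMap D₂ V, (∀ e, M₂.vt e = vt₂ e) ∧ (∀ e, c (M₂.α e) = M₁.α (c e)) ∧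
      (M₁.Planar → M₂.Planar) := by
  let σ₂ : Perm D₂ := c.trans (M₁.σ.trans c.symm)
  let α₂ : Perm D₂ := c.trans (M₁.α.trans c.symm)
  have hσ : ∀ e, c (σ₂ e) = M₁.σ (c e) := fun e => by simp [σ₂]
  have hα : ∀ e, c (α₂ e) = M₁.α (c e) := fun e => by simp [α₂]
  have hpow : ∀ (n : ℤ) (e : D₂), c ((σ₂ ^ n) e) = (M₁.σ ^ n) (c e) := by
    have h1 : ∀ n : ℤ, σ₂ ^ n = c.trans ((M₁.σ ^ n).trans c.symm) := by
      intro n
      have h2 : σ₂ = (c.symm.permCongrHom) M₁.σ := by
        ext e; simp [σ₂, Equiv.permCongrHom]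
      rw [h2, ← map_zpow]
      ext e; simp [Equiv.permCongrHom]
    intro n e
    rw [h1]; simp
  refine ⟨⟨σ₂, α₂, fun e => c.injective (by rw [hα, hα, M₁.inv]), fun e he => ?_, vt₂, fun e e' => ?_⟩,
    fun e => rfl, hα, fun hP z hz => ?_⟩
  · exact M₁.fpf (c e) (by rw [← hα, he])
  · rw [hvt, M₁.hv]
    constructor
    · rintro ⟨n, hn⟩
      exact ⟨n, c.injective (by rw [hpow, hn])⟩
    · rintro ⟨n, hn⟩
      exact ⟨n, by rw [← hpow, hn]⟩
  · obtain ⟨h, h1, h2⟩ := hP (fun y => z (c.symm y)) ⟨fun y => by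
      have h3 := hz.1 (c.symm y)
      have h4 : α₂ (c.symm y) = c.symm (M₁.α y) := c.injective (by rw [hα]; simp)
      change z (α₂ (c.symm y)) = _ at h3
      rw [h4] at h3
      exact h3, fun x => by
      rw [← Equiv.sum_comp c]
      by_cases hx : ∃ e, M₁.vt (c e) = x
      · obtain ⟨e₀, he₀⟩ := hx
        have h3 := hz.2 (vt₂ e₀)
        refine Eq.trans (Finset.sum_congr rfl fun e _ => ?_) h3
        change (if M₁.vt (c e) = x then z (c.symm (c e)) else 0) = if vt₂ e = vt₂ e₀ then z e else 0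
        rw [Equiv.symm_apply_apply]
        by_cases h4 : M₁.vt (c e) = x
        · rw [if_pos h4, if_pos ((hvt e e₀).2 (h4.trans he₀.symm))]
        · rw [if_neg h4, if_neg fun h5 => h4 (((hvt e e₀).1 h5).trans he₀)]
      · refine Finset.sum_eq_zero fun e _ => ?_
        rw [if_neg fun h4 => hx ⟨e, h4⟩]⟩
    refine ⟨fun e => h (c e), fun e => ?_, fun e => ?_⟩
    · change h (c (σ₂ (α₂ e))) = _
      rw [hσ, hα]
      exact h1 (c e)
    · have h3 := h2 (c e)
      simp only [Equiv.symm_apply_apply] at h3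
      change z e = h (c e) + h (c (α₂ e))
      rw [h3, hα]

/-- case (b): all the edges inside of the branch sets are loops -/
theorem minor_base (hSub : S_Sub) {D X V : Type} [Fintype D] [DecidableEq X] [Fintype V]
    [DecidableEq V] (M : CMap D X) (G : SimpleGraph V) [Fintype G.Dart] (B : V → Set X)
    (hP : M.Planar) (hdis : ∀ v w, v ≠ w → Disjoint (B v) (B w)) (hconn : ∀ v, Conn M.Adj (B v))
    (hadj : ∀ v w, G.Adj v w → ∃ d, M.vt d ∈ B v ∧ M.vt (M.α d) ∈ B w)
    (hloop : ∀ v d, M.vt d ∈ B v → M.vt (M.α d) ∈ B v → M.vt d = M.vt (M.α d)) :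
    ∃ M' : CMap G.Dart V, PlaneMap M' := by
  classical
  have hone : ∀ v x y, x ∈ B v → y ∈ B v → x = y := by
    intro v x y hx hy
    have h1 := hconn v {x} (Set.singleton_subset_iff.2 hx) ⟨x, rfl⟩ (by
      rintro a ha b hb ⟨e, he1, he2⟩
      rw [Set.mem_singleton_iff] at ha
      subst ha
      rw [Set.mem_singleton_iff, ← he1, ← he2]
      exact (hloop v e (he1 ▸ hx) (he2 ▸ hb)).symm)
    rw [← h1] at hy
    exact hy.symm
  have huniq : ∀ v w x, x ∈ B v → x ∈ B w → v = w := by
    intro v w x hv hw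
    by_contra h
    exact Set.disjoint_left.1 (hdis v w h) hv hw
  choose c₀ hc1 hc2 using fun e : G.Dart => hadj e.fst e.snd e.adj
  let f : V ≃ Fin (Fintype.card V) := Fintype.equivFin V
  let c : G.Dart → D := fun e => if f e.fst < f e.snd then c₀ e else M.α (c₀ e.symm)
  have hcf : ∀ e, M.vt (c e) ∈ B e.fst := by
    intro e
    by_cases h : f e.fst < f e.snd
    · simp only [c, if_pos h]
      exact hc1 e
    · simp only [c, if_neg h]
      exact hc2 e.symm
  have hcs : ∀ e : G.Dart, M.α (c e) = c e.symm := by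
    intro e
    have hne : f e.fst ≠ f e.snd := fun h => e.adj.ne (f.injective h)
    rcases lt_or_gt_of_ne hne with h | h
    · have h' : ¬ f e.symm.fst < f e.symm.snd := not_lt.2 h.le
      simp only [c, if_pos h, if_neg h', SimpleGraph.Dart.symm_symm]
    · have h' : f e.symm.fst < f e.symm.snd := h
      have h'' : ¬ f e.fst < f e.snd := not_lt.2 h.le
      simp only [c, if_neg h'', if_pos h', M.inv]
  have hcinj : Function.Injective c := by
    intro e e' h
    have h1 : e.fst = e'.fst := huniq _ _ _ (hcf e) (h ▸ hcf e')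
    have h2 : e.snd = e'.snd := by
      have h3 : c e.symm = c e'.symm := by rw [← hcs, ← hcs, h]
      exact huniq _ _ _ (hcf e.symm) (h3 ▸ hcf e'.symm)
    exact SimpleGraph.Dart.ext _ _ (Prod.ext h1 h2)
  obtain ⟨M₁, h1, h2, -, h4⟩ := hSub D X M (Set.range c) (by
    rintro _ ⟨e, rfl⟩
    exact ⟨e.symm, (hcs e).symm⟩)
  obtain ⟨M₂, g1, g2, g3⟩ := minor_transport M₁ (Equiv.ofInjective c hcinj)
    (fun e : G.Dart => e.fst) (fun e e' => by
      rw [h2, h2]
      simp only [Equiv.ofInjective_apply]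
      constructor
      · intro h
        exact hone e.fst _ _ (hcf e) (h ▸ hcf e')
      · intro h
        exact huniq _ _ _ (hcf e) (h ▸ hcf e'))
  refine ⟨M₂, g1, fun e => (Equiv.ofInjective c hcinj).injective ?_, g3 (h4 hP)⟩
  rw [g2]
  apply Subtype.ext
  rw [h1]
  simp only [Equiv.ofInjective_apply]
  exact hcs e

theorem tMinor (hSub : S_Sub) (hCon : S_Con) : S_Minor := by
  classical
  suffices H : ∀ (n : ℕ) (X V : Type) [DecidableEq X] [Fintype V] [DecidableEq V]
      (G : SimpleGraph V) [Fintype G.Dart] (D : Type) [Fintype D], Fintype.card D = n →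
      ∀ (M : CMap D X) (B : V → Set X), M.Planar →
      (∀ v w, v ≠ w → Disjoint (B v) (B w)) → (∀ v, Conn M.Adj (B v)) →
      (∀ v w, G.Adj v w → ∃ d, M.vt d ∈ B v ∧ M.vt (M.α d) ∈ B w) →
      ∃ M' : CMap G.Dart V, PlaneMap M' by
    intro D X V _ _ _ _ M G _ B hP h1 h2 h3
    exact H _ X V G D rfl M B hP h1 h2 h3
  intro n
  induction n using Nat.strong_induction_on with
  | _ n ih =>
    intro X V _ _ _ G _ D _ hn M B hP hdis hconn hadj
    have huniq : ∀ v w x, x ∈ B v → x ∈ B w → v = w := by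
      intro v w x hv hw
      by_contra h
      exact Set.disjoint_left.1 (hdis v w h) hv hw
    by_cases hl : ∀ v d, M.vt d ∈ B v → M.vt (M.α d) ∈ B v → M.vt d = M.vt (M.α d)
    · exact minor_base hSub M G B hP hdis hconn hadj hl
    push Not at hl
    obtain ⟨v, d, hdx, hdy, hne⟩ := hl
    obtain ⟨M', hα, hvt, hpl⟩ := hCon D X M d hne
    set x := M.vt d with hx
    set y := M.vt (M.α d) with hy
    let r : X → X := fun a => if a = y then x else a
    have hr1 : r y = x := if_pos rfl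
    have hr2 : ∀ a, a ≠ y → r a = a := fun a ha => if_neg ha
    have hry : ∀ a, r a ≠ y := by
      intro a
      by_cases h : a = y
      · rw [h, hr1]; exact hne
      · rw [hr2 a h]; exact h
    have hrB : ∀ w a, a ∈ B w → r a ∈ B w := by
      intro w a ha
      by_cases h : a = y
      · rw [h, hr1]
        rw [h] at ha
        rw [huniq w v y ha hdy]
        exact hdx
      · rw [hr2 a h]; exact ha
    have hvt' : ∀ (e : D) (he : e ≠ d ∧ e ≠ M.α d), M'.vt ⟨e, he⟩ = r (M.vt e) := fun e he => hvt _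
    have hvtα : ∀ (e : D) (he : e ≠ d ∧ e ≠ M.α d), M'.vt (M'.α ⟨e, he⟩) = r (M.vt (M.α e)) := by
      intro e he
      rw [hvt, hα]
    have hcard : Fintype.card {e : D // e ≠ d ∧ e ≠ M.α d} < n := by
      rw [← hn]
      exact Fintype.card_subtype_lt (x := d) (fun h => h.1 rfl)
    refine ih _ hcard X V G _ rfl M' (fun w => B w \ {y}) (hpl hP) (fun w w' hw =>
      (hdis w w' hw).mono Set.diff_subset Set.diff_subset) (fun w => ?_) (fun w w' hw => ?_)
    · intro A hA hA0 hcl
      have hplus := hconn w {a | a ∈ B w ∧ r a ∈ A} (fun a ha => ha.1) (by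
        obtain ⟨a, ha⟩ := hA0
        exact ⟨a, (hA ha).1, by rw [hr2 a (hA ha).2]; exact ha⟩) (by
        rintro a ⟨ha, hra⟩ b hb ⟨e, he1, he2⟩
        refine ⟨hb, ?_⟩
        by_cases h1 : e = d
        · subst h1
          have h2 : b = y := he2.symm
          have h3 : a = x := he1.symm
          rw [h2, hr1]
          rwa [h3, hr2 x hne] at hra
        by_cases h2 : e = M.α d
        · subst h2
          have h3 : a = y := he1.symm
          have h4 : b = x := by rw [← he2, M.inv]
          rw [h4, hr2 x hne]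
          rwa [h3, hr1] at hra
        exact hcl (r a) hra (r b) ⟨hrB w b hb, hry b⟩
          ⟨⟨e, h1, h2⟩, by rw [hvt', he1], by rw [hvtα, he2]⟩)
      refine Set.Subset.antisymm hA fun b hb => ?_
      have h1 : b ∈ {a | a ∈ B w ∧ r a ∈ A} := by rw [hplus]; exact hb.1
      have h2 := h1.2
      rwa [hr2 b hb.2] at h2
    · obtain ⟨e, he1, he2⟩ := hadj w w' hw
      have h1 : e ≠ d := by
        rintro rfl
        exact hw.ne ((huniq w v _ he1 hdx).trans (huniq w' v _ he2 hdy).symm)
      have h2 : e ≠ M.α d := by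
        rintro rfl
        rw [M.inv] at he2
        exact hw.ne ((huniq w v _ he1 hdy).trans (huniq w' v _ he2 hdx).symm)
      refine ⟨⟨e, h1, h2⟩, ⟨?_, ?_⟩, ⟨?_, ?_⟩⟩
      · rw [hvt']; exact hrB _ _ he1
      · rw [hvt']; exact hry _
      · rw [hvtα]; exact hrB _ _ he2
      · rw [hvtα]; exact hry _

end PLM
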