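import Pool.Agent.Lib.MP_86b854_co.Spec

/-!
# MP_86b854_co, planarity layer: the grid points near a connected set
-/

set_option autoImplicit false

namespace PLM

theorem tNbhd (hDisc : S_Disc) : S_Nbhd := by
  intro K δ hδ hK hb
  have hfin : {x : ℤ × ℤ | ∃ q ∈ K, dist (sc δ x) q ≤ δ}.Finite := by
    obtain ⟨R, hR⟩ := hb.subset_closedBall (0 : ℝ × ℝ)
    refine (hDisc 0 (|R| + δ) δ hδ (by linarith [abs_nonneg R])).2.1.subset ?_
    rintro x ⟨q, hq, hx⟩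
    have h1 : dist q 0 ≤ R := hR hq
    have h2 := dist_triangle (sc δ x) q 0
    change dist (sc δ x) 0 ≤ |R| + δ
    linarith [le_abs_self R]
  refine ⟨hfin, ?_⟩
  intro A hA hAne hcl
  -- the points near `q` are all in `A` or all outside
  have hq : ∀ q ∈ K, ∀ a ∈ A, dist (sc δ a) q ≤ δ → ∀ b : ℤ × ℤ, dist (sc δ b) q ≤ δ → b ∈ A := by
    intro q hq a ha haq b hb'
    have h1 := (hDisc q δ δ hδ le_rfl).2.2 ({x : ℤ × ℤ | dist (sc δ x) q ≤ δ} ∩ A)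
      Set.inter_subset_left ⟨a, haq, ha⟩ (by
        rintro x ⟨-, hx2⟩ y hy hxy
        exact ⟨hy, hcl x hx2 y ⟨q, hq, hy⟩ hxy⟩)
    have h2 : b ∈ {x : ℤ × ℤ | dist (sc δ x) q ≤ δ} ∩ A := by
      rw [h1]
      exact hb'
    exact h2.2
  apply Set.Subset.antisymm hA
  by_contra hcon
  obtain ⟨b, hb1, hb2⟩ := Set.not_subset.1 hcon
  have hfA : A.Finite := hfin.subset hA
  have hfB : ({x : ℤ × ℤ | ∃ q ∈ K, dist (sc δ x) q ≤ δ} \ A).Finite := hfin.subset Set.sdiff_subset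
  have hc1 : IsClosed (⋃ a ∈ A, Metric.closedBall (sc δ a) δ) :=
    hfA.isClosed_biUnion fun a _ => Metric.isClosed_closedBall
  have hc2 : IsClosed (⋃ a ∈ {x : ℤ × ℤ | ∃ q ∈ K, dist (sc δ x) q ≤ δ} \ A,
      Metric.closedBall (sc δ a) δ) :=
    hfB.isClosed_biUnion fun a _ => Metric.isClosed_closedBall
  have hcov : K ⊆ (⋃ a ∈ A, Metric.closedBall (sc δ a) δ) ∪
      (⋃ a ∈ {x : ℤ × ℤ | ∃ q ∈ K, dist (sc δ x) q ≤ δ} \ A, Metric.closedBall (sc δ a) δ) := by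
    intro q hqK
    obtain ⟨x, hx⟩ := (hDisc q δ δ hδ le_rfl).1
    have hx' : q ∈ Metric.closedBall (sc δ x) δ := by
      rw [Metric.mem_closedBall, dist_comm]
      exact hx
    by_cases hxA : x ∈ A
    · exact Or.inl (Set.mem_biUnion hxA hx')
    · exact Or.inr (Set.mem_biUnion (show x ∈ {x : ℤ × ℤ | ∃ q ∈ K, dist (sc δ x) q ≤ δ} \ A from
        ⟨⟨q, hqK, hx⟩, hxA⟩) hx')
  have hne : ∀ (B : Set (ℤ × ℤ)) (b : ℤ × ℤ), b ∈ B →
      b ∈ {x : ℤ × ℤ | ∃ q ∈ K, dist (sc δ x) q ≤ δ} →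
      (K ∩ ⋃ a ∈ B, Metric.closedBall (sc δ a) δ).Nonempty := by
    rintro B b hb ⟨q, hqK, hqb⟩
    refine ⟨q, hqK, Set.mem_biUnion hb ?_⟩
    rw [Metric.mem_closedBall, dist_comm]
    exact hqb
  obtain ⟨a, ha⟩ := hAne
  obtain ⟨q, hqK, hq1, hq2⟩ := isPreconnected_closed_iff.1 hK _ _ hc1 hc2 hcov
    (hne A a ha (hA ha)) (hne _ b ⟨hb1, hb2⟩ hb1)
  obtain ⟨c, hc, hcq⟩ := Set.mem_iUnion₂.1 hq1
  obtain ⟨d, hd, hdq⟩ := Set.mem_iUnion₂.1 hq2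
  rw [Metric.mem_closedBall, dist_comm] at hcq hdq
  exact hd.2 (hq q hqK c hc hcq d hdq)

end PLM
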