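import Pool.Agent.Lib.MP_86b854_co.Spec

set_option autoImplicit false

/-!
# First return permutations
-/

namespace PLM

open Equiv

namespace RetAux

variable {D : Type}

/-- `y` is the first point of `P` on the way from `x` -/
def Fr (σ : Perm D) (P : Set D) (x y : D) : Prop :=
  ∃ n : ℕ, y = (σ ^ (n + 1)) x ∧ ∀ m < n, (σ ^ (m + 1)) x ∉ P

theorem fr_unique {σ : Perm D} {P : Set D} {x y y' : D} (hy : y ∈ P) (hy' : y' ∈ P)
    (h : Fr σ P x y) (h' : Fr σ P x y') : y = y' := by
  obtain ⟨n, rfl, h2⟩ := h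
  obtain ⟨n', rfl, h2'⟩ := h'
  rcases lt_trichotomy n n' with h3 | h3 | h3
  · exact absurd hy (h2' n h3)
  · rw [h3]
  · exact absurd hy' (h2 n' h3)

theorem fr_exists {σ : Perm D} {N : ℕ} (hN : 0 < N) (hσ : σ ^ N = 1) {P : Set D} {x : D}
    (hx : x ∈ P) : ∃ y ∈ P, Fr σ P x y := by
  classical
  have hex : ∃ n : ℕ, (σ ^ (n + 1)) x ∈ P := by
    refine ⟨N - 1, ?_⟩
    rw [Nat.sub_add_cancel hN, hσ]
    exact hx
  exact ⟨_, Nat.find_spec hex, Nat.find hex, rfl, fun m hm => Nat.find_min hex hm⟩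

theorem fr_symm {σ : Perm D} {P : Set D} {x y : D} (h : Fr σ P x y) : Fr σ⁻¹ P y x := by
  obtain ⟨n, rfl, h2⟩ := h
  refine ⟨n, ?_, ?_⟩
  · rw [inv_pow]
    exact (Equiv.symm_apply_apply (σ ^ (n + 1)) x).symm
  · intro m hm
    have h3 : (σ⁻¹ ^ (m + 1)) ((σ ^ (n + 1)) x) = (σ ^ (n - m - 1 + 1)) x := by
      have h4 : n + 1 = (m + 1) + (n - m - 1 + 1) := by omega
      have h5 : (σ ^ (n + 1)) x = (σ ^ (m + 1)) ((σ ^ (n - m - 1 + 1)) x) := by
        rw [h4, pow_add, Perm.mul_apply]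
      rw [h5, inv_pow]
      exact Equiv.symm_apply_apply (σ ^ (m + 1)) _
    rw [h3]
    exact h2 _ (by omega)

end RetAux

open RetAux in
theorem tRet : S_Ret := by
  intro D σ N hN hσ P
  have hσ' : σ⁻¹ ^ N = 1 := by rw [inv_pow, hσ, inv_one]
  choose f hfP hf using fun x : P => fr_exists hN hσ x.2
  choose g hgP hg using fun x : P => fr_exists hN hσ' x.2
  let τ : Perm P :=
    { toFun := fun x => ⟨f x, hfP x⟩
      invFun := fun x => ⟨g x, hgP x⟩
      left_inv := fun x => Subtype.ext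
        (fr_unique (hgP ⟨f x, hfP x⟩) x.2 (hg ⟨f x, hfP x⟩) (fr_symm (hf x)))
      right_inv := fun x => Subtype.ext
        (fr_unique (hfP ⟨g x, hgP x⟩) x.2 (hf ⟨g x, hgP x⟩) (by
          have h1 := fr_symm (hg x)
          rwa [inv_inv] at h1)) }
  have hτ : ∀ x : P, Fr σ P x (τ x) := hf
  refine ⟨τ, hf, fun x y => ⟨fun h => ?_, fun h => ?_⟩⟩
  · have h1 : ∀ z : P, (σ.SameCycle (x : D) ((τ z : P) : D)) = σ.SameCycle (x : D) (z : D) := by
      intro z
      obtain ⟨n, hn, -⟩ := hτ z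
      rw [hn]
      exact propext Perm.sameCycle_pow_right
    have h2 := PanD.eq_of_sameCycle (f := fun z : P => σ.SameCycle (x : D) (z : D)) h1 h
    exact h2 ▸ Perm.SameCycle.refl σ (x : D)
  · have key : ∀ k : ℕ, ∀ x y : P, (σ ^ k) (x : D) = y → τ.SameCycle x y := by
      intro k
      induction k using Nat.strong_induction_on with
      | _ k ih =>
        intro x y hxy
        rcases Nat.eq_zero_or_pos k with rfl | hk
        · have h1 : x = y := Subtype.ext hxy
          rw [h1]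
        · obtain ⟨n, hn, hmin⟩ := hτ x
          have h1 : n + 1 ≤ k := by
            by_contra hcon
            refine hmin (k - 1) (by omega) ?_
            rw [Nat.sub_add_cancel hk, hxy]
            exact y.2
          have h2 : (σ ^ (k - (n + 1))) ((τ x : P) : D) = y := by
            rw [hn, ← Perm.mul_apply, ← pow_add, Nat.sub_add_cancel h1, hxy]
          exact Perm.sameCycle_apply_left.mp (ih _ (by omega) (τ x) y h2)
    obtain ⟨i, hi⟩ := h
    obtain ⟨k, hk⟩ := Int.eq_ofNat_of_zero_le (Int.emod_nonneg i (by omega : (N : ℤ) ≠ 0))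
    have h1 : σ ^ i = σ ^ k := by
      have h2 : (N : ℤ) * (i / N) + k = i := by
        rw [← hk]
        exact Int.mul_ediv_add_emod i N
      rw [← h2, zpow_add, zpow_mul, zpow_natCast, hσ, one_zpow, one_mul, zpow_natCast]
    rw [h1] at hi
    exact key k x y hi

end PLM
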