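import Pool.Agent.Lib.MP_86b854_co.Spec

set_option autoImplicit false

/-!
# Deletion of edges
-/

namespace PLM

open Equiv

namespace SubAux

theorem sum_ext {D : Type} [Fintype D] (P : Set D) [Fintype P] (f : D → ZMod 2)
    (h0 : ∀ d, d ∉ P → f d = 0) : ∑ d, f d = ∑ y : P, f (y : D) := by
  classical
  symm
  rw [← Finset.sum_subset (Finset.subset_univ (Finset.univ.map (Function.Embedding.subtype
    (fun x => x ∈ P)))), Finset.sum_map]
  · rfl
  · intro x _ hx
    apply h0
    intro hP
    exact hx (Finset.mem_map.mpr ⟨⟨x, hP⟩, Finset.mem_univ _, rfl⟩)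

theorem zmod_eq {a b : ZMod 2} (h : 0 = a + b) : a = b := by
  revert h
  revert a b
  decide

end SubAux

open SubAux in
theorem tSub (hRet : S_Ret) : S_Sub := by
  intro D X _ _ M P _ hα
  classical
  obtain ⟨τ, hτ, hcyc⟩ := hRet D M.σ (orderOf M.σ) (orderOf_pos M.σ) (pow_orderOf_eq_one M.σ) P
  let α' : Perm P :=
    { toFun := fun x => ⟨M.α x, hα x x.2⟩
      invFun := fun x => ⟨M.α x, hα x x.2⟩
      left_inv := fun x => Subtype.ext (M.inv x)
      right_inv := fun x => Subtype.ext (M.inv x) }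
  let M' : CMap P X :=
    { σ := τ
      α := α'
      inv := fun x => Subtype.ext (M.inv x)
      fpf := fun x h => M.fpf x (congrArg Subtype.val h)
      vt := fun x => M.vt x
      hv := fun x y => (M.hv x y).trans (hcyc x y).symm }
  refine ⟨M', fun _ => rfl, fun _ => rfl, hτ, ?_⟩
  intro hM z' hz'
  have hPα : ∀ d, M.α d ∈ P ↔ d ∈ P := fun d => ⟨fun h => by
    have h1 := hα _ h
    rwa [M.inv] at h1, hα d⟩
  let z : D → ZMod 2 := fun d => if h : d ∈ P then z' ⟨d, h⟩ else 0
  have hz0 : ∀ d, d ∉ P → z d = 0 := fun d h => dif_neg h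
  have hz1 : ∀ y : P, z y = z' y := fun y => dif_pos y.2
  have hzc : M.Cyc z := by
    constructor
    · intro d
      by_cases h : d ∈ P
      · have h1 := hz'.1 ⟨d, h⟩
        have h2 := hz1 ⟨d, h⟩
        have h3 := hz1 ⟨M.α d, hα d h⟩
        change z (M.α d) = z d
        exact h3.trans (h1.trans h2.symm)
      · rw [hz0 d h, hz0 _ (fun h' => h ((hPα d).mp h'))]
    · intro x
      rw [sum_ext P _ (fun d hd => by rw [hz0 d hd, ite_self])]
      refine Eq.trans ?_ (hz'.2 x)
      refine Finset.sum_congr rfl fun y _ => ?_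
      rw [hz1]
  obtain ⟨h, h1, h2⟩ := hM z hzc
  have hdel : ∀ w, w ∉ P → h (M.σ w) = h w := by
    intro w hw
    have h3 := h2 w
    rw [hz0 w hw] at h3
    have h4 := h1 (M.α w)
    rw [M.φ_apply, M.inv] at h4
    rw [h4]
    exact (zmod_eq h3).symm
  refine ⟨fun y => h y, ?_, ?_⟩
  · intro y
    obtain ⟨n, hn, hmin⟩ := hτ (α' y)
    have h3 : ∀ m, m ≤ n → h ((M.σ ^ (m + 1)) (M.α y)) = h y := by
      intro m
      induction m with
      | zero =>
        intro _
        rw [zero_add, pow_one]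
        exact h1 y
      | succ m ih =>
        intro hm
        have h4 : (M.σ ^ (m + 1)) (M.α y) ∉ P := hmin m (by omega)
        rw [pow_succ', Perm.mul_apply, hdel _ h4, ih (by omega)]
    change h ((τ (α' y) : P) : D) = h y
    rw [hn]
    exact h3 n le_rfl
  · intro y
    rw [← hz1 y]
    exact h2 y

end PLM
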