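import Pool.Agent.Lib.MP_86b854_co.Spec

set_option autoImplicit false

/-!
# MP_86b854_co: Trim, a minor model from discs and connected sets along the edges
-/

namespace PLM

namespace TrimAux

variable {V X : Type}

/-- the part of `N` which is reached from `P` outside of `Q` -/
def T (R : X → X → Prop) (N P Q : Set X) : Set X :=
  {y | ∀ A : Set X, N ∩ P ⊆ A → (∀ x ∈ A, ∀ z ∈ N \ Q, R x z → z ∈ A) → y ∈ A}

theorem base_sub (R : X → X → Prop) (N P Q : Set X) : N ∩ P ⊆ T R N P Q :=
  fun _ hx _ h1 _ => h1 hx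

theorem closed (R : X → X → Prop) (N P Q : Set X) :
    ∀ x ∈ T R N P Q, ∀ z ∈ N \ Q, R x z → z ∈ T R N P Q :=
  fun x hx z hz hxz A h1 h2 => h2 x (hx A h1 h2) z hz hxz

theorem sub (R : X → X → Prop) {N P Q : Set X} (h : Disjoint P Q) : T R N P Q ⊆ N \ Q := by
  intro y hy
  refine hy (N \ Q) ?_ (fun x _ z hz _ => hz)
  intro x hx
  exact ⟨hx.1, fun hq => Set.disjoint_left.1 h hx.2 hq⟩

end TrimAux

open TrimAux in
theorem tTrim : S_Trim := by
  classical
  intro V X _ R hR G B N hB hBd hN hNd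
  let lt : V → V → Prop := WellOrderingRel
  have htri : ∀ u v, u ≠ v → lt u v ∨ lt v u := by
    intro u v huv
    rcases trichotomous_of (WellOrderingRel (α := V)) u v with h | h | h
    · exact Or.inl h
    · exact absurd h huv
    · exact Or.inr h
  have hasy : ∀ u v, lt u v → ¬ lt v u := fun u v h => asymm_of (WellOrderingRel (α := V)) h
  have hdj : ∀ u v, G.Adj u v → Disjoint (B u) (B v) := fun u v h => hBd u v h.ne
  let Tt : V → V → Set X := fun u b => T R (N u b) (B u) (B b)
  let B' : V → Set X := fun u => B u ∪ ⋃ b, ⋃ (_ : G.Adj u b ∧ lt u b), Tt u b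
  have hmem : ∀ u x, x ∈ B' u ↔ x ∈ B u ∨ ∃ b, (G.Adj u b ∧ lt u b) ∧ x ∈ Tt u b := by
    intro u x
    change x ∈ B u ∪ ⋃ b, ⋃ (_ : G.Adj u b ∧ lt u b), Tt u b ↔ _
    rw [Set.mem_union]
    simp only [Set.mem_iUnion, exists_prop]
  have hTsub : ∀ u b, G.Adj u b → Tt u b ⊆ N u b \ B b := fun u b h => sub R (hdj u b h)
  have hTB : ∀ u b, G.Adj u b ∧ lt u b → Tt u b ⊆ B' u :=
    fun u b h x hx => (hmem u x).2 (Or.inr ⟨b, h, hx⟩)
  -- a chosen point `T u b` is disjoint from the discs of other vertices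
  have hTd : ∀ u b w, G.Adj u b → w ≠ u → ∀ x ∈ Tt u b, x ∉ B w := by
    intro u b w h hwu x hx hxw
    by_cases hwb : w = b
    · subst hwb
      exact (hTsub u w h hx).2 hxw
    · exact Set.disjoint_left.1 ((hN u b h).2.2.2.2 w hwu hwb) (hTsub u b h hx).1 hxw
  have hedge : ∀ u v, G.Adj u v → lt u v → ∃ x ∈ B' u, ∃ y ∈ B' v, R x y := by
    intro u v h hlt
    by_contra hcon
    push Not at hcon
    obtain ⟨-, hN2, hN3, hN4, -⟩ := hN u v h
    have h1 : Tt u v = N u v := by
      refine hN2 (Tt u v) (fun x hx => (hTsub u v h hx).1) (hN3.mono (base_sub R _ _ _)) ?_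
      intro x hx y hy hxy
      refine closed R _ _ _ x hx y ⟨hy, fun hyB => ?_⟩ hxy
      exact hcon x (hTB u v ⟨h, hlt⟩ hx) y ((hmem v y).2 (Or.inl hyB)) hxy
    obtain ⟨y, hy1, hy2⟩ := hN4
    rw [← h1] at hy1
    exact (hTsub u v h hy1).2 hy2
  refine ⟨B', ?_, ?_, ?_⟩
  · intro u
    obtain ⟨hB1, hB2, hB3⟩ := hB u
    refine ⟨?_, ?_, ?_⟩
    · exact hB1.mono fun x hx => (hmem u x).2 (Or.inl hx)
    · refine hB2.union (Set.finite_iUnion fun b => Set.finite_iUnion fun h => ?_)
      exact (hN u b h.1).1.subset fun x hx => (hTsub u b h.1 hx).1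
    · intro A hA hAne hAcl
      -- `A` meets `B u`
      have h1 : (A ∩ B u).Nonempty := by
        by_contra hcon
        rw [Set.not_nonempty_iff_eq_empty] at hcon
        have hcon' : ∀ x ∈ A, x ∉ B u := fun x hx hxB => by
          have : x ∈ A ∩ B u := ⟨hx, hxB⟩
          rw [hcon] at this
          exact this
        obtain ⟨x, hx⟩ := hAne
        rcases (hmem u x).1 (hA hx) with hxB | ⟨b, hb, hxT⟩
        · exact hcon' x hx hxB
        · have h2 := hxT (Tt u b \ A) ?_ ?_
          · exact h2.2 hx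
          · intro y hy
            exact ⟨base_sub R _ _ _ hy, fun hyA => hcon' y hyA hy.2⟩
          · intro y hy z hz hyz
            refine ⟨closed R _ _ _ y hy.1 z hz hyz, fun hzA => ?_⟩
            exact hy.2 (hAcl z hzA y (hTB u b hb hy.1) (hR y z hyz))
      have h2 : A ∩ B u = B u := by
        refine hB3 _ Set.inter_subset_right h1 ?_
        intro x hx y hy hxy
        exact ⟨hAcl x hx.1 y ((hmem u y).2 (Or.inl hy)) hxy, hy⟩
      have h3 : B u ⊆ A := Set.inter_eq_right.1 h2
      apply Set.Subset.antisymm hA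
      intro x hx
      rcases (hmem u x).1 hx with hxB | ⟨b, hb, hxT⟩
      · exact h3 hxB
      · have h4 := hxT (Tt u b ∩ A) ?_ ?_
        · exact h4.2
        · intro y hy
          exact ⟨base_sub R _ _ _ hy, h3 hy.2⟩
        · intro y hy z hz hyz
          have h5 := closed R _ _ _ y hy.1 z hz hyz
          exact ⟨h5, hAcl y hy.2 z (hTB u b hb h5) hyz⟩
  · intro v w hvw
    rw [Set.disjoint_left]
    intro x hxv hxw
    rcases (hmem v x).1 hxv with hv | ⟨b, hb, hv⟩
    · rcases (hmem w x).1 hxw with hw | ⟨c, hc, hw⟩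
      · exact Set.disjoint_left.1 (hBd v w hvw) hv hw
      · exact hTd w c v hc.1 hvw x hw hv
    · rcases (hmem w x).1 hxw with hw | ⟨c, hc, hw⟩
      · exact hTd v b w hb.1 hvw.symm x hv hw
      · have hne : s(v, b) ≠ s(w, c) := by
          intro h
          rcases Sym2.eq_iff.1 h with ⟨h1, -⟩ | ⟨h1, h2⟩
          · exact hvw h1
          · subst h1
            subst h2
            exact hasy _ _ hb.2 hc.2
        exact Set.disjoint_left.1 (hNd v b w c hb.1 hc.1 hne) (hTsub v b hb.1 hv).1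
          (hTsub w c hc.1 hw).1
  · intro u v h
    rcases htri u v h.ne with hlt | hlt
    · exact hedge u v h hlt
    · obtain ⟨x, hx, y, hy, hxy⟩ := hedge v u h.symm hlt
      exact ⟨y, hy, x, hx, hR x y hxy⟩

end PLM
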