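import Pool.Agent.Lib.MP_86b854_co.Drawing
import Pool.Agent.Lib.MP_86b854_co.GridMinor
import Pool.Agent.Lib.MP_86b854_co.Disc
import Pool.Agent.Lib.MP_86b854_co.Box
import Pool.Agent.Lib.MP_86b854_co.Nbhd
import Pool.Agent.Lib.MP_86b854_co.Metric
import Pool.Agent.Lib.MP_86b854_co.Trim
import Pool.Agent.Lib.MP_86b854_co.Ret
import Pool.Agent.Lib.MP_86b854_co.Grid
import Pool.Agent.Lib.MP_86b854_co.Sub
import Pool.Agent.Lib.MP_86b854_co.Contr
import Pool.Agent.Lib.MP_86b854_co.Minor
import Pool.Agent.Lib.MP_86b854_co.EulerLe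
import Pool.Agent.Lib.MP_86b854_co.EulerIff

set_option autoImplicit false

/-!
# The planarity layer, complete

`plane_of_drawn`: a finite graph with a topological drawing in the plane has a planar rotation
system. `euler_iff`: planar maps are the maps with `V + F = E + 2 C`.
-/

namespace PLM

theorem aSub : S_Sub := tSub tRet

theorem aCon : S_Con := tCon tRet

theorem aMinor : S_Minor := tMinor aSub aCon

theorem plane_of_drawn (V : Type) [Fintype V] [DecidableEq V] (G : SimpleGraph V)
    [Fintype G.Dart] (h : Drawn G) : ∃ M : CMap G.Dart V, PlaneMap M :=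
  tDrawing (tGridMinor (tDisc tBox) (tNbhd (tDisc tBox)) tMetric tTrim) (tGrid tRet) aMinor V G h

theorem euler_iff (D X : Type) [Fintype D] [DecidableEq X] (M : CMap D X) :
    M.Planar ↔ M.nV + M.nF = M.nE + 2 * M.nC := tEulerIff D X M

theorem euler_le (D X : Type) [Fintype D] (M : CMap D X) :
    2 * M.nE = Fintype.card D ∧ M.nV + M.nF ≤ M.nE + 2 * M.nC := tEulerLe D X M

end PLM
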