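import Pool.Agent.Lib.MP_86b854_co.Defs

set_option autoImplicit false

/-!
# MP_86b854_co : the planarity layer, statements

From a topological drawing to a planar rotation system: a drawn graph is a minor of the square grid
(`S_Box`, `S_Nbhd`, `S_Disc`, `S_Metric`, `S_Trim`, `S_GridMinor`), the grid is planar (`S_Ret`,
`S_Grid`), planar maps are closed under deletion and contraction (`S_Sub`, `S_Con`, `S_Minor`).
Euler's formula: `S_EulerLe`, `S_EulerIff`.
Every `def S_Foo : Prop` is one Lean task: write `Pool/Agent/Lib/MP_86b854_co/Foo.lean` containing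
`theorem tFoo (hypotheses : S_...) : S_Foo` in the namespace `PLM`; the allowed hypotheses are
listed in the docstring.  Useful lemmas on permutations: `Pool/Agent/Lib/MP_e6972d_co/Core.lean`
(`PanD.sameCycle_iff_closed`, `PanD.eq_of_sameCycle`, `PanD.merge_sameCycle`, ...).
-/

namespace PLM

open Equiv

/-- **Box.** Rectangles are connected in the grid.
PROOF. Let `A` be nonempty and closed, `x₀ ∈ A`.  By induction (up and down from `x₀.1`) all points
`(m, x₀.2)` with `a ≤ m ≤ b` are in `A`; then by induction (up and down) all `(m, n)`. -/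
def S_Box : Prop :=
  ∀ a b c d : ℤ, Conn grid.Adj {x : ℤ × ℤ | a ≤ x.1 ∧ x.1 ≤ b ∧ c ≤ x.2 ∧ x.2 ≤ d}

/-- **Disc.** Allowed: `S_Box`. The grid points in a square (a ball of the maximum metric of
`ℝ × ℝ`) of radius at least the mesh.
PROOF. `dist (sc δ x) p ≤ r` iff `|δ x.1 - p.1| ≤ r` and `|δ x.2 - p.2| ≤ r`, i.e.
`⌈(p.1 - r)/δ⌉ ≤ x.1 ≤ ⌊(p.1 + r)/δ⌋` and the same for `x.2`: a rectangle. Nonempty:
`x = (⌊p.1/δ⌋, ⌊p.2/δ⌋)`. -/
def S_Disc : Prop :=
  ∀ (p : ℝ × ℝ) (r δ : ℝ), 0 < δ → δ ≤ r →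
    {x : ℤ × ℤ | dist (sc δ x) p ≤ r}.Nonempty ∧ {x : ℤ × ℤ | dist (sc δ x) p ≤ r}.Finite ∧
      Conn grid.Adj {x : ℤ × ℤ | dist (sc δ x) p ≤ r}

/-- **Nbhd.** Allowed: `S_Disc`. The grid points at distance at most `δ` from a connected set.
PROOF. Let `N` be the set and `N(q) = {x | dist (sc δ x) q ≤ δ}`: nonempty and connected (`S_Disc`
with `r = δ`). `N` is finite: `K` is contained in a ball. Let `A ⊆ N` be nonempty and closed under
adjacency inside `N`.  For `q ∈ K` either `N(q) ⊆ A` or `N(q) ∩ A = ∅` (the set `N(q) ∩ A` is closed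
inside `N(q)`).  So `K` is covered by the two closed sets
`⋃ a ∈ A, closedBall (sc δ a) δ` and `⋃ a ∈ N \ A, closedBall (sc δ a) δ` (finite unions of closed
balls), and no point of `K` is in both.  `K` is preconnected and meets the first one (`A ⊆ N` is
nonempty), so it does not meet the second one (`isPreconnected_closed_iff`), i.e. `N \ A = ∅`. -/
def S_Nbhd : Prop :=
  ∀ (K : Set (ℝ × ℝ)) (δ : ℝ), 0 < δ → IsPreconnected K → Bornology.IsBounded K →
    {x : ℤ × ℤ | ∃ q ∈ K, dist (sc δ x) q ≤ δ}.Finite ∧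
      Conn grid.Adj {x : ℤ × ℤ | ∃ q ∈ K, dist (sc δ x) q ≤ δ}

/-- **Metric.** The constants.
PROOF. `p`, `γ` from `Drawn`. For `v ≠ w` the distance of `p v` and `p w` is positive. For an edge
`u v` and `w ≠ u, v` the continuous function `t ↦ dist (γ u v t) (p w)` is positive (if
`γ u v t = p w` then `t = 0` or `t = 1`, so `p w = p u` or `p w = p v`) and has a positive minimum.
`ε` = one eighth of the minimum of all these numbers (a finite set of positive numbers; `ε = 1` if
it is empty).  For every edge `u v` there is `0 < a ≤ 1/2` such that `dist (γ u v t) (p u) ≤ ε` for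
`t ≤ a` and `dist (γ u v t) (p v) ≤ ε` for `1 - a ≤ t` (continuity at `0` and `1`);
`K u v = γ u v '' {t | a ≤ t ∧ t ≤ 1 - a}` is compact, connected and nonempty.  For two different
edges `K u v` and `K w x` are disjoint: `γ u v s = γ w x t` implies `s = 0 ∨ s = 1`. So their
distance is at least some `r > 0`; `δ` = the minimum of `ε` and of one third of all these `r`. -/
def S_Metric : Prop :=
  ∀ (V : Type) [Finite V] (G : SimpleGraph V), Drawn G →
    ∃ (p : V → ℝ × ℝ) (K : V → V → Set (ℝ × ℝ)) (ε δ : ℝ), 0 < δ ∧ δ ≤ ε ∧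
      (∀ v w, v ≠ w → 4 * ε < dist (p v) (p w)) ∧
      (∀ u v, G.Adj u v → IsPreconnected (K u v) ∧ Bornology.IsBounded (K u v) ∧
        (∃ q ∈ K u v, dist q (p u) ≤ ε) ∧ (∃ q ∈ K u v, dist q (p v) ≤ ε) ∧
        ∀ w, w ≠ u → w ≠ v → ∀ q ∈ K u v, 4 * ε < dist q (p w)) ∧
      (∀ u v w x, G.Adj u v → G.Adj w x → s(u, v) ≠ s(w, x) →
        ∀ q ∈ K u v, ∀ r ∈ K w x, 2 * δ < dist q r)

/-- **Trim.** Discs `B v` and connected sets `N u v` along the edges give a minor model.
PROOF. Choose an orientation `(a, b)` of every edge (e.g. `Quot.out`), and let `T a b` be the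
intersection of all sets `A` with `N a b ∩ B a ⊆ A ⊆ N a b \ B b` which are closed under `R` inside
of `N a b \ B b` (note that `N a b ∩ B a` is disjoint from `B b`).  `T a b` is such a set itself.
`B' u = B u ∪ ⋃ (b with (u, b) chosen), T u b`.
Disjoint: `T a b` is disjoint from all `B w`, `w ≠ a`, and `T a b`, `T c d` are disjoint for
different edges.
Connected: let `A ⊆ B' u` be nonempty and closed. (1) `A` meets `B u`: if `x ∈ A ∩ T u b` and
`A ∩ B u = ∅` then `T u b \ A` contains `N u b ∩ B u` and is closed inside `N u b \ B b` (if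
`y ∈ T u b \ A`, `R y z`, `z ∈ N u b \ B b`, then `z ∈ T u b`, and `z ∈ A` would give `y ∈ A` by
symmetry), so it contains `T u b`, contradiction. (2) hence `B u ⊆ A`, and `T u b ∩ A` contains
`N u b ∩ B u` and is closed, so `T u b ⊆ A`.
Edges: let `(a, b)` be the chosen orientation. If no point of `T a b` is `R`-adjacent to a point of
`B b`, then `T a b` is closed inside `N a b` and nonempty, so `T a b = N a b`, but `N a b` meets
`B b`, contradiction. -/
def S_Trim : Prop :=
  ∀ (V X : Type) [Finite V] (R : X → X → Prop), (∀ x y, R x y → R y x) →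
    ∀ (G : SimpleGraph V) (B : V → Set X) (N : V → V → Set X),
    (∀ v, (B v).Nonempty ∧ (B v).Finite ∧ Conn R (B v)) →
    (∀ v w, v ≠ w → Disjoint (B v) (B w)) →
    (∀ u v, G.Adj u v → (N u v).Finite ∧ Conn R (N u v) ∧ (N u v ∩ B u).Nonempty ∧
      (N u v ∩ B v).Nonempty ∧ ∀ w, w ≠ u → w ≠ v → Disjoint (N u v) (B w)) →
    (∀ u v w x, G.Adj u v → G.Adj w x → s(u, v) ≠ s(w, x) → Disjoint (N u v) (N w x)) →
    ∃ B' : V → Set X, (∀ v, (B' v).Nonempty ∧ (B' v).Finite ∧ Conn R (B' v)) ∧
      (∀ v w, v ≠ w → Disjoint (B' v) (B' w)) ∧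
      ∀ u v, G.Adj u v → ∃ x ∈ B' u, ∃ y ∈ B' v, R x y

/-- **GridMinor.** Allowed: `S_Disc, S_Nbhd, S_Metric, S_Trim`. A drawn graph is a minor of the
square grid.
PROOF. `B v = {x | dist (sc δ x) (p v) ≤ ε + δ}` (`S_Disc`),
`N u v = {x | ∃ q ∈ K u v, dist (sc δ x) q ≤ δ}` (`S_Nbhd`); every point `q` has a grid point `x`
with `dist (sc δ x) q ≤ δ` (`S_Disc` with `r = δ`). Triangle inequality for all hypotheses of
`S_Trim` (`2 (ε + δ) ≤ 4 ε`, `δ + (ε + δ) ≤ 4 ε`, `δ + δ ≤ 2 δ`). -/
def S_GridMinor : Prop :=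
  ∀ (V : Type) [Finite V] (G : SimpleGraph V), Drawn G →
    ∃ B : V → Set (ℤ × ℤ), (∀ v, (B v).Nonempty ∧ (B v).Finite ∧ Conn grid.Adj (B v)) ∧
      (∀ v w, v ≠ w → Disjoint (B v) (B w)) ∧
      ∀ u v, G.Adj u v → ∃ x ∈ B u, ∃ y ∈ B v, grid.Adj x y

/-- **Ret.** First return permutations.
PROOF. For `x ∈ P` let `n` be minimal with `σ^(n+1) x ∈ P` (it exists, `n = N - 1`), and
`f x = σ^(n+1) x`.  Injective: if `σ^(n+1) x = σ^(m+1) y` with `n < m` then `x = σ^(m-n) y ∈ P`
contradicts the minimality of `m`.  Surjective: for `y ∈ P` take the minimal `n` with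
`σ^(-(n+1)) y ∈ P`.  SameCycle: `→` `f x` is in the `σ`-cycle of `x`.  `←` `y = σ^k x` with a
natural number `k` (`σ^N = 1`); strong induction on `k`: if `k > 0` then `n + 1 ≤ k` by minimality
of `n`, and `y = σ^(k-n-1) (f x)`. -/
def S_Ret : Prop :=
  ∀ (D : Type) (σ : Perm D) (N : ℕ), 0 < N → σ ^ N = 1 → ∀ P : Set D,
    ∃ τ : Perm P, (∀ x : P, ∃ n : ℕ, (τ x : D) = (σ ^ (n + 1)) (x : D) ∧
        ∀ m < n, (σ ^ (m + 1)) (x : D) ∉ P) ∧
      ∀ x y : P, τ.SameCycle x y ↔ σ.SameCycle (x : D) (y : D)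

/-- **Grid.** Allowed: `S_Ret`. Finite parts of the grid are planar.
PROOF. Directions `dir : ZMod 4 → ℤ × ℤ`, `0, 1, 2, 3 ↦ (1,0), (0,1), (-1,0), (0,-1)`; on
`E = (ℤ × ℤ) × ZMod 4` let `σ₀ (x, k) = (x, k + 1)` (`σ₀^4 = 1`), `α₀ (x, k) = (x + dir k, k + 2)`.
`D = {(x, k) | x ∈ S ∧ x + dir k ∈ S}` (finite), `σ` from `S_Ret`, `α` the restriction of `α₀`,
`vt (x, k) = x`. Two darts of `E` are in the same `σ₀`-cycle iff they have the same `x`.
Planar: extend the cycle `z` by `0` to `Z : E → ZMod 2`; `Z (α₀ q) = Z q`,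
`Σ_k Z (x, k) = 0` for every `x`, and `Z ((i, j), k) = 0` if `j ≥ N` (`S` is finite). Let
`H i j = Z ((i,j), 0)`, `V i j = Z ((i,j), 1)`, so `Z ((i,j), 2) = H (i-1) j`,
`Z ((i,j), 3) = V i (j-1)`. `F i j = Σ_(j < j' < N) H i j'` (the number of `z`-edges above the cell
with lower left corner `(i, j)`). Then `F i (j-1) = F i j + H i j` and
`F i j + F (i-1) j = V i j` (downward induction on `j`: both sides vanish for `j ≥ N`; step: vertex
condition at `(i, j)`).  Let `C ((i,j), k) = F i j, F (i-1) j, F (i-1) (j-1), F i (j-1)` for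
`k = 0, 1, 2, 3` (the cell between the directions `k` and `k + 1`). Then
`Z (x, k) = C (x, k) + C (x, k - 1)` and `C (α₀ (x, k)) = C (x, k - 1)` (four cases each).  Put
`h q = C (α₀ q)`.  `z q = h q + h (α q)` is clear.  `h (σ (α q)) = h q`: let `(y, l) = α q`,
`σ (y, l) = (y, l + n + 1)` where the `(y, l + m)`, `1 ≤ m ≤ n` are not in `D`, so
`C (y, l + m) = C (y, l + m - 1)`, and
`h (y, l + n + 1) = C (y, l + n) = ... = C (y, l) = C (α₀ q) = h q`. -/
def S_Grid : Prop :=
  ∀ S : Set (ℤ × ℤ), S.Finite → ∃ (D : Type) (_ : Fintype D) (M : CMap D (ℤ × ℤ)), M.Planar ∧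
    (∀ d, M.vt d ∈ S ∧ grid.Adj (M.vt d) (M.vt (M.α d))) ∧
    ∀ x ∈ S, ∀ y ∈ S, grid.Adj x y → ∃ d, M.vt d = x ∧ M.vt (M.α d) = y

/-- **Sub.** Allowed: `S_Ret`. Deletion of edges: submaps; a submap of a planar map is planar.
PROOF. `σ'` from `S_Ret` (`σ ^ orderOf σ = 1`), `α'` the restriction.  `Planar`: let `z'` be a cycle
of the submap, extended by `0` it is a cycle of `M`; take `h`.  The restriction `h'` of `h` works:
for a deleted dart `y`, `h y + h (α y) = 0`, so `h (σ y) = h (φ (α y)) = h (α y) = h y`.  For `x ∈ P`: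
`h (φ' x) = h (σ^(n+1) (α x))`, and the darts `σ^(m+1) (α x)`, `m < n`, are deleted, so
`h (σ^(n+1) (α x)) = ... = h (σ (α x)) = h (φ x) = h x`. -/
def S_Sub : Prop :=
  ∀ (D X : Type) [Fintype D] [DecidableEq X] (M : CMap D X) (P : Set D) [Fintype P],
    (∀ x ∈ P, M.α x ∈ P) → ∃ M' : CMap P X,
      (∀ y : P, (M'.α y : D) = M.α y) ∧ (∀ y : P, M'.vt y = M.vt y) ∧
      (∀ y : P, ∃ n : ℕ, (M'.σ y : D) = (M.σ ^ (n + 1)) (y : D) ∧
        ∀ m < n, (M.σ ^ (m + 1)) (y : D) ∉ P) ∧
      (M.Planar → M'.Planar)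

/-- **Con.** Allowed: `S_Ret`. Contraction of the edge `d`, which is not a loop. The end `vt (α d)`
is merged into `vt d`.
PROOF. `σ₁ = σ * swap d (α d)` merges the two cycles (`PanD.merge_sameCycle`), `σ'` is the first
return map of `σ₁` to `P = {x | x ≠ d ∧ x ≠ α d}` (`S_Ret`), `α'` the restriction.
Faces: for `y ∈ {d, α d}` we have `σ₁ y = σ (α y) = φ y`, and for `x ∈ P`,
`σ₁ (α x) = σ (α x) = φ x`.  So `φ' x = σ' (α x)` is of the form `φ^(n+1) x`, and a function which is
constant along `φ` restricts to a function which is constant along `φ'`.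
Planar: let `z'` be a cycle of the new map; extend it to `D` by
`z d = z (α d) = c = Σ_(x ∈ P, vt x = vt (α d)) z' x`.  It is a cycle of `M`: at `vt (α d)` the sum is
`c + c = 0`, at `vt d` it is `c + Σ_(x ∈ P, vt x = vt d) z' x`, which is the sum of `z'` over the merged
vertex. Take `h` for `z` and restrict it. -/
def S_Con : Prop :=
  ∀ (D X : Type) [Fintype D] [DecidableEq X] (M : CMap D X) (d : D)
    [Fintype {x : D // x ≠ d ∧ x ≠ M.α d}], M.vt d ≠ M.vt (M.α d) →
    ∃ M' : CMap {x : D // x ≠ d ∧ x ≠ M.α d} X,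
      (∀ y, (M'.α y : D) = M.α (y : D)) ∧
      (∀ y, M'.vt y = if M.vt (y : D) = M.vt (M.α d) then M.vt d else M.vt (y : D)) ∧
      (M.Planar → M'.Planar)

/-- `M` is a planar map on the darts of the simple graph `G` -/
def PlaneMap {V : Type} [Fintype V] [DecidableEq V] {G : SimpleGraph V} [Fintype G.Dart]
    (M : CMap G.Dart V) : Prop :=
  (∀ d, M.vt d = d.fst) ∧ (∀ d, M.α d = d.symm) ∧ M.Planar

/-- **Minor.** Allowed: `S_Sub, S_Con`. A minor of a planar map is planar.
PROOF. Induction on the number of darts `card D` (for all types of darts, with `X`, `G` fixed).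
(a) Suppose there is a dart `d` with `x = vt d`, `y = vt (α d)` both in `B v`, `x ≠ y`. Contract it
(`S_Con`), and put `B' v = B v \ {y}`, `B' w = B w` otherwise.  The hypotheses hold for the new map:
with `r a = if a = y then x else a`, a dart `e ≠ d, α d` from `a` to `b` in `M` goes from `r a` to `r b`
in `M'`. `Conn (B' v)`: let `A ⊆ B v \ {y}` be nonempty and closed for `M'`, and `A⁺ = A ∪ {y}` if
`x ∈ A`, `A⁺ = A` if not, i.e. `A⁺ = {a ∈ B v | r a ∈ A}`; `A⁺` is closed for `M`, so `A⁺ = B v`.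
For `w ≠ v`: the labels in `B w` are not `x`, `y`, and darts between them are the same.
(b) Otherwise all darts with both ends in one `B v` are loops, so every `B v` with a dart is a
single label (`{x}` is closed inside `B v`).  Choose for every dart `(v, w)` of `G` a dart
`c (v, w)` of `M` from `B v` to `B w`, with `c (w, v) = α (c (v, w))` (choose for one orientation of
every edge).  `c` is injective because the `B v` are disjoint.  Let `P` be the range of `c`, take
`S_Sub`, and transport the map along `c : G.Dart ≃ P`: `σ_G = c⁻¹ σ' c`.  `d.fst = e.fst` iff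
`vt (c d) = vt (c e)` because `B v` is a single label. -/
def S_Minor : Prop :=
  ∀ (D X V : Type) [Fintype D] [DecidableEq X] [Fintype V] [DecidableEq V] (M : CMap D X)
    (G : SimpleGraph V) [Fintype G.Dart] (B : V → Set X), M.Planar →
    (∀ v w, v ≠ w → Disjoint (B v) (B w)) → (∀ v, Conn M.Adj (B v)) →
    (∀ v w, G.Adj v w → ∃ d, M.vt d ∈ B v ∧ M.vt (M.α d) ∈ B w) →
    ∃ M' : CMap G.Dart V, PlaneMap M'

/-- **Drawing.** Allowed: `S_GridMinor, S_Grid, S_Minor`. A graph with a topological drawing has a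
planar rotation system.
PROOF. `S_GridMinor`, then `S_Grid` with `S = ⋃ v, B v`, then `S_Minor`. (`Conn M.Adj (B v)` follows
from `Conn grid.Adj (B v)`, because the two relations agree on `S`.) -/
def S_Drawing : Prop :=
  ∀ (V : Type) [Fintype V] [DecidableEq V] (G : SimpleGraph V) [Fintype G.Dart], Drawn G →
    ∃ M : CMap G.Dart V, PlaneMap M

/-- **EulerLe.** The number of edges is half the number of darts; the genus is not negative.
PROOF. See `PanD.isPlanar_of_euler` in `Pool/Agent/Lib/MP_e6972d_co/Euler.lean` (linear algebra over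
`ZMod 2`; it is the same with an arbitrary dart type): choose a representative dart `dr e` of every
edge `e` (cycle of `α`, i.e. `{d, α d}`); incidence matrix `N v e = [vt (dr e) = v] + [vt (α (dr e)) = v]`
for vertices `v` = cycles of `σ`;  `ker Nᵀ` consists of functions which are constant on components, so
`nE - rank N ≤ nE - nV + nC`; the boundary map `bd : (faces → K) → (edges → K)`,
`bd h e = h (face of dr e) + h (face of α (dr e))` has its kernel in the functions constant on
components (`dim ≤ nC`), and its range is contained in `ker N`.  So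
`nF - nC ≤ dim range bd ≤ dim ker N ≤ nE - nV + nC`. -/
def S_EulerLe : Prop :=
  ∀ (D X : Type) [Fintype D] (M : CMap D X),
    2 * M.nE = Fintype.card D ∧ M.nV + M.nF ≤ M.nE + 2 * M.nC

/-- **EulerIff.** Euler's formula characterises planar maps.
PROOF. As in `S_EulerLe`, with equality: functions constant on components ARE in the kernels, so
`dim ker Nᵀ = nC` and `dim ker bd = nC`, `dim ker N = nE - nV + nC` and `dim range bd = nF - nC`.
`Planar` says `range bd = ker N` (the cycles `z` with `z (α d) = z d` are the functions on edges),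
and since `range bd ⊆ ker N` this is the equality of the dimensions. -/
def S_EulerIff : Prop :=
  ∀ (D X : Type) [Fintype D] [DecidableEq X] (M : CMap D X),
    M.Planar ↔ M.nV + M.nF = M.nE + 2 * M.nC

end PLM
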