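import Pool.Agent.Lib.MP_86b854_co.AlgSpec

set_option autoImplicit false

namespace T72

open Finset

theorem tTau : S_Tau := by
  intro V _ _ G S
  have hS : Cov G S S := ⟨Finset.Subset.refl _, fun u hu v hv _ => Or.inl hu⟩
  have hle : ∀ S D : Finset V, Cov G S D → tau G S ≤ D.card :=
    fun S D h => Nat.sInf_le ⟨D, h, rfl⟩
  refine ⟨?_, ?_, ?_⟩
  · exact Nat.sInf_mem (s := {n | ∃ D, Cov G S D ∧ D.card = n}) ⟨_, S, hS, rfl⟩
  · rintro ⟨col, hcol⟩
    have hA : Cov G S (S.filter (fun v => col v = true)) := by
      refine ⟨filter_subset _ _, fun u hu v hv ha => ?_⟩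
      have h := hcol u hu v hv ha
      rw [mem_filter, mem_filter]
      cases hcu : col u
      · right
        refine ⟨hv, ?_⟩
        cases hcv : col v
        · rw [hcu, hcv] at h
          exact absurd rfl h
        · rfl
      · left
        exact ⟨hu, rfl⟩
    have hB : Cov G S (S.filter (fun v => ¬ col v = true)) := by
      refine ⟨filter_subset _ _, fun u hu v hv ha => ?_⟩
      have h := hcol u hu v hv ha
      rw [mem_filter, mem_filter]
      cases hcu : col u
      · left
        exact ⟨hu, by simp⟩
      · right
        refine ⟨hv, ?_⟩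
        cases hcv : col v
        · simp
        · rw [hcu, hcv] at h
          exact absurd rfl h
    have h1 := hle _ _ hA
    have h2 := hle _ _ hB
    have h3 := Finset.card_filter_add_card_filter_not (s := S) (fun v => col v = true)
    omega
  · intro D hD hc X hX
    have hcov : Cov G (S \ X) (D \ X) := by
      refine ⟨sdiff_subset_sdiff hD.1 (Finset.Subset.refl _), fun u hu v hv ha => ?_⟩
      rw [mem_sdiff] at hu hv
      rw [mem_sdiff, mem_sdiff]
      rcases hD.2 u hu.1 v hv.1 ha with h | h
      · exact Or.inl ⟨h, hu.2⟩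
      · exact Or.inr ⟨h, hv.2⟩
    have h1 := hle _ _ hcov
    have h2 := Finset.card_sdiff_add_card_inter D X
    rw [inter_comm D X] at h2
    omega

end T72
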