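import Pool.Agent.Lib.MP_86b854_co.AlgSpec

set_option autoImplicit false

/-!
# MP_86b854_co : Theorem M
-/

namespace T72

open MvPolynomial Finset

section

variable {V : Type} [Fintype V] [DecidableEq V] (G : SimpleGraph V) [DecidableRel G.Adj]

omit [Fintype V] in
theorem thmM_left {A B C : Finset V} (h : Disjoint A B) :
    eBt G (A ∪ B) C = eBt G A C + eBt G B C := by
  unfold eBt
  rw [union_product, filter_union, card_union_of_disjoint]
  refine disjoint_filter_filter ?_
  rw [disjoint_left]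
  intro p hp hp'
  exact disjoint_left.1 h (mem_product.1 hp).1 (mem_product.1 hp').1

omit [Fintype V] in
theorem thmM_symm (A B : Finset V) : eBt G A B = eBt G B A := by
  unfold eBt
  refine card_bij (fun p _ => (p.2, p.1)) ?_ ?_ ?_
  · intro p hp
    rw [mem_filter, mem_product] at hp ⊢
    exact ⟨⟨hp.1.2, hp.1.1⟩, hp.2.symm⟩
  · intro p _ q _ h
    exact Prod.ext (congrArg Prod.snd h) (congrArg Prod.fst h)
  · intro p hp
    rw [mem_filter, mem_product] at hp
    refine ⟨(p.2, p.1), ?_, rfl⟩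
    rw [mem_filter, mem_product]
    exact ⟨⟨hp.1.2, hp.1.1⟩, hp.2.symm⟩

omit [Fintype V] in
theorem thmM_right {A B C : Finset V} (h : Disjoint B C) :
    eBt G A (B ∪ C) = eBt G A B + eBt G A C := by
  rw [thmM_symm, thmM_left G h, thmM_symm G B, thmM_symm G C]

omit [Fintype V] in
theorem thmM_eIn (A : Finset V) : eIn G A = eBt G A A := rfl

end

theorem tThmM (hExt : S_Ext) (hTau : S_Tau) : S_ThmM := by
  intro V _ _ G _ L P g hM S₀ hS₀ hdisj₀ hbip₀
  classical
  by_contra hcon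
  rw [not_lt] at hcon
  let Φ : Finset V → ℤ := fun S => 10 * (S.card : ℤ) - 2 * (eIn G S : ℤ) -
    4 * (eBt G S Sᶜ : ℤ) - (tau G S : ℤ)
  let Fam : Finset (Finset V) := univ.filter fun S => S.Nonempty ∧ Disjoint S P ∧ BipOn G S
  have hFam : S₀ ∈ Fam := mem_filter.2 ⟨mem_univ _, hS₀, hdisj₀, hbip₀⟩
  obtain ⟨S, hS, hmax⟩ := Finset.exists_max_image Fam Φ ⟨S₀, hFam⟩
  obtain ⟨_, hne, hdisj, hbip⟩ := mem_filter.1 hS
  have hpos : 0 ≤ Φ S := by
    refine le_trans ?_ (hmax S₀ hFam)
    change (0 : ℤ) ≤ 10 * (S₀.card : ℤ) - 2 * (eIn G S₀ : ℤ) -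
      4 * (eBt G S₀ S₀ᶜ : ℤ) - (tau G S₀ : ℤ)
    have : ((tau G S₀ + 2 * eIn G S₀ + 4 * eBt G S₀ S₀ᶜ : ℕ) : ℤ) ≤ (10 * S₀.card : ℕ) := by
      exact_mod_cast hcon
    push_cast at this
    linarith
  change (0 : ℤ) ≤ 10 * (S.card : ℤ) - 2 * (eIn G S : ℤ) -
      4 * (eBt G S Sᶜ : ℤ) - (tau G S : ℤ) at hpos
  obtain ⟨⟨D, hD, hDc⟩, _, htau⟩ := hTau V G S
  obtain ⟨f, hfP, hf⟩ := hM.ext S hne hdisj
  obtain ⟨f', hf'1, hf'2⟩ := hExt V G L S D f (fun v hv => hM.seven v
    (fun hv' => disjoint_left.1 hdisj hv hv')) hf hbip hD (by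
    intro X hX
    by_cases hXS : X = S
    · subst hXS
      rw [inter_eq_right.2 hD.1, hDc]
      omega
    · have hY : (S \ X).Nonempty := by
        rw [sdiff_nonempty]
        intro h
        exact hXS (subset_antisymm hX h)
      have hYF : S \ X ∈ Fam := by
        refine mem_filter.2 ⟨mem_univ _, hY, hdisj.mono_left sdiff_subset, ?_⟩
        obtain ⟨col, hcol⟩ := hbip
        exact ⟨col, fun u hu v hv h => hcol u (mem_sdiff.1 hu).1 v (mem_sdiff.1 hv).1 h⟩
      have h1 := hmax _ hYF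
      change 10 * ((S \ X).card : ℤ) - 2 * (eIn G (S \ X) : ℤ) -
        4 * (eBt G (S \ X) (S \ X)ᶜ : ℤ) - (tau G (S \ X) : ℤ) ≤
        10 * (S.card : ℤ) - 2 * (eIn G S : ℤ) - 4 * (eBt G S Sᶜ : ℤ) - (tau G S : ℤ) at h1
      have h2 := htau D hD hDc X hX
      have hu : X ∪ (S \ X) = S := union_sdiff_of_subset hX
      have hd : Disjoint X (S \ X) := disjoint_sdiff
      have h3 : S.card = X.card + (S \ X).card := by
        rw [← card_union_of_disjoint hd, hu]
      have h4 : eIn G S = eIn G X + eIn G (S \ X) + 2 * eBt G X (S \ X) := by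
        rw [thmM_eIn, thmM_eIn, thmM_eIn]
        conv_lhs => rw [← hu]
        rw [thmM_left G hd, thmM_right G hd, thmM_right G hd, thmM_symm G (S \ X) X]
        ring
      have h5 : (S \ X)ᶜ = X ∪ Sᶜ := by
        ext v
        simp only [mem_compl, mem_sdiff, mem_union, not_and, not_not]
        constructor
        · intro h
          by_cases hv : v ∈ S
          · exact Or.inl (h hv)
          · exact Or.inr hv
        · rintro (h | h) h'
          · exact h
          · exact absurd h' h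
      have h6 : Disjoint X Sᶜ := by
        rw [disjoint_left]
        intro v hv hv'
        exact (mem_compl.1 hv') (hX hv)
      have h7 : eBt G (S \ X) (S \ X)ᶜ = eBt G X (S \ X) + eBt G (S \ X) Sᶜ := by
        rw [h5, thmM_right G h6, thmM_symm G (S \ X) X]
      have h8 : eBt G S Sᶜ = eBt G X Sᶜ + eBt G (S \ X) Sᶜ := by
        rw [← thmM_left G hd, hu]
      omega)
  refine hM.not ⟨f', fun v hv => ?_, hf'2⟩
  rw [hf'1 v (fun h => disjoint_left.1 hdisj h hv), hfP v hv]

end T72
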