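import Pool.Agent.Lib.MP_86b854_co.AlgSpec3
import Pool.Agent.Lib.MP_86b854_co.ThmM

/-!
# MP_86b854_co : Theorem T5
-/

set_option autoImplicit false

namespace T72

open Finset

section

variable {V : Type} [Fintype V] [DecidableEq V] (G : SimpleGraph V) [DecidableRel G.Adj]

omit [Fintype V] in
theorem t5_dg_union {A B : Finset V} (h : Disjoint A B) (t : V) :
    dgI G (A ∪ B) t = dgI G A t + dgI G B t := by
  unfold dgI
  rw [filter_union, card_union_of_disjoint (disjoint_filter_filter h)]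

omit [Fintype V] in
theorem t5_dg_mono {A B : Finset V} (h : A ⊆ B) (t : V) : dgI G A t ≤ dgI G B t :=
  card_le_card (filter_subset_filter _ h)

/-- in a minimal counterexample every free vertex has at least two neighbours -/
theorem t5_deg {L : V → Finset ℕ} {P : Finset V} {g : V → Finset ℕ} (hM : MinCex G L P g) {v : V}
    (hv : v ∉ P) : 2 ≤ dgI G univ v := by
  by_contra hcon
  push Not at hcon
  obtain ⟨f, hfP, hf⟩ := hM.ext {v} (singleton_nonempty v) (disjoint_singleton_left.2 hv)
  have h1 : 2 ≤ (L v \ (univ.filter fun w => G.Adj v w).biUnion f).card := by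
    have h2 : ((univ.filter fun w => G.Adj v w).biUnion f).card ≤
        (univ.filter fun w => G.Adj v w).card * 2 := by
      refine card_biUnion_le_card_mul _ _ _ fun w hw => ?_
      rw [mem_filter] at hw
      have hw' : w ∈ ({v} : Finset V)ᶜ := by
        rw [mem_compl, mem_singleton]
        exact hw.2.ne'
      exact (hf.1 w hw').2.le
    have h3 := le_card_sdiff ((univ.filter fun w => G.Adj v w).biUnion f) (L v)
    have h4 : (univ.filter fun w => G.Adj v w).card < 2 := hcon
    rw [hM.seven v hv] at h3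
    omega
  obtain ⟨A, hA, hA2⟩ := exists_subset_card_eq h1
  have hdis : ∀ w, G.Adj v w → Disjoint A (f w) := by
    intro w hw
    rw [disjoint_left]
    intro c hc hc'
    exact (mem_sdiff.1 (hA hc)).2 (mem_biUnion.2 ⟨w, mem_filter.2 ⟨mem_univ _, hw⟩, hc'⟩)
  refine hM.not ⟨fun w => if w = v then A else f w, ?_, ?_, ?_⟩
  · intro w hw
    have hwv : w ≠ v := by
      rintro rfl
      exact hv hw
    simp only [if_neg hwv]
    exact hfP w hw
  · intro w _
    by_cases hwv : w = v
    · simp only [if_pos hwv]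
      rw [hwv]
      exact ⟨hA.trans sdiff_subset, hA2⟩
    · simp only [if_neg hwv]
      exact hf.1 w (by rw [mem_compl, mem_singleton]; exact hwv)
  · intro u _ w _ huw
    by_cases hu : u = v <;> by_cases hw : w = v
    · rw [hu, hw] at huw
      exact absurd huw (G.irrefl)
    · simp only [if_pos hu, if_neg hw]
      rw [hu] at huw
      exact hdis w huw
    · simp only [if_neg hu, if_pos hw]
      rw [hw] at huw
      exact (hdis u huw.symm).symm
    · simp only [if_neg hu, if_neg hw]
      exact hf.2 u (by rw [mem_compl, mem_singleton]; exact hu) w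
        (by rw [mem_compl, mem_singleton]; exact hw) huw

end

theorem tThmT5 (hExt : S_T5ext) : S_ThmT5 := by
  intro V _ _ G _ L P g hM S₀ T I hS₀ hdisj₀ hbip₀ hST hTP hTi hIS hIi hIT
  classical
  by_contra hcon
  rw [not_lt] at hcon
  let Φ : Finset V → ℤ := fun S => 9 * (S.card : ℤ) + ((I ∩ S).card : ℤ) +
    ((∑ t ∈ T, (2 - dgI G Sᶜ t) : ℕ) : ℤ) - 2 * (eIn G S : ℤ) - 4 * (eBt G S Sᶜ : ℤ)
  have hΦ : ∀ S, Φ S = 9 * (S.card : ℤ) + ((I ∩ S).card : ℤ) +
    ((∑ t ∈ T, (2 - dgI G Sᶜ t) : ℕ) : ℤ) - 2 * (eIn G S : ℤ) - 4 * (eBt G S Sᶜ : ℤ) :=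
    fun S => rfl
  let Fam : Finset (Finset V) := univ.filter fun S => S.Nonempty ∧ S ⊆ S₀
  have hFam : S₀ ∈ Fam := mem_filter.2 ⟨mem_univ _, hS₀, subset_rfl⟩
  obtain ⟨S, hS, hmax⟩ := Finset.exists_max_image Fam Φ ⟨S₀, hFam⟩
  obtain ⟨_, hne, hSS⟩ := mem_filter.1 hS
  have hpos : 0 ≤ Φ S := by
    refine le_trans ?_ (hmax S₀ hFam)
    rw [hΦ, inter_eq_left.2 hIS]
    have h1 : ((2 * eIn G S₀ + 4 * eBt G S₀ S₀ᶜ : ℕ) : ℤ) ≤
        ((9 * S₀.card + I.card + ∑ t ∈ T, (2 - dgI G S₀ᶜ t) : ℕ) : ℤ) := by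
      exact_mod_cast hcon
    push_cast at h1 ⊢
    linarith
  have hcompl : S₀ᶜ ⊆ Sᶜ := compl_subset_compl.2 hSS
  have hall : ∀ X ⊆ S, 2 * eIn G X + 4 * eBt G X Sᶜ ≤
      9 * X.card + (X ∩ I).card + ∑ t ∈ T, min (2 - dgI G Sᶜ t) (dgI G X t) := by
    intro X hX
    have hle : Φ (S \ X) ≤ Φ S := by
      by_cases hXS : X = S
      · refine le_trans (le_of_eq ?_) hpos
        rw [hXS, Finset.sdiff_self, hΦ]
        have h1 : ∑ t ∈ T, (2 - dgI G (∅ : Finset V)ᶜ t) = 0 := by
          apply sum_eq_zero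
          intro t ht
          rw [compl_empty]
          have := t5_deg G hM (disjoint_left.1 hTP ht)
          omega
        have h2 : eIn G (∅ : Finset V) = 0 := by simp [eIn]
        have h3 : eBt G (∅ : Finset V) (∅ : Finset V)ᶜ = 0 := by simp [eBt]
        rw [h1, h2, h3]
        simp
      · apply hmax
        refine mem_filter.2 ⟨mem_univ _, ?_, sdiff_subset.trans hSS⟩
        rw [sdiff_nonempty]
        intro h
        exact hXS (subset_antisymm hX h)
    have hu : X ∪ (S \ X) = S := union_sdiff_of_subset hX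
    have hd : Disjoint X (S \ X) := disjoint_sdiff
    have h3 : S.card = X.card + (S \ X).card := by
      rw [← card_union_of_disjoint hd, hu]
    have h4 : eIn G S = eIn G X + eIn G (S \ X) + 2 * eBt G X (S \ X) := by
      rw [thmM_eIn, thmM_eIn, thmM_eIn]
      conv_lhs => rw [← hu]
      rw [thmM_left G hd, thmM_right G hd, thmM_right G hd, thmM_symm G (S \ X) X]
      ring
    have h5 : (S \ X)ᶜ = X ∪ Sᶜ := by
      ext v
      simp only [mem_compl, mem_sdiff, mem_union, not_and, not_not]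
      constructor
      · intro h
        by_cases hv : v ∈ S
        · exact Or.inl (h hv)
        · exact Or.inr hv
      · rintro (h | h) h'
        · exact h
        · exact absurd h' h
    have h6 : Disjoint X Sᶜ := by
      rw [disjoint_left]
      intro v hv hv'
      exact (mem_compl.1 hv') (hX hv)
    have h7 : eBt G (S \ X) (S \ X)ᶜ = eBt G X (S \ X) + eBt G (S \ X) Sᶜ := by
      rw [h5, thmM_right G h6, thmM_symm G (S \ X) X]
    have h8 : eBt G S Sᶜ = eBt G X Sᶜ + eBt G (S \ X) Sᶜ := by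
      rw [← thmM_left G hd, hu]
    have h9 : (I ∩ S).card = (X ∩ I).card + (I ∩ (S \ X)).card := by
      rw [← card_union_of_disjoint]
      · congr 1
        ext v
        simp only [mem_inter, mem_union, mem_sdiff]
        constructor
        · rintro ⟨h, h'⟩
          by_cases hv : v ∈ X
          · exact Or.inl ⟨hv, h⟩
          · exact Or.inr ⟨h, h', hv⟩
        · rintro (⟨h, h'⟩ | ⟨h, h', -⟩)
          · exact ⟨h', hX h⟩
          · exact ⟨h, h'⟩
      · rw [disjoint_left]
        intro v hv hv'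
        exact (mem_sdiff.1 (mem_inter.1 hv').2).2 (mem_inter.1 hv).1
    have h10 : ∑ t ∈ T, (2 - dgI G Sᶜ t) = ∑ t ∈ T, (2 - dgI G (S \ X)ᶜ t) +
        ∑ t ∈ T, min (2 - dgI G Sᶜ t) (dgI G X t) := by
      rw [← sum_add_distrib]
      refine sum_congr rfl fun t _ => ?_
      rw [h5, t5_dg_union G h6]
      omega
    rw [hΦ, hΦ, h3, h4, h7, h8, h9, h10] at hle
    push_cast at hle
    have h11 : ((2 * eIn G X + 4 * eBt G X Sᶜ : ℕ) : ℤ) ≤
        ((9 * X.card + (X ∩ I).card + ∑ t ∈ T, min (2 - dgI G Sᶜ t) (dgI G X t) : ℕ) : ℤ) := by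
      push_cast
      linarith
    exact_mod_cast h11
  obtain ⟨T', hT'⟩ : ∃ T', T' = T.filter fun t => dgI G Sᶜ t ≤ 1 := ⟨_, rfl⟩
  have hT'T : T' ⊆ T := by
    rw [hT']
    exact filter_subset _ _
  have hdisj : Disjoint (S ∪ T') P := by
    rw [disjoint_union_left]
    exact ⟨hdisj₀.mono_left hSS, hTP.mono_left hT'T⟩
  obtain ⟨f, hfP, hf⟩ := hM.ext (S ∪ T') (hne.mono subset_union_left) hdisj
  obtain ⟨f', hf'1, hf'2⟩ := hExt V G L S T' (I ∩ S) f (fun v hv => hM.seven v
    (fun hv' => disjoint_left.1 hdisj hv hv')) hf (by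
      obtain ⟨col, hcol⟩ := hbip₀
      exact ⟨col, fun u hu v hv h => hcol u (hSS hu) v (hSS hv) h⟩)
    ((hST.mono_left hSS).mono_right hT'T)
    (fun u hu v hv => hTi u (hT'T hu) v (hT'T hv)) inter_subset_right
    (fun u hu v hv => hIi u (mem_inter.1 hu).1 v (mem_inter.1 hv).1)
    (fun u hu v hv huv => by
      have h1 := hIT u (mem_inter.1 hu).1 v (hT'T hv) huv
      have h2 := t5_dg_mono G hcompl v
      rw [hT', mem_filter] at hv
      omega)
    (fun t ht => by
      rw [hT', mem_filter] at ht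
      exact ht.2)
    (fun X hX => by
      refine (hall X hX).trans (le_of_eq ?_)
      have h1 : X ∩ (I ∩ S) = X ∩ I := by
        ext v
        simp only [mem_inter]
        constructor
        · rintro ⟨h, h', -⟩
          exact ⟨h, h'⟩
        · rintro ⟨h, h'⟩
          exact ⟨h, h', hX h⟩
      rw [h1]
      congr 1
      symm
      apply sum_subset hT'T
      intro t ht ht'
      rw [hT', mem_filter, not_and, not_le] at ht'
      have := ht' ht
      omega)
  refine hM.not ⟨f', fun v hv => ?_, hf'2⟩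
  rw [hf'1 v (fun h => disjoint_left.1 hdisj h hv), hfP v hv]

end T72
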