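import Pool.Agent.Lib.MP_86b854_co.AlgSpec

set_option autoImplicit false

/-!
# MP_86b854_co : products of small factors
-/

namespace T72

open MvPolynomial Finset

theorem vert_hh0 {V : Type} (v : V) : hh v 0 = 1 := by
  simp [hh]

theorem vert_mem {V : Type} [Fintype V] [DecidableEq V] (v : V) (b m : ℕ) :
    ee v ^ b * hh v m ∈ Cone V := by
  apply AddSubmonoid.subset_closure
  refine ⟨(Function.update 0 v b, Function.update 0 v m), ?_⟩
  change ∏ w, ee w ^ (Function.update 0 v b : V → ℕ) w * hh w ((Function.update 0 v m : V → ℕ) w) =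
    _
  rw [Finset.prod_eq_single v]
  · simp
  · intro w _ hw
    simp [hw, vert_hh0]
  · intro h
    exact absurd (Finset.mem_univ v) h

/-- The order defined by the cone, between a polynomial and an element of the cone. -/
theorem vert_mul {V : Type} [Fintype V]
    (hmul : ∀ f ∈ Cone V, ∀ g ∈ Cone V, f * g ∈ Cone V) {f g f' g' : MvPolynomial (V × Fin 2) ℚ}
    (hg : g ∈ Cone V) (hg' : g' ∈ Cone V) (h : ∃ r ∈ Cone V, f = g + r)
    (h' : ∃ r ∈ Cone V, f' = g' + r) : ∃ r ∈ Cone V, f * f' = g * g' + r := by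
  obtain ⟨r, hr, rfl⟩ := h
  obtain ⟨r', hr', rfl⟩ := h'
  refine ⟨g * r' + r * g' + r * r', ?_, by ring⟩
  exact add_mem (add_mem (hmul _ hg _ hr') (hmul _ hr _ hg')) (hmul _ hr _ hr')

theorem vert_trans {V : Type} [Fintype V] {f g g' : MvPolynomial (V × Fin 2) ℚ}
    (h : ∃ r ∈ Cone V, f = g + r) (h' : ∃ r ∈ Cone V, g = g' + r) :
    ∃ r ∈ Cone V, f = g' + r := by
  obtain ⟨r, hr, rfl⟩ := h
  obtain ⟨r', hr', rfl⟩ := h'
  exact ⟨r' + r, add_mem hr' hr, by ring⟩

theorem vert_self {V : Type} [Fintype V] (f : MvPolynomial (V × Fin 2) ℚ) :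
    ∃ r ∈ Cone V, f = f + r := ⟨0, zero_mem _, by ring⟩

section one

variable {V : Type} [Fintype V] [DecidableEq V] (hCG : S_CG) (v : V)

include hCG

theorem vert_step (b m n m' : ℕ) (k : ℕ) (hk : k ≤ min m n) (hm' : m + n - 2 * k = m') :
    ∃ r ∈ Cone V, ee v ^ b * hh v m * hh v n = ee v ^ (b + k) * hh v m' + r := by
  obtain ⟨h1, h2⟩ := hCG V
  refine ⟨∑ i ∈ (range (min m n + 1)).erase k, ee v ^ (b + i) * hh v (m + n - 2 * i), ?_, ?_⟩
  · exact sum_mem (fun i _ => vert_mem v _ _)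
  · rw [mul_assoc, h1, Finset.mul_sum, ← hm']
    rw [← Finset.add_sum_erase _ _ (Finset.mem_range.mpr (Nat.lt_succ_of_le hk))]
    congr 1
    · rw [pow_add, mul_assoc]
    · refine Finset.sum_congr rfl fun i _ => ?_
      rw [pow_add, mul_assoc]

theorem vert_one1 (p j : ℕ) : ∃ b m : ℕ, 2 * b + m = 2 * p + j ∧ m ≤ 1 ∧
    ∃ r ∈ Cone V, ee v ^ p * hh v 1 ^ j = ee v ^ b * hh v m + r := by
  obtain ⟨h1, h2⟩ := hCG V
  induction j with
  | zero =>
    refine ⟨p, 0, rfl, Nat.zero_le _, ?_⟩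
    rw [pow_zero, vert_hh0]
    exact vert_self _
  | succ j ih =>
    obtain ⟨b, m, hbm, hm, hr⟩ := ih
    have e : ee v ^ p * hh v 1 ^ (j + 1) = ee v ^ p * hh v 1 ^ j * hh v 1 := by
      rw [pow_succ, mul_assoc]
    have hmem1 : hh v 1 ∈ Cone V := by
      have := vert_mem v 0 1
      rwa [pow_zero, one_mul] at this
    have e2 := vert_mul h2 (vert_mem v b m) hmem1 hr (vert_self (hh v 1))
    rw [e]
    rcases Nat.lt_or_ge m 1 with h | h
    · refine ⟨b, 1, by omega, le_refl _, ?_⟩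
      exact vert_trans e2 (vert_step hCG v b m 1 1 0 (Nat.zero_le _) (by omega))
    · refine ⟨b + 1, 0, by omega, by omega, ?_⟩
      exact vert_trans e2 (vert_step hCG v b m 1 0 1 (by omega) (by omega))

theorem vert_one2 (p j k : ℕ) : ∃ b m : ℕ, 2 * b + m = 2 * p + j + 2 * k ∧ m ≤ 2 ∧
    (k = 0 → m ≤ 1) ∧
    ∃ r ∈ Cone V, ee v ^ p * hh v 1 ^ j * hh v 2 ^ k = ee v ^ b * hh v m + r := by
  obtain ⟨h1, h2⟩ := hCG V
  induction k with
  | zero =>
    obtain ⟨b, m, hbm, hm, hr⟩ := vert_one1 hCG v p j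
    refine ⟨b, m, by omega, by omega, fun _ => hm, ?_⟩
    rw [pow_zero, mul_one]
    exact hr
  | succ k ih =>
    obtain ⟨b, m, hbm, hm, -, hr⟩ := ih
    have e : ee v ^ p * hh v 1 ^ j * hh v 2 ^ (k + 1) =
        ee v ^ p * hh v 1 ^ j * hh v 2 ^ k * hh v 2 := by
      rw [pow_succ, ← mul_assoc]
    have hmem2 : hh v 2 ∈ Cone V := by
      have := vert_mem v 0 2
      rwa [pow_zero, one_mul] at this
    have e2 := vert_mul h2 (vert_mem v b m) hmem2 hr (vert_self (hh v 2))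
    rw [e]
    rcases Nat.lt_or_ge m 1 with h | h
    · refine ⟨b, 2, by omega, le_refl _, fun h => absurd h (Nat.succ_ne_zero k), ?_⟩
      exact vert_trans e2 (vert_step hCG v b m 2 2 0 (Nat.zero_le _) (by omega))
    · refine ⟨b + 1, m, by omega, hm, fun h => absurd h (Nat.succ_ne_zero k), ?_⟩
      exact vert_trans e2 (vert_step hCG v b m 2 m 1 (by omega) (by omega))

end one

theorem tVert (hCG : S_CG) : S_Vert := by
  intro V _ _ p j k
  obtain ⟨h1, h2⟩ := hCG V
  choose b m hbm hm hk hr using fun v => vert_one2 hCG v (p v) (j v) (k v)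
  refine ⟨b, m, fun v => ⟨hbm v, hm v, hk v⟩, ?_⟩
  have key : ∀ s : Finset V, ∏ v ∈ s, (ee v ^ b v * hh v (m v)) ∈ Cone V ∧
      ∃ r ∈ Cone V, ∏ v ∈ s, (ee v ^ p v * hh v 1 ^ j v * hh v 2 ^ k v) =
        ∏ v ∈ s, (ee v ^ b v * hh v (m v)) + r := by
    intro s
    induction s using Finset.induction_on with
    | empty =>
      refine ⟨?_, 0, zero_mem _, by simp⟩
      rw [Finset.prod_empty]
      rcases isEmpty_or_nonempty V with hV | ⟨⟨v⟩⟩
      · apply AddSubmonoid.subset_closure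
        exact ⟨(0, 0), by simp [bas]⟩
      · have := vert_mem v 0 0
        rwa [pow_zero, one_mul, vert_hh0] at this
    | insert v s hv ih =>
      rw [Finset.prod_insert hv, Finset.prod_insert hv]
      exact ⟨h2 _ (vert_mem v _ _) _ ih.1, vert_mul h2 (vert_mem v _ _) ih.1 (hr v) ih.2⟩
  exact (key Finset.univ).2

end T72
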